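import Pool.Agent.Lib.MP_cb75a6_co.Dis.Defs

set_option autoImplicit false

namespace CPI

open scoped Nat

variable {α : Type} [DecidableEq α]

theorem mem_words {S : Finset α} {w : List α} :
    w ∈ words S ↔ w.Nodup ∧ ∀ u, u ∈ w ↔ u ∈ S := by
  unfold words
  rw [List.mem_toFinset, List.mem_permutations]
  constructor
  · intro h
    refine ⟨h.nodup_iff.mpr S.nodup_toList, fun u => ?_⟩
    rw [h.mem_iff, Finset.mem_toList]
  · rintro ⟨h1, h2⟩
    rw [List.perm_ext_iff_of_nodup h1 S.nodup_toList]
    intro u
    rw [h2 u, Finset.mem_toList]

theorem length_of_mem_words {S : Finset α} {w : List α} (h : w ∈ words S) :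
    w.length = S.card := by
  unfold words at h
  rw [List.mem_toFinset, List.mem_permutations] at h
  rw [h.length_eq, Finset.length_toList]

theorem card_words (S : Finset α) : (words S).card = S.card ! := by
  unfold words
  rw [List.toFinset_card_of_nodup (List.nodup_permutations _ S.nodup_toList),
    List.length_permutations, Finset.length_toList]

end CPI
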