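import Pool.Agent.Lib.MP_cb75a6_co.Dis.Defs
import Pool.Agent.Lib.MP_cb75a6_co.Dis.W1

set_option autoImplicit false

namespace CPI

open scoped Nat

variable {α : Type} [DecidableEq α]

theorem pos_insAt_self {w : List α} {e : α} {t : ℕ} (he : e ∉ w) (ht : t ≤ w.length) :
    pos (insAt t e w) e = t := by
  unfold insAt pos
  have h1 : e ∉ w.take t := fun h => he (List.mem_of_mem_take h)
  rw [List.idxOf_append_of_notMem h1, List.idxOf_cons_self, List.length_take]
  omega

theorem pos_insAt_of_mem {w : List α} {e u : α} {t : ℕ} (hw : w.Nodup) (he : e ∉ w)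
    (hu : u ∈ w) (ht : t ≤ w.length) :
    pos (insAt t e w) u = if pos w u < t then pos w u else pos w u + 1 := by
  unfold insAt pos
  have hne : e ≠ u := fun h => he (h ▸ hu)
  have hw2 : w = w.take t ++ w.drop t := (List.take_append_drop t w).symm
  by_cases h1 : u ∈ w.take t
  · have h2 : w.idxOf u = (w.take t).idxOf u := by
      conv_lhs => rw [hw2]
      exact List.idxOf_append_of_mem h1
    have h3 : (w.take t).idxOf u < (w.take t).length := List.idxOf_lt_length_of_mem h1
    rw [List.length_take] at h3
    rw [List.idxOf_append_of_mem h1, h2, if_pos (by omega)]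
  · have h2 : w.idxOf u = t + (w.drop t).idxOf u := by
      conv_lhs => rw [hw2]
      rw [List.idxOf_append_of_notMem h1, List.length_take]
      omega
    rw [List.idxOf_append_of_notMem h1, List.idxOf_cons_ne _ hne, List.length_take, h2,
      if_neg (by omega)]
    omega

theorem pos_insAt_lt_iff {w : List α} {e u v : α} {t : ℕ} (hw : w.Nodup) (he : e ∉ w)
    (hu : u ∈ w) (hv : v ∈ w) (ht : t ≤ w.length) :
    pos (insAt t e w) u < pos (insAt t e w) v ↔ pos w u < pos w v := by
  rw [pos_insAt_of_mem hw he hu ht, pos_insAt_of_mem hw he hv ht]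
  split_ifs <;> omega

theorem pos_insAt_lt_self_iff {w : List α} {e u : α} {t : ℕ} (hw : w.Nodup) (he : e ∉ w)
    (hu : u ∈ w) (ht : t ≤ w.length) :
    pos (insAt t e w) u < pos (insAt t e w) e ↔ pos w u < t := by
  rw [pos_insAt_of_mem hw he hu ht, pos_insAt_self he ht]
  split_ifs <;> omega

theorem pos_insAt_self_lt_iff {w : List α} {e u : α} {t : ℕ} (hw : w.Nodup) (he : e ∉ w)
    (hu : u ∈ w) (ht : t ≤ w.length) :
    pos (insAt t e w) e < pos (insAt t e w) u ↔ t ≤ pos w u := by
  rw [pos_insAt_of_mem hw he hu ht, pos_insAt_self he ht]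
  split_ifs <;> omega

theorem insAt_mem_words {S : Finset α} {w : List α} {e : α} {t : ℕ} (hw : w ∈ words S)
    (he : e ∉ S) : insAt t e w ∈ words (insert e S) := by
  have hw' := mem_words.1 hw
  have hew : e ∉ w := fun h => he ((hw'.2 e).1 h)
  rw [mem_words]
  have hperm : (insAt t e w).Perm (e :: w) := by
    unfold insAt
    refine List.perm_middle.trans ?_
    rw [List.take_append_drop]
  constructor
  · rw [hperm.nodup_iff, List.nodup_cons]
    exact ⟨hew, hw'.1⟩
  · intro u
    rw [hperm.mem_iff, List.mem_cons, Finset.mem_insert, hw'.2]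

theorem filter_insAt_neg {w : List α} {e : α} {t : ℕ} (f : α → Bool) (he : f e = false) :
    (insAt t e w).filter f = w.filter f := by
  unfold insAt
  rw [List.filter_append, List.filter_cons_of_neg (by simp [he]), ← List.filter_append,
    List.take_append_drop]

end CPI
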