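import Pool.Agent.Lib.MP_cb75a6_co.Dis.Defs
import Pool.Agent.Lib.MP_cb75a6_co.Dis.W1
import Pool.Agent.Lib.MP_cb75a6_co.Dis.W2

set_option autoImplicit false

namespace CPI

open scoped Nat

variable {α : Type} [DecidableEq α]

theorem erase_insAt {w : List α} {e : α} {t : ℕ} (he : e ∉ w) :
    (insAt t e w).erase e = w := by
  unfold insAt
  have h1 : e ∉ w.take t := fun h => he (List.mem_of_mem_take h)
  rw [List.erase_append_right _ h1, List.erase_cons_head, List.take_append_drop]

open Classical in
/-- decomposition of a word by the position of the letter `e` -/
theorem N_insert {S : Finset α} {e : α} (he : e ∉ S) (E : List α → Prop) :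
    N (insert e S) E =
      ∑ w ∈ words S, ((Finset.range (S.card + 1)).filter (fun t => E (insAt t e w))).card := by
  unfold N
  simp only [Finset.card_filter]
  rw [← Finset.sum_product' (words S) (Finset.range (S.card + 1))
    (fun w t => if E (insAt t e w) then 1 else 0)]
  symm
  apply Finset.sum_nbij (fun x : List α × ℕ => insAt x.2 e x.1)
  · rintro ⟨w, t⟩ hx
    rw [Finset.mem_product] at hx
    exact insAt_mem_words hx.1 he
  · rintro ⟨w, t⟩ hx ⟨w', t'⟩ hx' heq
    rw [Finset.mem_coe, Finset.mem_product] at hx hx'
    simp only at hx hx' heq
    have hw := mem_words.1 hx.1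
    have hw' := mem_words.1 hx'.1
    have hew : e ∉ w := fun h => he ((hw.2 e).1 h)
    have hew' : e ∉ w' := fun h => he ((hw'.2 e).1 h)
    have h1 : w = w' := by
      rw [← erase_insAt (t := t) hew, ← erase_insAt (t := t') hew', heq]
    have ht := Finset.mem_range.1 hx.2
    have ht' := Finset.mem_range.1 hx'.2
    have hl := length_of_mem_words hx.1
    have hl' := length_of_mem_words hx'.1
    have h2 : t = t' := by
      rw [← pos_insAt_self (t := t) hew (by omega), ← pos_insAt_self (t := t') hew' (by omega),
        heq]
    rw [h1, h2]
  · intro w' hw'
    rw [Finset.mem_coe] at hw'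
    have hw := mem_words.1 hw'
    have hew : e ∈ w' := (hw.2 e).2 (Finset.mem_insert_self _ _)
    obtain ⟨l1, l2, hl⟩ := List.append_of_mem hew
    have hnd := hw.1
    rw [hl, List.nodup_middle, List.nodup_cons] at hnd
    refine ⟨(l1 ++ l2, l1.length), ?_, ?_⟩
    · rw [Finset.mem_coe, Finset.mem_product]
      have hmem : l1 ++ l2 ∈ words S := by
        rw [mem_words]
        refine ⟨hnd.2, ?_⟩
        intro u
        have h1 := hw.2 u
        rw [hl] at h1
        constructor
        · intro hu
          have hu' : u ∈ l1 ++ e :: l2 := by
            rw [List.mem_append, List.mem_cons]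
            rcases List.mem_append.1 hu with h | h
            · exact Or.inl h
            · exact Or.inr (Or.inr h)
          rcases Finset.mem_insert.1 (h1.1 hu') with h | h
          · subst h
            exact absurd hu hnd.1
          · exact h
        · intro hu
          have h2 := h1.2 (Finset.mem_insert_of_mem hu)
          rw [List.mem_append, List.mem_cons] at h2
          rw [List.mem_append]
          rcases h2 with h | h | h
          · exact Or.inl h
          · subst h
            exact absurd hu he
          · exact Or.inr h
      refine ⟨hmem, ?_⟩
      have h3 := length_of_mem_words hmem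
      rw [List.length_append] at h3
      simp only [Finset.mem_range]
      omega
    · simp only [insAt, List.take_left', List.drop_left', hl]
  · rintro ⟨w, t⟩ _
    rfl

end CPI
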