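import Pool.Agent.Lib.MP_cb75a6_co.Dis.Defs
import Pool.Agent.Lib.MP_cb75a6_co.Dis.W1

set_option autoImplicit false

namespace CPI

open scoped Nat

variable {α : Type} [DecidableEq α]

theorem N_mono {S : Finset α} {E F : List α → Prop} (h : ∀ w ∈ words S, E w → F w) :
    N S E ≤ N S F := by
  classical
  unfold N
  apply Finset.card_le_card
  intro w hw
  rw [Finset.mem_filter] at hw ⊢
  exact ⟨hw.1, h w hw.1 hw.2⟩

theorem N_congr {S : Finset α} {E F : List α → Prop} (h : ∀ w ∈ words S, (E w ↔ F w)) :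
    N S E = N S F :=
  le_antisymm (N_mono fun w hw => (h w hw).1) (N_mono fun w hw => (h w hw).2)

theorem N_le (S : Finset α) (E : List α → Prop) : N S E ≤ S.card ! := by
  classical
  rw [← card_words S]
  exact Finset.card_filter_le _ _

theorem N_true (S : Finset α) : N S (fun _ => True) = S.card ! := by
  rw [← card_words S]
  unfold N
  congr 1
  ext w
  simp only [Finset.mem_filter, and_true]

theorem N_union {ι : Type} (s : Finset ι) (S : Finset α) (E : List α → Prop)
    (F : ι → List α → Prop) (h : ∀ w ∈ words S, E w → ∃ i ∈ s, F i w) :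
    N S E ≤ ∑ i ∈ s, N S (F i) := by
  classical
  unfold N
  refine le_trans (Finset.card_le_card ?_) (Finset.card_biUnion_le (s := s)
    (t := fun i => (words S).filter (F i)))
  intro w hw
  rw [Finset.mem_filter] at hw
  obtain ⟨i, hi, hF⟩ := h w hw.1 hw.2
  rw [Finset.mem_biUnion]
  exact ⟨i, hi, Finset.mem_filter.mpr ⟨hw.1, hF⟩⟩

/-- disjoint events: the sum of the counts is at most the count of the union -/
theorem N_disj {ι : Type} (s : Finset ι) (S : Finset α) (E : List α → Prop)
    (F : ι → List α → Prop) (h : ∀ i ∈ s, ∀ w ∈ words S, F i w → E w)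
    (hd : ∀ i ∈ s, ∀ j ∈ s, i ≠ j → ∀ w ∈ words S, ¬ (F i w ∧ F j w)) :
    ∑ i ∈ s, N S (F i) ≤ N S E := by
  classical
  unfold N
  rw [← Finset.card_biUnion]
  · apply Finset.card_le_card
    intro w hw
    rw [Finset.mem_biUnion] at hw
    obtain ⟨i, hi, hw⟩ := hw
    rw [Finset.mem_filter] at hw ⊢
    exact ⟨hw.1, h i hi w hw.1 hw.2⟩
  · intro i hi j hj hij
    rw [Function.onFun, Finset.disjoint_left]
    intro w hw hw'
    rw [Finset.mem_filter] at hw hw'
    exact hd i hi j hj hij w hw.1 ⟨hw.2, hw'.2⟩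

end CPI
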