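import Pool.Agent.Lib.MP_cb75a6_co.Dis.Defs
import Pool.Agent.Lib.MP_cb75a6_co.Dis.W1
import Pool.Agent.Lib.MP_cb75a6_co.Dis.W1I
import Pool.Agent.Lib.MP_cb75a6_co.Dis.W1N

set_option autoImplicit false

namespace CPI

open scoped Nat

variable {α : Type} [DecidableEq α]

open Classical in
theorem N_insert_le {S : Finset α} {e : α} (he : e ∉ S) {E F : List α → Prop} {g : ℕ}
    (h : ∀ w ∈ words S, ∀ t ≤ S.card, E (insAt t e w) → F w)
    (hg : ∀ w ∈ words S, F w →
      ((Finset.range (S.card + 1)).filter (fun t => E (insAt t e w))).card ≤ g) :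
    N (insert e S) E ≤ g * N S F := by
  rw [N_insert he]
  have h1 : ∀ w ∈ words S,
      ((Finset.range (S.card + 1)).filter (fun t => E (insAt t e w))).card ≤
        if F w then g else 0 := by
    intro w hw
    split_ifs with hF
    · exact hg w hw hF
    · rw [Nat.le_zero, Finset.card_eq_zero, Finset.filter_eq_empty_iff]
      intro t ht hE
      rw [Finset.mem_range] at ht
      exact hF (h w hw t (by omega) hE)
  refine (Finset.sum_le_sum h1).trans (le_of_eq ?_)
  rw [← Finset.sum_filter, Finset.sum_const, smul_eq_mul, mul_comm]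
  rfl

open Classical in
theorem N_insert_ge {S : Finset α} {e : α} (he : e ∉ S) {E F : List α → Prop} {g : ℕ}
    (hg : ∀ w ∈ words S, F w →
      g ≤ ((Finset.range (S.card + 1)).filter (fun t => E (insAt t e w))).card) :
    g * N S F ≤ N (insert e S) E := by
  rw [N_insert he]
  have h1 : ∀ w ∈ words S, (if F w then g else 0) ≤
      ((Finset.range (S.card + 1)).filter (fun t => E (insAt t e w))).card := by
    intro w hw
    split_ifs with hF
    · exact hg w hw hF
    · exact Nat.zero_le _
  refine (le_of_eq ?_).trans (Finset.sum_le_sum h1)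
  rw [← Finset.sum_filter, Finset.sum_const, smul_eq_mul, mul_comm]
  rfl

end CPI
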