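import Pool.Agent.Lib.MP_cb75a6_co.Dis.Defs
import Pool.Agent.Lib.MP_cb75a6_co.Dis.W1
import Pool.Agent.Lib.MP_cb75a6_co.Dis.W2
import Pool.Agent.Lib.MP_cb75a6_co.Dis.W3I

set_option autoImplicit false

namespace CPI

open scoped Nat

variable {α : Type} [DecidableEq α]

open Classical in
private theorem AV1_compl (n : ℕ) (P : ℕ → Prop) :
    ((Finset.range (n + 1)).filter (fun t => ¬ P t)).card =
      n + 1 - ((Finset.range (n + 1)).filter P).card := by
  have h := Finset.card_filter_add_card_filter_not (s := Finset.range (n + 1)) P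
  rw [Finset.card_range] at h
  omega

open Classical in
theorem N_avoid_le (Λ A : Finset α) (hd : Disjoint Λ A) (F : List α → Prop)
    (B : List α → α → Prop) (g : ℕ)
    (hF : ∀ A' ⊆ A, ∀ e ∈ A, e ∉ A' → ∀ w ∈ words (Λ ∪ A'), ∀ t ≤ w.length,
      F (insAt t e w) → F w)
    (hB : ∀ A' ⊆ A, ∀ e ∈ A, e ∉ A' → ∀ e' ∈ A', ∀ w ∈ words (Λ ∪ A'), ∀ t ≤ w.length,
      B w e' → B (insAt t e w) e')
    (hg : ∀ A' ⊆ A, ∀ e ∈ A, e ∉ A' → ∀ w ∈ words (Λ ∪ A'), F w →
      g ≤ ((Finset.range (w.length + 1)).filter (fun t => B (insAt t e w) e)).card) :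
    N (Λ ∪ A) (fun w => F w ∧ ∀ e ∈ A, ¬ B w e) ≤
      N Λ F * ∏ l ∈ Finset.range A.card, (Λ.card + l + 1 - g) := by
  suffices H : ∀ A' : Finset α, A' ⊆ A →
      N (Λ ∪ A') (fun w => F w ∧ ∀ e ∈ A', ¬ B w e) ≤
        N Λ F * ∏ l ∈ Finset.range A'.card, (Λ.card + l + 1 - g) from H A (Finset.Subset.refl A)
  intro A'
  induction A' using Finset.induction_on with
  | empty =>
    intro _
    simp
  | insert e A' he ih =>
    intro hsub
    have heA : e ∈ A := hsub (Finset.mem_insert_self _ _)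
    have hA' : A' ⊆ A := fun x hx => hsub (Finset.mem_insert_of_mem hx)
    have heΛ : e ∉ Λ ∪ A' := by
      rw [Finset.mem_union, not_or]
      exact ⟨fun h => (Finset.disjoint_left.1 hd h) heA, he⟩
    have hcard : (Λ ∪ A').card = Λ.card + A'.card :=
      Finset.card_union_of_disjoint (Finset.disjoint_of_subset_right hA' hd)
    have hstep := N_insert_le heΛ (E := fun w => F w ∧ ∀ e' ∈ insert e A', ¬ B w e')
      (F := fun w => F w ∧ ∀ e' ∈ A', ¬ B w e') (g := (Λ ∪ A').card + 1 - g) ?_ ?_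
    · rw [Finset.union_insert, Finset.card_insert_of_notMem he, Finset.prod_range_succ]
      refine hstep.trans ?_
      rw [hcard]
      calc (Λ.card + A'.card + 1 - g) * N (Λ ∪ A') (fun w => F w ∧ ∀ e' ∈ A', ¬ B w e')
          ≤ (Λ.card + A'.card + 1 - g) *
            (N Λ F * ∏ l ∈ Finset.range A'.card, (Λ.card + l + 1 - g)) :=
            Nat.mul_le_mul_left _ (ih hA')
        _ = _ := by ring
    · rintro w hw t ht ⟨h1, h2⟩
      have ht' : t ≤ w.length := by rw [length_of_mem_words hw]; exact ht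
      refine ⟨hF A' hA' e heA he w hw t ht' h1, fun e' he' hb => ?_⟩
      exact h2 e' (Finset.mem_insert_of_mem he') (hB A' hA' e heA he e' he' w hw t ht' hb)
    · rintro w hw ⟨h1, h2⟩
      have hl := length_of_mem_words hw
      have hg' := hg A' hA' e heA he w hw h1
      rw [hl] at hg'
      have hc := AV1_compl (Λ ∪ A').card (fun t => B (insAt t e w) e)
      have hle : ((Finset.range ((Λ ∪ A').card + 1)).filter
          (fun t => F (insAt t e w) ∧ ∀ e' ∈ insert e A', ¬ B (insAt t e w) e')).card ≤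
          ((Finset.range ((Λ ∪ A').card + 1)).filter (fun t => ¬ B (insAt t e w) e)).card := by
        apply Finset.card_le_card
        intro t ht
        rw [Finset.mem_filter] at ht ⊢
        exact ⟨ht.1, ht.2.2 e (Finset.mem_insert_self _ _)⟩
      rw [hc] at hle
      have hfin := Nat.le_trans hle (show (Λ ∪ A').card + 1 - ((Finset.range ((Λ ∪ A').card + 1)).filter
        (fun t => B (insAt t e w) e)).card ≤ (Λ ∪ A').card + 1 - g by omega)
      convert hfin

open Classical in
theorem N_avoid_ge (Λ A : Finset α) (hd : Disjoint Λ A) (F : List α → Prop)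
    (B : List α → α → Prop) (g : ℕ)
    (hF : ∀ A' ⊆ A, ∀ e ∈ A, e ∉ A' → ∀ w ∈ words (Λ ∪ A'), ∀ t ≤ w.length,
      F w → F (insAt t e w))
    (hB : ∀ A' ⊆ A, ∀ e ∈ A, e ∉ A' → ∀ e' ∈ A', ∀ w ∈ words (Λ ∪ A'), ∀ t ≤ w.length,
      B (insAt t e w) e' → B w e')
    (hg : ∀ A' ⊆ A, ∀ e ∈ A, e ∉ A' → ∀ w ∈ words (Λ ∪ A'), F w → (∀ e' ∈ A', ¬ B w e') →
      ((Finset.range (w.length + 1)).filter (fun t => B (insAt t e w) e)).card ≤ g) :
    N Λ F * ∏ l ∈ Finset.range A.card, (Λ.card + l + 1 - g) ≤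
      N (Λ ∪ A) (fun w => F w ∧ ∀ e ∈ A, ¬ B w e) := by
  suffices H : ∀ A' : Finset α, A' ⊆ A →
      N Λ F * ∏ l ∈ Finset.range A'.card, (Λ.card + l + 1 - g) ≤
        N (Λ ∪ A') (fun w => F w ∧ ∀ e ∈ A', ¬ B w e) from H A (Finset.Subset.refl A)
  intro A'
  induction A' using Finset.induction_on with
  | empty =>
    intro _
    simp
  | insert e A' he ih =>
    intro hsub
    have heA : e ∈ A := hsub (Finset.mem_insert_self _ _)
    have hA' : A' ⊆ A := fun x hx => hsub (Finset.mem_insert_of_mem hx)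
    have heΛ : e ∉ Λ ∪ A' := by
      rw [Finset.mem_union, not_or]
      exact ⟨fun h => (Finset.disjoint_left.1 hd h) heA, he⟩
    have hcard : (Λ ∪ A').card = Λ.card + A'.card :=
      Finset.card_union_of_disjoint (Finset.disjoint_of_subset_right hA' hd)
    have hstep := N_insert_ge heΛ (E := fun w => F w ∧ ∀ e' ∈ insert e A', ¬ B w e')
      (F := fun w => F w ∧ ∀ e' ∈ A', ¬ B w e') (g := (Λ ∪ A').card + 1 - g) ?_
    · rw [Finset.union_insert, Finset.card_insert_of_notMem he, Finset.prod_range_succ]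
      refine le_trans ?_ hstep
      rw [hcard]
      calc N Λ F * ((∏ l ∈ Finset.range A'.card, (Λ.card + l + 1 - g)) *
              (Λ.card + A'.card + 1 - g))
          = (Λ.card + A'.card + 1 - g) *
            (N Λ F * ∏ l ∈ Finset.range A'.card, (Λ.card + l + 1 - g)) := by ring
        _ ≤ _ := Nat.mul_le_mul_left _ (ih hA')
    · rintro w hw ⟨h1, h2⟩
      have hl := length_of_mem_words hw
      have hg' := hg A' hA' e heA he w hw h1 h2
      rw [hl] at hg'
      have hc := AV1_compl (Λ ∪ A').card (fun t => B (insAt t e w) e)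
      have hle : ((Finset.range ((Λ ∪ A').card + 1)).filter
          (fun t => ¬ B (insAt t e w) e)).card ≤
          ((Finset.range ((Λ ∪ A').card + 1)).filter
          (fun t => F (insAt t e w) ∧ ∀ e' ∈ insert e A', ¬ B (insAt t e w) e')).card := by
        apply Finset.card_le_card
        intro t ht
        rw [Finset.mem_filter] at ht ⊢
        have ht' : t ≤ w.length := by
          have := Finset.mem_range.1 ht.1
          omega
        refine ⟨ht.1, hF A' hA' e heA he w hw t ht' h1, fun e' he' hb => ?_⟩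
        rcases Finset.mem_insert.1 he' with rfl | he''
        · exact ht.2 hb
        · exact h2 e' he'' (hB A' hA' e heA he e' he'' w hw t ht' hb)
      rw [hc] at hle
      have hfin := Nat.le_trans (show (Λ ∪ A').card + 1 - g ≤ (Λ ∪ A').card + 1 -
        ((Finset.range ((Λ ∪ A').card + 1)).filter
        (fun t => B (insAt t e w) e)).card by omega) hle
      convert hfin

end CPI
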