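import Pool.Agent.Lib.MP_cb75a6_co.Dis.Defs

set_option autoImplicit false

namespace CPI

open scoped Nat

private theorem AV2_zero (M q : ℕ) :
    (∏ l ∈ Finset.range q, (M + l + 1 - 0)) * M ! = (M + q)! := by
  induction q with
  | zero => simp
  | succ q ih =>
    rw [Finset.prod_range_succ]
    have : (M + (q + 1))! = (M + q + 1) * (M + q)! := by
      rw [← add_assoc, Nat.factorial_succ]
    rw [this, ← ih, Nat.sub_zero]
    ring

private theorem AV2_step (M q g : ℕ) (hg : g + 1 ≤ M) :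
    (∏ l ∈ Finset.range q, (M + l + 1 - (g + 1))) * (M - g + q) =
      (∏ l ∈ Finset.range q, (M + l + 1 - g)) * (M - g) := by
  induction q with
  | zero => simp
  | succ q ih =>
    rw [Finset.prod_range_succ, Finset.prod_range_succ]
    have e1 : M + q + 1 - (g + 1) = M - g + q := by omega
    have e2 : M + q + 1 - g = M - g + (q + 1) := by omega
    rw [e1, e2, ih]
    ring

private theorem AV2_stepR (M q g : ℕ) (hg : g + 1 ≤ M) :
    ((∏ l ∈ Finset.range q, (M + l + 1 - (g + 1)) : ℕ) : ℝ) * ((M : ℝ) - g + q) =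
      ((∏ l ∈ Finset.range q, (M + l + 1 - g) : ℕ) : ℝ) * ((M : ℝ) - g) := by
  have h := AV2_step M q g hg
  have h2 : (((∏ l ∈ Finset.range q, (M + l + 1 - (g + 1))) * (M - g + q) : ℕ) : ℝ) =
      (((∏ l ∈ Finset.range q, (M + l + 1 - g)) * (M - g) : ℕ) : ℝ) := by rw [h]
  rw [Nat.cast_mul, Nat.cast_mul, Nat.cast_add, Nat.cast_sub (by omega : g ≤ M)] at h2
  exact h2

/-- numerical factor -/
theorem prod_avoid_le (M q g : ℕ) (hg : g ≤ M) :
    ((∏ l ∈ Finset.range q, (M + l + 1 - g) : ℕ) : ℝ) * (M ! : ℝ) / ((M + q)! : ℝ) ≤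
      ((M : ℝ) / (M + q)) ^ g := by
  have hpos : (0 : ℝ) < ((M + q)! : ℝ) := by exact_mod_cast Nat.factorial_pos _
  induction g with
  | zero =>
    rw [← Nat.cast_mul, AV2_zero, pow_zero, div_self hpos.ne']
  | succ g ih =>
    have ih' := ih (by omega)
    have hs := AV2_stepR M q g hg
    have hMg : (0 : ℝ) < (M : ℝ) - g := by
      have : (g : ℝ) + 1 ≤ M := by exact_mod_cast hg
      linarith
    have hq : (0 : ℝ) ≤ q := Nat.cast_nonneg _
    have hg0 : (0 : ℝ) ≤ g := Nat.cast_nonneg _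
    have hM : (0 : ℝ) < M := by linarith
    have hMq : (0 : ℝ) < (M : ℝ) - g + q := by linarith
    have hfac : (0 : ℝ) ≤ (M ! : ℝ) := Nat.cast_nonneg _
    have e : ((∏ l ∈ Finset.range q, (M + l + 1 - (g + 1)) : ℕ) : ℝ) =
        ((∏ l ∈ Finset.range q, (M + l + 1 - g) : ℕ) : ℝ) * (((M : ℝ) - g) / ((M : ℝ) - g + q)) := by
      rw [mul_div_assoc', eq_div_iff hMq.ne']
      exact hs
    have hratio : ((M : ℝ) - g) / ((M : ℝ) - g + q) ≤ (M : ℝ) / (M + q) := by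
      rw [div_le_div_iff₀ hMq (by linarith)]
      nlinarith
    have hr0 : 0 ≤ ((M : ℝ) - g) / ((M : ℝ) - g + q) := by positivity
    have hx0 : 0 ≤ ((∏ l ∈ Finset.range q, (M + l + 1 - g) : ℕ) : ℝ) * (M ! : ℝ) /
        ((M + q)! : ℝ) := by positivity
    calc ((∏ l ∈ Finset.range q, (M + l + 1 - (g + 1)) : ℕ) : ℝ) * (M ! : ℝ) / ((M + q)! : ℝ)
        = (((∏ l ∈ Finset.range q, (M + l + 1 - g) : ℕ) : ℝ) * (M ! : ℝ) / ((M + q)! : ℝ)) *
            (((M : ℝ) - g) / ((M : ℝ) - g + q)) := by rw [e]; ring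
      _ ≤ ((M : ℝ) / (M + q)) ^ g * ((M : ℝ) / (M + q)) := by
          apply mul_le_mul ih' hratio hr0
          positivity
      _ = ((M : ℝ) / (M + q)) ^ (g + 1) := by rw [pow_succ]

theorem prod_avoid_two (M q : ℕ) (hM : 2 ≤ M) :
    ((∏ l ∈ Finset.range q, (M + l + 1 - 2) : ℕ) : ℝ) * (M ! : ℝ) / ((M + q)! : ℝ) =
      ((M : ℝ) * (M - 1)) / ((M + q) * (M + q - 1)) := by
  have h0 := AV2_zero M q
  have h1 := AV2_stepR M q 0 (by omega)
  have h2 := AV2_stepR M q 1 (by omega)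
  have h0' : ((∏ l ∈ Finset.range q, (M + l + 1 - 0) : ℕ) : ℝ) * (M ! : ℝ) = ((M + q)! : ℝ) := by
    rw [← h0, Nat.cast_mul]
  have hpos : (0 : ℝ) < ((M + q)! : ℝ) := by exact_mod_cast Nat.factorial_pos _
  have hM' : (2 : ℝ) ≤ M := by exact_mod_cast hM
  have hq : (0 : ℝ) ≤ q := Nat.cast_nonneg _
  simp only [zero_add, Nat.cast_zero, sub_zero, Nat.cast_one, one_add_one_eq_two] at h1 h2
  set P0 := ((∏ l ∈ Finset.range q, (M + l + 1 - 0) : ℕ) : ℝ)
  set P1 := ((∏ l ∈ Finset.range q, (M + l + 1 - 1) : ℕ) : ℝ)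
  set P2 := ((∏ l ∈ Finset.range q, (M + l + 1 - 2) : ℕ) : ℝ)
  rw [div_eq_div_iff hpos.ne' (by
    have : (0 : ℝ) < ((M : ℝ) + q) * (M + q - 1) := by
      apply mul_pos <;> linarith
    exact this.ne')]
  rw [← h0']
  have e : P2 * ((M : ℝ) - 1 + q) * ((M : ℝ) + q) = P0 * M * (M - 1) := by
    rw [h2]
    linear_combination ((M : ℝ) - 1) * h1
  linear_combination (M ! : ℝ) * e

end CPI
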