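import Pool.Agent.Lib.MP_cb75a6_co.Dis.Defs
import Pool.Agent.Lib.MP_cb75a6_co.Dis.W1
import Pool.Agent.Lib.MP_cb75a6_co.Dis.W1N

set_option autoImplicit false

namespace CPI

open scoped Nat

variable {α : Type} [DecidableEq α]

theorem Pr_nonneg (S : Finset α) (E : List α → Prop) : 0 ≤ Pr S E := by
  unfold Pr
  positivity

theorem Pr_le_one (S : Finset α) (E : List α → Prop) : Pr S E ≤ 1 := by
  unfold Pr
  rw [div_le_one (by positivity)]
  exact_mod_cast N_le S E

theorem Pr_mono {S : Finset α} {E F : List α → Prop} (h : ∀ w ∈ words S, E w → F w) :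
    Pr S E ≤ Pr S F := by
  unfold Pr
  apply div_le_div_of_nonneg_right _ (by positivity)
  exact_mod_cast N_mono h

theorem Pr_congr {S : Finset α} {E F : List α → Prop} (h : ∀ w ∈ words S, (E w ↔ F w)) :
    Pr S E = Pr S F := by
  unfold Pr
  rw [N_congr h]

theorem Pr_union {ι : Type} (s : Finset ι) (S : Finset α) (E : List α → Prop)
    (F : ι → List α → Prop) (h : ∀ w ∈ words S, E w → ∃ i ∈ s, F i w) :
    Pr S E ≤ ∑ i ∈ s, Pr S (F i) := by
  unfold Pr
  rw [← Finset.sum_div]
  apply div_le_div_of_nonneg_right _ (by positivity)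
  exact_mod_cast N_union s S E F h

theorem Pr_disj {ι : Type} (s : Finset ι) (S : Finset α) (E : List α → Prop)
    (F : ι → List α → Prop) (h : ∀ i ∈ s, ∀ w ∈ words S, F i w → E w)
    (hd : ∀ i ∈ s, ∀ j ∈ s, i ≠ j → ∀ w ∈ words S, ¬ (F i w ∧ F j w)) :
    ∑ i ∈ s, Pr S (F i) ≤ Pr S E := by
  unfold Pr
  rw [← Finset.sum_div]
  apply div_le_div_of_nonneg_right _ (by positivity)
  exact_mod_cast N_disj s S E F h hd

/-- `Pr E ≤ Pr F + Pr G` if `E` implies `F` or `G` -/
theorem Pr_or {S : Finset α} {E F G : List α → Prop} (h : ∀ w ∈ words S, E w → F w ∨ G w) :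
    Pr S E ≤ Pr S F + Pr S G := by
  have h1 := Pr_union (Finset.univ : Finset Bool) S E (fun b => if b = true then F else G)
    (by
      intro w hw hE
      rcases h w hw hE with h | h
      · exact ⟨true, Finset.mem_univ _, by simpa using h⟩
      · exact ⟨false, Finset.mem_univ _, by simpa using h⟩)
  simpa [Fintype.sum_bool] using h1

end CPI
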