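import Pool.Agent.Lib.MP_cb75a6_co.Dis.Defs
import Pool.Agent.Lib.MP_cb75a6_co.Dis.W1
import Pool.Agent.Lib.MP_cb75a6_co.Dis.AV1
import Pool.Agent.Lib.MP_cb75a6_co.Dis.AV2
import Pool.Agent.Lib.MP_cb75a6_co.Dis.W3P

set_option autoImplicit false

namespace CPI

open scoped Nat

variable {α : Type} [DecidableEq α]

open Classical in
theorem Pr_avoid_le (Λ A : Finset α) (hd : Disjoint Λ A) (F : List α → Prop)
    (B : List α → α → Prop) (g : ℕ) (hgM : g ≤ Λ.card)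
    (hF : ∀ A' ⊆ A, ∀ e ∈ A, e ∉ A' → ∀ w ∈ words (Λ ∪ A'), ∀ t ≤ w.length,
      F (insAt t e w) → F w)
    (hB : ∀ A' ⊆ A, ∀ e ∈ A, e ∉ A' → ∀ e' ∈ A', ∀ w ∈ words (Λ ∪ A'), ∀ t ≤ w.length,
      B w e' → B (insAt t e w) e')
    (hg : ∀ A' ⊆ A, ∀ e ∈ A, e ∉ A' → ∀ w ∈ words (Λ ∪ A'), F w →
      g ≤ ((Finset.range (w.length + 1)).filter (fun t => B (insAt t e w) e)).card) :
    Pr (Λ ∪ A) (fun w => F w ∧ ∀ e ∈ A, ¬ B w e) ≤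
      Pr Λ F * ((Λ.card : ℝ) / (Λ.card + A.card)) ^ g := by
  have h1 := N_avoid_le Λ A hd F B g hF hB hg
  have h2 := prod_avoid_le Λ.card A.card g hgM
  have hcard : (Λ ∪ A).card = Λ.card + A.card := Finset.card_union_of_disjoint hd
  unfold Pr
  rw [hcard]
  have hp1 : (0 : ℝ) < ((Λ.card + A.card)! : ℝ) := by exact_mod_cast Nat.factorial_pos _
  have hp2 : (0 : ℝ) < (Λ.card ! : ℝ) := by exact_mod_cast Nat.factorial_pos _
  have h1' : (N (Λ ∪ A) (fun w => F w ∧ ∀ e ∈ A, ¬ B w e) : ℝ) ≤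
      (N Λ F : ℝ) * ((∏ l ∈ Finset.range A.card, (Λ.card + l + 1 - g) : ℕ) : ℝ) := by
    exact_mod_cast h1
  calc (N (Λ ∪ A) (fun w => F w ∧ ∀ e ∈ A, ¬ B w e) : ℝ) / ((Λ.card + A.card)! : ℝ)
      ≤ (N Λ F : ℝ) * ((∏ l ∈ Finset.range A.card, (Λ.card + l + 1 - g) : ℕ) : ℝ) /
        ((Λ.card + A.card)! : ℝ) := by gcongr
    _ = (N Λ F : ℝ) / (Λ.card ! : ℝ) *
        (((∏ l ∈ Finset.range A.card, (Λ.card + l + 1 - g) : ℕ) : ℝ) * (Λ.card ! : ℝ) /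
          ((Λ.card + A.card)! : ℝ)) := by field_simp
    _ ≤ (N Λ F : ℝ) / (Λ.card ! : ℝ) * ((Λ.card : ℝ) / (Λ.card + A.card)) ^ g := by
        apply mul_le_mul_of_nonneg_left h2
        positivity

end CPI
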