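import Pool.Agent.Lib.MP_cb75a6_co.Dis.Defs

set_option autoImplicit false

namespace CPI

open scoped Nat
open Ltr

variable {p q m n D : ℕ}

/-- the position of the last letter of `Xs` -/
def lastX {p q m n D : ℕ} (w : List (Ltr p q m n D)) : ℕ := (Xs p q m n D).sup (pos w)

private theorem ST_pos_le (w : List (Ltr p q m n D)) (e : Ltr p q m n D) :
    pos w e ≤ w.length := List.idxOf_le_length

private theorem ST_pos_lt (w : List (Ltr p q m n D)) (e : Ltr p q m n D) (he : e ∈ w) :
    pos w e < w.length := List.idxOf_lt_length_iff.2 he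

private theorem ST_pos_inj (w : List (Ltr p q m n D)) (e f : Ltr p q m n D) (he : e ∈ w)
    (h : pos w e = pos w f) : e = f := (List.idxOf_inj he).1 h

theorem st_succ_pos (w : List (Ltr p q m n D)) (u : Bool) (hn : w.Nodup) (e : Ltr p q m n D)
    (he : e ∈ w) : st w u (pos w e + 1) =
      stepS (pos w) w.length u (pos w e) (st w u (pos w e)) e := by
  have h : w[pos w e]? = some e := by
    rw [List.getElem?_eq_getElem (ST_pos_lt w e he)]
    simp [pos]
  conv_lhs => unfold st
  simp only [h]

theorem exists_letter (w : List (Ltr p q m n D)) (hn : w.Nodup) (t : ℕ) (ht : t < w.length) :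
    ∃ e ∈ w, pos w e = t := by
  refine ⟨w[t], List.getElem_mem ht, ?_⟩
  exact hn.idxOf_getElem t ht

private theorem ST_step (w : List (Ltr p q m n D)) (u : Bool) (hn : w.Nodup) (t : ℕ)
    (ht : t < w.length) : ∃ e ∈ w, pos w e = t ∧
      st w u (t + 1) = stepS (pos w) w.length u t (st w u t) e := by
  obtain ⟨e, he, h⟩ := exists_letter w hn t ht
  refine ⟨e, he, h, ?_⟩
  have := st_succ_pos w u hn e he
  rw [h] at this
  exact this

private theorem ST_fst (ps : Ltr p q m n D → ℕ) (INF : ℕ) (u : Bool) (t : ℕ) (s : ℕ × ℕ)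
    (e : Ltr p q m n D) : (stepS ps INF u t s e).1 = s.1 ∨ (stepS ps INF u t s e).1 = t := by
  cases e <;> simp only [stepS] <;> (try split_ifs) <;> simp

private theorem ST_snd (ps : Ltr p q m n D → ℕ) (INF : ℕ) (u : Bool) (t : ℕ) (s : ℕ × ℕ)
    (e : Ltr p q m n D) : (stepS ps INF u t s e).2 = s.2 ∨ (stepS ps INF u t s e).2 = t := by
  cases e <;> simp only [stepS] <;> (try split_ifs) <;> simp

theorem st_x_absent (w : List (Ltr p q m n D)) (u : Bool) (hn : w.Nodup) (hx : .x ∈ w) (t : ℕ)
    (ht : t ≤ pos w .x) : (st w u t).1 = w.length := by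
  induction t with
  | zero => rfl
  | succ t ih =>
    have h1 := ih (by omega)
    have hlt : t < w.length := lt_of_lt_of_le ht (ST_pos_le w .x)
    obtain ⟨e, he, hpe, hst⟩ := ST_step w u hn t hlt
    rw [hst]
    have hex : e ≠ .x := by rintro rfl; omega
    cases e with
    | x => exact absurd rfl hex
    | a => simp only [stepS]; split_ifs <;> exact h1
    | b => exact h1
    | X i => simp only [stepS]; rw [if_neg (by omega)]; exact h1
    | A i => simp only [stepS]; split_ifs <;> exact h1
    | c k =>
      simp only [stepS]; rw [if_neg (by have := ST_pos_le w (.z k); omega)]; exact h1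
    | z k => exact h1
    | R i =>
      simp only [stepS]; rw [if_neg (by have := ST_pos_le w (.y i false); omega)]
      split_ifs <;> exact h1
    | y i h => exact h1
    | d i => exact h1

theorem st_x_lt (w : List (Ltr p q m n D)) (u : Bool) (hn : w.Nodup) (hx : .x ∈ w) (t : ℕ)
    (h1 : pos w .x < t) (h2 : t ≤ w.length) : pos w .x ≤ (st w u t).1 ∧ (st w u t).1 < t := by
  induction t with
  | zero => omega
  | succ t ih =>
    by_cases h : pos w .x = t
    · have := st_succ_pos w u hn .x hx
      rw [h] at this
      rw [this]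
      simp only [stepS]
      omega
    · have ih' := ih (by omega) (by omega)
      obtain ⟨e, he, hpe, hst⟩ := ST_step w u hn t (by omega)
      rw [hst]
      rcases ST_fst (pos w) w.length u t (st w u t) e with h' | h' <;> rw [h'] <;> omega

theorem st_x_mono (w : List (Ltr p q m n D)) (u : Bool) (hn : w.Nodup) (hx : .x ∈ w) (t t' : ℕ)
    (h1 : pos w .x < t) (h2 : t ≤ t') (h3 : t' ≤ w.length) : (st w u t).1 ≤ (st w u t').1 := by
  induction t', h2 using Nat.le_induction with
  | base => exact le_rfl
  | succ t' ht' ih =>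
    have ih' := ih (by omega)
    obtain ⟨e, he, hpe, hst⟩ := ST_step w u hn t' (by omega)
    rw [hst]
    have := st_x_lt w u hn hx t (by omega) (by omega)
    rcases ST_fst (pos w) w.length u t' (st w u t') e with h' | h' <;> rw [h'] <;> omega

theorem st_a_absent (w : List (Ltr p q m n D)) (hn : w.Nodup) (ha : .a ∈ w) (t : ℕ)
    (ht : t ≤ pos w .a) : (st w true t).2 = w.length := by
  induction t with
  | zero => rfl
  | succ t ih =>
    have h1 := ih (by omega)
    have hlt : t < w.length := lt_of_lt_of_le ht (ST_pos_le w .a)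
    obtain ⟨e, he, hpe, hst⟩ := ST_step w true hn t hlt
    rw [hst]
    have hex : e ≠ .a := by rintro rfl; omega
    cases e with
    | a => exact absurd rfl hex
    | x => exact h1
    | b => exact h1
    | A i => simp only [stepS]; rw [if_neg (by omega)]; exact h1
    | X i => simp only [stepS]; split_ifs <;> exact h1
    | c k => simp only [stepS]; split_ifs <;> exact h1
    | z k => exact h1
    | R i =>
      simp only [stepS]
      split_ifs with hh1 hh2
      · exact h1
      · have := ST_pos_le w (.y i false); omega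
      · exact h1
    | y i h => exact h1
    | d i => exact h1

theorem st_a_lt (w : List (Ltr p q m n D)) (hn : w.Nodup) (ha : .a ∈ w) (t : ℕ)
    (h1 : pos w .a < t) (h2 : t ≤ w.length) :
    pos w .a ≤ (st w true t).2 ∧ (st w true t).2 < t := by
  induction t with
  | zero => omega
  | succ t ih =>
    by_cases h : pos w .a = t
    · have := st_succ_pos w true hn .a ha
      rw [h] at this
      rw [this]
      simp only [stepS, if_true]
      omega
    · have ih' := ih (by omega) (by omega)
      obtain ⟨e, he, hpe, hst⟩ := ST_step w true hn t (by omega)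
      rw [hst]
      rcases ST_snd (pos w) w.length true t (st w true t) e with h' | h' <;> rw [h'] <;> omega

theorem st_a_mono (w : List (Ltr p q m n D)) (hn : w.Nodup) (ha : .a ∈ w) (t t' : ℕ)
    (h1 : pos w .a < t) (h2 : t ≤ t') (h3 : t' ≤ w.length) :
    (st w true t).2 ≤ (st w true t').2 := by
  induction t', h2 using Nat.le_induction with
  | base => exact le_rfl
  | succ t' ht' ih =>
    have ih' := ih (by omega)
    obtain ⟨e, he, hpe, hst⟩ := ST_step w true hn t' (by omega)
    rw [hst]
    have := st_a_lt w hn ha t (by omega) (by omega)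
    rcases ST_snd (pos w) w.length true t' (st w true t') e with h' | h' <;> rw [h'] <;> omega

theorem st_a_false (w : List (Ltr p q m n D)) (t : ℕ) : (st w false t).2 = w.length := by
  induction t with
  | zero => rfl
  | succ t ih =>
    unfold st
    split
    · exact ih
    · rename_i e he
      cases e with
      | a => simp only [stepS]; exact ih
      | x => exact ih
      | b => exact ih
      | A i => simp only [stepS]; rw [if_neg (by omega)]; exact ih
      | X i => simp only [stepS]; split_ifs <;> exact ih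
      | c k => simp only [stepS]; split_ifs <;> exact ih
      | z k => exact ih
      | R i =>
        simp only [stepS]
        split_ifs with hh1 hh2
        · exact ih
        · have := ST_pos_le w (.y i false); omega
        · exact ih
      | y i h => exact ih
      | d i => exact ih

theorem st_X (w : List (Ltr p q m n D)) (u : Bool) (hn : w.Nodup) (hx : .x ∈ w) (i : Fin p)
    (hX : .X i ∈ w) (h : pos w .x < pos w (.X i)) :
    (st w u (pos w (.X i) + 1)).1 = pos w (.X i) := by
  rw [st_succ_pos w u hn _ hX]
  have h1 := ST_pos_lt w _ hX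
  have h2 := st_x_lt w u hn hx _ h h1.le
  simp only [stepS]
  rw [if_pos (by omega)]

theorem st_A (w : List (Ltr p q m n D)) (hn : w.Nodup) (ha : .a ∈ w) (i : Fin q)
    (hA : .A i ∈ w) (h : pos w .a < pos w (.A i)) :
    (st w true (pos w (.A i) + 1)).2 = pos w (.A i) := by
  rw [st_succ_pos w true hn _ hA]
  have h1 := ST_pos_lt w _ hA
  have h2 := st_a_lt w hn ha _ h h1.le
  simp only [stepS]
  rw [if_pos (by omega)]

private theorem ST_x_mem : (.x : Ltr p q m n D) ∈ Xs p q m n D := by
  simp [Xs, isX]

private theorem ST_le_lastX (w : List (Ltr p q m n D)) (v : Ltr p q m n D)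
    (hv : v ∈ Xs p q m n D) : pos w v ≤ lastX w := Finset.le_sup (f := pos w) hv

theorem aft_Xs_iff (w : List (Ltr p q m n D)) (e : Ltr p q m n D) (he : e ∈ w)
    (hX : ∀ v ∈ Xs p q m n D, v ∈ w) :
    aft (Xs p q m n D) w e ↔ lastX w < pos w e := by
  constructor
  · intro h
    obtain ⟨v, hv, hv'⟩ := Finset.exists_mem_eq_sup (Xs p q m n D) ⟨_, ST_x_mem⟩ (pos w)
    have := h v hv
    unfold lastX
    rw [hv']
    exact this
  · intro h v hv
    exact lt_of_le_of_lt (ST_le_lastX w v hv) h

theorem lastX_mem (w : List (Ltr p q m n D)) (hX : ∀ v ∈ Xs p q m n D, v ∈ w) :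
    ∃ v ∈ Xs p q m n D, pos w v = lastX w ∧ lastX w < w.length := by
  obtain ⟨v, hv, hv'⟩ := Finset.exists_mem_eq_sup (Xs p q m n D) ⟨_, ST_x_mem⟩ (pos w)
  refine ⟨v, hv, hv'.symm, ?_⟩
  unfold lastX
  rw [hv']
  exact ST_pos_lt w v (hX v hv)

/-- right after the last letter of `Xs` the stamp of `x` is the position of this letter -/
theorem st_lastX (w : List (Ltr p q m n D)) (u : Bool) (hn : w.Nodup)
    (hX : ∀ v ∈ Xs p q m n D, v ∈ w) : (st w u (lastX w + 1)).1 = lastX w := by
  obtain ⟨v, hv, hv', hlt⟩ := lastX_mem w hX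
  have hx : (.x : Ltr p q m n D) ∈ w := hX _ ST_x_mem
  have hvw := hX v hv
  rw [← hv']
  cases v with
  | x => rw [st_succ_pos w u hn _ hx]; rfl
  | X i =>
    apply st_X w u hn hx i hvw
    have h1 := ST_le_lastX w _ (ST_x_mem (p := p) (q := q) (m := m) (n := n) (D := D))
    rcases lt_or_eq_of_le (hv' ▸ h1) with h | h
    · exact h
    · exact absurd (ST_pos_inj w _ _ hx h) (by simp)
  | _ => simp [Xs, isX] at hv

theorem st_ge_lastX (w : List (Ltr p q m n D)) (u : Bool) (hn : w.Nodup)
    (hX : ∀ v ∈ Xs p q m n D, v ∈ w) (t : ℕ) (h1 : lastX w < t) (h2 : t ≤ w.length) :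
    lastX w ≤ (st w u t).1 ∧ (st w u t).1 < t := by
  have hx : (.x : Ltr p q m n D) ∈ w := hX _ ST_x_mem
  have h3 := ST_le_lastX w _ (ST_x_mem (p := p) (q := q) (m := m) (n := n) (D := D))
  refine ⟨?_, (st_x_lt w u hn hx t (by omega) h2).2⟩
  have h4 := st_lastX w u hn hX
  have h5 := st_x_mono w u hn hx (lastX w + 1) t (by omega) (by omega) h2
  omega

/-- steps after `lastX`: the stamp of `x` changes only by a hit of an active `c k` or of an
active `R i` -/
theorem step_after (w : List (Ltr p q m n D)) (u : Bool) (hn : w.Nodup)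
    (hX : ∀ v ∈ Xs p q m n D, v ∈ w) (e : Ltr p q m n D) (he : e ∈ w)
    (h1 : lastX w < pos w e) :
    (st w u (pos w e + 1)).1 = (st w u (pos w e)).1 ∨
    ((st w u (pos w e + 1)).1 = pos w e ∧
      ((∃ k, e = .c k ∧ (st w u (pos w e)).1 < pos w (.z k)) ∨
       (∃ i, e = .R i ∧ (st w u (pos w e)).1 < pos w (.y i false) ∧
          (st w u (pos w e)).1 < pos w (.y i true) ∧
          (st w u (pos w e)).1 < (st w u (pos w e)).2))) := by
  rw [st_succ_pos w u hn e he]
  cases e with
  | x =>
    have := ST_le_lastX w _ (ST_x_mem (p := p) (q := q) (m := m) (n := n) (D := D))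
    omega
  | X i =>
    have := ST_le_lastX w (.X i) (by simp [Xs, isX])
    omega
  | a => left; simp only [stepS]; split_ifs <;> rfl
  | b => left; rfl
  | A i => left; simp only [stepS]; split_ifs <;> rfl
  | c k =>
    simp only [stepS]
    split_ifs with h
    · right; exact ⟨rfl, Or.inl ⟨k, rfl, h⟩⟩
    · left; rfl
  | z k => left; rfl
  | R i =>
    simp only [stepS]
    split_ifs with h h'
    · right; exact ⟨rfl, Or.inr ⟨i, rfl, h⟩⟩
    · left; rfl
    · left; rfl
  | y i h => left; rfl
  | d i => left; rfl

end CPI
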