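import Pool.Agent.Lib.MP_cb75a6_co.Dis.Defs
import Pool.Agent.Lib.MP_cb75a6_co.Dis.W1
import Pool.Agent.Lib.MP_cb75a6_co.Dis.ST

set_option autoImplicit false

namespace CPI

open scoped Nat
open Ltr

variable {p q m n D : ℕ}

private theorem DB_pos_inj (w : List (Ltr p q m n D)) (e f : Ltr p q m n D) (he : e ∈ w)
    (h : pos w e = pos w f) : e = f := (List.idxOf_inj he).1 h

private theorem DB_step_c (w : List (Ltr p q m n D)) (u : Bool) (hn : w.Nodup) (k : Fin m)
    (hk : .c k ∈ w) : (st w u (pos w (.c k) + 1)).1 =
      if (st w u (pos w (.c k))).1 < pos w (.z k) then pos w (.c k)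
      else (st w u (pos w (.c k))).1 := by
  rw [st_succ_pos w u hn _ hk]
  simp only [stepS]
  split_ifs <;> rfl

private theorem DB_step_R (w : List (Ltr p q m n D)) (u : Bool) (hn : w.Nodup) (l : Fin n)
    (hl : .R l ∈ w) : (st w u (pos w (.R l) + 1)).1 =
      if (st w u (pos w (.R l))).1 < pos w (.y l false) ∧
        (st w u (pos w (.R l))).1 < pos w (.y l true) ∧
        (st w u (pos w (.R l))).1 < (st w u (pos w (.R l))).2 then pos w (.R l)
      else (st w u (pos w (.R l))).1 := by
  rw [st_succ_pos w u hn _ hl]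
  simp only [stepS]
  split_ifs <;> rfl

/-- the stamps of `x` in both processes agree as long as there is no active `R l` -/
private theorem DB_eqprop (w : List (Ltr p q m n D)) (hn : w.Nodup)
    (hX : ∀ v ∈ Xs p q m n D, v ∈ w) (hy : ∀ l h, (.y l h : Ltr p q m n D) ∈ w)
    (t0 t1 : ℕ) (h0 : lastX w < t0) (h01 : t0 ≤ t1) (h1 : t1 ≤ w.length)
    (heq : (st w true t0).1 = (st w false t0).1)
    (hno : ∀ l, (.R l : Ltr p q m n D) ∈ w → aR w l → t0 ≤ pos w (.R l) → pos w (.R l) < t1 →
      False) :
    (st w true t1).1 = (st w false t1).1 := by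
  induction t1, h01 using Nat.le_induction with
  | base => exact heq
  | succ t ht ih =>
    have ih' := ih (by omega) (fun l hl ha h h' => hno l hl ha h (by omega))
    obtain ⟨f, hf, hft⟩ := exists_letter w hn t (by omega)
    have gA := st_ge_lastX w true hn hX t (by omega) (by omega)
    have gB := st_ge_lastX w false hn hX t (by omega) (by omega)
    cases f with
    | c k =>
      have a1 := DB_step_c w true hn k hf
      have a2 := DB_step_c w false hn k hf
      rw [hft] at a1 a2
      rw [a1, a2, ih']
    | R l =>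
      have a1 := DB_step_R w true hn l hf
      have a2 := DB_step_R w false hn l hf
      have hact : ∀ s, lastX w ≤ s → s < pos w (.y l false) → s < pos w (.y l true) → False := by
        intro s hs c1 c2
        exact hno l hf ⟨(aft_Xs_iff w _ hf hX).2 (by omega),
          (aft_Xs_iff w _ (hy l false) hX).2 (by omega),
          (aft_Xs_iff w _ (hy l true) hX).2 (by omega)⟩ (by omega) (by omega)
      rw [hft] at a1 a2
      rw [a1, a2, if_neg, if_neg]
      · exact ih'
      · rintro ⟨c1, c2, -⟩
        exact hact _ gB.1 c1 c2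
      · rintro ⟨c1, c2, -⟩
        exact hact _ gA.1 c1 c2
    | _ =>
      have b1 := step_after w true hn hX _ hf (by omega)
      have b2 := step_after w false hn hX _ hf (by omega)
      rw [hft] at b1 b2
      simp only [reduceCtorEq, false_and, exists_false, or_self, and_false, or_false] at b1 b2
      rw [b1, b2]
      exact ih'

/-- the origin of the stamp of `x` -/
private theorem DB_origin (w : List (Ltr p q m n D)) (u : Bool) (hn : w.Nodup)
    (hX : ∀ v ∈ Xs p q m n D, v ∈ w) (hy : ∀ l h, (.y l h : Ltr p q m n D) ∈ w)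
    (hz : ∀ k, (.z k : Ltr p q m n D) ∈ w)
    (t : ℕ) (h0 : lastX w < t) (h1 : t ≤ w.length)
    (hno : ∀ l, (.R l : Ltr p q m n D) ∈ w → aR w l → pos w (.R l) < t → False) :
    (st w u t).1 = lastX w ∨ ∃ k, (.c k : Ltr p q m n D) ∈ w ∧ (st w u t).1 = pos w (.c k) ∧
      ac w k ∧ pos w (.c k) < t := by
  induction t, h0 using Nat.le_induction with
  | base => left; exact st_lastX w u hn hX
  | succ t ht ih =>
    have ht' : lastX w + 1 ≤ t := ht
    have ih' := ih (by omega) (fun l hl ha h => hno l hl ha (by omega))
    obtain ⟨f, hf, hft⟩ := exists_letter w hn t (by omega)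
    have gA := st_ge_lastX w u hn hX t (by omega) (by omega)
    rcases step_after w u hn hX f hf (by omega) with h | ⟨h, h' | h'⟩
    · rw [hft] at h
      rw [h]
      rcases ih' with h' | ⟨k, hk, h1', h2', h3'⟩
      · left; exact h'
      · right; exact ⟨k, hk, h1', h2', by omega⟩
    · obtain ⟨k, rfl, hk⟩ := h'
      right
      refine ⟨k, hf, by rw [← hft]; exact h, ⟨(aft_Xs_iff w _ hf hX).2 (by omega),
        (aft_Xs_iff w _ (hz k) hX).2 ?_⟩, by omega⟩
      rw [hft] at hk
      omega
    · obtain ⟨l, rfl, c1, c2, -⟩ := h'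
      exfalso
      rw [hft] at c1 c2
      exact hno l hf ⟨(aft_Xs_iff w _ hf hX).2 (by omega),
        (aft_Xs_iff w _ (hy l false) hX).2 (by omega),
        (aft_Xs_iff w _ (hy l true) hX).2 (by omega)⟩ (by omega)

/-- if the stamp of `a` at time `t` is at most `s` then no `A` letter lies between `s` and `t` -/
private theorem DB_noA (w : List (Ltr p q m n D)) (hn : w.Nodup) (ha : .a ∈ w)
    (hAw : ∀ j, (.A j : Ltr p q m n D) ∈ w) (s t : ℕ) (ht : t ≤ w.length) (hs : s < w.length)
    (h : (st w true t).2 ≤ s) (e : Ltr p q m n D) (he : e ∈ As p q m n D) :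
    ¬ (s < pos w e ∧ pos w e < t) := by
  rintro ⟨h1, h2⟩
  have hat : pos w .a < t := by
    by_contra hcon
    have := st_a_absent w hn ha t (by omega)
    omega
  have h3 := st_a_lt w hn ha t hat ht
  cases e with
  | A j =>
    have h4 := st_A w hn ha j (hAw j) (by omega)
    have h5 := st_a_mono w hn ha (pos w (.A j) + 1) t (by omega) (by omega) ht
    omega
  | _ => simp [As, isA] at he

theorem D_B (w : List (Ltr p q m n D)) (k0 : Fin m)
    (hw : w ∈ words ((Qs p q m n D).erase (.c k0)))
    (hA : ¬ sx w true < pos w (.z k0)) (hB : sx w false < pos w (.z k0)) :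
    aft (Xs p q m n D) w (.z k0) ∧
    ((∃ i l, i ≠ l ∧ aR w i ∧ aR w l) ∨
     (∃ i k, k ≠ k0 ∧ aR w i ∧ ac w k ∧ pos w (.z k) < pos w (.R i) ∧
        ∀ e ∈ As p q m n D, ¬ (aft (Xs p q m n D) w e ∧ pos w e < pos w (.R i))) ∨
     (∃ i k l, k ≠ k0 ∧ l ≠ k0 ∧ k ≠ l ∧ aR w i ∧ ac w k ∧ ac w l ∧
        pos w (.c l) < pos w (.z k) ∧ pos w (.z k) < pos w (.R i) ∧
        ∀ e ∈ As p q m n D, ¬ (pos w (.c l) < pos w e ∧ pos w e < pos w (.R i)))) := by
  obtain ⟨hn, hmem⟩ := mem_words.1 hw
  have hin : ∀ u : Ltr p q m n D, isQ u = true → u ≠ .c k0 → u ∈ w := by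
    intro u h h'
    exact (hmem u).2 (Finset.mem_erase.2 ⟨h', Finset.mem_filter.2 ⟨Finset.mem_univ _, h⟩⟩)
  have hX : ∀ v ∈ Xs p q m n D, v ∈ w := by
    intro v hv
    cases v with
    | x => exact hin _ rfl (by simp)
    | X j => exact hin _ rfl (by simp)
    | _ => simp [Xs, isX] at hv
  have ha : (.a : Ltr p q m n D) ∈ w := hin _ rfl (by simp)
  have hy : ∀ l h, (.y l h : Ltr p q m n D) ∈ w := fun l h => hin _ rfl (by simp)
  have hz : ∀ k, (.z k : Ltr p q m n D) ∈ w := fun k => hin _ rfl (by simp)
  have hRw : ∀ l, (.R l : Ltr p q m n D) ∈ w := fun l => hin _ rfl (by simp)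
  have hAw : ∀ j, (.A j : Ltr p q m n D) ∈ w := fun l => hin _ rfl (by simp)
  have hck0 : ∀ k, (.c k : Ltr p q m n D) ∈ w → k ≠ k0 := by
    rintro k hk rfl
    exact (Finset.mem_erase.1 ((hmem _).1 hk)).1 rfl
  obtain ⟨v0, hv0, hv0T, hTlt⟩ := lastX_mem w hX
  have gB := st_ge_lastX w false hn hX w.length hTlt le_rfl
  unfold sx at hA hB
  have hTz : lastX w < pos w (.z k0) := by omega
  refine ⟨(aft_Xs_iff w _ (hz k0) hX).2 hTz, ?_⟩
  by_cases h2 : ∃ i l, i ≠ l ∧ aR w i ∧ aR w l
  · left; exact h2
  right
  -- there is an active `R i`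
  have hex : ∃ i, aR w i := by
    by_contra hcon
    have := DB_eqprop w hn hX hy (lastX w + 1) w.length (by omega) (by omega) le_rfl
      (by rw [st_lastX w true hn hX, st_lastX w false hn hX])
      (fun l _ hl _ _ => hcon ⟨l, hl⟩)
    omega
  obtain ⟨i, hi⟩ := hex
  have huniq : ∀ l, aR w l → l = i := by
    intro l hl
    by_contra hne
    exact h2 ⟨l, i, hne, hl, hi⟩
  have hTR : lastX w < pos w (.R i) := (aft_Xs_iff w _ (hRw i) hX).1 hi.1
  have hRlt : pos w (.R i) < w.length := List.idxOf_lt_length_iff.2 (hRw i)
  -- equality at time `pos R i`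
  have heq := DB_eqprop w hn hX hy (lastX w + 1) (pos w (.R i)) (by omega) (by omega) (by omega)
      (by rw [st_lastX w true hn hX, st_lastX w false hn hX])
      (fun l _ hl _ h => by have := huniq l hl; subst this; omega)
  have horig := DB_origin w true hn hX hy hz (pos w (.R i)) hTR hRlt.le
      (fun l _ hl h => by have := huniq l hl; subst this; omega)
  have gA := st_ge_lastX w true hn hX (pos w (.R i)) hTR hRlt.le
  have hRA := DB_step_R w true hn i (hRw i)
  have hRB := DB_step_R w false hn i (hRw i)
  have hfal := st_a_false w (pos w (.R i))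
  set s := (st w true (pos w (.R i))).1 with hs
  rw [← heq] at hRB
  -- the hits at `R i` differ
  have hne : ¬ ((st w true (pos w (.R i) + 1)).1 = (st w false (pos w (.R i) + 1)).1) := by
    intro h
    have := DB_eqprop w hn hX hy (pos w (.R i) + 1) w.length (by omega) (by omega) le_rfl h
      (fun l _ hl h h' => by have := huniq l hl; subst this; omega)
    omega
  have hyy : s < pos w (.y i false) ∧ s < pos w (.y i true) := by
    by_contra hcon
    apply hne
    rw [hRA, hRB, if_neg, if_neg]
    · rintro ⟨c1, c2, -⟩; exact hcon ⟨c1, c2⟩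
    · rintro ⟨c1, c2, -⟩; exact hcon ⟨c1, c2⟩
  have hsB : (st w false (pos w (.R i) + 1)).1 = pos w (.R i) := by
    rw [hRB, if_pos ⟨hyy.1, hyy.2, by omega⟩]
  have hsa : (st w true (pos w (.R i))).2 ≤ s := by
    by_contra hcon
    apply hne
    rw [hRA, hsB, if_pos ⟨hyy.1, hyy.2, by omega⟩]
  have hsA : (st w true (pos w (.R i) + 1)).1 = s := by
    rw [hRA, if_neg (by rintro ⟨-, -, h⟩; omega)]
  have hnoA := DB_noA w hn ha hAw s (pos w (.R i)) hRlt.le (by omega) hsa
  -- there is an `A`-only hit
  have hk : ∃ k, (.c k : Ltr p q m n D) ∈ w ∧ pos w (.R i) < pos w (.c k) ∧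
      s < pos w (.z k) ∧ pos w (.z k) < pos w (.R i) := by
    by_contra hcon
    have key : ∀ t, pos w (.R i) + 1 ≤ t → t ≤ w.length →
        (st w true t).1 = (st w false t).1 ∨
        ((st w true t).1 = s ∧ (st w false t).1 = pos w (.R i)) := by
      intro t ht
      induction t, ht using Nat.le_induction with
      | base => intro _; right; exact ⟨hsA, hsB⟩
      | succ t ht ih =>
        intro htl
        rcases ih (by omega) with h | ⟨h, h'⟩
        · left
          exact DB_eqprop w hn hX hy t (t + 1) (by omega) (by omega) htl h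
            (fun l _ hl h h' => by have := huniq l hl; subst this; omega)
        · obtain ⟨f, hf, hft⟩ := exists_letter w hn t (by omega)
          cases f with
          | c k =>
            have a1 := DB_step_c w true hn k hf
            have a2 := DB_step_c w false hn k hf
            rw [hft, h] at a1
            rw [hft, h'] at a2
            by_cases c1 : pos w (.R i) < pos w (.z k)
            · left
              rw [a1, a2, if_pos c1, if_pos (by omega)]
            · right
              have c2 : ¬ s < pos w (.z k) := by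
                intro c2
                apply hcon
                refine ⟨k, hf, by omega, c2, ?_⟩
                rcases lt_or_eq_of_le (not_lt.1 c1) with h | h
                · exact h
                · exact absurd (DB_pos_inj w _ _ (hz k) h) (by simp)
              rw [a1, a2, if_neg c1, if_neg c2]
              exact ⟨rfl, rfl⟩
          | R l =>
            right
            have a1 := DB_step_R w true hn l hf
            have a2 := DB_step_R w false hn l hf
            have hact : ∀ s', lastX w ≤ s' → s' < pos w (.y l false) → s' < pos w (.y l true) →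
                False := by
              intro s' hs' c1 c2
              have hl : aR w l := ⟨(aft_Xs_iff w _ hf hX).2 (by omega),
                (aft_Xs_iff w _ (hy l false) hX).2 (by omega),
                (aft_Xs_iff w _ (hy l true) hX).2 (by omega)⟩
              have := huniq l hl
              subst this
              omega
            rw [hft, h] at a1
            rw [hft, h'] at a2
            rw [a1, a2, if_neg, if_neg]
            · exact ⟨rfl, rfl⟩
            · rintro ⟨c1, c2, -⟩
              exact hact _ (by omega) c1 c2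
            · rintro ⟨c1, c2, -⟩
              exact hact _ (by omega) c1 c2
          | _ =>
            right
            have b1 := step_after w true hn hX _ hf (by omega)
            have b2 := step_after w false hn hX _ hf (by omega)
            rw [hft] at b1 b2
            simp only [reduceCtorEq, false_and, exists_false, or_self, and_false,
              or_false] at b1 b2
            rw [b1, b2]
            exact ⟨h, h'⟩
    rcases key w.length (by omega) le_rfl with h | ⟨h, h'⟩
    · omega
    · omega
  obtain ⟨k, hkw, hk1, hk2, hk3⟩ := hk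
  have hack : ac w k := ⟨(aft_Xs_iff w _ hkw hX).2 (by omega),
    (aft_Xs_iff w _ (hz k) hX).2 (by omega)⟩
  rcases horig with h | ⟨l, hlw, hl1, hl2, hl3⟩
  · left
    refine ⟨i, k, hck0 k hkw, hi, hack, hk3, ?_⟩
    rintro e he ⟨h1, h2'⟩
    have hew : e ∈ w := by
      cases e with
      | A j => exact hAw j
      | _ => simp [As, isA] at he
    exact hnoA e he ⟨by have := (aft_Xs_iff w _ hew hX).1 h1; omega, h2'⟩
  · right
    refine ⟨i, k, l, hck0 k hkw, hck0 l hlw, ?_, hi, hack, hl2, by omega, hk3, ?_⟩
    · rintro rfl; omega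
    · rintro e he ⟨h1, h2'⟩
      exact hnoA e he ⟨by omega, h2'⟩

end CPI
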