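import Pool.Agent.Lib.MP_cb75a6_co.Dis.Defs
import Pool.Agent.Lib.MP_cb75a6_co.Dis.W1
import Pool.Agent.Lib.MP_cb75a6_co.Dis.ST

set_option autoImplicit false

namespace CPI

open scoped Nat
open Ltr

variable {p q m n D : ℕ}

private theorem DM_pos_inj (w : List (Ltr p q m n D)) (e f : Ltr p q m n D) (he : e ∈ w)
    (h : pos w e = pos w f) : e = f := (List.idxOf_inj he).1 h

theorem D_main (w : List (Ltr p q m n D)) (k0 : Fin m) (i : Fin n)
    (hw : w ∈ words ((Qs p q m n D).erase (.c k0)))
    (h1 : ∃ v ∈ Xs p q m n D, pos w .a < pos w v)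
    (h2 : aft (Xs p q m n D) w (.z k0)) (h3 : pos w (.z k0) < pos w (.R i))
    (h4 : pos w (.R i) < pos w (.y i false)) (h5 : pos w (.R i) < pos w (.y i true))
    (h6 : ∀ e ∈ As p q m n D, ¬ (aft (Xs p q m n D) w e ∧ pos w e < pos w (.R i)))
    (h7 : ∃ e ∈ As p q m n D, aft2 (Xs p q m n D) w e ∧ pos w .a < pos w e ∧
      pos w e < pos w (.R i))
    (h8 : ∀ k, k ≠ k0 → ¬ ac w k)
    (h9 : ∀ l, l ≠ i → ¬ aR w l)
    (h10 : ∀ l, l ≠ i → ¬ (aft (Xs p q m n D) w (.R l) ∧ pos w (.R l) < pos w (.R i) ∧
      aft2 (Xs p q m n D) w (.y l false) ∧ aft2 (Xs p q m n D) w (.y l true))) :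
    sx w true < pos w (.z k0) ∧ pos w (.z k0) < sx w false := by
  obtain ⟨hn, hmem⟩ := mem_words.1 hw
  have hin : ∀ u : Ltr p q m n D, isQ u = true → u ≠ .c k0 → u ∈ w := by
    intro u h h'
    exact (hmem u).2 (Finset.mem_erase.2 ⟨h', Finset.mem_filter.2 ⟨Finset.mem_univ _, h⟩⟩)
  have hX : ∀ v ∈ Xs p q m n D, v ∈ w := by
    intro v hv
    cases v with
    | x => exact hin _ rfl (by simp)
    | X j => exact hin _ rfl (by simp)
    | _ => simp [Xs, isX] at hv
  have ha : (.a : Ltr p q m n D) ∈ w := hin _ rfl (by simp)
  have hRi : (.R i : Ltr p q m n D) ∈ w := hin _ rfl (by simp)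
  have hzk : (.z k0 : Ltr p q m n D) ∈ w := hin _ rfl (by simp)
  have hck0 : ∀ k, (.c k : Ltr p q m n D) ∈ w → k ≠ k0 := by
    rintro k hk rfl
    exact (Finset.mem_erase.1 ((hmem _).1 hk)).1 rfl
  set T := lastX w with hT
  obtain ⟨v0, hv0, hv0T, hTlt⟩ := lastX_mem w hX
  have hle : ∀ v ∈ Xs p q m n D, pos w v ≤ T := fun v hv => Finset.le_sup (f := pos w) hv
  have hTz : T < pos w (.z k0) := (aft_Xs_iff w _ hzk hX).1 h2
  have hTR : T < pos w (.R i) := by omega
  have hRlt : pos w (.R i) < w.length := List.idxOf_lt_length_iff.2 hRi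
  have haT : pos w .a < T := by
    obtain ⟨v, hv, hv'⟩ := h1
    have := hle v hv
    omega
  obtain ⟨e, heA, he2, hae, heR⟩ := h7
  have hew : e ∈ w := by
    cases e with
    | A j => exact hin _ rfl (by simp)
    | _ => simp [As, isA] at heA
  -- stamp of `a` right after `e`
  have hsae : (st w true (pos w e + 1)).2 = pos w e := by
    cases e with
    | A j => exact st_A w hn ha j hew hae
    | _ => simp [As, isA] at heA
  have heT : pos w e ≤ T := by
    by_contra hcon
    exact h6 e heA ⟨(aft_Xs_iff w _ hew hX).2 (by omega), heR⟩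
  have heT' : pos w e < T := by
    rcases lt_or_eq_of_le heT with h | h
    · exact h
    · exfalso
      have := DM_pos_inj w _ _ hew (h.trans hv0T.symm)
      subst this
      cases e with
      | A j => simp [Xs, isX] at hv0
      | _ => simp [As, isA] at heA
  -- stamp of `a` on (T, pos R i]
  have hsa : ∀ t, T + 1 ≤ t → t ≤ pos w (.R i) →
      pos w e ≤ (st w true t).2 ∧ (st w true t).2 < T := by
    intro t ht
    induction t, ht using Nat.le_induction with
    | base =>
      intro _
      have hh := st_succ_pos w true hn v0 (hX v0 hv0)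
      rw [hv0T] at hh
      have hlt := st_a_lt w hn ha T haT (by omega)
      have hsnd : (st w true (T + 1)).2 = (st w true T).2 := by
        rw [hh]
        cases v0 with
        | x => rfl
        | X j => simp only [stepS]; split_ifs <;> rfl
        | _ => simp [Xs, isX] at hv0
      have hmono := st_a_mono w hn ha (pos w e + 1) (T + 1) (by omega) (by omega) (by omega)
      omega
    | succ t ht ih =>
      intro htR
      obtain ⟨ih1, ih2⟩ := ih (by omega)
      obtain ⟨f, hf, hft⟩ := exists_letter w hn t (by omega)
      have hh := st_succ_pos w true hn f hf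
      rw [hft] at hh
      suffices hs : (st w true (t + 1)).2 = (st w true t).2 by
        rw [hs]; exact ⟨ih1, ih2⟩
      rw [hh]
      cases f with
      | a => omega
      | A j =>
        exact absurd ⟨(aft_Xs_iff w _ hf hX).2 (by omega), by omega⟩
          (h6 (.A j) (by simp [As, isA]))
      | R l =>
        have hli : l ≠ i := by rintro rfl; omega
        simp only [stepS]
        split_ifs with c1 c2
        · rfl
        · exfalso
          apply h10 l hli
          refine ⟨(aft_Xs_iff w _ hf hX).2 (by omega), by omega, ?_, ?_⟩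
          · obtain ⟨v, hv, hv'⟩ := he2
            exact ⟨v, hv, fun u hu huv => by have := hv' u hu huv; omega⟩
          · obtain ⟨v, hv, hv'⟩ := he2
            exact ⟨v, hv, fun u hu huv => by have := hv' u hu huv; omega⟩
        · rfl
      | x => rfl
      | X j => simp only [stepS]; split_ifs <;> rfl
      | c k => simp only [stepS]; split_ifs <;> rfl
      | b => rfl
      | z k => rfl
      | y l h => rfl
      | d l => rfl
  -- excluded hits
  have hac : ∀ k, (.c k : Ltr p q m n D) ∈ w → T < pos w (.c k) → T < pos w (.z k) → False := by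
    intro k hk hk1 hk2
    have hzk' : (.z k : Ltr p q m n D) ∈ w := hin _ rfl (by simp)
    exact h8 k (hck0 k hk) ⟨(aft_Xs_iff w _ hk hX).2 hk1, (aft_Xs_iff w _ hzk' hX).2 hk2⟩
  have haR : ∀ l, l ≠ i → T < pos w (.R l) → T < pos w (.y l false) →
      T < pos w (.y l true) → False := by
    intro l hl hl1 hl2 hl3
    have m1 : (.R l : Ltr p q m n D) ∈ w := hin _ rfl (by simp)
    have m2 : (.y l false : Ltr p q m n D) ∈ w := hin _ rfl (by simp)
    have m3 : (.y l true : Ltr p q m n D) ∈ w := hin _ rfl (by simp)
    exact h9 l hl ⟨(aft_Xs_iff w _ m1 hX).2 hl1, (aft_Xs_iff w _ m2 hX).2 hl2,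
      (aft_Xs_iff w _ m3 hX).2 hl3⟩
  constructor
  · -- process with `a`
    have hstay : ∀ t, T + 1 ≤ t → t ≤ w.length → (st w true t).1 = T := by
      intro t ht
      induction t, ht using Nat.le_induction with
      | base => intro _; exact st_lastX w true hn hX
      | succ t ht ih =>
        intro htl
        have ih' := ih (by omega)
        obtain ⟨f, hf, hft⟩ := exists_letter w hn t (by omega)
        rcases step_after w true hn hX f hf (by omega) with h | ⟨-, h | h⟩
        · rw [hft] at h; omega
        · exfalso
          obtain ⟨k, rfl, hk⟩ := h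
          rw [hft, ih'] at hk
          exact hac k hf (by omega) hk
        · exfalso
          obtain ⟨l, rfl, hl1, hl2, hl3⟩ := h
          rw [hft, ih'] at hl1 hl2 hl3
          by_cases hli : l = i
          · subst hli
            rw [← hft] at hl3
            have := hsa (pos w (.R l)) (by omega) le_rfl
            omega
          · exact haR l hli (by omega) hl1 hl2
    have := hstay w.length (by omega) le_rfl
    unfold sx
    omega
  · have hstay : ∀ t, T + 1 ≤ t → t ≤ pos w (.R i) → (st w false t).1 = T := by
      intro t ht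
      induction t, ht using Nat.le_induction with
      | base => intro _; exact st_lastX w false hn hX
      | succ t ht ih =>
        intro htl
        have ih' := ih (by omega)
        obtain ⟨f, hf, hft⟩ := exists_letter w hn t (by omega)
        rcases step_after w false hn hX f hf (by omega) with h | ⟨-, h | h⟩
        · rw [hft] at h; omega
        · exfalso
          obtain ⟨k, rfl, hk⟩ := h
          rw [hft, ih'] at hk
          exact hac k hf (by omega) hk
        · exfalso
          obtain ⟨l, rfl, hl1, hl2, hl3⟩ := h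
          rw [hft, ih'] at hl1 hl2 hl3
          have hli : l ≠ i := by rintro rfl; omega
          exact haR l hli (by omega) hl1 hl2
    have hR := hstay (pos w (.R i)) (by omega) le_rfl
    have hstep := st_succ_pos w false hn (.R i) hRi
    have hsnd := st_a_false w (pos w (.R i))
    have h7 : (st w false (pos w (.R i) + 1)).1 = pos w (.R i) := by
      rw [hstep]
      simp only [stepS]
      rw [if_pos ⟨by omega, by omega, by omega⟩]
    have hx : (.x : Ltr p q m n D) ∈ w := hin _ rfl (by simp)
    have hxT := hle .x (by simp [Xs, isX])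
    have := st_x_mono w false hn hx (pos w (.R i) + 1) w.length (by omega) (by omega) le_rfl
    unfold sx
    omega

end CPI
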