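import Pool.Agent.Lib.MP_cb75a6_co.Dis.Defs
import Pool.Agent.Lib.MP_cb75a6_co.Dis.W1

set_option autoImplicit false

namespace CPI

open scoped Nat

variable {α : Type} [DecidableEq α]

theorem pos_filter_lt_iff {w : List α} (f : α → Bool) {u v : α} (hw : w.Nodup)
    (hu : u ∈ w) (hv : v ∈ w) (hfu : f u = true) (hfv : f v = true) :
    pos (w.filter f) u < pos (w.filter f) v ↔ pos w u < pos w v := by
  induction w with
  | nil => simp at hu
  | cons e w ih =>
    have hew : e ∉ w := (List.nodup_cons.1 hw).1
    have hw' : w.Nodup := (List.nodup_cons.1 hw).2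
    unfold pos at *
    by_cases hue : u = e
    · subst hue
      rw [List.filter_cons_of_pos hfu, List.idxOf_cons_self, List.idxOf_cons_self]
      by_cases hve : v = u
      · subst hve
        simp
      · rw [List.idxOf_cons_ne _ (Ne.symm hve), List.idxOf_cons_ne _ (Ne.symm hve)]
        simp
    · have huw : u ∈ w := (List.mem_cons.1 hu).resolve_left hue
      by_cases hve : v = e
      · subst hve
        rw [List.filter_cons_of_pos hfv, List.idxOf_cons_self, List.idxOf_cons_self]
        simp
      · have hvw : v ∈ w := (List.mem_cons.1 hv).resolve_left hve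
        have ih' := ih hw' huw hvw
        rw [List.idxOf_cons_ne _ (Ne.symm hue), List.idxOf_cons_ne _ (Ne.symm hve)]
        by_cases hfe : f e = true
        · rw [List.filter_cons_of_pos hfe, List.idxOf_cons_ne _ (Ne.symm hue),
            List.idxOf_cons_ne _ (Ne.symm hve)]
          omega
        · rw [List.filter_cons_of_neg hfe]
          omega

end CPI
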