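import Pool.Agent.Lib.MP_cb75a6_co.Dis.Defs
import Pool.Agent.Lib.MP_cb75a6_co.Dis.W1
import Pool.Agent.Lib.MP_cb75a6_co.Dis.W2
import Pool.Agent.Lib.MP_cb75a6_co.Dis.W1I
import Pool.Agent.Lib.MP_cb75a6_co.Dis.W1N
import Pool.Agent.Lib.MP_cb75a6_co.Dis.W3I

set_option autoImplicit false

namespace CPI

open scoped Nat

variable {α : Type} [DecidableEq α]

theorem N_restrict_aux (Λ T : Finset α) (hd : Disjoint Λ T) (E0 : List α → Prop) :
    N (Λ ∪ T) (fun w => E0 (w.filter (fun u => decide (u ∈ Λ)))) * Λ.card ! =
      N Λ E0 * (Λ ∪ T).card ! := by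
  classical
  induction T using Finset.induction_on with
  | empty =>
    rw [Finset.union_empty]
    congr 1
    apply N_congr
    intro w hw
    have h1 : w.filter (fun u => decide (u ∈ Λ)) = w := by
      rw [List.filter_eq_self]
      intro u hu
      exact decide_eq_true (((mem_words.1 hw).2 u).1 hu)
    rw [h1]
  | insert e T heT ih =>
    have hd' : Disjoint Λ T := hd.mono_right (Finset.subset_insert _ _)
    have heΛ : e ∉ Λ := fun h =>
      Finset.disjoint_left.1 hd h (Finset.mem_insert_self _ _)
    have he : e ∉ Λ ∪ T := by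
      rw [Finset.mem_union]
      rintro (h | h)
      · exact heΛ h
      · exact heT h
    have ih' := ih hd'
    rw [Finset.union_insert, N_insert he, Finset.card_insert_of_notMem he, Nat.factorial_succ]
    have h1 : ∀ w ∈ words (Λ ∪ T), ((Finset.range ((Λ ∪ T).card + 1)).filter
        (fun t => E0 ((insAt t e w).filter (fun u => decide (u ∈ Λ))))).card =
        if E0 (w.filter (fun u => decide (u ∈ Λ))) then (Λ ∪ T).card + 1 else 0 := by
      intro w _
      have h2 : ∀ t, (insAt t e w).filter (fun u => decide (u ∈ Λ)) =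
          w.filter (fun u => decide (u ∈ Λ)) := by
        intro t
        apply filter_insAt_neg
        simpa using heΛ
      simp only [h2]
      split_ifs with h3
      · rw [Finset.filter_true_of_mem (fun _ _ => h3), Finset.card_range]
      · rw [Finset.filter_false_of_mem (fun _ _ => h3), Finset.card_empty]
    rw [Finset.sum_congr rfl h1, ← Finset.sum_filter, Finset.sum_const, smul_eq_mul]
    have h4 : ((words (Λ ∪ T)).filter
        (fun w => E0 (w.filter (fun u => decide (u ∈ Λ))))).card =
        N (Λ ∪ T) (fun w => E0 (w.filter (fun u => decide (u ∈ Λ)))) := by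
      unfold N
      congr
    rw [h4]
    calc N (Λ ∪ T) (fun w => E0 (w.filter (fun u => decide (u ∈ Λ)))) *
          ((Λ ∪ T).card + 1) * Λ.card !
        = (N (Λ ∪ T) (fun w => E0 (w.filter (fun u => decide (u ∈ Λ)))) * Λ.card !) *
          ((Λ ∪ T).card + 1) := by ring
      _ = N Λ E0 * (((Λ ∪ T).card + 1) * (Λ ∪ T).card !) := by rw [ih']; ring

/-- events that depend only on the letters of `Λ` -/
theorem N_restrict {Λ S : Finset α} (h : Λ ⊆ S) (E0 : List α → Prop) :
    N S (fun w => E0 (w.filter (fun u => decide (u ∈ Λ)))) * Λ.card ! = N Λ E0 * S.card ! := by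
  have h1 := N_restrict_aux Λ (S \ Λ) Finset.disjoint_sdiff E0
  rw [Finset.union_sdiff_of_subset h] at h1
  exact h1

theorem Pr_restrict {Λ S : Finset α} (h : Λ ⊆ S) (E0 : List α → Prop) :
    Pr S (fun w => E0 (w.filter (fun u => decide (u ∈ Λ)))) = Pr Λ E0 := by
  unfold Pr
  rw [div_eq_div_iff (by positivity) (by positivity)]
  exact_mod_cast N_restrict h E0

end CPI
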