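import Pool.Agent.Lib.MP_cb75a6_co.Dis.Defs
import Pool.Agent.Lib.MP_cb75a6_co.Dis.W1
import Pool.Agent.Lib.MP_cb75a6_co.Dis.W1N
import Pool.Agent.Lib.MP_cb75a6_co.Dis.W2
import Pool.Agent.Lib.MP_cb75a6_co.Dis.W2F
import Pool.Agent.Lib.MP_cb75a6_co.Dis.W3I
import Pool.Agent.Lib.MP_cb75a6_co.Dis.W3R
import Pool.Agent.Lib.MP_cb75a6_co.Dis.W3P

set_option autoImplicit false

namespace CPI

open scoped Nat

variable {α : Type} [DecidableEq α]

/-- letters of `Z` at positions `< t` -/
private theorem U1_card_le (w : List α) (Z : Finset α) (hZ : ∀ u ∈ Z, u ∈ w) (t : ℕ)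
    (h : ∀ u ∈ Z, pos w u < t) : Z.card ≤ t := by
  have h1 : (Z.image (pos w)) ⊆ Finset.range t := by
    intro x hx
    obtain ⟨u, hu, rfl⟩ := Finset.mem_image.1 hx
    exact Finset.mem_range.2 (h u hu)
  have h2 : (Z.image (pos w)).card = Z.card := by
    apply Finset.card_image_of_injOn
    intro u hu v hv huv
    exact (List.idxOf_inj (hZ u hu)).1 huv
  have h3 := Finset.card_le_card h1
  rwa [h2, Finset.card_range] at h3

private theorem U1_count (Y es : Finset α) (hd : Disjoint Y es) :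
    N (Y ∪ es) (fun w => ∀ e ∈ es, ∀ v ∈ Y, pos w v < pos w e) ≤ Y.card ! * es.card ! := by
  classical
  induction es using Finset.induction_on with
  | empty => simpa using N_le Y _
  | insert e T he ih =>
    have hd' : Disjoint Y T := Finset.disjoint_of_subset_right (Finset.subset_insert _ _) hd
    have heY : e ∉ Y := fun h => (Finset.disjoint_left.1 hd h) (Finset.mem_insert_self _ _)
    have he' : e ∉ Y ∪ T := by simp [heY, he]
    have hcard : (Y ∪ T).card = Y.card + T.card := Finset.card_union_of_disjoint hd'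
    have hstep := N_insert_le he'
      (E := fun w => ∀ e' ∈ insert e T, ∀ v ∈ Y, pos w v < pos w e')
      (F := fun w => ∀ e' ∈ T, ∀ v ∈ Y, pos w v < pos w e') (g := T.card + 1) ?_ ?_
    · rw [Finset.union_insert, Finset.card_insert_of_notMem he, Nat.factorial_succ]
      refine hstep.trans ?_
      calc (T.card + 1) * N (Y ∪ T) (fun w => ∀ e' ∈ T, ∀ v ∈ Y, pos w v < pos w e')
          ≤ (T.card + 1) * (Y.card ! * T.card !) := Nat.mul_le_mul_left _ (ih hd')
        _ = _ := by ring
    · intro w hw t ht h e' he'' v hv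
      obtain ⟨hn, hm⟩ := mem_words.1 hw
      have hl := length_of_mem_words hw
      have := h e' (Finset.mem_insert_of_mem he'') v hv
      rwa [pos_insAt_lt_iff hn (fun h => he' ((hm _).1 h))
        ((hm _).2 (Finset.mem_union_left _ hv)) ((hm _).2 (Finset.mem_union_right _ he''))
        (by omega)] at this
    · intro w hw _
      obtain ⟨hn, hm⟩ := mem_words.1 hw
      have hl := length_of_mem_words hw
      refine Nat.le_trans (Finset.card_le_card (t := Finset.Icc Y.card (Y ∪ T).card) ?_)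
        (by rw [Nat.card_Icc]; omega)
      intro t ht
      obtain ⟨ht1, ht2⟩ := (@Finset.mem_filter _ _ (_) _ _).1 ht
      rw [Finset.mem_range] at ht1
      rw [Finset.mem_Icc]
      refine ⟨?_, by omega⟩
      apply U1_card_le w Y (fun u hu => (hm u).2 (Finset.mem_union_left _ hu))
      intro u hu
      have := ht2 e (Finset.mem_insert_self _ _) u hu
      rwa [pos_insAt_lt_self_iff hn (fun h => he' ((hm _).1 h))
        ((hm _).2 (Finset.mem_union_left _ hu)) (by omega)] at this

private theorem U1_num (k s c : ℕ) (hk : 0 < k) :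
    ((k ! * c : ℕ) : ℝ) / ((k + s)! : ℝ) ≤ (c : ℝ) / (k : ℝ) ^ s := by
  have h1 : k ! * (k + 1) ^ s ≤ (k + s)! := Nat.factorial_mul_pow_le_factorial
  have h2 : (k : ℝ) ^ s * (k ! : ℝ) ≤ ((k + s)! : ℝ) := by
    have h3 : ((k ! * (k + 1) ^ s : ℕ) : ℝ) ≤ ((k + s)! : ℝ) := by exact_mod_cast h1
    push_cast at h3
    have h4 : (k : ℝ) ^ s ≤ ((k : ℝ) + 1) ^ s := by
      apply pow_le_pow_left₀ (Nat.cast_nonneg _)
      linarith
    have h5 : (0 : ℝ) ≤ (k ! : ℝ) := Nat.cast_nonneg _
    nlinarith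
  have hk' : (0 : ℝ) < (k : ℝ) ^ s := by
    have : (0 : ℝ) < k := by exact_mod_cast hk
    positivity
  have hf : (0 : ℝ) < ((k + s)! : ℝ) := by exact_mod_cast Nat.factorial_pos _
  rw [div_le_div_iff₀ hf hk']
  push_cast
  have hc : (0 : ℝ) ≤ c := Nat.cast_nonneg _
  nlinarith

theorem Pr_aft (S Y es : Finset α) (hd : Disjoint Y es) (hs : Y ∪ es ⊆ S) (hY : Y.Nonempty) :
    Pr S (fun w => ∀ e ∈ es, aft Y w e) ≤ (es.card ! : ℝ) / (Y.card : ℝ) ^ es.card := by
  classical
  have h1 : Pr S (fun w => ∀ e ∈ es, aft Y w e) =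
      Pr (Y ∪ es) (fun w => ∀ e ∈ es, ∀ v ∈ Y, pos w v < pos w e) := by
    rw [← Pr_restrict hs (fun w => ∀ e ∈ es, ∀ v ∈ Y, pos w v < pos w e)]
    apply Pr_congr
    intro w hw
    obtain ⟨hn, hm⟩ := mem_words.1 hw
    have key : ∀ u ∈ Y ∪ es, ∀ v ∈ Y ∪ es,
        (pos (w.filter (fun u => decide (u ∈ Y ∪ es))) u <
          pos (w.filter (fun u => decide (u ∈ Y ∪ es))) v ↔ pos w u < pos w v) := by
      intro u hu v hv
      exact pos_filter_lt_iff _ hn ((hm u).2 (hs hu)) ((hm v).2 (hs hv)) (by simpa using hu)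
        (by simpa using hv)
    constructor
    · intro h e he v hv
      exact (key v (Finset.mem_union_left _ hv) e (Finset.mem_union_right _ he)).2 (h e he v hv)
    · intro h e he v hv
      exact (key v (Finset.mem_union_left _ hv) e (Finset.mem_union_right _ he)).1 (h e he v hv)
  rw [h1]
  have h2 := U1_count Y es hd
  have h3 := U1_num Y.card es.card (es.card !) hY.card_pos
  unfold Pr
  rw [Finset.card_union_of_disjoint hd]
  refine le_trans ?_ h3
  have hf : (0 : ℝ) < ((Y.card + es.card)! : ℝ) := by exact_mod_cast Nat.factorial_pos _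
  apply div_le_div_of_nonneg_right _ hf.le
  exact_mod_cast h2

end CPI
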