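import Pool.Agent.Lib.MP_cb75a6_co.Dis.Defs
import Pool.Agent.Lib.MP_cb75a6_co.Dis.W1
import Pool.Agent.Lib.MP_cb75a6_co.Dis.W2
import Pool.Agent.Lib.MP_cb75a6_co.Dis.W2F
import Pool.Agent.Lib.MP_cb75a6_co.Dis.W3R
import Pool.Agent.Lib.MP_cb75a6_co.Dis.W3P
import Pool.Agent.Lib.MP_cb75a6_co.Dis.U1
import Pool.Agent.Lib.MP_cb75a6_co.Dis.AV3

set_option autoImplicit false

namespace CPI

open scoped Nat

variable {α : Type} [DecidableEq α]

private theorem pi_filt {S Λ : Finset α} (h : Λ ⊆ S) {w : List α} (hw : w ∈ words S) {u v : α}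
    (hu : u ∈ Λ) (hv : v ∈ Λ) :
    pos (w.filter (fun u => decide (u ∈ Λ))) u < pos (w.filter (fun u => decide (u ∈ Λ))) v ↔
      pos w u < pos w v := by
  rw [mem_words] at hw
  exact pos_filter_lt_iff _ hw.1 ((hw.2 u).2 (h hu)) ((hw.2 v).2 (h hv)) (by simpa using hu)
    (by simpa using hv)

private theorem pi_filt_aft {S Λ T : Finset α} (h : Λ ⊆ S) {w : List α} (hw : w ∈ words S)
    {e : α} (he : e ∈ Λ) (hT : T ⊆ Λ) :
    aft T (w.filter (fun u => decide (u ∈ Λ))) e ↔ aft T w e := by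
  unfold aft
  constructor
  · intro h1 v hv
    exact (pi_filt h hw (hT hv) he).1 (h1 v hv)
  · intro h1 v hv
    exact (pi_filt h hw (hT hv) he).2 (h1 v hv)

private theorem pi_ins_aft {T : Finset α} {w : List α} {e u : α} {t : ℕ} (hw : w.Nodup)
    (he : e ∉ w) (hu : u ∈ w) (hT : ∀ v ∈ T, v ∈ w) (ht : t ≤ w.length) :
    aft T (insAt t e w) u ↔ aft T w u := by
  unfold aft
  constructor
  · intro h1 v hv
    exact (pos_insAt_lt_iff hw he (hT v hv) hu ht).1 (h1 v hv)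
  · intro h1 v hv
    exact (pos_insAt_lt_iff hw he (hT v hv) hu ht).2 (h1 v hv)

private theorem pi_ins_self {T : Finset α} {w : List α} {e : α} {t : ℕ} (hw : w.Nodup)
    (he : e ∉ w) (hT : ∀ v ∈ T, v ∈ w) (ht : t ≤ w.length) :
    aft T (insAt t e w) e ↔ ∀ v ∈ T, pos w v < t := by
  unfold aft
  constructor
  · intro h1 v hv
    exact (pos_insAt_lt_self_iff hw he (hT v hv) ht).1 (h1 v hv)
  · intro h1 v hv
    exact (pos_insAt_lt_self_iff hw he (hT v hv) ht).2 (h1 v hv)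

/-- interval pattern: `Lo < z < R`, no letter of `A` between `Lo` and `R` -/
theorem Pr_int (S Y es A Lo : Finset α) (z R : α) (hY : Y.Nonempty) (hYe : Disjoint Y es)
    (hA : Disjoint (Y ∪ es) A) (hS : Y ∪ es ∪ A ⊆ S) (hz : z ∈ es) (hR : R ∈ es)
    (hLo : Lo ⊆ Y ∪ es) (hzL : z ∉ Lo) (hRL : R ∉ Lo) :
    Pr S (fun w => (∀ e ∈ es, aft Y w e) ∧ aft Lo w z ∧ pos w z < pos w R ∧
        ∀ e ∈ A, ¬ (aft Lo w e ∧ pos w e < pos w R)) ≤
      (es.card ! : ℝ) / (Y.card : ℝ) ^ es.card *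
        (((Y.card + es.card : ℕ) : ℝ) / ((Y.card + es.card + A.card : ℕ) : ℝ)) ^ 2 := by
  classical
  have hcard : (Y ∪ es).card = Y.card + es.card := Finset.card_union_of_disjoint hYe
  have hYΛ : Y ⊆ Y ∪ es := Finset.subset_union_left
  have heΛ : es ⊆ Y ∪ es := Finset.subset_union_right
  have hΛA : Y ∪ es ⊆ Y ∪ es ∪ A := Finset.subset_union_left
  have hAA : A ⊆ Y ∪ es ∪ A := Finset.subset_union_right
  -- the events
  set F : List α → Prop := fun w => (∀ e ∈ es, aft Y w e) ∧ aft Lo w z ∧ pos w z < pos w R with hF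
  set B : List α → α → Prop := fun w e => aft Lo w e ∧ pos w e < pos w R with hB
  have h1 : Pr S (fun w => (∀ e ∈ es, aft Y w e) ∧ aft Lo w z ∧ pos w z < pos w R ∧
        ∀ e ∈ A, ¬ (aft Lo w e ∧ pos w e < pos w R)) =
      Pr (Y ∪ es ∪ A) (fun w => F w ∧ ∀ e ∈ A, ¬ B w e) := by
    rw [← Pr_restrict hS]
    apply Pr_congr
    intro w hw
    have a1 : ∀ e ∈ es, (aft Y (w.filter (fun u => decide (u ∈ Y ∪ es ∪ A))) e ↔ aft Y w e) :=
      fun e he => pi_filt_aft hS hw (hΛA (heΛ he)) (hYΛ.trans hΛA)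
    have a2 : aft Lo (w.filter (fun u => decide (u ∈ Y ∪ es ∪ A))) z ↔ aft Lo w z :=
      pi_filt_aft hS hw (hΛA (heΛ hz)) (hLo.trans hΛA)
    have a3 := pi_filt hS hw (hΛA (heΛ hz)) (hΛA (heΛ hR))
    have a4 : ∀ e ∈ A, (aft Lo (w.filter (fun u => decide (u ∈ Y ∪ es ∪ A))) e ↔ aft Lo w e) :=
      fun e he => pi_filt_aft hS hw (hAA he) (hLo.trans hΛA)
    have a5 : ∀ e ∈ A, _ := fun e he => pi_filt hS hw (hAA he) (hΛA (heΛ hR))
    simp only [hF, hB]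
    constructor
    · rintro ⟨b1, b2, b3, b4⟩
      refine ⟨⟨fun e he => (a1 e he).2 (b1 e he), a2.2 b2, a3.2 b3⟩, fun e he h => ?_⟩
      exact b4 e he ⟨(a4 e he).1 h.1, (a5 e he).1 h.2⟩
    · rintro ⟨⟨b1, b2, b3⟩, b4⟩
      refine ⟨fun e he => (a1 e he).1 (b1 e he), a2.1 b2, a3.1 b3, fun e he h => ?_⟩
      exact b4 e he ⟨(a4 e he).2 h.1, (a5 e he).2 h.2⟩
  have h2 : 2 ≤ (Y ∪ es).card := by
    have c1 : 0 < Y.card := hY.card_pos
    have c2 : 0 < es.card := Finset.card_pos.2 ⟨z, hz⟩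
    omega
  -- facts on words
  have hfacts : ∀ A' ⊆ A, ∀ e ∈ A, e ∉ A' → ∀ w ∈ words (Y ∪ es ∪ A'), w.Nodup ∧ e ∉ w ∧
      (∀ v ∈ Y ∪ es, v ∈ w) ∧ ∀ v ∈ A', v ∈ w := by
    intro A' hA' e he heA' w hw
    rw [mem_words] at hw
    refine ⟨hw.1, ?_, ?_, ?_⟩
    · rw [hw.2, Finset.mem_union, not_or]
      exact ⟨fun h => (Finset.disjoint_left.1 hA) h he, heA'⟩
    · intro v hv
      rw [hw.2]
      exact Finset.mem_union_left _ hv
    · intro v hv
      rw [hw.2]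
      exact Finset.mem_union_right _ hv
  have h3 := Pr_avoid_le (Y ∪ es) A hA F B 2 h2 ?_ ?_ ?_
  · rw [h1]
    refine h3.trans ?_
    have h4 : Pr (Y ∪ es) F ≤ (es.card ! : ℝ) / (Y.card : ℝ) ^ es.card := by
      refine le_trans (Pr_mono fun w _ h => h.1) (Pr_aft (Y ∪ es) Y es hYe le_rfl hY)
    rw [hcard]
    push_cast
    exact mul_le_mul_of_nonneg_right h4 (by positivity)
  · intro A' hA' e he heA' w hw t ht hFw
    obtain ⟨c1, c2, c3, c4⟩ := hfacts A' hA' e he heA' w hw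
    obtain ⟨b1, b2, b3⟩ := hFw
    refine ⟨fun v hv => ?_, ?_, ?_⟩
    · exact (pi_ins_aft c1 c2 (c3 v (heΛ hv)) (fun u hu => c3 u (hYΛ hu)) ht).1 (b1 v hv)
    · exact (pi_ins_aft c1 c2 (c3 z (heΛ hz)) (fun u hu => c3 u (hLo hu)) ht).1 b2
    · exact (pos_insAt_lt_iff c1 c2 (c3 z (heΛ hz)) (c3 R (heΛ hR)) ht).1 b3
  · intro A' hA' e he heA' e' he' w hw t ht hBw
    obtain ⟨c1, c2, c3, c4⟩ := hfacts A' hA' e he heA' w hw
    refine ⟨?_, ?_⟩
    · exact (pi_ins_aft c1 c2 (c4 e' he') (fun u hu => c3 u (hLo hu)) ht).2 hBw.1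
    · exact (pos_insAt_lt_iff c1 c2 (c4 e' he') (c3 R (heΛ hR)) ht).2 hBw.2
  · intro A' hA' e he heA' w hw hFw
    obtain ⟨c1, c2, c3, c4⟩ := hfacts A' hA' e he heA' w hw
    obtain ⟨b1, b2, b3⟩ := hFw
    have hRlen : pos w R < w.length := List.idxOf_lt_length_iff.2 (c3 R (heΛ hR))
    have key : ∀ t ≤ w.length, (∀ v ∈ Lo, pos w v < t) → t ≤ pos w R → B (insAt t e w) e := by
      intro t ht k1 k2
      refine ⟨?_, ?_⟩
      · exact (pi_ins_self c1 c2 (fun u hu => c3 u (hLo hu)) ht).2 k1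
      · exact (pos_insAt_self_lt_iff c1 c2 (c3 R (heΛ hR)) ht).2 k2
    have hsub : ({pos w z, pos w R} : Finset ℕ) ⊆
        (Finset.range (w.length + 1)).filter (fun t => B (insAt t e w) e) := by
      intro t ht
      rw [Finset.mem_insert, Finset.mem_singleton] at ht
      rw [Finset.mem_filter, Finset.mem_range]
      rcases ht with rfl | rfl
      · exact ⟨by omega, key _ (by omega) b2 b3.le⟩
      · exact ⟨by omega, key _ (by omega) (fun v hv => (b2 v hv).trans b3) le_rfl⟩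
    have hc2 : ({pos w z, pos w R} : Finset ℕ).card = 2 := Finset.card_pair (by omega)
    rw [← hc2]
    convert Finset.card_le_card hsub

end CPI
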