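import Pool.Agent.Lib.MP_cb75a6_co.Dis.Defs
import Pool.Agent.Lib.MP_cb75a6_co.Dis.W1
import Pool.Agent.Lib.MP_cb75a6_co.Dis.W1N
import Pool.Agent.Lib.MP_cb75a6_co.Dis.W2
import Pool.Agent.Lib.MP_cb75a6_co.Dis.W2F
import Pool.Agent.Lib.MP_cb75a6_co.Dis.W3I
import Pool.Agent.Lib.MP_cb75a6_co.Dis.W3R
import Pool.Agent.Lib.MP_cb75a6_co.Dis.W3P
import Pool.Agent.Lib.MP_cb75a6_co.Dis.AV1
import Pool.Agent.Lib.MP_cb75a6_co.Dis.AV2

set_option autoImplicit false

namespace CPI

open scoped Nat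

variable {α : Type} [DecidableEq α]

/-- the basic pattern as a statement about the order relation `P` -/
private def PM_F (Y : Finset α) (a z R y₁ y₂ : α) (P : α → α → Prop) : Prop :=
  (∃ v ∈ Y, P a v) ∧ (∀ v ∈ Y, P v z) ∧ P z R ∧ P R y₁ ∧ P R y₂

omit [DecidableEq α] in
private theorem PM_F_imp (Y : Finset α) (a z R y₁ y₂ : α) (P P' : α → α → Prop)
    (Λ : Finset α) (hY : Y ⊆ Λ) (ha : a ∈ Λ) (hz : z ∈ Λ) (hR : R ∈ Λ) (h1 : y₁ ∈ Λ)
    (h2 : y₂ ∈ Λ) (h : ∀ u ∈ Λ, ∀ v ∈ Λ, P u v → P' u v) (hP : PM_F Y a z R y₁ y₂ P) :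
    PM_F Y a z R y₁ y₂ P' := by
  obtain ⟨⟨v, hv, c1⟩, c2, c3, c4, c5⟩ := hP
  exact ⟨⟨v, hv, h _ ha _ (hY hv) c1⟩, fun v hv => h _ (hY hv) _ hz (c2 v hv),
    h _ hz _ hR c3, h _ hR _ h1 c4, h _ hR _ h2 c5⟩

/-- `N_insert_ge` with an explicit set of positions -/
private theorem PM_insert {S : Finset α} {e : α} (he : e ∉ S) {E F : List α → Prop} {g : ℕ}
    (hg : ∀ w ∈ words S, F w → ∃ s : Finset ℕ, g ≤ s.card ∧ ∀ t ∈ s, t ≤ S.card ∧
      E (insAt t e w)) : g * N S F ≤ N (insert e S) E := by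
  classical
  apply N_insert_ge he
  intro w hw hF
  obtain ⟨s, hs, h⟩ := hg w hw hF
  refine hs.trans (Finset.card_le_card ?_)
  intro t ht
  exact Finset.mem_filter.2 ⟨Finset.mem_range.2 (by have := (h t ht).1; omega), (h t ht).2⟩

/-- append a letter at the end -/
private theorem PM_append {S : Finset α} {e : α} (he : e ∉ S) {E E' : List α → Prop}
    (h : ∀ w ∈ words S, E w → E' (insAt w.length e w)) : N S E ≤ N (insert e S) E' := by
  classical
  have := N_insert_ge he (E := E') (F := E) (g := 1) ?_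
  · rwa [one_mul] at this
  · intro w hw hE
    rw [Nat.one_le_iff_ne_zero, Finset.card_ne_zero]
    have hl := length_of_mem_words hw
    refine ⟨w.length, Finset.mem_filter.2 ⟨Finset.mem_range.2 (by omega), h w hw hE⟩⟩

private theorem PM_lt_end {S : Finset α} {e u : α} {w : List α} (he : e ∉ S) (hw : w ∈ words S)
    (hu : u ∈ S) : pos (insAt w.length e w) u < pos (insAt w.length e w) e := by
  obtain ⟨hn, hm⟩ := mem_words.1 hw
  rw [pos_insAt_lt_self_iff hn (fun h => he ((hm _).1 h)) ((hm _).2 hu) le_rfl]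
  exact List.idxOf_lt_length_iff.2 ((hm _).2 hu)

private theorem PM_lt_iff {S : Finset α} {e u v : α} {w : List α} {t : ℕ} (he : e ∉ S)
    (hw : w ∈ words S) (hu : u ∈ S) (hv : v ∈ S) (ht : t ≤ w.length) :
    pos (insAt t e w) u < pos (insAt t e w) v ↔ pos w u < pos w v := by
  obtain ⟨hn, hm⟩ := mem_words.1 hw
  exact pos_insAt_lt_iff hn (fun h => he ((hm _).1 h)) ((hm _).2 hu) ((hm _).2 hv) ht

/-- the number of words of the basic pattern -/
private theorem PM_count (Y : Finset α) (a z R y₁ y₂ : α)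
    (hnd : [a, z, R, y₁, y₂].Nodup) (hYd : ∀ e ∈ [a, z, R, y₁, y₂], e ∉ Y) :
    Y.card * Y.card ! ≤ N (insert y₂ (insert y₁ (insert R (insert z (insert a Y)))))
      (fun w => PM_F Y a z R y₁ y₂ (fun u v => pos w u < pos w v)) := by
  classical
  simp only [List.nodup_cons, List.mem_cons, List.not_mem_nil, or_false, not_or,
    List.nodup_nil, and_true, not_false_eq_true] at hnd
  obtain ⟨⟨naz, naR, na1, na2⟩, ⟨nzR, nz1, nz2⟩, ⟨nR1, nR2⟩, n12⟩ := hnd
  have ha : a ∉ Y := hYd a (by simp)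
  have hz : z ∉ Y := hYd z (by simp)
  have hR : R ∉ Y := hYd R (by simp)
  have h1 : y₁ ∉ Y := hYd y₁ (by simp)
  have h2 : y₂ ∉ Y := hYd y₂ (by simp)
  -- insert a
  have s1 : Y.card * Y.card ! ≤ N (insert a Y) (fun w => ∃ v ∈ Y, pos w a < pos w v) := by
    have := PM_insert ha (E := fun w => ∃ v ∈ Y, pos w a < pos w v) (F := fun _ => True)
      (g := Y.card) ?_
    · rwa [N_true] at this
    · intro w hw _
      obtain ⟨hn, hm⟩ := mem_words.1 hw
      have hl := length_of_mem_words hw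
      refine ⟨Finset.range Y.card, by rw [Finset.card_range], ?_⟩
      intro t ht
      rw [Finset.mem_range] at ht
      refine ⟨by omega, w[t]'(by omega), (hm _).1 (List.getElem_mem _), ?_⟩
      rw [pos_insAt_self_lt_iff hn (fun h => ha ((hm _).1 h)) (List.getElem_mem _) (by omega)]
      have : pos w (w[t]'(by omega)) = t := hn.idxOf_getElem t (by omega)
      omega
  have hz' : z ∉ insert a Y := by simp [hz, Ne.symm naz]
  have s2 : N (insert a Y) (fun w => ∃ v ∈ Y, pos w a < pos w v) ≤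
      N (insert z (insert a Y)) (fun w => (∃ v ∈ Y, pos w a < pos w v) ∧
        ∀ v ∈ Y, pos w v < pos w z) := by
    apply PM_append hz'
    rintro w hw ⟨v, hv, hlt⟩
    refine ⟨⟨v, hv, (PM_lt_iff hz' hw (by simp) (by simp [hv]) le_rfl).2 hlt⟩, fun v hv => ?_⟩
    exact PM_lt_end hz' hw (by simp [hv])
  have hR' : R ∉ insert z (insert a Y) := by simp [hR, Ne.symm naR, Ne.symm nzR]
  have s3 : N (insert z (insert a Y)) (fun w => (∃ v ∈ Y, pos w a < pos w v) ∧
        ∀ v ∈ Y, pos w v < pos w z) ≤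
      N (insert R (insert z (insert a Y))) (fun w => (∃ v ∈ Y, pos w a < pos w v) ∧
        (∀ v ∈ Y, pos w v < pos w z) ∧ pos w z < pos w R) := by
    apply PM_append hR'
    rintro w hw ⟨⟨v, hv, hlt⟩, c2⟩
    refine ⟨⟨v, hv, (PM_lt_iff hR' hw (by simp) (by simp [hv]) le_rfl).2 hlt⟩,
      fun v hv => (PM_lt_iff hR' hw (by simp [hv]) (by simp) le_rfl).2 (c2 v hv), ?_⟩
    exact PM_lt_end hR' hw (by simp)
  have h1' : y₁ ∉ insert R (insert z (insert a Y)) := by
    simp [h1, Ne.symm na1, Ne.symm nz1, Ne.symm nR1]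
  have s4 : N (insert R (insert z (insert a Y))) (fun w => (∃ v ∈ Y, pos w a < pos w v) ∧
        (∀ v ∈ Y, pos w v < pos w z) ∧ pos w z < pos w R) ≤
      N (insert y₁ (insert R (insert z (insert a Y)))) (fun w => (∃ v ∈ Y, pos w a < pos w v) ∧
        (∀ v ∈ Y, pos w v < pos w z) ∧ pos w z < pos w R ∧ pos w R < pos w y₁) := by
    apply PM_append h1'
    rintro w hw ⟨⟨v, hv, hlt⟩, c2, c3⟩
    refine ⟨⟨v, hv, (PM_lt_iff h1' hw (by simp) (by simp [hv]) le_rfl).2 hlt⟩,
      fun v hv => (PM_lt_iff h1' hw (by simp [hv]) (by simp) le_rfl).2 (c2 v hv),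
      (PM_lt_iff h1' hw (by simp) (by simp) le_rfl).2 c3, ?_⟩
    exact PM_lt_end h1' hw (by simp)
  have h2' : y₂ ∉ insert y₁ (insert R (insert z (insert a Y))) := by
    simp [h2, Ne.symm na2, Ne.symm nz2, Ne.symm nR2, Ne.symm n12]
  have s5 : N (insert y₁ (insert R (insert z (insert a Y))))
        (fun w => (∃ v ∈ Y, pos w a < pos w v) ∧
        (∀ v ∈ Y, pos w v < pos w z) ∧ pos w z < pos w R ∧ pos w R < pos w y₁) ≤
      N (insert y₂ (insert y₁ (insert R (insert z (insert a Y)))))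
        (fun w => PM_F Y a z R y₁ y₂ (fun u v => pos w u < pos w v)) := by
    apply PM_append h2'
    rintro w hw ⟨⟨v, hv, hlt⟩, c2, c3, c4⟩
    refine ⟨⟨v, hv, (PM_lt_iff h2' hw (by simp) (by simp [hv]) le_rfl).2 hlt⟩,
      fun v hv => (PM_lt_iff h2' hw (by simp [hv]) (by simp) le_rfl).2 (c2 v hv),
      (PM_lt_iff h2' hw (by simp) (by simp) le_rfl).2 c3,
      (PM_lt_iff h2' hw (by simp) (by simp) le_rfl).2 c4, ?_⟩
    exact PM_lt_end h2' hw (by simp)
  exact s1.trans (s2.trans (s3.trans (s4.trans s5)))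

/-- lower bound for the main pattern -/
theorem Pr_main (S Y A : Finset α) (a z R y₁ y₂ : α) (hY : Y.Nonempty)
    (hnd : [a, z, R, y₁, y₂].Nodup) (hYd : ∀ e ∈ [a, z, R, y₁, y₂], e ∉ Y)
    (hAd : ∀ e ∈ [a, z, R, y₁, y₂], e ∉ A) (hYA : Disjoint Y A)
    (hS : Y ∪ {a, z, R, y₁, y₂} ∪ A ⊆ S) :
    (Y.card : ℝ) / ((Y.card + 1) * (Y.card + 2) * (Y.card + 3) *
        (Y.card + 5 + A.card) * (Y.card + 4 + A.card)) ≤
    Pr S (fun w => (∃ v ∈ Y, pos w a < pos w v) ∧ aft Y w z ∧ pos w z < pos w R ∧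
        pos w R < pos w y₁ ∧ pos w R < pos w y₂ ∧
        ∀ e ∈ A, ¬ (aft Y w e ∧ pos w e < pos w R)) := by
  classical
  have hcount := PM_count Y a z R y₁ y₂ hnd hYd
  have hΛ : Y ∪ {a, z, R, y₁, y₂} = insert y₂ (insert y₁ (insert R (insert z (insert a Y)))) := by
    ext u
    simp only [Finset.mem_union, Finset.mem_insert, Finset.mem_singleton]
    tauto
  have hΛcard : (Y ∪ {a, z, R, y₁, y₂}).card = Y.card + 5 := by
    simp only [List.nodup_cons, List.mem_cons, List.not_mem_nil, or_false, not_or,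
      List.nodup_nil, and_true, not_false_eq_true] at hnd
    obtain ⟨⟨naz, naR, na1, na2⟩, ⟨nzR, nz1, nz2⟩, ⟨nR1, nR2⟩, n12⟩ := hnd
    have ha : a ∉ Y := hYd a (by simp)
    have hz : z ∉ Y := hYd z (by simp)
    have hR : R ∉ Y := hYd R (by simp)
    have h1 : y₁ ∉ Y := hYd y₁ (by simp)
    have h2 : y₂ ∉ Y := hYd y₂ (by simp)
    rw [hΛ, Finset.card_insert_of_notMem (by simp [h2, Ne.symm na2, Ne.symm nz2, Ne.symm nR2,
      Ne.symm n12]), Finset.card_insert_of_notMem (by simp [h1, Ne.symm na1, Ne.symm nz1,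
      Ne.symm nR1]), Finset.card_insert_of_notMem (by simp [hR, Ne.symm naR, Ne.symm nzR]),
      Finset.card_insert_of_notMem (by simp [hz, Ne.symm naz]),
      Finset.card_insert_of_notMem ha]
  set Λ := Y ∪ {a, z, R, y₁, y₂} with hΛdef
  rw [← hΛ] at hcount
  have mY : Y ⊆ Λ := Finset.subset_union_left
  have ma : a ∈ Λ := by simp [hΛdef]
  have mz : z ∈ Λ := by simp [hΛdef]
  have mR : R ∈ Λ := by simp [hΛdef]
  have m1 : y₁ ∈ Λ := by simp [hΛdef]
  have m2 : y₂ ∈ Λ := by simp [hΛdef]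
  have hd : Disjoint Λ A := by
    rw [hΛdef, Finset.disjoint_union_left]
    refine ⟨hYA, ?_⟩
    rw [Finset.disjoint_left]
    intro e he
    apply hAd e
    simpa using he
  -- the event as a statement about the order
  set F : List α → Prop := fun w => PM_F Y a z R y₁ y₂ (fun u v => pos w u < pos w v) with hF
  set B : List α → α → Prop := fun w e => (∀ v ∈ Y, pos w v < pos w e) ∧ pos w e < pos w R
    with hB
  set E0 : List α → Prop := fun w => F w ∧ ∀ e ∈ A, ¬ B w e with hE0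
  have hrestr : Pr S (fun w => (∃ v ∈ Y, pos w a < pos w v) ∧ aft Y w z ∧ pos w z < pos w R ∧
        pos w R < pos w y₁ ∧ pos w R < pos w y₂ ∧
        ∀ e ∈ A, ¬ (aft Y w e ∧ pos w e < pos w R)) = Pr (Λ ∪ A) E0 := by
    rw [← Pr_restrict hS E0]
    apply Pr_congr
    intro w hw
    obtain ⟨hn, hm⟩ := mem_words.1 hw
    have key : ∀ u ∈ Λ ∪ A, ∀ v ∈ Λ ∪ A,
        (pos (w.filter (fun u => decide (u ∈ Λ ∪ A))) u <
          pos (w.filter (fun u => decide (u ∈ Λ ∪ A))) v ↔ pos w u < pos w v) := by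
      intro u hu v hv
      exact pos_filter_lt_iff _ hn ((hm u).2 (hS hu)) ((hm v).2 (hS hv)) (by simpa using hu)
        (by simpa using hv)
    have hsub : Λ ⊆ Λ ∪ A := Finset.subset_union_left
    have hsubA : A ⊆ Λ ∪ A := Finset.subset_union_right
    constructor
    · rintro ⟨c1, c2, c3, c4, c5, c6⟩
      refine ⟨PM_F_imp Y a z R y₁ y₂ (fun u v => pos w u < pos w v) _ Λ mY ma mz mR m1 m2
        (fun u hu v hv h => (key u (hsub hu) v (hsub hv)).2 h) ⟨c1, c2, c3, c4, c5⟩, ?_⟩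
      rintro e he ⟨b1, b2⟩
      exact c6 e he ⟨fun v hv => (key v (hsub (mY hv)) e (hsubA he)).1 (b1 v hv),
        (key e (hsubA he) R (hsub mR)).1 b2⟩
    · rintro ⟨hf, c6⟩
      obtain ⟨c1, c2, c3, c4, c5⟩ := PM_F_imp Y a z R y₁ y₂ _ (fun u v => pos w u < pos w v) Λ
        mY ma mz mR m1 m2 (fun u hu v hv h => (key u (hsub hu) v (hsub hv)).1 h) hf
      refine ⟨c1, c2, c3, c4, c5, ?_⟩
      rintro e he ⟨b1, b2⟩
      exact c6 e he ⟨fun v hv => (key v (hsub (mY hv)) e (hsubA he)).2 (b1 v hv),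
        (key e (hsubA he) R (hsub mR)).2 b2⟩
  rw [hrestr]
  -- the counting bound
  have hav := N_avoid_ge Λ A hd F B 2 ?_ ?_ ?_
  · -- numbers
    have hp2 := prod_avoid_two (Y.card + 5) A.card (by omega)
    have hcardU : (Λ ∪ A).card = Y.card + 5 + A.card := by
      rw [Finset.card_union_of_disjoint hd, hΛcard]
    rw [hΛcard] at hav
    unfold Pr
    rw [hcardU]
    have hfp : (0 : ℝ) < ((Y.card + 5 + A.card)! : ℝ) := by exact_mod_cast Nat.factorial_pos _
    have hk : (0 : ℝ) ≤ Y.card := Nat.cast_nonneg _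
    have hq : (0 : ℝ) ≤ A.card := Nat.cast_nonneg _
    have h5 : ((Y.card + 5)! : ℝ) = (Y.card + 5) * (Y.card + 4) * (Y.card + 3) * (Y.card + 2) *
        (Y.card + 1) * (Y.card ! : ℝ) := by
      have : (Y.card + 5)! = (Y.card + 5) * ((Y.card + 4) * ((Y.card + 3) * ((Y.card + 2) *
        ((Y.card + 1) * Y.card !)))) := by
        simp only [Nat.factorial_succ]
      rw [this]
      push_cast
      ring
    set k : ℝ := (Y.card : ℝ) with hkdef
    set q : ℝ := (A.card : ℝ) with hqdef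
    have hf0 : (0 : ℝ) < (Y.card ! : ℝ) := by exact_mod_cast Nat.factorial_pos _
    have hf5 : (0 : ℝ) < ((Y.card + 5)! : ℝ) := by exact_mod_cast Nat.factorial_pos _
    have hP : ((∏ l ∈ Finset.range A.card, (Y.card + 5 + l + 1 - 2) : ℕ) : ℝ) =
        ((k + 5) * (k + 4)) / ((k + 5 + q) * (k + 4 + q)) * ((Y.card + 5 + A.card)! : ℝ) /
          ((Y.card + 5)! : ℝ) := by
      rw [div_eq_iff hfp.ne'] at hp2
      rw [eq_div_iff hf5.ne', hp2]
      push_cast
      ring
    have hav' : (N Λ F : ℝ) * ((∏ l ∈ Finset.range A.card, (Y.card + 5 + l + 1 - 2) : ℕ) : ℝ) ≤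
        (N (Λ ∪ A) E0 : ℝ) := by exact_mod_cast hav
    have hcount' : k * (Y.card ! : ℝ) ≤ (N Λ F : ℝ) := by
      rw [hkdef]
      exact_mod_cast hcount
    rw [le_div_iff₀ hfp]
    refine le_trans ?_ hav'
    refine le_trans ?_ (mul_le_mul_of_nonneg_right hcount' (Nat.cast_nonneg _))
    rw [hP, h5]
    apply le_of_eq
    field_simp
  · intro A' hA' e he heA' w hw t ht hFw
    have heΛ : e ∉ Λ ∪ A' := by
      rw [Finset.mem_union, not_or]
      exact ⟨fun h => (Finset.disjoint_left.1 hd h) he, heA'⟩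
    refine PM_F_imp Y a z R y₁ y₂ _ _ Λ mY ma mz mR m1 m2 ?_ hFw
    intro u hu v hv h
    exact (PM_lt_iff heΛ hw (Finset.mem_union_left _ hu) (Finset.mem_union_left _ hv) ht).2 h
  · rintro A' hA' e he heA' e' he' w hw t ht ⟨b1, b2⟩
    have heΛ : e ∉ Λ ∪ A' := by
      rw [Finset.mem_union, not_or]
      exact ⟨fun h => (Finset.disjoint_left.1 hd h) he, heA'⟩
    refine ⟨fun v hv => ?_, ?_⟩
    · exact (PM_lt_iff heΛ hw (Finset.mem_union_left _ (mY hv))
        (Finset.mem_union_right _ he') ht).1 (b1 v hv)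
    · exact (PM_lt_iff heΛ hw (Finset.mem_union_right _ he')
        (Finset.mem_union_left _ mR) ht).1 b2
  · intro A' hA' e he heA' w hw hFw hnB
    have heΛ : e ∉ Λ ∪ A' := by
      rw [Finset.mem_union, not_or]
      exact ⟨fun h => (Finset.disjoint_left.1 hd h) he, heA'⟩
    obtain ⟨hn, hm⟩ := mem_words.1 hw
    have hew : e ∉ w := fun h => heΛ ((hm _).1 h)
    obtain ⟨⟨v1, hv1, c1⟩, c2, c3, c4, c5⟩ := hFw
    obtain ⟨v0, hv0, hv0'⟩ := Finset.exists_mem_eq_sup Y hY (pos w)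
    set T := Y.sup (pos w) with hT
    have hle : ∀ v ∈ Y, pos w v ≤ T := fun v hv => Finset.le_sup (f := pos w) hv
    have hwmem : ∀ u ∈ Λ, u ∈ w := fun u hu => (hm u).2 (Finset.mem_union_left _ hu)
    have hRlt : pos w R < w.length := List.idxOf_lt_length_iff.2 (hwmem R mR)
    have hzT : T < pos w z := by rw [hv0']; exact c2 v0 hv0
    have hRT : pos w R ≤ T + 2 := by
      by_contra hcon
      -- two different letters strictly between `T` and `R`, one of them is not `z`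
      have hex : ∃ t, T < t ∧ t < pos w R ∧ t ≠ pos w z := by
        by_cases h : T + 1 = pos w z
        · exact ⟨T + 2, by omega, by omega, by omega⟩
        · exact ⟨T + 1, by omega, by omega, h⟩
      obtain ⟨t, ht1, ht2, ht3⟩ := hex
      have hpt : pos w (w[t]'(by omega)) = t := hn.idxOf_getElem t (by omega)
      have hu := (hm _).1 (List.getElem_mem (l := w) (n := t) (by omega))
      set u := w[t]'(by omega) with hu'
      rcases Finset.mem_union.1 hu with h | h
      · rw [hΛdef, Finset.mem_union] at h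
        rcases h with h | h
        · have := hle u h; omega
        · simp only [Finset.mem_insert, Finset.mem_singleton] at h
          rcases h with h | h | h | h | h
          · rw [h] at hpt; have := hle v1 hv1; omega
          · rw [h] at hpt; omega
          · rw [h] at hpt; omega
          · rw [h] at hpt; omega
          · rw [h] at hpt; omega
      · apply hnB u h
        refine ⟨fun v hv => ?_, by omega⟩
        have := hle v hv
        omega
    refine Nat.le_trans (Finset.card_le_card (t := Finset.Ioc T (pos w R)) ?_)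
      (by rw [Nat.card_Ioc]; omega)
    intro t ht
    obtain ⟨ht1, b1, b2⟩ := (@Finset.mem_filter _ _ (_) _ _).1 ht
    rw [Finset.mem_range] at ht1
    rw [pos_insAt_self_lt_iff hn hew (hwmem R mR) (by omega)] at b2
    have b3 := b1 v0 hv0
    rw [pos_insAt_lt_self_iff hn hew (hwmem v0 (mY hv0)) (by omega)] at b3
    rw [Finset.mem_Ioc]
    omega

end CPI
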