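import Pool.Agent.Lib.MP_cb75a6_co.Dis.Defs

set_option autoImplicit false

namespace CPI

open Ltr

variable {p q m n D : ℕ}

/-- `Ltr` as a sum type -/
def ltrEquiv : Ltr p q m n D ≃
    Unit ⊕ Unit ⊕ Unit ⊕ Fin p ⊕ Fin q ⊕ Fin m ⊕ Fin m ⊕ Fin n ⊕ (Fin n × Bool) ⊕ Fin D where
  toFun
    | .a => .inl ()
    | .b => .inr (.inl ())
    | .x => .inr (.inr (.inl ()))
    | .X i => .inr (.inr (.inr (.inl i)))
    | .A i => .inr (.inr (.inr (.inr (.inl i))))
    | .c k => .inr (.inr (.inr (.inr (.inr (.inl k)))))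
    | .z k => .inr (.inr (.inr (.inr (.inr (.inr (.inl k))))))
    | .R i => .inr (.inr (.inr (.inr (.inr (.inr (.inr (.inl i)))))))
    | .y i h => .inr (.inr (.inr (.inr (.inr (.inr (.inr (.inr (.inl (i, h)))))))))
    | .d i => .inr (.inr (.inr (.inr (.inr (.inr (.inr (.inr (.inr i))))))))
  invFun
    | .inl _ => .a
    | .inr (.inl _) => .b
    | .inr (.inr (.inl _)) => .x
    | .inr (.inr (.inr (.inl i))) => .X i
    | .inr (.inr (.inr (.inr (.inl i)))) => .A i
    | .inr (.inr (.inr (.inr (.inr (.inl k))))) => .c k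
    | .inr (.inr (.inr (.inr (.inr (.inr (.inl k)))))) => .z k
    | .inr (.inr (.inr (.inr (.inr (.inr (.inr (.inl i))))))) => .R i
    | .inr (.inr (.inr (.inr (.inr (.inr (.inr (.inr (.inl (i, h))))))))) => .y i h
    | .inr (.inr (.inr (.inr (.inr (.inr (.inr (.inr (.inr i)))))))) => .d i
  left_inv u := by cases u <;> rfl
  right_inv u := by
    rcases u with _ | _ | _ | _ | _ | _ | _ | _ | ⟨_, _⟩ | _ <;> rfl

theorem sum_Ltr {M : Type} [AddCommMonoid M] (f : Ltr p q m n D → M) :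
    ∑ u, f u = f .a + (f .b + (f .x + (∑ i, f (.X i) + (∑ i, f (.A i) + (∑ k, f (.c k) +
      (∑ k, f (.z k) + (∑ i, f (.R i) + (∑ i, (f (.y i true) + f (.y i false)) +
        ∑ i, f (.d i))))))))) := by
  rw [← Equiv.sum_comp (ltrEquiv (p := p) (q := q) (m := m) (n := n) (D := D)).symm f]
  simp only [Fintype.sum_sum_type, Finset.univ_unique, Finset.sum_singleton,
    Fintype.sum_prod_type, Fintype.sum_bool]
  rfl

/-- sums over the letters of `Q` -/
theorem sum_Qs {M : Type} [AddCommMonoid M] (f : Ltr p q m n D → M) :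
    ∑ u ∈ Qs p q m n D, f u = f .a + (f .x + (∑ i, f (.X i) + (∑ i, f (.A i) + (∑ k, f (.c k) +
      (∑ k, f (.z k) + (∑ i, f (.R i) + ∑ i, (f (.y i true) + f (.y i false)))))))) := by
  unfold Qs
  rw [Finset.sum_filter, sum_Ltr]
  simp [isQ]

end CPI
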