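import Pool.Agent.Lib.MP_cb75a6_co.Dis.Defs
import Pool.Agent.Lib.MP_cb75a6_co.Dis.SU

set_option autoImplicit false

namespace CPI

open scoped Nat
open Ltr

variable {p q m n D : ℕ}

theorem card_Qs : (Qs p q m n D).card = 2 + p + q + 2 * m + 3 * n := by
  rw [Finset.card_eq_sum_ones, sum_Qs]
  simp
  ring

theorem card_Xs : (Xs p q m n D).card = p + 1 := by
  unfold Xs
  rw [Finset.card_eq_sum_ones, Finset.sum_filter, sum_Ltr]
  simp [isX]
  ring

theorem card_As : (As p q m n D).card = q := by
  unfold As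
  rw [Finset.card_eq_sum_ones, Finset.sum_filter, sum_Ltr]
  simp [isA]

theorem card_Ltr : Fintype.card (Ltr p q m n D) = 3 + p + q + 2 * m + 3 * n + D := by
  rw [← Finset.card_univ, Finset.card_eq_sum_ones, sum_Ltr]
  simp
  ring

theorem isMin_iff (u : Ltr p q m n D) :
    IsMin u ↔ u = .a ∨ u = .b ∨ (∃ k, u = .z k) ∨ ∃ i h, u = .y i h := by
  have key : IsMin u ↔ ∀ v, ¬ v < u := by
    rw [isMin_iff_forall_not_lt]
  rw [key]
  constructor
  · intro h
    cases u with
    | a => simp
    | b => simp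
    | x => exact absurd (show (Ltr.b : Ltr p q m n D) < .x from rfl) (h _)
    | X i => exact absurd (show (Ltr.b : Ltr p q m n D) < .X i from rfl) (h _)
    | A i => exact absurd (show (Ltr.a : Ltr p q m n D) < .A i from rfl) (h _)
    | c k => exact absurd (show (Ltr.b : Ltr p q m n D) < .c k from rfl) (h _)
    | z k => simp
    | R i => exact absurd (show (Ltr.b : Ltr p q m n D) < .R i from rfl) (h _)
    | y i h => simp
    | d i => exact absurd (show (Ltr.b : Ltr p q m n D) < .d i from rfl) (h _)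
  · rintro (rfl | rfl | ⟨k, rfl⟩ | ⟨i, h, rfl⟩) v hv <;> rw [lt_def] at hv <;>
      cases v <;> simp [ltb] at hv

end CPI
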