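import Pool.Agent.Lib.MP_cb75a6_co.Dis.Defs
import Pool.Agent.Lib.MP_cb75a6_co.Dis.W1
import Pool.Agent.Lib.MP_cb75a6_co.Dis.W2
import Pool.Agent.Lib.MP_cb75a6_co.Dis.W2F
import Pool.Agent.Lib.MP_cb75a6_co.Dis.W3R
import Pool.Agent.Lib.MP_cb75a6_co.Dis.W3P
import Pool.Agent.Lib.MP_cb75a6_co.Dis.U1
import Pool.Agent.Lib.MP_cb75a6_co.Dis.AV3

set_option autoImplicit false

namespace CPI

open scoped Nat

variable {α : Type} [DecidableEq α]

/-- pattern (s4) -/
theorem Pr_s4 (S Y es A : Finset α) (a z R : α) (hY : Y.Nonempty) (hYe : Disjoint Y es)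
    (hA : Disjoint (insert a (Y ∪ es)) A) (ha : a ∉ Y ∪ es)
    (hS : insert a (Y ∪ es) ∪ A ⊆ S) (hz : z ∈ es) (hR : R ∈ es) :
    Pr S (fun w => (∀ e ∈ es, aft Y w e) ∧ (∃ v ∈ Y, pos w a < pos w v) ∧ pos w z < pos w R ∧
        ∀ e ∈ A, ¬ (aft2 Y w e ∧ pos w a < pos w e ∧ pos w e < pos w R)) ≤
      (es.card ! : ℝ) / (Y.card : ℝ) ^ es.card *
        (((Y.card + 1 + es.card : ℕ) : ℝ) / ((Y.card + 1 + es.card + A.card : ℕ) : ℝ)) ^ 3 := by
  classical
  set Λ := insert a (Y ∪ es) with hΛ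
  have mY : Y ⊆ Λ := fun u hu => Finset.mem_insert_of_mem (Finset.mem_union_left _ hu)
  have mes : es ⊆ Λ := fun u hu => Finset.mem_insert_of_mem (Finset.mem_union_right _ hu)
  have ma : a ∈ Λ := Finset.mem_insert_self _ _
  have mz : z ∈ Λ := mes hz
  have mR : R ∈ Λ := mes hR
  have hcard : Λ.card = Y.card + 1 + es.card := by
    rw [hΛ, Finset.card_insert_of_notMem ha, Finset.card_union_of_disjoint hYe]
    ring
  set F : List α → Prop := fun w => (∀ e ∈ es, ∀ v ∈ Y, pos w v < pos w e) ∧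
    (∃ v ∈ Y, pos w a < pos w v) ∧ pos w z < pos w R with hF
  set B : List α → α → Prop := fun w e => aft2 Y w e ∧ pos w a < pos w e ∧ pos w e < pos w R
    with hB
  have hrestr : Pr S (fun w => (∀ e ∈ es, aft Y w e) ∧ (∃ v ∈ Y, pos w a < pos w v) ∧
      pos w z < pos w R ∧
        ∀ e ∈ A, ¬ (aft2 Y w e ∧ pos w a < pos w e ∧ pos w e < pos w R)) =
      Pr (Λ ∪ A) (fun w => F w ∧ ∀ e ∈ A, ¬ B w e) := by
    rw [← Pr_restrict hS (fun w => F w ∧ ∀ e ∈ A, ¬ B w e)]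
    apply Pr_congr
    intro w hw
    obtain ⟨hn, hm⟩ := mem_words.1 hw
    have key : ∀ u ∈ Λ ∪ A, ∀ v ∈ Λ ∪ A,
        (pos (w.filter (fun u => decide (u ∈ Λ ∪ A))) u <
          pos (w.filter (fun u => decide (u ∈ Λ ∪ A))) v ↔ pos w u < pos w v) := by
      intro u hu v hv
      exact pos_filter_lt_iff _ hn ((hm u).2 (hS hu)) ((hm v).2 (hS hv)) (by simpa using hu)
        (by simpa using hv)
    have hsub : Λ ⊆ Λ ∪ A := Finset.subset_union_left
    have hsubA : A ⊆ Λ ∪ A := Finset.subset_union_right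
    constructor
    · rintro ⟨c1, ⟨v, hv, c2⟩, c3, c4⟩
      refine ⟨⟨fun e he v hv => (key v (hsub (mY hv)) e (hsub (mes he))).2 (c1 e he v hv),
        ⟨v, hv, (key a (hsub ma) v (hsub (mY hv))).2 c2⟩,
        (key z (hsub mz) R (hsub mR)).2 c3⟩, ?_⟩
      rintro e he ⟨⟨v', hv', b1⟩, b2, b3⟩
      exact c4 e he ⟨⟨v', hv', fun u hu huv =>
        (key u (hsub (mY hu)) e (hsubA he)).1 (b1 u hu huv)⟩,
        (key a (hsub ma) e (hsubA he)).1 b2, (key e (hsubA he) R (hsub mR)).1 b3⟩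
    · rintro ⟨⟨c1, ⟨v, hv, c2⟩, c3⟩, c4⟩
      refine ⟨fun e he v hv => (key v (hsub (mY hv)) e (hsub (mes he))).1 (c1 e he v hv),
        ⟨v, hv, (key a (hsub ma) v (hsub (mY hv))).1 c2⟩,
        (key z (hsub mz) R (hsub mR)).1 c3, ?_⟩
      rintro e he ⟨⟨v', hv', b1⟩, b2, b3⟩
      exact c4 e he ⟨⟨v', hv', fun u hu huv =>
        (key u (hsub (mY hu)) e (hsubA he)).2 (b1 u hu huv)⟩,
        (key a (hsub ma) e (hsubA he)).2 b2, (key e (hsubA he) R (hsub mR)).2 b3⟩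
  rw [hrestr]
  have hins : ∀ A' ⊆ A, ∀ e ∈ A, e ∉ A' → ∀ w ∈ words (Λ ∪ A'), ∀ t ≤ w.length,
      ∀ u ∈ Λ ∪ A', ∀ v ∈ Λ ∪ A', (pos (insAt t e w) u < pos (insAt t e w) v ↔
        pos w u < pos w v) := by
    intro A' hA' e he heA' w hw t ht u hu v hv
    obtain ⟨hn, hm⟩ := mem_words.1 hw
    have heΛ : e ∉ Λ ∪ A' := by
      rw [Finset.mem_union, not_or]
      exact ⟨fun h => (Finset.disjoint_left.1 hA h) he, heA'⟩
    exact pos_insAt_lt_iff hn (fun h => heΛ ((hm _).1 h)) ((hm _).2 hu) ((hm _).2 hv) ht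
  have hav := Pr_avoid_le Λ A hA F B 3 ?_ ?_ ?_ ?_
  · refine hav.trans ?_
    have h1 : Pr Λ F ≤ (es.card ! : ℝ) / (Y.card : ℝ) ^ es.card := by
      refine le_trans (Pr_mono (F := fun w => ∀ e ∈ es, aft Y w e) ?_)
        (Pr_aft Λ Y es hYe (Finset.subset_insert _ _) hY)
      rintro w hw ⟨c1, -⟩
      exact c1
    rw [hcard]
    have e1 : (((Y.card + 1 + es.card : ℕ) : ℝ) / (((Y.card + 1 + es.card : ℕ) : ℝ) + A.card)) =
        (((Y.card + 1 + es.card : ℕ) : ℝ) / ((Y.card + 1 + es.card + A.card : ℕ) : ℝ)) := by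
      push_cast
      ring
    rw [e1]
    apply mul_le_mul_of_nonneg_right h1
    positivity
  · rw [hcard]
    have := hY.card_pos
    have : 0 < es.card := Finset.card_pos.2 ⟨z, hz⟩
    omega
  · rintro A' hA' e he heA' w hw t ht ⟨c1, ⟨v, hv, c2⟩, c3⟩
    have hi := hins A' hA' e he heA' w hw t ht
    have hsub : Λ ⊆ Λ ∪ A' := Finset.subset_union_left
    exact ⟨fun e' he' v hv => (hi v (hsub (mY hv)) e' (hsub (mes he'))).1 (c1 e' he' v hv),
      ⟨v, hv, (hi a (hsub ma) v (hsub (mY hv))).1 c2⟩, (hi z (hsub mz) R (hsub mR)).1 c3⟩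
  · rintro A' hA' e he heA' e' he' w hw t ht ⟨⟨v, hv, b1⟩, b2, b3⟩
    have hi := hins A' hA' e he heA' w hw t ht
    have hsub : Λ ⊆ Λ ∪ A' := Finset.subset_union_left
    have he'' : e' ∈ Λ ∪ A' := Finset.mem_union_right _ he'
    exact ⟨⟨v, hv, fun u hu huv => (hi u (hsub (mY hu)) e' he'').2 (b1 u hu huv)⟩,
      (hi a (hsub ma) e' he'').2 b2, (hi e' he'' R (hsub mR)).2 b3⟩
  · rintro A' hA' e he heA' w hw ⟨c1, ⟨v1, hv1, c2⟩, c3⟩
    obtain ⟨hn, hm⟩ := mem_words.1 hw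
    have heΛ : e ∉ Λ ∪ A' := by
      rw [Finset.mem_union, not_or]
      exact ⟨fun h => (Finset.disjoint_left.1 hA h) he, heA'⟩
    have hew : e ∉ w := fun h => heΛ ((hm _).1 h)
    have hwmem : ∀ u ∈ Λ, u ∈ w := fun u hu => (hm u).2 (Finset.mem_union_left _ hu)
    obtain ⟨v0, hv0, hv0'⟩ := Finset.exists_mem_eq_sup Y hY (pos w)
    set T := Y.sup (pos w) with hT
    have hle : ∀ v ∈ Y, pos w v ≤ T := fun v hv => Finset.le_sup (f := pos w) hv
    have hRlt : pos w R < w.length := List.idxOf_lt_length_iff.2 (hwmem R mR)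
    have hzT : T < pos w z := by rw [hv0']; exact c1 z hz v0 hv0
    have haT : pos w a < T := lt_of_lt_of_le c2 (hle v1 hv1)
    have hBt : ∀ t, T ≤ t → t ≤ pos w R → B (insAt t e w) e := by
      intro t ht1 ht2
      refine ⟨⟨v0, hv0, fun u hu huv => ?_⟩, ?_, ?_⟩
      · rw [pos_insAt_lt_self_iff hn hew (hwmem u (mY hu)) (by omega)]
        have h1 := hle u hu
        have h2 : pos w u ≠ T := by
          intro h
          apply huv
          rw [hv0'] at h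
          exact (List.idxOf_inj (hwmem u (mY hu))).1 h
        omega
      · rw [pos_insAt_lt_self_iff hn hew (hwmem a ma) (by omega)]
        omega
      · rw [pos_insAt_self_lt_iff hn hew (hwmem R mR) (by omega)]
        omega
    have h3 : ({T, pos w z, pos w R} : Finset ℕ).card = 3 := by
      rw [Finset.card_eq_three]
      exact ⟨T, pos w z, pos w R, by omega, by omega, by omega, rfl⟩
    rw [← h3]
    apply Finset.card_le_card
    intro t ht
    simp only [Finset.mem_insert, Finset.mem_singleton] at ht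
    refine (@Finset.mem_filter _ _ (_) _ _).2 ⟨Finset.mem_range.2 ?_, hBt t ?_ ?_⟩
    · rcases ht with rfl | rfl | rfl <;> omega
    · rcases ht with rfl | rfl | rfl <;> omega
    · rcases ht with rfl | rfl | rfl <;> omega

end CPI
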