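import Pool.Agent.Lib.MP_cb75a6_co.Dis.Defs
import Pool.Agent.Lib.MP_cb75a6_co.Dis.W1
import Pool.Agent.Lib.MP_cb75a6_co.Dis.W3P
import Pool.Agent.Lib.MP_cb75a6_co.Dis.U1
import Pool.Agent.Lib.MP_cb75a6_co.Dis.U2
import Pool.Agent.Lib.MP_cb75a6_co.Dis.PI
import Pool.Agent.Lib.MP_cb75a6_co.Dis.PS
import Pool.Agent.Lib.MP_cb75a6_co.Dis.PM
import Pool.Agent.Lib.MP_cb75a6_co.Dis.PO1
import Pool.Agent.Lib.MP_cb75a6_co.Dis.DM
import Pool.Agent.Lib.MP_cb75a6_co.Dis.DB

set_option autoImplicit false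

namespace CPI

open scoped Nat
open Ltr

variable {p q m n D : ℕ}

namespace CC

/-- the main pattern -/
def H (w : List (Ltr p q m n D)) (k0 : Fin m) (i : Fin n) : Prop :=
  (∃ v ∈ Xs p q m n D, pos w .a < pos w v) ∧ aft (Xs p q m n D) w (.z k0) ∧
    pos w (.z k0) < pos w (.R i) ∧
    pos w (.R i) < pos w (.y i false) ∧ pos w (.R i) < pos w (.y i true) ∧
    ∀ e ∈ As p q m n D, ¬ (aft (Xs p q m n D) w e ∧ pos w e < pos w (.R i))

def H7 (w : List (Ltr p q m n D)) (i : Fin n) : Prop :=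
  ∃ e ∈ As p q m n D, aft2 (Xs p q m n D) w e ∧ pos w .a < pos w e ∧ pos w e < pos w (.R i)

def H10 (w : List (Ltr p q m n D)) (i l : Fin n) : Prop :=
  aft (Xs p q m n D) w (.R l) ∧ pos w (.R l) < pos w (.R i) ∧
      aft2 (Xs p q m n D) w (.y l false) ∧ aft2 (Xs p q m n D) w (.y l true)

theorem aft_trans {w : List (Ltr p q m n D)} {Y : Finset (Ltr p q m n D)}
    {u v : Ltr p q m n D} (h : aft Y w u) (h' : pos w u < pos w v) : aft Y w v :=
  fun t ht => (h t ht).trans h'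

theorem aft2_of_aft {w : List (Ltr p q m n D)} {u : Ltr p q m n D}
    (h : aft (Xs p q m n D) w u) : aft2 (Xs p q m n D) w u :=
  ⟨.x, Finset.mem_filter.2 ⟨Finset.mem_univ _, rfl⟩, fun t ht _ => h t ht⟩

theorem H.aR {w : List (Ltr p q m n D)} {k0 : Fin m} {i : Fin n} (h : H w k0 i) : aR w i := by
  obtain ⟨_, h2, h3, h4, h5, _⟩ := h
  have hR := aft_trans h2 h3
  exact ⟨hR, aft_trans hR h4, aft_trans hR h5⟩

theorem mem_Xs {u : Ltr p q m n D} : u ∈ Xs p q m n D ↔ isX u = true := by simp [Xs]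
theorem mem_As {u : Ltr p q m n D} : u ∈ As p q m n D ↔ isA u = true := by simp [As]
theorem mem_Qs {u : Ltr p q m n D} : u ∈ Qs p q m n D ↔ isQ u = true := by simp [Qs]

theorem Xs_ne : (Xs p q m n D).Nonempty := ⟨.x, Finset.mem_filter.2 ⟨Finset.mem_univ _, rfl⟩⟩

theorem isQ_of_isX {u : Ltr p q m n D} (h : isX u = true) : isQ u = true := by
  cases u <;> simp_all [isX, isQ]
theorem isQ_of_isA {u : Ltr p q m n D} (h : isA u = true) : isQ u = true := by
  cases u <;> simp_all [isA, isQ]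
theorem not_isA_of_isX {u : Ltr p q m n D} (h : isX u = true) : isA u = false := by
  cases u <;> simp_all [isX, isA]

/-- numerical factors -/
theorem fac_le (s : ℕ) (hs : s ≤ 9) (hp : 20 ≤ p) (hq : 2 * p ≤ q) :
    (((p + 1 + s : ℕ) : ℝ) / ((p + 1 + s + q : ℕ) : ℝ)) ≤ 2 * p / q := by
  have hp' : (20 : ℝ) ≤ p := by exact_mod_cast hp
  have hq' : (2 * p : ℝ) ≤ q := by exact_mod_cast hq
  have hq0 : (0 : ℝ) < q := by linarith
  have hs' : (s : ℝ) ≤ 9 := by exact_mod_cast hs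
  push_cast
  rw [div_le_div_iff₀ (by positivity) hq0]
  nlinarith [mul_nonneg (show (0:ℝ) ≤ p + 1 + s by positivity) hq0.le]

theorem pow_card_le (s : ℕ) (hp : 20 ≤ p) (c : ℝ) (hc : 0 ≤ c) :
    c / (((p + 1 : ℕ) : ℝ)) ^ s ≤ c / (p : ℝ) ^ s := by
  have hp' : (20 : ℝ) ≤ p := by exact_mod_cast hp
  apply div_le_div_of_nonneg_left hc (by positivity)
  apply pow_le_pow_left₀ (by positivity)
  push_cast; linarith

theorem disj_X (es : Finset (Ltr p q m n D)) (h : ∀ e ∈ es, isX e = false) :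
    Disjoint (Xs p q m n D) es := by
  rw [Finset.disjoint_left]
  intro u hu hu'
  rw [mem_Xs] at hu
  rw [h u hu'] at hu
  exact absurd hu (by decide)

theorem disj_A (es : Finset (Ltr p q m n D)) (h : ∀ e ∈ es, isA e = false) :
    Disjoint (Xs p q m n D ∪ es) (As p q m n D) := by
  rw [Finset.disjoint_left]
  intro u hu hu'
  rw [mem_As] at hu'
  rcases Finset.mem_union.1 hu with h1 | h1
  · rw [mem_Xs] at h1
    rw [not_isA_of_isX h1] at hu'
    exact absurd hu' (by decide)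
  · rw [h u h1] at hu'
    exact absurd hu' (by decide)

theorem sub_S (es : Finset (Ltr p q m n D)) (e0 : Ltr p q m n D) (h0 : isX e0 = false)
    (h0' : isA e0 = false) (h : ∀ e ∈ es, isQ e = true ∧ e ≠ e0) :
    Xs p q m n D ∪ es ∪ As p q m n D ⊆ (Qs p q m n D).erase e0 := by
  intro u hu
  rw [Finset.mem_erase, mem_Qs]
  rcases Finset.mem_union.1 hu with h1 | h1
  · rcases Finset.mem_union.1 h1 with h2 | h2
    · rw [mem_Xs] at h2
      refine ⟨?_, isQ_of_isX h2⟩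
      rintro rfl
      rw [h0] at h2
      exact absurd h2 (by decide)
    · exact ⟨(h u h2).2, (h u h2).1⟩
  · rw [mem_As] at h1
    refine ⟨?_, isQ_of_isA h1⟩
    rintro rfl
    rw [h0'] at h1
    exact absurd h1 (by decide)

/-- uniform version of the interval bound -/
theorem int_bound (e0 : Ltr p q m n D) (h0 : isX e0 = false) (h0' : isA e0 = false)
    (es Lo : Finset (Ltr p q m n D)) (s : ℕ) (hcard : es.card = s) (hs : s ≤ 9)
    (hX : ∀ e ∈ es, isX e = false) (hA : ∀ e ∈ es, isA e = false)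
    (hQ : ∀ e ∈ es, isQ e = true ∧ e ≠ e0) (z R : Ltr p q m n D) (hz : z ∈ es) (hR : R ∈ es)
    (hLo : Lo ⊆ Xs p q m n D ∪ es) (hzL : z ∉ Lo) (hRL : R ∉ Lo) (hp : 20 ≤ p)
    (hq : 2 * p ≤ q) :
    Pr ((Qs p q m n D).erase e0) (fun w => (∀ e ∈ es, aft (Xs p q m n D) w e) ∧
        aft Lo w z ∧ pos w z < pos w R ∧
        ∀ e ∈ As p q m n D, ¬ (aft Lo w e ∧ pos w e < pos w R)) ≤
      (s ! : ℝ) / (p : ℝ) ^ s * (2 * p / q) ^ 2 := by
  refine (Pr_int _ (Xs p q m n D) es (As p q m n D) Lo z R Xs_ne (disj_X es hX)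
    (disj_A es hA) (sub_S es e0 h0 h0' hQ) hz hR hLo hzL hRL).trans ?_
  rw [hcard, card_Xs, card_As]
  have h1 := pow_card_le (p := p) s hp (s ! : ℝ) (by positivity)
  have h2 := fac_le (p := p) (q := q) s hs hp hq
  apply mul_le_mul h1 _ (by positivity) (by positivity)
  exact pow_le_pow_left₀ (by positivity) h2 2

/-- uniform version of the `aft` bound -/
theorem aft_bound (e0 : Ltr p q m n D) (h0 : isX e0 = false) (h0' : isA e0 = false)
    (es : Finset (Ltr p q m n D)) (s : ℕ) (hcard : es.card = s)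
    (hX : ∀ e ∈ es, isX e = false)
    (hQ : ∀ e ∈ es, isQ e = true ∧ e ≠ e0) (hp : 20 ≤ p) :
    Pr ((Qs p q m n D).erase e0) (fun w => ∀ e ∈ es, aft (Xs p q m n D) w e) ≤
      (s ! : ℝ) / (p : ℝ) ^ s := by
  refine (Pr_aft _ (Xs p q m n D) es (disj_X es hX)
    (Finset.subset_union_left.trans (sub_S es e0 h0 h0' hQ)) Xs_ne).trans ?_
  rw [hcard, card_Xs]
  exact pow_card_le (p := p) s hp (s ! : ℝ) (by positivity)

theorem aft2_bound (e0 : Ltr p q m n D) (h0 : isX e0 = false) (h0' : isA e0 = false)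
    (es : Finset (Ltr p q m n D)) (s : ℕ) (hcard : es.card = s)
    (hX : ∀ e ∈ es, isX e = false)
    (hQ : ∀ e ∈ es, isQ e = true ∧ e ≠ e0) (hp : 20 ≤ p) :
    Pr ((Qs p q m n D).erase e0) (fun w => ∀ e ∈ es, aft2 (Xs p q m n D) w e) ≤
      ((s + 1)! : ℝ) / (p : ℝ) ^ s := by
  refine (Pr_aft2 _ (Xs p q m n D) es (disj_X es hX)
    (Finset.subset_union_left.trans (sub_S es e0 h0 h0' hQ)) Xs_ne).trans ?_
  rw [hcard, card_Xs]
  exact pow_card_le (p := p) s hp ((s + 1)! : ℝ) (by positivity)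

/-- (s4) -/
theorem b4 (k0 : Fin m) (i : Fin n) (hp : 20 ≤ p) (hq : 2 * p ≤ q) :
    Pr ((Qs p q m n D).erase (.c k0)) (fun w => H w k0 i ∧ ¬ H7 w i) ≤
      192 / (p * q ^ 3) := by
  have hp' : (20 : ℝ) ≤ p := by exact_mod_cast hp
  have hq' : (2 * p : ℝ) ≤ q := by exact_mod_cast hq
  have hq0 : (0 : ℝ) < q := by linarith
  set es : Finset (Ltr p q m n D) := {.z k0, .R i, .y i false, .y i true} with hes
  have hcard : es.card = 4 := by simp [hes]
  have hX : ∀ e ∈ es, isX e = false := by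
    intro e he
    simp only [hes, Finset.mem_insert, Finset.mem_singleton] at he
    rcases he with rfl | rfl | rfl | rfl <;> rfl
  have hA : ∀ e ∈ es, isA e = false := by
    intro e he
    simp only [hes, Finset.mem_insert, Finset.mem_singleton] at he
    rcases he with rfl | rfl | rfl | rfl <;> rfl
  have hQ : ∀ e ∈ es, isQ e = true ∧ e ≠ .c k0 := by
    intro e he
    simp only [hes, Finset.mem_insert, Finset.mem_singleton] at he
    rcases he with rfl | rfl | rfl | rfl <;> exact ⟨rfl, by simp⟩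
  have hane : Ltr.a ∉ Xs p q m n D ∪ es := by
    rw [Finset.mem_union, mem_Xs]
    simp [hes, isX]
  have key := Pr_s4 ((Qs p q m n D).erase (.c k0)) (Xs p q m n D) es (As p q m n D) .a
    (.z k0) (.R i) Xs_ne (disj_X es hX) ?_ hane ?_ (by simp [hes]) (by simp [hes])
  · refine (Pr_mono ?_).trans (key.trans ?_)
    · intro w _ hw
      obtain ⟨⟨h1, h2, h3, h4, h5, h6⟩, h7⟩ := hw
      have hR := aft_trans h2 h3
      refine ⟨?_, h1, h3, ?_⟩
      · intro e he
        simp only [hes, Finset.mem_insert, Finset.mem_singleton] at he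
        rcases he with rfl | rfl | rfl | rfl
        · exact h2
        · exact hR
        · exact aft_trans hR h4
        · exact aft_trans hR h5
      · intro e he hh
        exact h7 ⟨e, he, hh⟩
    · rw [hcard, card_Xs, card_As]
      have h1 := pow_card_le (p := p) 4 hp (4 ! : ℝ) (by positivity)
      have h2 := fac_le (p := p) (q := q) 5 (by norm_num) hp hq
      have h3 : (((p + 1 + 1 + 4 : ℕ) : ℝ) / ((p + 1 + 1 + 4 + q : ℕ) : ℝ)) ≤ 2 * p / q := by
        have e1 : p + 1 + 1 + 4 = p + 1 + 5 := by ring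
        rw [e1]; exact h2
      calc (4 ! : ℝ) / (((p + 1 : ℕ) : ℝ)) ^ 4 *
            (((p + 1 + 1 + 4 : ℕ) : ℝ) / ((p + 1 + 1 + 4 + q : ℕ) : ℝ)) ^ 3
          ≤ (4 ! : ℝ) / (p : ℝ) ^ 4 * (2 * p / q) ^ 3 := by
            apply mul_le_mul h1 _ (by positivity) (by positivity)
            exact pow_le_pow_left₀ (by positivity) h3 3
        _ = 192 / ((p : ℝ) * (q : ℝ) ^ 3) := by
            have : (4 ! : ℝ) = 24 := by norm_num [Nat.factorial]
            rw [this]
            field_simp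
            ring
  · rw [Finset.disjoint_left]
    intro u hu hu'
    rw [Finset.mem_insert] at hu
    rcases hu with rfl | hu
    · rw [mem_As] at hu'
      simp [isA] at hu'
    · exact Finset.disjoint_left.1 (disj_A es hA) hu hu'
  · intro u hu
    rcases Finset.mem_union.1 hu with h1 | h1
    · rcases Finset.mem_insert.1 h1 with rfl | h2
      · rw [Finset.mem_erase, mem_Qs]; exact ⟨by simp, rfl⟩
      · exact sub_S es (.c k0) rfl rfl hQ (Finset.mem_union_left _ h2)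
    · exact sub_S es (.c k0) rfl rfl hQ (Finset.mem_union_right _ h1)

/-- (s1) -/
theorem b1 (k0 k : Fin m) (i : Fin n) (hk : k ≠ k0) (hp : 20 ≤ p) (hq : 2 * p ≤ q) :
    Pr ((Qs p q m n D).erase (.c k0)) (fun w => H w k0 i ∧ ac w k) ≤
      2880 / (p ^ 4 * q ^ 2) := by
  have hp' : (20 : ℝ) ≤ p := by exact_mod_cast hp
  have hq' : (2 * p : ℝ) ≤ q := by exact_mod_cast hq
  have hq0 : (0 : ℝ) < q := by linarith
  set es : Finset (Ltr p q m n D) := {.z k0, .R i, .y i false, .y i true, .c k, .z k} with hes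
  have hcard : es.card = 6 := by
    rw [hes]
    repeat rw [Finset.card_insert_of_notMem]
    all_goals simp [hk, hk.symm]
  have hmem : ∀ e ∈ es, e = .z k0 ∨ e = .R i ∨ e = .y i false ∨ e = .y i true ∨ e = .c k ∨
      e = .z k := by
    intro e he
    simpa only [hes, Finset.mem_insert, Finset.mem_singleton] using he
  have hX : ∀ e ∈ es, isX e = false := by
    intro e he
    rcases hmem e he with rfl | rfl | rfl | rfl | rfl | rfl <;> rfl
  have hA : ∀ e ∈ es, isA e = false := by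
    intro e he
    rcases hmem e he with rfl | rfl | rfl | rfl | rfl | rfl <;> rfl
  have hQ : ∀ e ∈ es, isQ e = true ∧ e ≠ .c k0 := by
    intro e he
    rcases hmem e he with rfl | rfl | rfl | rfl | rfl | rfl <;> exact ⟨rfl, by simp [hk]⟩
  have key := int_bound (.c k0) rfl rfl es (Xs p q m n D) 6 hcard (by norm_num) hX hA hQ
    (.z k0) (.R i) (by simp [hes]) (by simp [hes]) Finset.subset_union_left
    (by rw [mem_Xs]; simp [isX]) (by rw [mem_Xs]; simp [isX]) hp hq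
  refine (Pr_mono ?_).trans (key.trans (le_of_eq ?_))
  · intro w _ hw
    obtain ⟨⟨h1, h2, h3, h4, h5, h6⟩, h7⟩ := hw
    have hR := aft_trans h2 h3
    refine ⟨?_, h2, h3, h6⟩
    intro e he
    rcases hmem e he with rfl | rfl | rfl | rfl | rfl | rfl
    · exact h2
    · exact hR
    · exact aft_trans hR h4
    · exact aft_trans hR h5
    · exact h7.1
    · exact h7.2
  · have : (6 ! : ℝ) = 720 := by norm_num [Nat.factorial]
    rw [this]
    field_simp
    ring

/-- (s2) and pattern B1 -/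
theorem b2 (k0 : Fin m) (i l : Fin n) (hl : l ≠ i) (hp : 20 ≤ p) :
    Pr ((Qs p q m n D).erase (.c k0)) (fun w => aft (Xs p q m n D) w (.z k0) ∧ aR w i ∧
      aR w l) ≤ 5040 / p ^ 7 := by
  set es : Finset (Ltr p q m n D) :=
    {.z k0, .R i, .y i false, .y i true, .R l, .y l false, .y l true} with hes
  have hcard : es.card = 7 := by
    rw [hes]
    repeat rw [Finset.card_insert_of_notMem]
    all_goals simp [hl, hl.symm]
  have hmem : ∀ e ∈ es, e = .z k0 ∨ e = .R i ∨ e = .y i false ∨ e = .y i true ∨ e = .R l ∨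
      e = .y l false ∨ e = .y l true := by
    intro e he
    simpa only [hes, Finset.mem_insert, Finset.mem_singleton] using he
  have hX : ∀ e ∈ es, isX e = false := by
    intro e he
    rcases hmem e he with rfl | rfl | rfl | rfl | rfl | rfl | rfl <;> rfl
  have hQ : ∀ e ∈ es, isQ e = true ∧ e ≠ .c k0 := by
    intro e he
    rcases hmem e he with rfl | rfl | rfl | rfl | rfl | rfl | rfl <;> exact ⟨rfl, by simp⟩
  have key := aft_bound (.c k0) rfl rfl es 7 hcard hX hQ hp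
  refine (Pr_mono ?_).trans (key.trans (le_of_eq ?_))
  · intro w _ hw e he
    obtain ⟨h1, h2, h3⟩ := hw
    rcases hmem e he with rfl | rfl | rfl | rfl | rfl | rfl | rfl
    · exact h1
    · exact h2.1
    · exact h2.2.1
    · exact h2.2.2
    · exact h3.1
    · exact h3.2.1
    · exact h3.2.2
  · have : (7 ! : ℝ) = 5040 := by norm_num [Nat.factorial]
    rw [this]

/-- (s3) -/
theorem b3 (k0 : Fin m) (i l : Fin n) (hl : l ≠ i) (hp : 20 ≤ p) :
    Pr ((Qs p q m n D).erase (.c k0)) (fun w => H w k0 i ∧ H10 w i l) ≤ 40320 / p ^ 7 := by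
  set es : Finset (Ltr p q m n D) :=
    {.z k0, .R i, .y i false, .y i true, .R l, .y l false, .y l true} with hes
  have hcard : es.card = 7 := by
    rw [hes]
    repeat rw [Finset.card_insert_of_notMem]
    all_goals simp [hl, hl.symm]
  have hmem : ∀ e ∈ es, e = .z k0 ∨ e = .R i ∨ e = .y i false ∨ e = .y i true ∨ e = .R l ∨
      e = .y l false ∨ e = .y l true := by
    intro e he
    simpa only [hes, Finset.mem_insert, Finset.mem_singleton] using he
  have hX : ∀ e ∈ es, isX e = false := by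
    intro e he
    rcases hmem e he with rfl | rfl | rfl | rfl | rfl | rfl | rfl <;> rfl
  have hQ : ∀ e ∈ es, isQ e = true ∧ e ≠ .c k0 := by
    intro e he
    rcases hmem e he with rfl | rfl | rfl | rfl | rfl | rfl | rfl <;> exact ⟨rfl, by simp⟩
  have key := aft2_bound (.c k0) rfl rfl es 7 hcard hX hQ hp
  refine (Pr_mono ?_).trans (key.trans (le_of_eq ?_))
  · intro w _ hw e he
    obtain ⟨h1, h2⟩ := hw
    have ha := h1.aR
    rcases hmem e he with rfl | rfl | rfl | rfl | rfl | rfl | rfl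
    · exact aft2_of_aft h1.2.1
    · exact aft2_of_aft ha.1
    · exact aft2_of_aft ha.2.1
    · exact aft2_of_aft ha.2.2
    · exact aft2_of_aft h2.1
    · exact h2.2.2.1
    · exact h2.2.2.2
  · have : ((7 + 1)! : ℝ) = 40320 := by norm_num [Nat.factorial]
    rw [this]

/-- pattern B2 -/
theorem bB2 (k0 k : Fin m) (i : Fin n) (hk : k ≠ k0) (hp : 20 ≤ p) (hq : 2 * p ≤ q) :
    Pr ((Qs p q m n D).erase (.c k0)) (fun w => aft (Xs p q m n D) w (.z k0) ∧ aR w i ∧
      ac w k ∧ pos w (.z k) < pos w (.R i) ∧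
        ∀ e ∈ As p q m n D, ¬ (aft (Xs p q m n D) w e ∧ pos w e < pos w (.R i))) ≤
      2880 / (p ^ 4 * q ^ 2) := by
  have hp' : (20 : ℝ) ≤ p := by exact_mod_cast hp
  have hq' : (2 * p : ℝ) ≤ q := by exact_mod_cast hq
  have hq0 : (0 : ℝ) < q := by linarith
  set es : Finset (Ltr p q m n D) := {.z k0, .R i, .y i false, .y i true, .c k, .z k} with hes
  have hcard : es.card = 6 := by
    rw [hes]
    repeat rw [Finset.card_insert_of_notMem]
    all_goals simp [hk, hk.symm]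
  have hmem : ∀ e ∈ es, e = .z k0 ∨ e = .R i ∨ e = .y i false ∨ e = .y i true ∨ e = .c k ∨
      e = .z k := by
    intro e he
    simpa only [hes, Finset.mem_insert, Finset.mem_singleton] using he
  have hX : ∀ e ∈ es, isX e = false := by
    intro e he
    rcases hmem e he with rfl | rfl | rfl | rfl | rfl | rfl <;> rfl
  have hA : ∀ e ∈ es, isA e = false := by
    intro e he
    rcases hmem e he with rfl | rfl | rfl | rfl | rfl | rfl <;> rfl
  have hQ : ∀ e ∈ es, isQ e = true ∧ e ≠ .c k0 := by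
    intro e he
    rcases hmem e he with rfl | rfl | rfl | rfl | rfl | rfl <;> exact ⟨rfl, by simp [hk]⟩
  have key := int_bound (.c k0) rfl rfl es (Xs p q m n D) 6 hcard (by norm_num) hX hA hQ
    (.z k) (.R i) (by simp [hes]) (by simp [hes]) Finset.subset_union_left
    (by rw [mem_Xs]; simp [isX]) (by rw [mem_Xs]; simp [isX]) hp hq
  refine (Pr_mono ?_).trans (key.trans (le_of_eq ?_))
  · intro w _ hw
    obtain ⟨h1, h2, h3, h4, h5⟩ := hw
    refine ⟨?_, h3.2, h4, h5⟩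
    intro e he
    rcases hmem e he with rfl | rfl | rfl | rfl | rfl | rfl
    · exact h1
    · exact h2.1
    · exact h2.2.1
    · exact h2.2.2
    · exact h3.1
    · exact h3.2
  · have : (6 ! : ℝ) = 720 := by norm_num [Nat.factorial]
    rw [this]
    field_simp
    ring

/-- pattern B3 -/
theorem bB3 (k0 k l : Fin m) (i : Fin n) (hk : k ≠ k0) (hl : l ≠ k0) (hkl : k ≠ l)
    (hp : 20 ≤ p) (hq : 2 * p ≤ q) :
    Pr ((Qs p q m n D).erase (.c k0)) (fun w => aft (Xs p q m n D) w (.z k0) ∧ aR w i ∧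
      ac w k ∧ ac w l ∧ pos w (.c l) < pos w (.z k) ∧ pos w (.z k) < pos w (.R i) ∧
        ∀ e ∈ As p q m n D, ¬ (pos w (.c l) < pos w e ∧ pos w e < pos w (.R i))) ≤
      161280 / (p ^ 6 * q ^ 2) := by
  have hp' : (20 : ℝ) ≤ p := by exact_mod_cast hp
  have hq' : (2 * p : ℝ) ≤ q := by exact_mod_cast hq
  have hq0 : (0 : ℝ) < q := by linarith
  set es : Finset (Ltr p q m n D) :=
    {.z k0, .R i, .y i false, .y i true, .c k, .z k, .c l, .z l} with hes
  have hcard : es.card = 8 := by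
    rw [hes]
    repeat rw [Finset.card_insert_of_notMem]
    all_goals simp [hk, hk.symm, hl, hl.symm, hkl, hkl.symm]
  have hmem : ∀ e ∈ es, e = .z k0 ∨ e = .R i ∨ e = .y i false ∨ e = .y i true ∨ e = .c k ∨
      e = .z k ∨ e = .c l ∨ e = .z l := by
    intro e he
    simpa only [hes, Finset.mem_insert, Finset.mem_singleton] using he
  have hX : ∀ e ∈ es, isX e = false := by
    intro e he
    rcases hmem e he with rfl | rfl | rfl | rfl | rfl | rfl | rfl | rfl <;> rfl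
  have hA : ∀ e ∈ es, isA e = false := by
    intro e he
    rcases hmem e he with rfl | rfl | rfl | rfl | rfl | rfl | rfl | rfl <;> rfl
  have hQ : ∀ e ∈ es, isQ e = true ∧ e ≠ .c k0 := by
    intro e he
    rcases hmem e he with rfl | rfl | rfl | rfl | rfl | rfl | rfl | rfl <;>
      exact ⟨rfl, by simp [hk, hl]⟩
  have key := int_bound (.c k0) rfl rfl es {.c l} 8 hcard (by norm_num) hX hA hQ
    (.z k) (.R i) (by simp [hes]) (by simp [hes])
    (by
      intro u hu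
      rw [Finset.mem_singleton] at hu
      subst hu
      exact Finset.mem_union_right _ (by simp [hes]))
    (by simp) (by simp) hp hq
  refine (Pr_mono ?_).trans (key.trans (le_of_eq ?_))
  · intro w _ hw
    obtain ⟨h1, h2, h3, h3', h4, h4', h5⟩ := hw
    refine ⟨?_, ?_, h4', ?_⟩
    · intro e he
      rcases hmem e he with rfl | rfl | rfl | rfl | rfl | rfl | rfl | rfl
      · exact h1
      · exact h2.1
      · exact h2.2.1
      · exact h2.2.2
      · exact h3.1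
      · exact h3.2
      · exact h3'.1
      · exact h3'.2
    · intro v hv
      rw [Finset.mem_singleton] at hv
      subst hv
      exact h4
    · intro e he hh
      exact h5 e he ⟨hh.1 _ (Finset.mem_singleton_self _), hh.2⟩
  · have : (8 ! : ℝ) = 40320 := by norm_num [Nat.factorial]
    rw [this]
    field_simp
    ring

/-- main term -/
theorem bmain (k0 : Fin m) (i : Fin n) (hp : 20 ≤ p) (hq : 2 * p ≤ q) :
    1 / (16 * (p : ℝ) ^ 2 * (q : ℝ) ^ 2) ≤
      Pr ((Qs p q m n D).erase (.c k0)) (fun w => H w k0 i) := by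
  have hp' : (20 : ℝ) ≤ p := by exact_mod_cast hp
  have hq' : (2 * p : ℝ) ≤ q := by exact_mod_cast hq
  have hq0 : (0 : ℝ) < q := by linarith
  have key := Pr_main ((Qs p q m n D).erase (.c k0)) (Xs p q m n D) (As p q m n D) .a (.z k0)
    (.R i) (.y i false) (.y i true) Xs_ne (by simp) ?_ ?_ ?_ ?_
  · refine le_trans ?_ key
    rw [card_Xs, card_As]
    push_cast
    rw [div_le_div_iff₀ (by positivity) (by positivity)]
    have e1 : ((p : ℝ) + 1 + 1) * (p + 1 + 2) * (p + 1 + 3) ≤ 2 * (p : ℝ) ^ 2 * (p + 1) := by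
      nlinarith [mul_nonneg (sub_nonneg.2 hp') (sub_nonneg.2 hp'),
        mul_nonneg (mul_nonneg (sub_nonneg.2 hp') (sub_nonneg.2 hp')) (sub_nonneg.2 hp')]
    have e2 : ((p : ℝ) + 1 + 5 + q) * (p + 1 + 4 + q) ≤ 4 * (q : ℝ) ^ 2 := by
      have : (p : ℝ) + 1 + 5 + q ≤ 2 * q := by linarith
      have h2 : (p : ℝ) + 1 + 4 + q ≤ 2 * q := by linarith
      calc ((p : ℝ) + 1 + 5 + q) * (p + 1 + 4 + q) ≤ (2 * q) * (2 * q) := by
            apply mul_le_mul this h2 (by positivity) (by positivity)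
        _ = 4 * (q : ℝ) ^ 2 := by ring
    calc 1 * (((p : ℝ) + 1 + 1) * (p + 1 + 2) * (p + 1 + 3) * (p + 1 + 5 + q) * (p + 1 + 4 + q))
        = (((p : ℝ) + 1 + 1) * (p + 1 + 2) * (p + 1 + 3)) *
          (((p : ℝ) + 1 + 5 + q) * (p + 1 + 4 + q)) := by ring
      _ ≤ (2 * (p : ℝ) ^ 2 * (p + 1)) * (4 * (q : ℝ) ^ 2) := by
          apply mul_le_mul e1 e2 (by positivity) (by positivity)
      _ ≤ ((p : ℝ) + 1) * (16 * (p : ℝ) ^ 2 * (q : ℝ) ^ 2) := by
          have : 0 ≤ (p : ℝ) ^ 2 * (p + 1) * (q : ℝ) ^ 2 := by positivity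
          nlinarith
  · intro e he
    simp only [List.mem_cons, List.mem_singleton, List.not_mem_nil, or_false] at he
    rw [mem_Xs]
    rcases he with rfl | rfl | rfl | rfl | rfl <;> simp [isX]
  · intro e he
    simp only [List.mem_cons, List.mem_singleton, List.not_mem_nil, or_false] at he
    rw [mem_As]
    rcases he with rfl | rfl | rfl | rfl | rfl <;> simp [isA]
  · rw [Finset.disjoint_left]
    intro u hu hu'
    rw [mem_Xs] at hu
    rw [mem_As, not_isA_of_isX hu] at hu'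
    exact absurd hu' (by decide)
  · apply sub_S _ _ rfl rfl
    intro e he
    simp only [Finset.mem_insert, Finset.mem_singleton] at he
    rcases he with rfl | rfl | rfl | rfl | rfl <;> exact ⟨rfl, by simp⟩

theorem Pr_false (S : Finset (Ltr p q m n D)) : Pr S (fun _ => False) = 0 := by
  simp [Pr, N]

theorem Pr_two {S : Finset (Ltr p q m n D)} {E F G : List (Ltr p q m n D) → Prop}
    (hF : ∀ w ∈ words S, F w → E w) (hG : ∀ w ∈ words S, G w → E w)
    (hd : ∀ w ∈ words S, ¬ (F w ∧ G w)) : Pr S F + Pr S G ≤ Pr S E := by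
  have h := Pr_disj (Finset.univ : Finset Bool) S E (fun b => if b = true then F else G)
    (by
      intro b _ w hw h
      cases b
      · exact hG w hw (by simpa using h)
      · exact hF w hw (by simpa using h))
    (by
      intro b _ b' _ hb w hw h
      cases b <;> cases b' <;> simp at hb h
      · exact hd w hw ⟨h.2, h.1⟩
      · exact hd w hw ⟨h.1, h.2⟩)
  simpa [Fintype.sum_bool] using h

/-- union bound with a side condition on the index -/
theorem Pr_ex {ι : Type} [Fintype ι] (S : Finset (Ltr p q m n D)) (c : ι → Prop)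
    (F : ι → List (Ltr p q m n D) → Prop) (B : ℝ) (hB : 0 ≤ B)
    (h : ∀ i, c i → Pr S (F i) ≤ B) :
    Pr S (fun w => ∃ i, c i ∧ F i w) ≤ Fintype.card ι * B := by
  classical
  have h1 := Pr_union (Finset.univ : Finset ι) S (fun w => ∃ i, c i ∧ F i w)
    (fun i w => c i ∧ F i w) (by
      intro w _ ⟨i, hi⟩
      exact ⟨i, Finset.mem_univ _, hi⟩)
  refine h1.trans ?_
  have h2 : ∀ i ∈ (Finset.univ : Finset ι), Pr S (fun w => c i ∧ F i w) ≤ B := by
    intro i _
    by_cases hc : c i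
    · exact (Pr_mono (fun w _ hw => hw.2)).trans (h i hc)
    · refine (Pr_mono (F := fun _ => False) (fun w _ hw => hc hw.1)).trans ?_
      rw [Pr_false]
      exact hB
  refine (Finset.sum_le_sum h2).trans ?_
  rw [Finset.sum_const, Finset.card_univ, nsmul_eq_mul]

/-- the good event -/
def good (w : List (Ltr p q m n D)) (k0 : Fin m) (i : Fin n) : Prop :=
  H w k0 i ∧ H7 w i ∧ (∀ k, k ≠ k0 → ¬ ac w k) ∧ (∀ l, l ≠ i → ¬ aR w l) ∧
    (∀ l, l ≠ i → ¬ H10 w i l)

theorem good_bound (k0 : Fin m) (i : Fin n) (hp : 20 ≤ p) (hq : 2 * p ≤ q) :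
    (1 / (16 * p ^ 2 * q ^ 2) - 192 / (p * q ^ 3) - m * 2880 / (p ^ 4 * q ^ 2)
          - n * 45360 / p ^ 7 : ℝ) ≤
      Pr ((Qs p q m n D).erase (.c k0)) (fun w => good w k0 i) := by
  have hp' : (20 : ℝ) ≤ p := by exact_mod_cast hp
  have hq' : (2 * p : ℝ) ≤ q := by exact_mod_cast hq
  have hq0 : (0 : ℝ) < q := by linarith
  set S := (Qs p q m n D).erase (.c k0) with hS
  have m0 := bmain (D := D) (n := n) k0 i hp hq
  have m1 : Pr S (fun w => H w k0 i) ≤ Pr S (fun w => H w k0 i ∧ ¬ H7 w i) +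
      Pr S (fun w => H w k0 i ∧ H7 w i) := by
    apply Pr_or
    intro w _ hw
    by_cases h7 : H7 w i
    · exact Or.inr ⟨hw, h7⟩
    · exact Or.inl ⟨hw, h7⟩
  have m2 : Pr S (fun w => H w k0 i ∧ H7 w i) ≤
      Pr S (fun w => ∃ k, k ≠ k0 ∧ (H w k0 i ∧ ac w k)) +
      Pr S (fun w => H w k0 i ∧ H7 w i ∧ ∀ k, k ≠ k0 → ¬ ac w k) := by
    apply Pr_or
    intro w _ hw
    by_cases hk : ∃ k, k ≠ k0 ∧ ac w k
    · obtain ⟨k, hk, hk'⟩ := hk
      exact Or.inl ⟨k, hk, hw.1, hk'⟩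
    · right
      refine ⟨hw.1, hw.2, ?_⟩
      intro k hk1 hk2
      exact hk ⟨k, hk1, hk2⟩
  have m3 : Pr S (fun w => H w k0 i ∧ H7 w i ∧ ∀ k, k ≠ k0 → ¬ ac w k) ≤
      Pr S (fun w => ∃ l, l ≠ i ∧ (aft (Xs p q m n D) w (.z k0) ∧ aR w i ∧ aR w l)) +
      Pr S (fun w => H w k0 i ∧ H7 w i ∧ (∀ k, k ≠ k0 → ¬ ac w k) ∧
        ∀ l, l ≠ i → ¬ aR w l) := by
    apply Pr_or
    intro w _ hw
    by_cases hl : ∃ l, l ≠ i ∧ aR w l
    · obtain ⟨l, hl, hl'⟩ := hl
      exact Or.inl ⟨l, hl, hw.1.2.1, hw.1.aR, hl'⟩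
    · right
      refine ⟨hw.1, hw.2.1, hw.2.2, ?_⟩
      intro l hl1 hl2
      exact hl ⟨l, hl1, hl2⟩
  have m4 : Pr S (fun w => H w k0 i ∧ H7 w i ∧ (∀ k, k ≠ k0 → ¬ ac w k) ∧
        ∀ l, l ≠ i → ¬ aR w l) ≤
      Pr S (fun w => ∃ l, l ≠ i ∧ (H w k0 i ∧ H10 w i l)) +
      Pr S (fun w => good w k0 i) := by
    apply Pr_or
    intro w _ hw
    by_cases hl : ∃ l, l ≠ i ∧ H10 w i l
    · obtain ⟨l, hl, hl'⟩ := hl
      exact Or.inl ⟨l, hl, hw.1, hl'⟩
    · right
      refine ⟨hw.1, hw.2.1, hw.2.2.1, hw.2.2.2, ?_⟩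
      intro l hl1 hl2
      exact hl ⟨l, hl1, hl2⟩
  have c1 := b4 (D := D) (n := n) k0 i hp hq
  have c2 := Pr_ex S (fun k : Fin m => k ≠ k0) (fun k w => H w k0 i ∧ ac w k)
    (2880 / ((p : ℝ) ^ 4 * (q : ℝ) ^ 2)) (by positivity)
    (fun k hk => b1 k0 k i hk hp hq)
  have c3 := Pr_ex S (fun l : Fin n => l ≠ i)
    (fun l w => aft (Xs p q m n D) w (.z k0) ∧ aR w i ∧ aR w l)
    (5040 / (p : ℝ) ^ 7) (by positivity)
    (fun l hl => b2 k0 i l hl hp)
  have c4 := Pr_ex S (fun l : Fin n => l ≠ i) (fun l w => H w k0 i ∧ H10 w i l)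
    (40320 / (p : ℝ) ^ 7) (by positivity)
    (fun l hl => b3 k0 i l hl hp)
  rw [Fintype.card_fin] at c2 c3 c4
  have e1 : (m * 2880 / (p ^ 4 * q ^ 2) : ℝ) = m * (2880 / ((p : ℝ) ^ 4 * (q : ℝ) ^ 2)) := by
    ring
  have e2 : (n * 45360 / p ^ 7 : ℝ) = n * (5040 / (p : ℝ) ^ 7) + n * (40320 / (p : ℝ) ^ 7) := by
    ring
  rw [e1, e2]
  linarith

end CC

open CC in
/-- the error budget for `c k0` -/
theorem core_c (k0 : Fin m) (hp : 20 ≤ p) (hq : 2 * p ≤ q) :
    Pr ((Qs p q m n D).erase (.c k0)) (fun w => sx w false < pos w (.z k0)) +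
      (n * (1 / (16 * p ^ 2 * q ^ 2) - 192 / (p * q ^ 3) - m * 2880 / (p ^ 4 * q ^ 2)
          - n * 45360 / p ^ 7)
        - n ^ 2 * 5040 / p ^ 7 - n * m * 2880 / (p ^ 4 * q ^ 2)
        - n * m ^ 2 * 161280 / (p ^ 6 * q ^ 2) : ℝ) ≤
    Pr ((Qs p q m n D).erase (.c k0)) (fun w => sx w true < pos w (.z k0)) := by
  have hp' : (20 : ℝ) ≤ p := by exact_mod_cast hp
  have hq' : (2 * p : ℝ) ≤ q := by exact_mod_cast hq
  have hq0 : (0 : ℝ) < q := by linarith
  set S := (Qs p q m n D).erase (.c k0) with hS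
  have s1 : Pr S (fun w => sx w false < pos w (.z k0)) ≤
      Pr S (fun w => sx w true < pos w (.z k0) ∧ sx w false < pos w (.z k0)) +
      Pr S (fun w => ¬ sx w true < pos w (.z k0) ∧ sx w false < pos w (.z k0)) := by
    apply Pr_or
    intro w _ hw
    by_cases h : sx w true < pos w (.z k0)
    · exact Or.inl ⟨h, hw⟩
    · exact Or.inr ⟨h, hw⟩
  have s2 : Pr S (fun w => sx w true < pos w (.z k0) ∧ sx w false < pos w (.z k0)) +
      Pr S (fun w => sx w true < pos w (.z k0) ∧ ¬ sx w false < pos w (.z k0)) ≤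
      Pr S (fun w => sx w true < pos w (.z k0)) :=
    Pr_two (fun w _ h => h.1) (fun w _ h => h.1) (fun w _ h => h.2.2 h.1.2)
  have s3 : ∑ i : Fin n, Pr S (fun w => good w k0 i) ≤
      Pr S (fun w => sx w true < pos w (.z k0) ∧ ¬ sx w false < pos w (.z k0)) := by
    apply Pr_disj (Finset.univ : Finset (Fin n)) S _ (fun i w => good w k0 i)
    · intro i _ w hw hg
      obtain ⟨⟨h1, h2, h3, h4, h5, h6⟩, h7, h8, h9, h10⟩ := hg
      have := D_main w k0 i hw h1 h2 h3 h4 h5 h6 h7 h8 h9 h10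
      exact ⟨this.1, by omega⟩
    · intro i _ j _ hij w _ hh
      exact hh.2.2.2.2.1 i hij hh.1.1.aR
  have s4 : (n : ℝ) * (1 / (16 * p ^ 2 * q ^ 2) - 192 / (p * q ^ 3) -
      m * 2880 / (p ^ 4 * q ^ 2) - n * 45360 / p ^ 7) ≤
      ∑ i : Fin n, Pr S (fun w => good w k0 i) := by
    have := Finset.card_nsmul_le_sum (Finset.univ : Finset (Fin n))
      (fun i => Pr S (fun w => good w k0 i)) _ (fun i _ => good_bound k0 i hp hq)
    rw [Finset.card_univ, Fintype.card_fin, nsmul_eq_mul] at this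
    exact this
  -- the bad part
  have t0 : Pr S (fun w => ¬ sx w true < pos w (.z k0) ∧ sx w false < pos w (.z k0)) ≤
      Pr S (fun w => ∃ i, True ∧ ∃ l, l ≠ i ∧
        (aft (Xs p q m n D) w (.z k0) ∧ aR w i ∧ aR w l)) +
      (Pr S (fun w => ∃ i : Fin n, True ∧ ∃ k, k ≠ k0 ∧
        (aft (Xs p q m n D) w (.z k0) ∧ aR w i ∧
        ac w k ∧ pos w (.z k) < pos w (.R i) ∧
        ∀ e ∈ As p q m n D, ¬ (aft (Xs p q m n D) w e ∧ pos w e < pos w (.R i)))) +
       Pr S (fun w => ∃ i : Fin n, True ∧ ∃ k, k ≠ k0 ∧ ∃ l, (l ≠ k0 ∧ k ≠ l) ∧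
        (aft (Xs p q m n D) w (.z k0) ∧ aR w i ∧
        ac w k ∧ ac w l ∧ pos w (.c l) < pos w (.z k) ∧ pos w (.z k) < pos w (.R i) ∧
        ∀ e ∈ As p q m n D, ¬ (pos w (.c l) < pos w e ∧ pos w e < pos w (.R i))))) := by
    refine (Pr_or (G := fun w => _ ∨ _) ?_).trans (add_le_add_right
      (Pr_or (fun w _ h => h)) _)
    intro w hw hh
    obtain ⟨hz, h1 | h2 | h3⟩ := D_B w k0 hw hh.1 hh.2
    · obtain ⟨i, l, hil, h1, h2⟩ := h1
      exact Or.inl ⟨i, trivial, l, hil.symm, hz, h1, h2⟩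
    · obtain ⟨i, k, hk, h1, h2, h3, h4⟩ := h2
      exact Or.inr (Or.inl ⟨i, trivial, k, hk, hz, h1, h2, h3, h4⟩)
    · obtain ⟨i, k, l, hk, hl, hkl, h1, h2, h3, h4, h5, h6⟩ := h3
      exact Or.inr (Or.inr ⟨i, trivial, k, hk, l, ⟨hl, hkl⟩, hz, h1, h2, h3, h4, h5, h6⟩)
  have t1 := Pr_ex S (fun _ : Fin n => True) (fun i w => ∃ l, l ≠ i ∧
        (aft (Xs p q m n D) w (.z k0) ∧ aR w i ∧ aR w l))
    (Fintype.card (Fin n) * (5040 / (p : ℝ) ^ 7)) (by positivity)
    (fun i _ => Pr_ex S (fun l : Fin n => l ≠ i)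
      (fun l w => aft (Xs p q m n D) w (.z k0) ∧ aR w i ∧ aR w l)
      (5040 / (p : ℝ) ^ 7) (by positivity) (fun l hl => b2 k0 i l hl hp))
  have t2 := Pr_ex S (fun _ : Fin n => True) (fun i w => ∃ k, k ≠ k0 ∧
        (aft (Xs p q m n D) w (.z k0) ∧ aR w i ∧
        ac w k ∧ pos w (.z k) < pos w (.R i) ∧
        ∀ e ∈ As p q m n D, ¬ (aft (Xs p q m n D) w e ∧ pos w e < pos w (.R i))))
    (Fintype.card (Fin m) * (2880 / ((p : ℝ) ^ 4 * (q : ℝ) ^ 2))) (by positivity)
    (fun i _ => Pr_ex S (fun k : Fin m => k ≠ k0)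
      (fun k w => aft (Xs p q m n D) w (.z k0) ∧ aR w i ∧
        ac w k ∧ pos w (.z k) < pos w (.R i) ∧
        ∀ e ∈ As p q m n D, ¬ (aft (Xs p q m n D) w e ∧ pos w e < pos w (.R i)))
      (2880 / ((p : ℝ) ^ 4 * (q : ℝ) ^ 2)) (by positivity)
      (fun k hk => bB2 k0 k i hk hp hq))
  have t3 := Pr_ex S (fun _ : Fin n => True) (fun i w => ∃ k, k ≠ k0 ∧
        ∃ l, (l ≠ k0 ∧ k ≠ l) ∧
        (aft (Xs p q m n D) w (.z k0) ∧ aR w i ∧
        ac w k ∧ ac w l ∧ pos w (.c l) < pos w (.z k) ∧ pos w (.z k) < pos w (.R i) ∧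
        ∀ e ∈ As p q m n D, ¬ (pos w (.c l) < pos w e ∧ pos w e < pos w (.R i))))
    (Fintype.card (Fin m) * (Fintype.card (Fin m) *
      (161280 / ((p : ℝ) ^ 6 * (q : ℝ) ^ 2)))) (by positivity)
    (fun i _ => Pr_ex S (fun k : Fin m => k ≠ k0)
      (fun k w => ∃ l, (l ≠ k0 ∧ k ≠ l) ∧
        (aft (Xs p q m n D) w (.z k0) ∧ aR w i ∧
        ac w k ∧ ac w l ∧ pos w (.c l) < pos w (.z k) ∧ pos w (.z k) < pos w (.R i) ∧
        ∀ e ∈ As p q m n D, ¬ (pos w (.c l) < pos w e ∧ pos w e < pos w (.R i))))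
      _ (by positivity)
      (fun k hk => Pr_ex S (fun l : Fin m => l ≠ k0 ∧ k ≠ l) _
        (161280 / ((p : ℝ) ^ 6 * (q : ℝ) ^ 2)) (by positivity)
        (fun l hl => bB3 k0 k l i hk hl.1 hl.2 hp hq)))
  rw [Fintype.card_fin] at t1 t2 t3
  have e1 : (n ^ 2 * 5040 / p ^ 7 : ℝ) = n * (n * (5040 / (p : ℝ) ^ 7)) := by ring
  have e2 : (n * m * 2880 / (p ^ 4 * q ^ 2) : ℝ) =
      n * (m * (2880 / ((p : ℝ) ^ 4 * (q : ℝ) ^ 2))) := by ring
  have e3 : (n * m ^ 2 * 161280 / (p ^ 6 * q ^ 2) : ℝ) =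
      n * (m * (m * (161280 / ((p : ℝ) ^ 6 * (q : ℝ) ^ 2)))) := by ring
  rw [e1, e2, e3]
  rw [Fintype.card_fin] at t2 t3
  linarith

end CPI
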