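import Pool.Agent.Lib.MP_cb75a6_co.Dis.Defs

set_option autoImplicit false

namespace CPI

/-- numbers -/
theorem core_num (p q m n : ℝ) (hp : p = 10 ^ 80) (hq : q = 10 ^ 92) (hm : m = 10 ^ 153)
    (hn : n = 10 ^ 200) :
    3 ≤ m * (n * (1 / (16 * p ^ 2 * q ^ 2) - 192 / (p * q ^ 3) - m * 2880 / (p ^ 4 * q ^ 2)
          - n * 45360 / p ^ 7)
        - n ^ 2 * 5040 / p ^ 7 - n * m * 2880 / (p ^ 4 * q ^ 2)
        - n * m ^ 2 * 161280 / (p ^ 6 * q ^ 2)) -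
      n * (n * 120 / p ^ 5 + 16 * p / q ^ 3 + m * 192 / (p * q ^ 3)) := by
  subst hp hq hm hn
  norm_num

end CPI
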