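import Pool.Agent.Lib.MP_cb75a6_co.Dis.Defs
import Pool.Agent.Lib.MP_cb75a6_co.Dis.W1
import Pool.Agent.Lib.MP_cb75a6_co.Dis.ST

set_option autoImplicit false

namespace CPI

open scoped Nat
open Ltr

variable {p q m n D : ℕ}

private theorem DL_pos_inj (w : List (Ltr p q m n D)) (e f : Ltr p q m n D) (he : e ∈ w)
    (h : pos w e = pos w f) : e = f := (List.idxOf_inj he).1 h

private theorem DL_step_c (w : List (Ltr p q m n D)) (u : Bool) (hn : w.Nodup) (k : Fin m)
    (hk : .c k ∈ w) : (st w u (pos w (.c k) + 1)).1 =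
      if (st w u (pos w (.c k))).1 < pos w (.z k) then pos w (.c k)
      else (st w u (pos w (.c k))).1 := by
  rw [st_succ_pos w u hn _ hk]
  simp only [stepS]
  split_ifs <;> rfl

private theorem DL_step_R (w : List (Ltr p q m n D)) (u : Bool) (hn : w.Nodup) (l : Fin n)
    (hl : .R l ∈ w) : (st w u (pos w (.R l) + 1)).1 =
      if (st w u (pos w (.R l))).1 < pos w (.y l false) ∧
        (st w u (pos w (.R l))).1 < pos w (.y l true) ∧
        (st w u (pos w (.R l))).1 < (st w u (pos w (.R l))).2 then pos w (.R l)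
      else (st w u (pos w (.R l))).1 := by
  rw [st_succ_pos w u hn _ hl]
  simp only [stepS]
  split_ifs <;> rfl

/-- the stamps of `x` in both processes agree as long as there is no active `R l` -/
private theorem DL_eqprop (w : List (Ltr p q m n D)) (hn : w.Nodup)
    (hX : ∀ v ∈ Xs p q m n D, v ∈ w) (hy : ∀ l h, (.y l h : Ltr p q m n D) ∈ w)
    (t0 t1 : ℕ) (h0 : lastX w < t0) (h01 : t0 ≤ t1) (h1 : t1 ≤ w.length)
    (heq : (st w true t0).1 = (st w false t0).1)
    (hno : ∀ l, (.R l : Ltr p q m n D) ∈ w → aR w l → t0 ≤ pos w (.R l) → pos w (.R l) < t1 →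
      False) :
    (st w true t1).1 = (st w false t1).1 := by
  induction t1, h01 using Nat.le_induction with
  | base => exact heq
  | succ t ht ih =>
    have ih' := ih (by omega) (fun l hl ha h h' => hno l hl ha h (by omega))
    obtain ⟨f, hf, hft⟩ := exists_letter w hn t (by omega)
    have gA := st_ge_lastX w true hn hX t (by omega) (by omega)
    have gB := st_ge_lastX w false hn hX t (by omega) (by omega)
    cases f with
    | c k =>
      have a1 := DL_step_c w true hn k hf
      have a2 := DL_step_c w false hn k hf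
      rw [hft] at a1 a2
      rw [a1, a2, ih']
    | R l =>
      have a1 := DL_step_R w true hn l hf
      have a2 := DL_step_R w false hn l hf
      have hact : ∀ s, lastX w ≤ s → s < pos w (.y l false) → s < pos w (.y l true) → False := by
        intro s hs c1 c2
        exact hno l hf ⟨(aft_Xs_iff w _ hf hX).2 (by omega),
          (aft_Xs_iff w _ (hy l false) hX).2 (by omega),
          (aft_Xs_iff w _ (hy l true) hX).2 (by omega)⟩ (by omega) (by omega)
      rw [hft] at a1 a2
      rw [a1, a2, if_neg, if_neg]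
      · exact ih'
      · rintro ⟨c1, c2, -⟩
        exact hact _ gB.1 c1 c2
      · rintro ⟨c1, c2, -⟩
        exact hact _ gA.1 c1 c2
    | _ =>
      have b1 := step_after w true hn hX _ hf (by omega)
      have b2 := step_after w false hn hX _ hf (by omega)
      rw [hft] at b1 b2
      simp only [reduceCtorEq, false_and, exists_false, or_self, and_false, or_false] at b1 b2
      rw [b1, b2]
      exact ih'

/-- the origin of the stamp of `x` -/
private theorem DL_origin (w : List (Ltr p q m n D)) (u : Bool) (hn : w.Nodup)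
    (hX : ∀ v ∈ Xs p q m n D, v ∈ w) (hy : ∀ l h, (.y l h : Ltr p q m n D) ∈ w)
    (hz : ∀ k, (.z k : Ltr p q m n D) ∈ w)
    (t : ℕ) (h0 : lastX w < t) (h1 : t ≤ w.length)
    (hno : ∀ l, (.R l : Ltr p q m n D) ∈ w → aR w l → pos w (.R l) < t → False) :
    (st w u t).1 = lastX w ∨ ∃ k, (.c k : Ltr p q m n D) ∈ w ∧ (st w u t).1 = pos w (.c k) ∧
      ac w k ∧ pos w (.c k) < t := by
  induction t, h0 using Nat.le_induction with
  | base => left; exact st_lastX w u hn hX
  | succ t ht ih =>
    have ht' : lastX w + 1 ≤ t := ht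
    have ih' := ih (by omega) (fun l hl ha h => hno l hl ha (by omega))
    obtain ⟨f, hf, hft⟩ := exists_letter w hn t (by omega)
    have gA := st_ge_lastX w u hn hX t (by omega) (by omega)
    rcases step_after w u hn hX f hf (by omega) with h | ⟨h, h' | h'⟩
    · rw [hft] at h
      rw [h]
      rcases ih' with h' | ⟨k, hk, h1', h2', h3'⟩
      · left; exact h'
      · right; exact ⟨k, hk, h1', h2', by omega⟩
    · obtain ⟨k, rfl, hk⟩ := h'
      right
      refine ⟨k, hf, by rw [← hft]; exact h, ⟨(aft_Xs_iff w _ hf hX).2 (by omega),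
        (aft_Xs_iff w _ (hz k) hX).2 ?_⟩, by omega⟩
      rw [hft] at hk
      omega
    · obtain ⟨l, rfl, c1, c2, -⟩ := h'
      exfalso
      rw [hft] at c1 c2
      exact hno l hf ⟨(aft_Xs_iff w _ hf hX).2 (by omega),
        (aft_Xs_iff w _ (hy l false) hX).2 (by omega),
        (aft_Xs_iff w _ (hy l true) hX).2 (by omega)⟩ (by omega)

/-- if the stamp of `a` at time `t` is at most `s` then no `A` letter lies between `s` and `t` -/
private theorem DL_noA (w : List (Ltr p q m n D)) (hn : w.Nodup) (ha : .a ∈ w)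
    (hAw : ∀ j, (.A j : Ltr p q m n D) ∈ w) (s t : ℕ) (ht : t ≤ w.length) (hs : s < w.length)
    (h : (st w true t).2 ≤ s) (e : Ltr p q m n D) (he : e ∈ As p q m n D) :
    ¬ (s < pos w e ∧ pos w e < t) := by
  rintro ⟨h1, h2⟩
  have hat : pos w .a < t := by
    by_contra hcon
    have := st_a_absent w hn ha t (by omega)
    omega
  have h3 := st_a_lt w hn ha t hat ht
  cases e with
  | A j =>
    have h4 := st_A w hn ha j (hAw j) (by omega)
    have h5 := st_a_mono w hn ha (pos w (.A j) + 1) t (by omega) (by omega) ht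
    omega
  | _ => simp [As, isA] at he

theorem D_L (w : List (Ltr p q m n D)) (i0 : Fin n)
    (hw : w ∈ words ((Qs p q m n D).erase (.R i0)))
    (hB : sx w false < pos w (.y i0 false) ∧ sx w false < pos w (.y i0 true))
    (hA : ¬ (sx w true < pos w (.y i0 false) ∧ sx w true < pos w (.y i0 true) ∧
        sx w true < sa w true)) :
    aft (Xs p q m n D) w (.y i0 false) ∧ aft (Xs p q m n D) w (.y i0 true) ∧
    ((∃ i, i ≠ i0 ∧ aR w i) ∨
     (∀ e ∈ As p q m n D, ¬ aft (Xs p q m n D) w e) ∨
     (∃ l, ac w l ∧ pos w (.c l) < pos w (.y i0 false) ∧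
        pos w (.c l) < pos w (.y i0 true) ∧
        ∀ e ∈ As p q m n D, ¬ (pos w (.c l) < pos w e))) := by
  obtain ⟨hn, hmem⟩ := mem_words.1 hw
  have hin : ∀ u : Ltr p q m n D, isQ u = true → u ≠ .R i0 → u ∈ w := by
    intro u h h'
    exact (hmem u).2 (Finset.mem_erase.2 ⟨h', Finset.mem_filter.2 ⟨Finset.mem_univ _, h⟩⟩)
  have hX : ∀ v ∈ Xs p q m n D, v ∈ w := by
    intro v hv
    cases v with
    | x => exact hin _ rfl (by simp)
    | X j => exact hin _ rfl (by simp)
    | _ => simp [Xs, isX] at hv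
  have ha : (.a : Ltr p q m n D) ∈ w := hin _ rfl (by simp)
  have hy : ∀ l h, (.y l h : Ltr p q m n D) ∈ w := fun l h => hin _ rfl (by simp)
  have hz : ∀ k, (.z k : Ltr p q m n D) ∈ w := fun k => hin _ rfl (by simp)
  have hAw : ∀ j, (.A j : Ltr p q m n D) ∈ w := fun l => hin _ rfl (by simp)
  have hRi0 : ∀ l, (.R l : Ltr p q m n D) ∈ w → l ≠ i0 := by
    rintro k hk rfl
    exact (Finset.mem_erase.1 ((hmem _).1 hk)).1 rfl
  obtain ⟨v0, hv0, hv0T, hTlt⟩ := lastX_mem w hX
  have gB := st_ge_lastX w false hn hX w.length hTlt le_rfl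
  unfold sx at hA hB
  unfold sa at hA
  obtain ⟨hB1, hB2⟩ := hB
  refine ⟨(aft_Xs_iff w _ (hy i0 false) hX).2 (by omega),
    (aft_Xs_iff w _ (hy i0 true) hX).2 (by omega), ?_⟩
  by_cases h2 : ∃ i, i ≠ i0 ∧ aR w i
  · left; exact h2
  right
  have hno : ∀ l, (.R l : Ltr p q m n D) ∈ w → aR w l → False :=
    fun l hl hl' => h2 ⟨l, hRi0 l hl, hl'⟩
  have heq := DL_eqprop w hn hX hy (lastX w + 1) w.length (by omega) (by omega) le_rfl
      (by rw [st_lastX w true hn hX, st_lastX w false hn hX])
      (fun l hl hl' _ _ => hno l hl hl')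
  have horig := DL_origin w false hn hX hy hz w.length hTlt le_rfl
      (fun l hl hl' _ => hno l hl hl')
  rw [heq] at hA
  set s := (st w false w.length).1 with hs
  have hsa : (st w true w.length).2 ≤ s := by
    by_contra hcon
    exact hA ⟨hB1, hB2, by omega⟩
  have hnoA := DL_noA w hn ha hAw s w.length le_rfl (by omega) hsa
  have hAlt : ∀ e ∈ As p q m n D, e ∈ w ∧ pos w e < w.length := by
    intro e he
    have hew : e ∈ w := by
      cases e with
      | A j => exact hAw j
      | _ => simp [As, isA] at he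
    exact ⟨hew, List.idxOf_lt_length_iff.2 hew⟩
  rcases horig with h | ⟨l, hlw, hl1, hl2, hl3⟩
  · left
    intro e he h1
    obtain ⟨hew, hel⟩ := hAlt e he
    exact hnoA e he ⟨by have := (aft_Xs_iff w _ hew hX).1 h1; omega, hel⟩
  · right
    refine ⟨l, hl2, by omega, by omega, ?_⟩
    intro e he h1
    obtain ⟨hew, hel⟩ := hAlt e he
    exact hnoA e he ⟨by omega, hel⟩

end CPI
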