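import Pool.Agent.Lib.MP_cb75a6_co.Dis.Defs
import Pool.Agent.Lib.MP_cb75a6_co.Dis.W1
import Pool.Agent.Lib.MP_cb75a6_co.Dis.W2
import Pool.Agent.Lib.MP_cb75a6_co.Dis.W2F
import Pool.Agent.Lib.MP_cb75a6_co.Dis.W3R
import Pool.Agent.Lib.MP_cb75a6_co.Dis.W3P
import Pool.Agent.Lib.MP_cb75a6_co.Dis.U1
import Pool.Agent.Lib.MP_cb75a6_co.Dis.AV3

set_option autoImplicit false

namespace CPI

open scoped Nat

variable {α : Type} [DecidableEq α]

private theorem pr_filt {S Λ : Finset α} (h : Λ ⊆ S) {w : List α} (hw : w ∈ words S) {u v : α}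
    (hu : u ∈ Λ) (hv : v ∈ Λ) :
    pos (w.filter (fun u => decide (u ∈ Λ))) u < pos (w.filter (fun u => decide (u ∈ Λ))) v ↔
      pos w u < pos w v := by
  rw [mem_words] at hw
  exact pos_filter_lt_iff _ hw.1 ((hw.2 u).2 (h hu)) ((hw.2 v).2 (h hv)) (by simpa using hu)
    (by simpa using hv)

private theorem pr_filt_aft {S Λ T : Finset α} (h : Λ ⊆ S) {w : List α} (hw : w ∈ words S)
    {e : α} (he : e ∈ Λ) (hT : T ⊆ Λ) :
    aft T (w.filter (fun u => decide (u ∈ Λ))) e ↔ aft T w e := by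
  unfold aft
  constructor
  · intro h1 v hv
    exact (pr_filt h hw (hT hv) he).1 (h1 v hv)
  · intro h1 v hv
    exact (pr_filt h hw (hT hv) he).2 (h1 v hv)

private theorem pr_ins_aft {T : Finset α} {w : List α} {e u : α} {t : ℕ} (hw : w.Nodup)
    (he : e ∉ w) (hu : u ∈ w) (hT : ∀ v ∈ T, v ∈ w) (ht : t ≤ w.length) :
    aft T (insAt t e w) u ↔ aft T w u := by
  unfold aft
  constructor
  · intro h1 v hv
    exact (pos_insAt_lt_iff hw he (hT v hv) hu ht).1 (h1 v hv)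
  · intro h1 v hv
    exact (pos_insAt_lt_iff hw he (hT v hv) hu ht).2 (h1 v hv)

private theorem pr_ins_self {T : Finset α} {w : List α} {e : α} {t : ℕ} (hw : w.Nodup)
    (he : e ∉ w) (hT : ∀ v ∈ T, v ∈ w) (ht : t ≤ w.length) :
    aft T (insAt t e w) e ↔ ∀ v ∈ T, pos w v < t := by
  unfold aft
  constructor
  · intro h1 v hv
    exact (pos_insAt_lt_self_iff hw he (hT v hv) ht).1 (h1 v hv)
  · intro h1 v hv
    exact (pos_insAt_lt_self_iff hw he (hT v hv) ht).2 (h1 v hv)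

/-- ray pattern: `Lo < y₁, y₂`, no letter of `A` after `Lo` -/
theorem Pr_ray (S Y es A Lo : Finset α) (y₁ y₂ : α) (hY : Y.Nonempty) (hYe : Disjoint Y es)
    (hA : Disjoint (Y ∪ es) A) (hS : Y ∪ es ∪ A ⊆ S) (h1 : y₁ ∈ es) (h2 : y₂ ∈ es)
    (h12 : y₁ ≠ y₂) (hLo : Lo ⊆ Y ∪ es) (h1L : y₁ ∉ Lo) (h2L : y₂ ∉ Lo) :
    Pr S (fun w => (∀ e ∈ es, aft Y w e) ∧ aft Lo w y₁ ∧ aft Lo w y₂ ∧
        ∀ e ∈ A, ¬ aft Lo w e) ≤
      (es.card ! : ℝ) / (Y.card : ℝ) ^ es.card *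
        (((Y.card + es.card : ℕ) : ℝ) / ((Y.card + es.card + A.card : ℕ) : ℝ)) ^ 3 := by
  classical
  have hcard : (Y ∪ es).card = Y.card + es.card := Finset.card_union_of_disjoint hYe
  have hYΛ : Y ⊆ Y ∪ es := Finset.subset_union_left
  have heΛ : es ⊆ Y ∪ es := Finset.subset_union_right
  have hΛA : Y ∪ es ⊆ Y ∪ es ∪ A := Finset.subset_union_left
  have hAA : A ⊆ Y ∪ es ∪ A := Finset.subset_union_right
  -- the events
  set F : List α → Prop := fun w => (∀ e ∈ es, aft Y w e) ∧ aft Lo w y₁ ∧ aft Lo w y₂ with hF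
  set B : List α → α → Prop := fun w e => aft Lo w e with hB
  have h3 : Pr S (fun w => (∀ e ∈ es, aft Y w e) ∧ aft Lo w y₁ ∧ aft Lo w y₂ ∧
        ∀ e ∈ A, ¬ aft Lo w e) =
      Pr (Y ∪ es ∪ A) (fun w => F w ∧ ∀ e ∈ A, ¬ B w e) := by
    rw [← Pr_restrict hS]
    apply Pr_congr
    intro w hw
    have a1 : ∀ e ∈ es, (aft Y (w.filter (fun u => decide (u ∈ Y ∪ es ∪ A))) e ↔ aft Y w e) :=
      fun e he => pr_filt_aft hS hw (hΛA (heΛ he)) (hYΛ.trans hΛA)
    have a2 : aft Lo (w.filter (fun u => decide (u ∈ Y ∪ es ∪ A))) y₁ ↔ aft Lo w y₁ :=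
      pr_filt_aft hS hw (hΛA (heΛ h1)) (hLo.trans hΛA)
    have a3 : aft Lo (w.filter (fun u => decide (u ∈ Y ∪ es ∪ A))) y₂ ↔ aft Lo w y₂ :=
      pr_filt_aft hS hw (hΛA (heΛ h2)) (hLo.trans hΛA)
    have a4 : ∀ e ∈ A, (aft Lo (w.filter (fun u => decide (u ∈ Y ∪ es ∪ A))) e ↔ aft Lo w e) :=
      fun e he => pr_filt_aft hS hw (hAA he) (hLo.trans hΛA)
    simp only [hF, hB]
    constructor
    · rintro ⟨b1, b2, b3, b4⟩
      refine ⟨⟨fun e he => (a1 e he).2 (b1 e he), a2.2 b2, a3.2 b3⟩, fun e he h => ?_⟩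
      exact b4 e he ((a4 e he).1 h)
    · rintro ⟨⟨b1, b2, b3⟩, b4⟩
      refine ⟨fun e he => (a1 e he).1 (b1 e he), a2.1 b2, a3.1 b3, fun e he h => ?_⟩
      exact b4 e he ((a4 e he).2 h)
  have h4 : 3 ≤ (Y ∪ es).card := by
    have c1 : 0 < Y.card := hY.card_pos
    have c2 : 2 ≤ es.card := by
      rw [← Finset.card_pair h12]
      apply Finset.card_le_card
      intro v hv
      rw [Finset.mem_insert, Finset.mem_singleton] at hv
      rcases hv with rfl | rfl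
      · exact h1
      · exact h2
    omega
  -- facts on words
  have hfacts : ∀ A' ⊆ A, ∀ e ∈ A, e ∉ A' → ∀ w ∈ words (Y ∪ es ∪ A'), w.Nodup ∧ e ∉ w ∧
      (∀ v ∈ Y ∪ es, v ∈ w) ∧ ∀ v ∈ A', v ∈ w := by
    intro A' hA' e he heA' w hw
    rw [mem_words] at hw
    refine ⟨hw.1, ?_, ?_, ?_⟩
    · rw [hw.2, Finset.mem_union, not_or]
      exact ⟨fun h => (Finset.disjoint_left.1 hA) h he, heA'⟩
    · intro v hv
      rw [hw.2]
      exact Finset.mem_union_left _ hv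
    · intro v hv
      rw [hw.2]
      exact Finset.mem_union_right _ hv
  have h5 := Pr_avoid_le (Y ∪ es) A hA F B 3 h4 ?_ ?_ ?_
  · rw [h3]
    refine h5.trans ?_
    have h6 : Pr (Y ∪ es) F ≤ (es.card ! : ℝ) / (Y.card : ℝ) ^ es.card := by
      refine le_trans (Pr_mono fun w _ h => h.1) (Pr_aft (Y ∪ es) Y es hYe le_rfl hY)
    rw [hcard]
    push_cast
    exact mul_le_mul_of_nonneg_right h6 (by positivity)
  · intro A' hA' e he heA' w hw t ht hFw
    obtain ⟨c1, c2, c3, c4⟩ := hfacts A' hA' e he heA' w hw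
    obtain ⟨b1, b2, b3⟩ := hFw
    refine ⟨fun v hv => ?_, ?_, ?_⟩
    · exact (pr_ins_aft c1 c2 (c3 v (heΛ hv)) (fun u hu => c3 u (hYΛ hu)) ht).1 (b1 v hv)
    · exact (pr_ins_aft c1 c2 (c3 y₁ (heΛ h1)) (fun u hu => c3 u (hLo hu)) ht).1 b2
    · exact (pr_ins_aft c1 c2 (c3 y₂ (heΛ h2)) (fun u hu => c3 u (hLo hu)) ht).1 b3
  · intro A' hA' e he heA' e' he' w hw t ht hBw
    obtain ⟨c1, c2, c3, c4⟩ := hfacts A' hA' e he heA' w hw
    exact (pr_ins_aft c1 c2 (c4 e' he') (fun u hu => c3 u (hLo hu)) ht).2 hBw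
  · intro A' hA' e he heA' w hw hFw
    obtain ⟨c1, c2, c3, c4⟩ := hfacts A' hA' e he heA' w hw
    obtain ⟨b1, b2, b3⟩ := hFw
    have l1 : pos w y₁ < w.length := List.idxOf_lt_length_iff.2 (c3 y₁ (heΛ h1))
    have l2 : pos w y₂ < w.length := List.idxOf_lt_length_iff.2 (c3 y₂ (heΛ h2))
    have hne : pos w y₁ ≠ pos w y₂ := by
      intro h
      exact h12 ((List.idxOf_inj (c3 y₁ (heΛ h1))).1 h)
    have key : ∀ t ≤ w.length, (∀ v ∈ Lo, pos w v < t) → B (insAt t e w) e := by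
      intro t ht k1
      exact (pr_ins_self c1 c2 (fun u hu => c3 u (hLo hu)) ht).2 k1
    have hsub : ({pos w y₁, pos w y₂, w.length} : Finset ℕ) ⊆
        (Finset.range (w.length + 1)).filter (fun t => B (insAt t e w) e) := by
      intro t ht
      rw [Finset.mem_insert, Finset.mem_insert, Finset.mem_singleton] at ht
      rw [Finset.mem_filter, Finset.mem_range]
      rcases ht with rfl | rfl | rfl
      · exact ⟨by omega, key _ (by omega) b2⟩
      · exact ⟨by omega, key _ (by omega) b3⟩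
      · exact ⟨by omega, key _ le_rfl (fun v hv => (b2 v hv).trans l1)⟩
    have hc3 : ({pos w y₁, pos w y₂, w.length} : Finset ℕ).card = 3 :=
      Finset.card_eq_three.2 ⟨_, _, _, hne, by omega, by omega, rfl⟩
    rw [← hc3]
    exact Finset.card_le_card hsub

end CPI
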