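import Pool.Agent.Lib.MP_cb75a6_co.Dis.Defs
import Pool.Agent.Lib.MP_cb75a6_co.Dis.W1
import Pool.Agent.Lib.MP_cb75a6_co.Dis.W3P
import Pool.Agent.Lib.MP_cb75a6_co.Dis.U1
import Pool.Agent.Lib.MP_cb75a6_co.Dis.PR
import Pool.Agent.Lib.MP_cb75a6_co.Dis.PO1
import Pool.Agent.Lib.MP_cb75a6_co.Dis.DL

set_option autoImplicit false

namespace CPI

open scoped Nat
open Ltr

variable {p q m n D : ℕ}

namespace CR

theorem aft_trans {w : List (Ltr p q m n D)} {Y : Finset (Ltr p q m n D)}
    {u v : Ltr p q m n D} (h : aft Y w u) (h' : pos w u < pos w v) : aft Y w v :=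
  fun t ht => (h t ht).trans h'

theorem mem_Xs {u : Ltr p q m n D} : u ∈ Xs p q m n D ↔ isX u = true := by simp [Xs]
theorem mem_As {u : Ltr p q m n D} : u ∈ As p q m n D ↔ isA u = true := by simp [As]
theorem mem_Qs {u : Ltr p q m n D} : u ∈ Qs p q m n D ↔ isQ u = true := by simp [Qs]

theorem Xs_ne : (Xs p q m n D).Nonempty := ⟨.x, Finset.mem_filter.2 ⟨Finset.mem_univ _, rfl⟩⟩

theorem isQ_of_isX {u : Ltr p q m n D} (h : isX u = true) : isQ u = true := by
  cases u <;> simp_all [isX, isQ]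
theorem isQ_of_isA {u : Ltr p q m n D} (h : isA u = true) : isQ u = true := by
  cases u <;> simp_all [isA, isQ]
theorem not_isA_of_isX {u : Ltr p q m n D} (h : isX u = true) : isA u = false := by
  cases u <;> simp_all [isX, isA]

/-- numerical factors -/
theorem fac_le (s : ℕ) (hs : s ≤ 9) (hp : 20 ≤ p) (hq : 2 * p ≤ q) :
    (((p + 1 + s : ℕ) : ℝ) / ((p + 1 + s + q : ℕ) : ℝ)) ≤ 2 * p / q := by
  have hp' : (20 : ℝ) ≤ p := by exact_mod_cast hp
  have hq' : (2 * p : ℝ) ≤ q := by exact_mod_cast hq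
  have hq0 : (0 : ℝ) < q := by linarith
  have hs' : (s : ℝ) ≤ 9 := by exact_mod_cast hs
  push_cast
  rw [div_le_div_iff₀ (by positivity) hq0]
  nlinarith [mul_nonneg (show (0:ℝ) ≤ p + 1 + s by positivity) hq0.le]

theorem pow_card_le (s : ℕ) (hp : 20 ≤ p) (c : ℝ) (hc : 0 ≤ c) :
    c / (((p + 1 : ℕ) : ℝ)) ^ s ≤ c / (p : ℝ) ^ s := by
  have hp' : (20 : ℝ) ≤ p := by exact_mod_cast hp
  apply div_le_div_of_nonneg_left hc (by positivity)
  apply pow_le_pow_left₀ (by positivity)
  push_cast; linarith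

theorem disj_X (es : Finset (Ltr p q m n D)) (h : ∀ e ∈ es, isX e = false) :
    Disjoint (Xs p q m n D) es := by
  rw [Finset.disjoint_left]
  intro u hu hu'
  rw [mem_Xs] at hu
  rw [h u hu'] at hu
  exact absurd hu (by decide)

theorem disj_A (es : Finset (Ltr p q m n D)) (h : ∀ e ∈ es, isA e = false) :
    Disjoint (Xs p q m n D ∪ es) (As p q m n D) := by
  rw [Finset.disjoint_left]
  intro u hu hu'
  rw [mem_As] at hu'
  rcases Finset.mem_union.1 hu with h1 | h1
  · rw [mem_Xs] at h1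
    rw [not_isA_of_isX h1] at hu'
    exact absurd hu' (by decide)
  · rw [h u h1] at hu'
    exact absurd hu' (by decide)

theorem sub_S (es : Finset (Ltr p q m n D)) (e0 : Ltr p q m n D) (h0 : isX e0 = false)
    (h0' : isA e0 = false) (h : ∀ e ∈ es, isQ e = true ∧ e ≠ e0) :
    Xs p q m n D ∪ es ∪ As p q m n D ⊆ (Qs p q m n D).erase e0 := by
  intro u hu
  rw [Finset.mem_erase, mem_Qs]
  rcases Finset.mem_union.1 hu with h1 | h1
  · rcases Finset.mem_union.1 h1 with h2 | h2
    · rw [mem_Xs] at h2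
      refine ⟨?_, isQ_of_isX h2⟩
      rintro rfl
      rw [h0] at h2
      exact absurd h2 (by decide)
    · exact ⟨(h u h2).2, (h u h2).1⟩
  · rw [mem_As] at h1
    refine ⟨?_, isQ_of_isA h1⟩
    rintro rfl
    rw [h0'] at h1
    exact absurd h1 (by decide)

/-- uniform version of the `aft` bound -/
theorem aft_bound (e0 : Ltr p q m n D) (h0 : isX e0 = false) (h0' : isA e0 = false)
    (es : Finset (Ltr p q m n D)) (s : ℕ) (hcard : es.card = s)
    (hX : ∀ e ∈ es, isX e = false)
    (hQ : ∀ e ∈ es, isQ e = true ∧ e ≠ e0) (hp : 20 ≤ p) :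
    Pr ((Qs p q m n D).erase e0) (fun w => ∀ e ∈ es, aft (Xs p q m n D) w e) ≤
      (s ! : ℝ) / (p : ℝ) ^ s := by
  refine (Pr_aft _ (Xs p q m n D) es (disj_X es hX)
    (Finset.subset_union_left.trans (sub_S es e0 h0 h0' hQ)) Xs_ne).trans ?_
  rw [hcard, card_Xs]
  exact pow_card_le (p := p) s hp (s ! : ℝ) (by positivity)

/-- uniform version of the ray bound -/
theorem ray_bound (e0 : Ltr p q m n D) (h0 : isX e0 = false) (h0' : isA e0 = false)
    (es Lo : Finset (Ltr p q m n D)) (s : ℕ) (hcard : es.card = s) (hs : s ≤ 9)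
    (hX : ∀ e ∈ es, isX e = false) (hA : ∀ e ∈ es, isA e = false)
    (hQ : ∀ e ∈ es, isQ e = true ∧ e ≠ e0) (y₁ y₂ : Ltr p q m n D) (h1 : y₁ ∈ es)
    (h2 : y₂ ∈ es) (h12 : y₁ ≠ y₂)
    (hLo : Lo ⊆ Xs p q m n D ∪ es) (h1L : y₁ ∉ Lo) (h2L : y₂ ∉ Lo) (hp : 20 ≤ p)
    (hq : 2 * p ≤ q) :
    Pr ((Qs p q m n D).erase e0) (fun w => (∀ e ∈ es, aft (Xs p q m n D) w e) ∧
        aft Lo w y₁ ∧ aft Lo w y₂ ∧ ∀ e ∈ As p q m n D, ¬ aft Lo w e) ≤
      (s ! : ℝ) / (p : ℝ) ^ s * (2 * p / q) ^ 3 := by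
  refine (Pr_ray _ (Xs p q m n D) es (As p q m n D) Lo y₁ y₂ Xs_ne (disj_X es hX)
    (disj_A es hA) (sub_S es e0 h0 h0' hQ) h1 h2 h12 hLo h1L h2L).trans ?_
  rw [hcard, card_Xs, card_As]
  have h1 := pow_card_le (p := p) s hp (s ! : ℝ) (by positivity)
  have h2 := fac_le (p := p) (q := q) s hs hp hq
  apply mul_le_mul h1 _ (by positivity) (by positivity)
  exact pow_le_pow_left₀ (by positivity) h2 3

/-- pattern L1 -/
theorem bL1 (i0 i : Fin n) (hi : i ≠ i0) (hp : 20 ≤ p) :
    Pr ((Qs p q m n D).erase (.R i0)) (fun w => aft (Xs p q m n D) w (.y i0 false) ∧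
      aft (Xs p q m n D) w (.y i0 true) ∧ aR w i) ≤ 120 / p ^ 5 := by
  set es : Finset (Ltr p q m n D) :=
    {.y i0 false, .y i0 true, .R i, .y i false, .y i true} with hes
  have hcard : es.card = 5 := by
    rw [hes]
    repeat rw [Finset.card_insert_of_notMem]
    all_goals simp [hi, hi.symm]
  have hmem : ∀ e ∈ es, e = .y i0 false ∨ e = .y i0 true ∨ e = .R i ∨ e = .y i false ∨
      e = .y i true := by
    intro e he
    simpa only [hes, Finset.mem_insert, Finset.mem_singleton] using he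
  have hX : ∀ e ∈ es, isX e = false := by
    intro e he
    rcases hmem e he with rfl | rfl | rfl | rfl | rfl <;> rfl
  have hQ : ∀ e ∈ es, isQ e = true ∧ e ≠ .R i0 := by
    intro e he
    rcases hmem e he with rfl | rfl | rfl | rfl | rfl <;> exact ⟨rfl, by simp [hi]⟩
  have key := aft_bound (.R i0) rfl rfl es 5 hcard hX hQ hp
  refine (Pr_mono ?_).trans (key.trans (le_of_eq ?_))
  · intro w _ hw e he
    obtain ⟨h1, h2, h3⟩ := hw
    rcases hmem e he with rfl | rfl | rfl | rfl | rfl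
    · exact h1
    · exact h2
    · exact h3.1
    · exact h3.2.1
    · exact h3.2.2
  · have : (5 ! : ℝ) = 120 := by norm_num [Nat.factorial]
    rw [this]

/-- pattern L2 -/
theorem bL2 (i0 : Fin n) (hp : 20 ≤ p) (hq : 2 * p ≤ q) :
    Pr ((Qs p q m n D).erase (.R i0)) (fun w => aft (Xs p q m n D) w (.y i0 false) ∧
      aft (Xs p q m n D) w (.y i0 true) ∧
      ∀ e ∈ As p q m n D, ¬ aft (Xs p q m n D) w e) ≤ 16 * p / q ^ 3 := by
  have hp' : (20 : ℝ) ≤ p := by exact_mod_cast hp
  have hq' : (2 * p : ℝ) ≤ q := by exact_mod_cast hq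
  have hq0 : (0 : ℝ) < q := by linarith
  set es : Finset (Ltr p q m n D) := {.y i0 false, .y i0 true} with hes
  have hcard : es.card = 2 := by simp [hes]
  have hmem : ∀ e ∈ es, e = .y i0 false ∨ e = .y i0 true := by
    intro e he
    simpa only [hes, Finset.mem_insert, Finset.mem_singleton] using he
  have hX : ∀ e ∈ es, isX e = false := by
    intro e he
    rcases hmem e he with rfl | rfl <;> rfl
  have hA : ∀ e ∈ es, isA e = false := by
    intro e he
    rcases hmem e he with rfl | rfl <;> rfl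
  have hQ : ∀ e ∈ es, isQ e = true ∧ e ≠ .R i0 := by
    intro e he
    rcases hmem e he with rfl | rfl <;> exact ⟨rfl, by simp⟩
  have key := ray_bound (.R i0) rfl rfl es (Xs p q m n D) 2 hcard (by norm_num) hX hA hQ
    (.y i0 false) (.y i0 true) (by simp [hes]) (by simp [hes]) (by simp)
    Finset.subset_union_left (by rw [mem_Xs]; simp [isX]) (by rw [mem_Xs]; simp [isX]) hp hq
  refine (Pr_mono ?_).trans (key.trans (le_of_eq ?_))
  · intro w _ hw
    obtain ⟨h1, h2, h3⟩ := hw
    refine ⟨?_, h1, h2, h3⟩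
    intro e he
    rcases hmem e he with rfl | rfl
    · exact h1
    · exact h2
  · have : (2 ! : ℝ) = 2 := by norm_num [Nat.factorial]
    rw [this]
    field_simp
    ring

/-- pattern L3 -/
theorem bL3 (i0 : Fin n) (l : Fin m) (hp : 20 ≤ p) (hq : 2 * p ≤ q) :
    Pr ((Qs p q m n D).erase (.R i0)) (fun w => aft (Xs p q m n D) w (.y i0 false) ∧
      aft (Xs p q m n D) w (.y i0 true) ∧ ac w l ∧ pos w (.c l) < pos w (.y i0 false) ∧
        pos w (.c l) < pos w (.y i0 true) ∧
        ∀ e ∈ As p q m n D, ¬ (pos w (.c l) < pos w e)) ≤ 192 / (p * q ^ 3) := by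
  have hp' : (20 : ℝ) ≤ p := by exact_mod_cast hp
  have hq' : (2 * p : ℝ) ≤ q := by exact_mod_cast hq
  have hq0 : (0 : ℝ) < q := by linarith
  set es : Finset (Ltr p q m n D) := {.y i0 false, .y i0 true, .c l, .z l} with hes
  have hcard : es.card = 4 := by simp [hes]
  have hmem : ∀ e ∈ es, e = .y i0 false ∨ e = .y i0 true ∨ e = .c l ∨ e = .z l := by
    intro e he
    simpa only [hes, Finset.mem_insert, Finset.mem_singleton] using he
  have hX : ∀ e ∈ es, isX e = false := by
    intro e he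
    rcases hmem e he with rfl | rfl | rfl | rfl <;> rfl
  have hA : ∀ e ∈ es, isA e = false := by
    intro e he
    rcases hmem e he with rfl | rfl | rfl | rfl <;> rfl
  have hQ : ∀ e ∈ es, isQ e = true ∧ e ≠ .R i0 := by
    intro e he
    rcases hmem e he with rfl | rfl | rfl | rfl <;> exact ⟨rfl, by simp⟩
  have key := ray_bound (.R i0) rfl rfl es {.c l} 4 hcard (by norm_num) hX hA hQ
    (.y i0 false) (.y i0 true) (by simp [hes]) (by simp [hes]) (by simp)
    (by
      intro u hu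
      rw [Finset.mem_singleton] at hu
      subst hu
      exact Finset.mem_union_right _ (by simp [hes])) (by simp) (by simp) hp hq
  refine (Pr_mono ?_).trans (key.trans (le_of_eq ?_))
  · intro w _ hw
    obtain ⟨h1, h2, h3, h4, h5, h6⟩ := hw
    refine ⟨?_, ?_, ?_, ?_⟩
    · intro e he
      rcases hmem e he with rfl | rfl | rfl | rfl
      · exact h1
      · exact h2
      · exact h3.1
      · exact h3.2
    · intro v hv
      rw [Finset.mem_singleton] at hv
      subst hv
      exact h4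
    · intro v hv
      rw [Finset.mem_singleton] at hv
      subst hv
      exact h5
    · intro e he hh
      exact h6 e he (hh _ (Finset.mem_singleton_self _))
  · have : (4 ! : ℝ) = 24 := by norm_num [Nat.factorial]
    rw [this]
    field_simp
    ring

theorem Pr_false (S : Finset (Ltr p q m n D)) : Pr S (fun _ => False) = 0 := by
  simp [Pr, N]

theorem Pr_two {S : Finset (Ltr p q m n D)} {E F G : List (Ltr p q m n D) → Prop}
    (hF : ∀ w ∈ words S, F w → E w) (hG : ∀ w ∈ words S, G w → E w)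
    (hd : ∀ w ∈ words S, ¬ (F w ∧ G w)) : Pr S F + Pr S G ≤ Pr S E := by
  have h := Pr_disj (Finset.univ : Finset Bool) S E (fun b => if b = true then F else G)
    (by
      intro b _ w hw h
      cases b
      · exact hG w hw (by simpa using h)
      · exact hF w hw (by simpa using h))
    (by
      intro b _ b' _ hb w hw h
      cases b <;> cases b' <;> simp at hb h
      · exact hd w hw ⟨h.2, h.1⟩
      · exact hd w hw ⟨h.1, h.2⟩)
  simpa [Fintype.sum_bool] using h

/-- union bound with a side condition on the index -/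
theorem Pr_ex {ι : Type} [Fintype ι] (S : Finset (Ltr p q m n D)) (c : ι → Prop)
    (F : ι → List (Ltr p q m n D) → Prop) (B : ℝ) (hB : 0 ≤ B)
    (h : ∀ i, c i → Pr S (F i) ≤ B) :
    Pr S (fun w => ∃ i, c i ∧ F i w) ≤ Fintype.card ι * B := by
  classical
  have h1 := Pr_union (Finset.univ : Finset ι) S (fun w => ∃ i, c i ∧ F i w)
    (fun i w => c i ∧ F i w) (by
      intro w _ ⟨i, hi⟩
      exact ⟨i, Finset.mem_univ _, hi⟩)
  refine h1.trans ?_
  have h2 : ∀ i ∈ (Finset.univ : Finset ι), Pr S (fun w => c i ∧ F i w) ≤ B := by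
    intro i _
    by_cases hc : c i
    · exact (Pr_mono (fun w _ hw => hw.2)).trans (h i hc)
    · refine (Pr_mono (F := fun _ => False) (fun w _ hw => hc hw.1)).trans ?_
      rw [Pr_false]
      exact hB
  refine (Finset.sum_le_sum h2).trans ?_
  rw [Finset.sum_const, Finset.card_univ, nsmul_eq_mul]

end CR

open CR in
theorem core_R (i0 : Fin n) (hp : 20 ≤ p) (hq : 2 * p ≤ q) :
    Pr ((Qs p q m n D).erase (.R i0)) (fun w => sx w false < pos w (.y i0 false) ∧
        sx w false < pos w (.y i0 true)) -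
      (n * 120 / p ^ 5 + 16 * p / q ^ 3 + m * 192 / (p * q ^ 3) : ℝ) ≤
    Pr ((Qs p q m n D).erase (.R i0)) (fun w => sx w true < pos w (.y i0 false) ∧
        sx w true < pos w (.y i0 true) ∧ sx w true < sa w true) := by
  have hp' : (20 : ℝ) ≤ p := by exact_mod_cast hp
  have hq' : (2 * p : ℝ) ≤ q := by exact_mod_cast hq
  have hq0 : (0 : ℝ) < q := by linarith
  set S := (Qs p q m n D).erase (.R i0) with hS
  have s1 : Pr S (fun w => sx w false < pos w (.y i0 false) ∧
        sx w false < pos w (.y i0 true)) ≤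
      Pr S (fun w => sx w true < pos w (.y i0 false) ∧
        sx w true < pos w (.y i0 true) ∧ sx w true < sa w true) +
      (Pr S (fun w => ∃ i, i ≠ i0 ∧ (aft (Xs p q m n D) w (.y i0 false) ∧
          aft (Xs p q m n D) w (.y i0 true) ∧ aR w i)) +
       (Pr S (fun w => aft (Xs p q m n D) w (.y i0 false) ∧
          aft (Xs p q m n D) w (.y i0 true) ∧
          ∀ e ∈ As p q m n D, ¬ aft (Xs p q m n D) w e) +
        Pr S (fun w => ∃ l : Fin m, True ∧ (aft (Xs p q m n D) w (.y i0 false) ∧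
          aft (Xs p q m n D) w (.y i0 true) ∧ ac w l ∧ pos w (.c l) < pos w (.y i0 false) ∧
          pos w (.c l) < pos w (.y i0 true) ∧
          ∀ e ∈ As p q m n D, ¬ (pos w (.c l) < pos w e))))) := by
    refine (Pr_or (G := fun w => _ ∨ (_ ∨ _)) ?_).trans (add_le_add_right
      ((Pr_or (G := fun w => _ ∨ _) (fun w _ h => h)).trans
        (add_le_add_right (Pr_or (fun w _ h => h)) _)) _)
    intro w hw hh
    by_cases hA : sx w true < pos w (.y i0 false) ∧
        sx w true < pos w (.y i0 true) ∧ sx w true < sa w true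
    · exact Or.inl hA
    · right
      obtain ⟨h1, h2, h3 | h3 | h3⟩ := D_L w i0 hw hh hA
      · obtain ⟨i, hi, hi'⟩ := h3
        exact Or.inl ⟨i, hi, h1, h2, hi'⟩
      · exact Or.inr (Or.inl ⟨h1, h2, h3⟩)
      · obtain ⟨l, h4, h5, h6, h7⟩ := h3
        exact Or.inr (Or.inr ⟨l, trivial, h1, h2, h4, h5, h6, h7⟩)
  have t1 := Pr_ex S (fun i : Fin n => i ≠ i0) (fun i w =>
      aft (Xs p q m n D) w (.y i0 false) ∧ aft (Xs p q m n D) w (.y i0 true) ∧ aR w i)
    (120 / (p : ℝ) ^ 5) (by positivity) (fun i hi => bL1 i0 i hi hp)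
  have t2 := bL2 (D := D) (m := m) i0 hp hq
  have t3 := Pr_ex S (fun _ : Fin m => True) (fun l w =>
      aft (Xs p q m n D) w (.y i0 false) ∧
          aft (Xs p q m n D) w (.y i0 true) ∧ ac w l ∧ pos w (.c l) < pos w (.y i0 false) ∧
          pos w (.c l) < pos w (.y i0 true) ∧
          ∀ e ∈ As p q m n D, ¬ (pos w (.c l) < pos w e))
    (192 / ((p : ℝ) * (q : ℝ) ^ 3)) (by positivity) (fun l _ => bL3 i0 l hp hq)
  rw [Fintype.card_fin] at t1 t3
  have e1 : (n * 120 / p ^ 5 : ℝ) = n * (120 / (p : ℝ) ^ 5) := by ring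
  have e2 : (m * 192 / (p * q ^ 3) : ℝ) = m * (192 / ((p : ℝ) * (q : ℝ) ^ 3)) := by ring
  rw [e1, e2]
  linarith

end CPI
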