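import Pool.Agent.Lib.MP_cb75a6_co.Dis.Defs

set_option autoImplicit false

namespace CPI

open scoped Nat
open Ltr

/-- `G_Q(x)` and `G_{Q-a}(x)` -/
noncomputable def GA (p q m n D : ℕ) : ℝ :=
  (N (Qs p q m n D) (fun w => FinIs w .x) : ℝ) / (((Qs p q m n D).card - 1)! : ℝ)

noncomputable def GB (p q m n D : ℕ) : ℝ :=
  (N ((Qs p q m n D).erase .a) (fun w => FinIs w .x) : ℝ) / (((Qs p q m n D).card - 2)! : ℝ)

end CPI
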