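import Pool.Agent.Lib.MP_cb75a6_co.Dis.Defs

set_option autoImplicit false

namespace CPI

open scoped Nat

private theorem LP_ins_perm {α : Type} [LT α] [DecidableLT α] (S : List α) :
    ∀ e : α, (ins e S).Perm (e :: S) := by
  induction S with
  | nil => intro e; exact List.Perm.refl _
  | cons s S ih =>
    intro e
    unfold ins
    split_ifs with h
    · exact List.Perm.cons _ (ih s)
    · exact ((ih e).cons s).trans (List.Perm.swap e s S)

theorem SL_snoc {α : Type} [LT α] [DecidableLT α] (w : List α) (e : α) :
    SL (w ++ [e]) = ins e (SL w) := by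
  unfold SL
  rw [List.foldl_append]
  rfl

theorem SL_perm {α : Type} [LT α] [DecidableLT α] (w : List α) : (SL w).Perm w := by
  induction w using List.reverseRecOn with
  | nil => exact List.Perm.refl _
  | append_singleton w e ih =>
    rw [SL_snoc]
    refine (LP_ins_perm _ e).trans ?_
    refine (ih.cons e).trans ?_
    exact (List.perm_append_singleton e w).symm

theorem exists_fin {α : Type} [LT α] [DecidableLT α] (w : List α) (h : w ≠ []) :
    ∃ u, FinIs w u := by
  have : SL w ≠ [] := by
    intro h'
    apply h
    have := (SL_perm w)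
    rw [h'] at this
    exact this.symm.eq_nil
  exact ⟨(SL w).getLast this, List.getLast?_eq_some_getLast this⟩

/-- the last entry of `ins e S` is below `e`, and nothing it passed is smaller -/
private theorem LP_ins_min {α : Type} [PartialOrder α] [DecidableLT α] (S : List α) :
    ∀ (e u : α), (ins e S).getLast? = some u → u ≤ e ∧ ∀ v ∈ e :: S, ¬ v < u := by
  induction S with
  | nil =>
    intro e u h
    have : e = u := by simpa [ins] using h
    subst this
    exact ⟨le_refl _, fun v hv => by rw [List.mem_singleton] at hv; subst hv; exact lt_irrefl _⟩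
  | cons s S ih =>
    intro e u h
    unfold ins at h
    split_ifs at h with hs
    · have hne : ins s S ≠ [] := fun h' => by
        have := LP_ins_perm S s
        rw [h'] at this
        exact absurd this.symm.eq_nil (by simp)
      rw [List.getLast?_cons_of_ne_nil hne] at h
      obtain ⟨h1, h2⟩ := ih s u h
      refine ⟨h1.trans hs.le, fun v hv => ?_⟩
      rw [List.mem_cons] at hv
      rcases hv with rfl | hv
      · intro hlt
        exact absurd (lt_of_lt_of_le (lt_of_lt_of_le hlt h1) hs.le) (lt_irrefl _)
      · exact h2 v hv
    · have hne : ins e S ≠ [] := fun h' => by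
        have := LP_ins_perm S e
        rw [h'] at this
        exact absurd this.symm.eq_nil (by simp)
      rw [List.getLast?_cons_of_ne_nil hne] at h
      obtain ⟨h1, h2⟩ := ih e u h
      refine ⟨h1, fun v hv => ?_⟩
      rw [List.mem_cons, List.mem_cons] at hv
      rcases hv with rfl | rfl | hv
      · exact h2 _ (List.mem_cons_self)
      · intro hlt
        exact hs (lt_of_lt_of_le hlt h1)
      · exact h2 v (List.mem_cons_of_mem _ hv)

theorem fin_minimal {α : Type} [PartialOrder α] [DecidableLT α] (w : List α) (u : α)
    (h : FinIs w u) : u ∈ w ∧ ∀ v ∈ w, ¬ v < u := by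
  unfold FinIs at h
  have hmem : u ∈ SL w := List.mem_of_getLast? h
  refine ⟨(SL_perm w).mem_iff.mp hmem, ?_⟩
  rcases List.eq_nil_or_concat w with rfl | ⟨w', e, rfl⟩
  · intro v hv; exact absurd hv (List.not_mem_nil)
  · intro v hv
    rw [List.concat_eq_append] at h hv
    rw [SL_snoc] at h
    refine (LP_ins_min (SL w') e u h).2 v ?_
    rw [List.mem_append, List.mem_singleton] at hv
    rw [List.mem_cons, (SL_perm w').mem_iff]
    tauto

/-- no smaller entry: the new letter is appended -/
theorem ins_of_forall_not_lt {α : Type} [LT α] [DecidableLT α] (e : α) (l : List α)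
    (h : ∀ v ∈ l, ¬ v < e) : ins e l = l ++ [e] := by
  induction l with
  | nil => rfl
  | cons s l ih =>
    unfold ins
    rw [if_neg (h s (List.mem_cons_self)), ih (fun v hv => h v (List.mem_cons_of_mem _ hv))]
    rfl

/-- `f` is the first entry smaller than `e`, and nothing after it is smaller than `f` -/
theorem ins_split {α : Type} [LT α] [DecidableLT α] (e f : α) (l1 l2 : List α)
    (h1 : ∀ v ∈ l1, ¬ v < e) (hf : f < e) (h2 : ∀ v ∈ l2, ¬ v < f) :
    ins e (l1 ++ f :: l2) = l1 ++ e :: (l2 ++ [f]) := by
  induction l1 with
  | nil =>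
    rw [List.nil_append, List.nil_append]
    unfold ins
    rw [if_pos hf, ins_of_forall_not_lt f l2 h2]
  | cons s l1 ih =>
    rw [List.cons_append, List.cons_append]
    unfold ins
    rw [if_neg (h1 s (List.mem_cons_self)), ih (fun v hv => h1 v (List.mem_cons_of_mem _ hv))]

end CPI
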