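import Pool.Agent.Lib.MP_cb75a6_co.Dis.Defs
import Pool.Agent.Lib.MP_cb75a6_co.Dis.W1
import Pool.Agent.Lib.MP_cb75a6_co.Dis.W2F
import Pool.Agent.Lib.MP_cb75a6_co.Dis.LP

set_option autoImplicit false

namespace CPI

open scoped Nat
open Ltr

variable {p q m n D : ℕ}

/-! ### general lemmas on lists -/

private theorem lru_split {α : Type} [LT α] [DecidableLT α] (e : α) (S : List α) :
    (∀ v ∈ S, ¬ v < e) ∨
      ∃ l1 f l2, S = l1 ++ f :: l2 ∧ (∀ v ∈ l1, ¬ v < e) ∧ f < e := by
  induction S with
  | nil => left; simp
  | cons s S ih =>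
    by_cases h : s < e
    · right
      exact ⟨[], s, S, rfl, by simp, h⟩
    · rcases ih with ih | ⟨l1, f, l2, h1, h2, h3⟩
      · left
        intro v hv
        rcases List.mem_cons.1 hv with rfl | hv
        · exact h
        · exact ih v hv
      · right
        refine ⟨s :: l1, f, l2, by rw [h1]; rfl, ?_, h3⟩
        intro v hv
        rcases List.mem_cons.1 hv with rfl | hv
        · exact h
        · exact h2 v hv

private theorem lru_pw_mono {α : Type} (r r' : α → Bool) (σ σ' : α → ℕ) (S : List α)
    (hpw : (S.filter r).Pairwise (fun f g => σ f < σ g))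
    (hr : ∀ u ∈ S, r' u = true → r u = true)
    (hσ : ∀ u ∈ S, r' u = true → σ' u = σ u) :
    (S.filter r').Pairwise (fun f g => σ' f < σ' g) := by
  have h1 : (S.filter r').Pairwise (fun f g => σ f < σ g) := by
    have h2 : S.filter r' = (S.filter r).filter r' := by
      rw [List.filter_filter]
      apply List.filter_congr
      intro u hu
      by_cases h : r' u = true
      · rw [h, hr u hu h]; rfl
      · rw [Bool.not_eq_true] at h
        rw [h]; rfl
    rw [h2]
    exact hpw.filter _
  refine List.Pairwise.imp_of_mem ?_ h1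
  intro a b ha hb hab
  rw [List.mem_filter] at ha hb
  rw [hσ a ha.1 ha.2, hσ b hb.1 hb.2]
  exact hab

private theorem lru_pw_snoc {α : Type} (r r' : α → Bool) (σ σ' : α → ℕ) (S : List α) (e : α)
    (t : ℕ) (hpw : (S.filter r).Pairwise (fun f g => σ f < σ g))
    (hr : ∀ u ∈ S, r' u = true → r u = true)
    (hσ : ∀ u ∈ S, r' u = true → σ' u = σ u) (hlt : ∀ u ∈ S, r' u = true → σ u < t)
    (he : r' e = true → σ' e = t) :
    ((S ++ [e]).filter r').Pairwise (fun f g => σ' f < σ' g) := by
  rw [List.filter_append, List.pairwise_append]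
  refine ⟨?_, ?_, ?_⟩
  · exact lru_pw_mono r r' σ σ' S hpw hr hσ
  · by_cases h : r' e = true
    · rw [List.filter_cons_of_pos h]; simp
    · rw [List.filter_cons_of_neg h]; simp
  · intro a ha b hb
    rw [List.mem_filter] at ha hb
    have hbe : b = e := by simpa using hb.1
    subst hbe
    rw [hσ a ha.1 ha.2, he hb.2]
    exact hlt a ha.1 ha.2

private theorem lru_pw_hit {α : Type} (r r' : α → Bool) (σ σ' : α → ℕ) (l1 l2 : List α)
    (e f : α) (t : ℕ) (hpw : ((l1 ++ f :: l2).filter r).Pairwise (fun f g => σ f < σ g))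
    (hr : ∀ u ∈ l1 ++ l2, r' u = true → r u = true) (hre : r' e = false)
    (hσ : ∀ u ∈ l1 ++ l2, r' u = true → σ' u = σ u)
    (hlt : ∀ u ∈ l1 ++ l2, r' u = true → σ u < t) (hf : r' f = true → σ' f = t) :
    ((l1 ++ e :: (l2 ++ [f])).filter r').Pairwise (fun f g => σ' f < σ' g) := by
  have h1 : (l1 ++ e :: (l2 ++ [f])).filter r' = ((l1 ++ l2) ++ [f]).filter r' := by
    simp [List.filter_append, List.filter_cons, hre]
  rw [h1]
  apply lru_pw_snoc r r' σ σ' (l1 ++ l2) f t ?_ hr hσ hlt hf
  apply List.Pairwise.sublist _ hpw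
  apply List.Sublist.filter
  exact List.Sublist.append (List.Sublist.refl _) (List.sublist_cons_self _ _)

/-- `f` is the first entry smaller than `e`: it has the smallest stamp -/
private theorem lru_first {α : Type} [LT α] [DecidableLT α] (r : α → Bool) (σ : α → ℕ)
    (l1 l2 : List α) (e f : α) (t : ℕ)
    (hpw : ((l1 ++ f :: l2).filter r).Pairwise (fun f g => σ f < σ g))
    (h1 : ∀ v ∈ l1, ¬ v < e) (hf : f < e) (hrel : ∀ v ∈ l1 ++ f :: l2, v < e → r v = true)
    (hft : σ f < t) (g : α) (hg : g < e) (hgf : g ≠ f)
    (habs : g ∉ l1 ++ f :: l2 → t ≤ σ g) : σ f < σ g := by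
  by_cases hm : g ∈ l1 ++ f :: l2
  · have hg1 : g ∉ l1 := fun h => h1 g h hg
    have hg2 : g ∈ l2 := by
      simp only [List.mem_append, List.mem_cons] at hm
      rcases hm with h | h | h
      · exact absurd h hg1
      · exact absurd h hgf
      · exact h
    have hrf : r f = true := hrel f (by simp) hf
    have hrg : r g = true := hrel g hm hg
    rw [List.filter_append, List.pairwise_append] at hpw
    have h2 := hpw.2.1
    rw [List.filter_cons_of_pos hrf, List.pairwise_cons] at h2
    exact h2.1 g (List.mem_filter.2 ⟨hg2, hrg⟩)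
  · exact lt_of_lt_of_le hft (habs hm)

/-! ### the poset -/

/-- the letters below `u` in `Q` are minimal in `Q` -/
private theorem lru_height (u v e : Ltr p q m n D) (hv : isQ v = true) (h : v < u) : ¬ u < e := by
  rw [lt_def] at *
  cases u <;> cases v <;> cases e <;> simp_all [ltb, isQ]

private theorem lru_lt_X (i : Fin p) (v : Ltr p q m n D) (hv : isQ v = true) :
    v < .X i ↔ v = .x := by
  rw [lt_def]
  cases v <;> simp_all [ltb, isQ]

private theorem lru_lt_A (i : Fin q) (v : Ltr p q m n D) : v < .A i ↔ v = .a := by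
  rw [lt_def]
  cases v <;> simp_all [ltb]

private theorem lru_lt_c (k : Fin m) (v : Ltr p q m n D) (hv : isQ v = true) :
    v < .c k ↔ v = .x ∨ v = .z k := by
  rw [lt_def]
  cases v <;> simp_all [ltb, isQ]

private theorem lru_lt_R (i : Fin n) (v : Ltr p q m n D) (hv : isQ v = true) :
    v < .R i ↔ v = .x ∨ v = .a ∨ v = .y i false ∨ v = .y i true := by
  rw [lt_def]
  cases v
  case y j h => cases h <;> simp_all [ltb, isQ]
  all_goals simp_all [ltb, isQ]

/-! ### the invariant -/

/-- the list before time `t` -/
private def lruS (w : List (Ltr p q m n D)) (useA : Bool) (t : ℕ) : List (Ltr p q m n D) :=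
  SL ((w.take t).filter (keep useA))

/-- the stamps -/
private def sg (w : List (Ltr p q m n D)) (s : ℕ × ℕ) : Ltr p q m n D → ℕ
  | .x => s.1
  | .a => s.2
  | u => pos w u

/-- relevant letters -/
private def rel (w : List (Ltr p q m n D)) (t : ℕ) : Ltr p q m n D → Bool
  | .x => true
  | .a => true
  | .z k => !decide (.c k ∈ w.take t)
  | .y i _ => !decide (.R i ∈ w.take t)
  | _ => false

private structure LInv (w : List (Ltr p q m n D)) (useA : Bool) (t : ℕ) : Prop where
  pw : ((lruS w useA t).filter (rel w t)).Pairwise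
    (fun f g => sg w (st w useA t) f < sg w (st w useA t) g)
  xin : .x ∈ lruS w useA t → (st w useA t).1 < t
  xout : .x ∉ lruS w useA t → (st w useA t).1 = w.length
  ain : .a ∈ lruS w useA t → (st w useA t).2 < t
  aout : .a ∉ lruS w useA t → (st w useA t).2 = w.length

private theorem lru_mem (w : List (Ltr p q m n D)) (useA : Bool) (t : ℕ) (u : Ltr p q m n D) :
    u ∈ lruS w useA t ↔ u ∈ w.take t ∧ keep useA u = true := by
  unfold lruS
  rw [(SL_perm _).mem_iff, List.mem_filter]

private theorem lru_take_succ (w : List (Ltr p q m n D)) (t : ℕ) (e : Ltr p q m n D)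
    (he : w[t]? = some e) : w.take (t + 1) = w.take t ++ [e] := by
  rw [List.take_add_one, he]
  rfl

private theorem lruS_succ (w : List (Ltr p q m n D)) (useA : Bool) (t : ℕ) (e : Ltr p q m n D)
    (he : w[t]? = some e) (hk : keep useA e = true) :
    lruS w useA (t + 1) = ins e (lruS w useA t) := by
  unfold lruS
  rw [lru_take_succ w t e he, List.filter_append, List.filter_cons_of_pos hk, List.filter_nil,
    SL_snoc]

private theorem lru_st_succ (w : List (Ltr p q m n D)) (useA : Bool) (t : ℕ) (e : Ltr p q m n D)
    (he : w[t]? = some e) :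
    st w useA (t + 1) = stepS (pos w) w.length useA t (st w useA t) e := by
  simp [st, he]

private theorem sa_false_aux (w : List (Ltr p q m n D)) (t : ℕ) : (st w false t).2 = w.length := by
  induction t with
  | zero => rfl
  | succ t ih =>
    rcases he : w[t]? with _ | e
    · simp only [st, he]
      exact ih
    · rw [lru_st_succ w false t e he]
      cases e with
      | R i =>
        have h1 : pos w (.y i false) ≤ w.length := List.idxOf_le_length
        simp only [stepS, ih]
        rw [if_neg (c := w.length < pos w (.y i false) ∧ _) (by omega)]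
        split_ifs
        · omega
        · exact ih
      | a => simpa [stepS] using ih
      | A i => simp [stepS, ih]
      | X i => simp only [stepS]; split_ifs <;> exact ih
      | c k => simp only [stepS]; split_ifs <;> exact ih
      | _ => exact ih

theorem sa_false (w : List (Ltr p q m n D)) : sa w false = w.length := sa_false_aux w _

/-- absent letters have late stamps, present letters have early stamps -/
private theorem lru_abs {w : List (Ltr p q m n D)} {useA : Bool} {t : ℕ}
    (hI : LInv w useA t) (ht : t ≤ w.length) (g : Ltr p q m n D)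
    (hk : g = .a ∨ keep useA g = true) (hg : g ∉ lruS w useA t) :
    t ≤ sg w (st w useA t) g := by
  have key : g ≠ .a → t ≤ pos w g := by
    intro hga
    have hk' : keep useA g = true := by
      rcases hk with h | h
      · exact absurd h hga
      · exact h
    by_contra hlt
    rw [not_le] at hlt
    apply hg
    rw [lru_mem]
    refine ⟨?_, hk'⟩
    have hm : g ∈ w := List.idxOf_lt_length_iff.1 (lt_of_lt_of_le hlt ht)
    exact (List.mem_take_iff_idxOf_lt hm).2 hlt
  cases g with
  | x => change t ≤ (st w useA t).1; rw [hI.xout hg]; exact ht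
  | a => change t ≤ (st w useA t).2; rw [hI.aout hg]; exact ht
  | _ => exact key (by simp)

private theorem lru_pres {w : List (Ltr p q m n D)} {useA : Bool} {t : ℕ}
    (hI : LInv w useA t) (g : Ltr p q m n D) (hg : g ∈ lruS w useA t) :
    sg w (st w useA t) g < t := by
  have key : pos w g < t := by
    rw [lru_mem] at hg
    exact (List.mem_take_iff_idxOf_lt (List.mem_of_mem_take hg.1)).1 hg.1
  cases g with
  | x => exact hI.xin hg
  | a => exact hI.ain hg
  | _ => exact key

/-- the first entry smaller than `e` has the smallest stamp -/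
private theorem lru_first' {w : List (Ltr p q m n D)} {useA : Bool} {t : ℕ}
    (hI : LInv w useA t) (ht : t ≤ w.length) (hQ : ∀ u ∈ w, isQ u = true)
    {e f : Ltr p q m n D} {l1 l2 : List (Ltr p q m n D)}
    (hS : lruS w useA t = l1 ++ f :: l2) (h1 : ∀ v ∈ l1, ¬ v < e) (hf : f < e)
    (he : e ∉ w.take t) (g : Ltr p q m n D) (hg : g < e) (hgf : g ≠ f)
    (hk : g = .a ∨ keep useA g = true) :
    sg w (st w useA t) f < sg w (st w useA t) g := by
  have hpw := hI.pw
  rw [hS] at hpw
  refine lru_first (rel w t) (sg w (st w useA t)) l1 l2 e f t hpw h1 hf ?_ ?_ g hg hgf ?_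
  · intro v hv hve
    rw [← hS, lru_mem] at hv
    have hvQ := hQ v (List.mem_of_mem_take hv.1)
    cases e with
    | X i => rw [lru_lt_X i v hvQ] at hve; subst hve; rfl
    | A i => rw [lru_lt_A i v] at hve; subst hve; rfl
    | c k =>
      rw [lru_lt_c k v hvQ] at hve
      rcases hve with rfl | rfl
      · rfl
      · simp [rel, he]
    | R i =>
      rw [lru_lt_R i v hvQ] at hve
      rcases hve with rfl | rfl | rfl | rfl
      · rfl
      · rfl
      · simp [rel, he]
      · simp [rel, he]
    | x => rw [lt_def] at hve; cases v <;> simp_all [ltb, isQ]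
    | a => rw [lt_def] at hve; cases v <;> simp_all [ltb, isQ]
    | b => rw [lt_def] at hve; cases v <;> simp_all [ltb, isQ]
    | z k => rw [lt_def] at hve; cases v <;> simp_all [ltb, isQ]
    | y i h => rw [lt_def] at hve; cases v <;> simp_all [ltb, isQ]
    | d i => rw [lt_def] at hve; cases v <;> simp_all [ltb, isQ]
  · apply lru_pres hI
    rw [hS]; simp
  · intro hn
    rw [← hS] at hn
    exact lru_abs hI ht g hk hn

private theorem lru_rel_mono (w : List (Ltr p q m n D)) (t : ℕ) (e : Ltr p q m n D)
    (he : w[t]? = some e) (u : Ltr p q m n D) (hu : rel w (t + 1) u = true) :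
    rel w t u = true := by
  have h1 := lru_take_succ w t e he
  cases u with
  | z k => simp only [rel, h1] at hu ⊢; simp_all
  | y i h => simp only [rel, h1] at hu ⊢; simp_all
  | _ => exact hu

private theorem lru_app {w : List (Ltr p q m n D)} {useA : Bool} {t : ℕ}
    (hI : LInv w useA t) {e : Ltr p q m n D} (he : w[t]? = some e)
    (hS' : lruS w useA (t + 1) = lruS w useA t ++ [e]) (het : e ∉ w.take t)
    (hpos : pos w e = t)
    (hs1 : (st w useA (t + 1)).1 = if e = .x then t else (st w useA t).1)
    (hs2 : (st w useA (t + 1)).2 = if e = .a then t else (st w useA t).2) :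
    LInv w useA (t + 1) := by
  have heS : e ∉ lruS w useA t := by
    rw [lru_mem]
    exact fun h => het h.1
  have hne : ∀ u ∈ lruS w useA t, u ≠ e := by
    rintro u hu rfl
    exact heS hu
  refine ⟨?_, ?_, ?_, ?_, ?_⟩
  · rw [hS']
    refine lru_pw_snoc (rel w t) (rel w (t + 1)) (sg w (st w useA t)) (sg w (st w useA (t + 1)))
      (lruS w useA t) e t hI.pw (fun u _ hu => lru_rel_mono w t e he u hu) ?_
      (fun u hu _ => lru_pres hI u hu) ?_
    · intro u hu _
      have hue := hne u hu
      cases u with
      | x => change (st w useA (t + 1)).1 = (st w useA t).1; rw [hs1, if_neg hue.symm]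
      | a => change (st w useA (t + 1)).2 = (st w useA t).2; rw [hs2, if_neg hue.symm]
      | _ => rfl
    · intro hr
      cases e with
      | x => change (st w useA (t + 1)).1 = t; rw [hs1, if_pos rfl]
      | a => change (st w useA (t + 1)).2 = t; rw [hs2, if_pos rfl]
      | z k => exact hpos
      | y i h => exact hpos
      | _ => simp [rel] at hr
  · intro hx
    rw [hS', List.mem_append, List.mem_singleton] at hx
    rw [hs1]
    split_ifs with h
    · omega
    · rcases hx with hx | hx
      · have := hI.xin hx; omega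
      · exact absurd hx.symm h
  · intro hx
    rw [hS', List.mem_append, List.mem_singleton, not_or] at hx
    rw [hs1, if_neg (fun h => hx.2 h.symm)]
    exact hI.xout hx.1
  · intro hx
    rw [hS', List.mem_append, List.mem_singleton] at hx
    rw [hs2]
    split_ifs with h
    · omega
    · rcases hx with hx | hx
      · have := hI.ain hx; omega
      · exact absurd hx.symm h
  · intro hx
    rw [hS', List.mem_append, List.mem_singleton, not_or] at hx
    rw [hs2, if_neg (fun h => hx.2 h.symm)]
    exact hI.aout hx.1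

private theorem lru_nodup {w : List (Ltr p q m n D)} (hw : w.Nodup) (useA : Bool) (t : ℕ) :
    (lruS w useA t).Nodup := by
  unfold lruS
  rw [(SL_perm _).nodup_iff]
  exact ((List.take_sublist t w).nodup hw).filter _

private theorem lru_hit {w : List (Ltr p q m n D)} {useA : Bool} {t : ℕ} (hw : w.Nodup)
    (hI : LInv w useA t) {e f : Ltr p q m n D} {l1 l2 : List (Ltr p q m n D)}
    (he : w[t]? = some e) (hS : lruS w useA t = l1 ++ f :: l2)
    (hS' : lruS w useA (t + 1) = l1 ++ e :: (l2 ++ [f])) (hex : e ≠ .x) (hea : e ≠ .a)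
    (hre : rel w (t + 1) e = false)
    (hs1 : (st w useA (t + 1)).1 = if f = .x then t else (st w useA t).1)
    (hs2 : (st w useA (t + 1)).2 = if f = .a then t else (st w useA t).2)
    (hf : f = .x ∨ f = .a ∨ rel w (t + 1) f = false) : LInv w useA (t + 1) := by
  have hnd := lru_nodup hw useA t
  rw [hS] at hnd
  have hfn : f ∉ l1 ++ l2 := by
    have h1 := List.nodup_middle.1 hnd
    exact (List.nodup_cons.1 h1).1
  have hne : ∀ u ∈ l1 ++ l2, u ≠ f := by
    rintro u hu rfl
    exact hfn hu
  have hmem : ∀ u ∈ l1 ++ l2, u ∈ lruS w useA t := by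
    intro u hu
    rw [hS]
    simp only [List.mem_append, List.mem_cons] at hu ⊢
    tauto
  have hpw := hI.pw
  rw [hS] at hpw
  refine ⟨?_, ?_, ?_, ?_, ?_⟩
  · rw [hS']
    refine lru_pw_hit (rel w t) (rel w (t + 1)) (sg w (st w useA t)) (sg w (st w useA (t + 1)))
      l1 l2 e f t hpw (fun u _ hu => lru_rel_mono w t e he u hu) hre ?_
      (fun u hu _ => lru_pres hI u (hmem u hu)) ?_
    · intro u hu _
      have hue := hne u hu
      cases u with
      | x => change (st w useA (t + 1)).1 = (st w useA t).1; rw [hs1, if_neg hue.symm]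
      | a => change (st w useA (t + 1)).2 = (st w useA t).2; rw [hs2, if_neg hue.symm]
      | _ => rfl
    · intro hr
      rcases hf with rfl | rfl | hf
      · change (st w useA (t + 1)).1 = t; rw [hs1, if_pos rfl]
      · change (st w useA (t + 1)).2 = t; rw [hs2, if_pos rfl]
      · rw [hf] at hr
        exact absurd hr (by decide)
  · intro hx
    rw [hs1]
    split_ifs with h
    · omega
    · have : (.x : Ltr p q m n D) ∈ lruS w useA t := by
        rw [hS'] at hx
        rw [hS]
        simp only [List.mem_append, List.mem_cons, List.not_mem_nil, or_false] at hx ⊢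
        rcases hx with hx | hx | hx | hx
        · exact Or.inl hx
        · exact absurd hx.symm hex
        · exact Or.inr (Or.inr hx)
        · exact absurd hx.symm h
      have := hI.xin this
      omega
  · intro hx
    have h1 : f ≠ .x := by
      rintro rfl
      apply hx
      rw [hS']; simp
    rw [hs1, if_neg h1]
    apply hI.xout
    intro h2
    apply hx
    rw [hS] at h2
    rw [hS']
    simp only [List.mem_append, List.mem_cons, List.not_mem_nil, or_false] at h2 ⊢
    tauto
  · intro hx
    rw [hs2]
    split_ifs with h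
    · omega
    · have : (.a : Ltr p q m n D) ∈ lruS w useA t := by
        rw [hS'] at hx
        rw [hS]
        simp only [List.mem_append, List.mem_cons, List.not_mem_nil, or_false] at hx ⊢
        rcases hx with hx | hx | hx | hx
        · exact Or.inl hx
        · exact absurd hx.symm hea
        · exact Or.inr (Or.inr hx)
        · exact absurd hx.symm h
      have := hI.ain this
      omega
  · intro hx
    have h1 : f ≠ .a := by
      rintro rfl
      apply hx
      rw [hS']; simp
    rw [hs2, if_neg h1]
    apply hI.aout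
    intro h2
    apply hx
    rw [hS] at h2
    rw [hS']
    simp only [List.mem_append, List.mem_cons, List.not_mem_nil, or_false] at h2 ⊢
    tauto

private theorem lru_step {w : List (Ltr p q m n D)} {useA : Bool} {t : ℕ} (hw : w.Nodup)
    (hQ : ∀ u ∈ w, isQ u = true) (hI : LInv w useA t) (ht : t < w.length) :
    LInv w useA (t + 1) := by
  obtain ⟨e, he⟩ : ∃ e, w[t]? = some e := ⟨w[t], List.getElem?_eq_getElem ht⟩
  have hew : e ∈ w := List.mem_of_getElem? he
  have hpos : pos w e = t := by
    have h1 : w[t] = e := by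
      rw [List.getElem?_eq_getElem ht] at he
      exact Option.some.inj he
    rw [← h1]
    exact hw.idxOf_getElem t ht
  have het : e ∉ w.take t := by
    rw [List.mem_take_iff_idxOf_lt hew]
    change ¬ pos w e < t
    omega
  have hst := lru_st_succ w useA t e he
  have hSQ : ∀ v ∈ lruS w useA t, isQ v = true := by
    intro v hv
    rw [lru_mem] at hv
    exact hQ v (List.mem_of_mem_take hv.1)
  have hlen : ∀ u : Ltr p q m n D, pos w u ≤ w.length := fun u => List.idxOf_le_length
  -- the two cases
  have happ : keep useA e = true → (∀ v ∈ lruS w useA t, ¬ v < e) →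
      lruS w useA (t + 1) = lruS w useA t ++ [e] := by
    intro hk h
    rw [lruS_succ w useA t e he hk, ins_of_forall_not_lt e _ h]
  have hhit : keep useA e = true → ∀ l1 f l2, lruS w useA t = l1 ++ f :: l2 →
      (∀ v ∈ l1, ¬ v < e) → f < e → lruS w useA (t + 1) = l1 ++ e :: (l2 ++ [f]) := by
    intro hk l1 f l2 hS h1 hf
    rw [lruS_succ w useA t e he hk, hS]
    apply ins_split e f l1 l2 h1 hf
    intro v hv hvf
    have hvQ : isQ v = true := by
      apply hSQ
      rw [hS]; simp [hv]
    exact lru_height f v e hvQ hvf hf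
  have hmin : (∀ v, isQ v = true → ¬ v < e) → ∀ v ∈ lruS w useA t, ¬ v < e :=
    fun h v hv => h v (hSQ v hv)
  have hkA : e ≠ .a → keep useA e = true := by
    intro h
    simp [keep, h]
  cases e with
  | b => exact absurd (hQ _ hew) (by simp [isQ])
  | d i => exact absurd (hQ _ hew) (by simp [isQ])
  | x =>
    refine lru_app hI he (happ (hkA (by simp)) (hmin ?_)) het hpos ?_ ?_
    · intro v hv
      rw [lt_def]
      cases v <;> simp_all [ltb, isQ]
    · rw [hst]; simp [stepS]
    · rw [hst]; simp [stepS]
  | a =>
    cases useA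
    · have hS' : lruS w false (t + 1) = lruS w false t := by
        unfold lruS
        rw [lru_take_succ w t _ he, List.filter_append]
        simp [keep]
      have hst' : st w false (t + 1) = st w false t := by
        rw [hst]; simp [stepS]
      refine ⟨?_, ?_, ?_, ?_, ?_⟩
      · rw [hS', hst']
        exact lru_pw_mono (rel w t) (rel w (t + 1)) _ _ _ hI.pw
          (fun u _ hu => lru_rel_mono w t _ he u hu) (fun u _ _ => rfl)
      · rw [hS', hst']; intro h; have := hI.xin h; omega
      · rw [hS', hst']; exact hI.xout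
      · rw [hS', hst']; intro h; have := hI.ain h; omega
      · rw [hS', hst']; exact hI.aout
    · refine lru_app hI he (happ (by simp [keep]) (hmin ?_)) het hpos ?_ ?_
      · intro v hv
        rw [lt_def]
        cases v <;> simp_all [ltb, isQ]
      · rw [hst]; simp [stepS]
      · rw [hst]; simp [stepS]
  | z k =>
    refine lru_app hI he (happ (hkA (by simp)) (hmin ?_)) het hpos ?_ ?_
    · intro v hv
      rw [lt_def]
      cases v <;> simp_all [ltb, isQ]
    · rw [hst]; simp [stepS]
    · rw [hst]; simp [stepS]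
  | y i h =>
    refine lru_app hI he (happ (hkA (by simp)) (hmin ?_)) het hpos ?_ ?_
    · intro v hv
      rw [lt_def]
      cases v <;> simp_all [ltb, isQ]
    · rw [hst]; simp [stepS]
    · rw [hst]; simp [stepS]
  | X i =>
    rcases lru_split (.X i) (lruS w useA t) with h | ⟨l1, f, l2, hS, h1, hf⟩
    · have hx : (.x : Ltr p q m n D) ∉ lruS w useA t :=
        fun hx => h _ hx ((lru_lt_X i _ rfl).2 rfl)
      have hs := hI.xout hx
      refine lru_app hI he (happ (hkA (by simp)) h) het hpos ?_ ?_
      · rw [hst]; simp [stepS, hs]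
      · rw [hst]; simp [stepS, hs]
    · have hfx : f = .x := (lru_lt_X i f (hSQ f (by rw [hS]; simp))).1 hf
      subst hfx
      have hs := hI.xin (by rw [hS]; simp)
      refine lru_hit hw hI he hS (hhit (hkA (by simp)) l1 _ l2 hS h1 hf) (by simp) (by simp)
        rfl ?_ ?_ (Or.inl rfl)
      · rw [hst]; simp [stepS, hs.trans ht]
      · rw [hst]; simp [stepS, hs.trans ht]
  | A i =>
    rcases lru_split (.A i) (lruS w useA t) with h | ⟨l1, f, l2, hS, h1, hf⟩
    · have hx : (.a : Ltr p q m n D) ∉ lruS w useA t :=
        fun hx => h _ hx ((lru_lt_A i _).2 rfl)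
      have hs := hI.aout hx
      refine lru_app hI he (happ (hkA (by simp)) h) het hpos ?_ ?_
      · rw [hst]; simp [stepS, hs]
      · rw [hst]; simp [stepS, hs]
    · have hfx : f = .a := (lru_lt_A i f).1 hf
      subst hfx
      have hs := hI.ain (by rw [hS]; simp)
      refine lru_hit hw hI he hS (hhit (hkA (by simp)) l1 _ l2 hS h1 hf) (by simp) (by simp)
        rfl ?_ ?_ (Or.inr (Or.inl rfl))
      · rw [hst]; simp [stepS, hs.trans ht]
      · rw [hst]; simp [stepS, hs.trans ht]
  | c k =>
    rcases lru_split (.c k) (lruS w useA t) with h | ⟨l1, f, l2, hS, h1, hf⟩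
    · have hx : (.x : Ltr p q m n D) ∉ lruS w useA t :=
        fun hx => h _ hx ((lru_lt_c k _ rfl).2 (Or.inl rfl))
      have hs := hI.xout hx
      have hl := hlen (.z k)
      have hn : ¬ (st w useA t).1 < pos w (.z k) := by omega
      refine lru_app hI he (happ (hkA (by simp)) h) het hpos ?_ ?_
      · rw [hst]; simp only [stepS]; rw [if_neg hn]; simp
      · rw [hst]; simp only [stepS]; rw [if_neg hn]; simp
    · have hfx := (lru_lt_c k f (hSQ f (by rw [hS]; simp))).1 hf
      have hfirst := fun g hg hgf hk =>
        lru_first' hI ht.le hQ hS h1 hf het g hg hgf hk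
      rcases hfx with rfl | rfl
      · have h2 : (st w useA t).1 < pos w (.z k) :=
          hfirst (.z k) ((lru_lt_c k _ rfl).2 (Or.inr rfl)) (by simp) (Or.inr (by simp [keep]))
        refine lru_hit hw hI he hS (hhit (hkA (by simp)) l1 _ l2 hS h1 hf) (by simp) (by simp)
          rfl ?_ ?_ (Or.inl rfl)
        · rw [hst]; simp only [stepS]; rw [if_pos h2]; simp
        · rw [hst]; simp only [stepS]; rw [if_pos h2]; simp
      · have h2 : pos w (.z k) < (st w useA t).1 :=
          hfirst .x ((lru_lt_c k _ rfl).2 (Or.inl rfl)) (by simp) (Or.inr (by simp [keep]))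
        have hn : ¬ (st w useA t).1 < pos w (.z k) := by omega
        refine lru_hit hw hI he hS (hhit (hkA (by simp)) l1 _ l2 hS h1 hf) (by simp) (by simp)
          rfl ?_ ?_ (Or.inr (Or.inr ?_))
        · rw [hst]; simp only [stepS]; rw [if_neg hn]; simp
        · rw [hst]; simp only [stepS]; rw [if_neg hn]; simp
        · simp [rel, lru_take_succ w t _ he]
  | R i =>
    rcases lru_split (.R i) (lruS w useA t) with h | ⟨l1, f, l2, hS, h1, hf⟩
    · have hx : (.x : Ltr p q m n D) ∉ lruS w useA t :=
        fun hx => h _ hx ((lru_lt_R i _ rfl).2 (Or.inl rfl))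
      have ha : (.a : Ltr p q m n D) ∉ lruS w useA t :=
        fun hx => h _ hx ((lru_lt_R i _ rfl).2 (Or.inr (Or.inl rfl)))
      have hs := hI.xout hx
      have hs' := hI.aout ha
      refine lru_app hI he (happ (hkA (by simp)) h) het hpos ?_ ?_
      · rw [hst]; simp only [stepS]; rw [if_neg (by omega), if_neg (by omega)]; simp
      · rw [hst]; simp only [stepS]; rw [if_neg (by omega), if_neg (by omega)]; simp
    · have hfx := (lru_lt_R i f (hSQ f (by rw [hS]; simp))).1 hf
      have hfirst := fun g hg hgf hk =>
        lru_first' hI ht.le hQ hS h1 hf het g hg hgf hk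
      have lx : (.x : Ltr p q m n D) < .R i := (lru_lt_R i _ rfl).2 (Or.inl rfl)
      have la : (.a : Ltr p q m n D) < .R i := (lru_lt_R i _ rfl).2 (Or.inr (Or.inl rfl))
      have l0 : (.y i false : Ltr p q m n D) < .R i :=
        (lru_lt_R i _ rfl).2 (Or.inr (Or.inr (Or.inl rfl)))
      have l1' : (.y i true : Ltr p q m n D) < .R i :=
        (lru_lt_R i _ rfl).2 (Or.inr (Or.inr (Or.inr rfl)))
      rcases hfx with rfl | rfl | rfl | rfl
      · have a1 : (st w useA t).1 < pos w (.y i false) :=
          hfirst _ l0 (by simp) (Or.inr (by simp [keep]))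
        have a2 : (st w useA t).1 < pos w (.y i true) :=
          hfirst _ l1' (by simp) (Or.inr (by simp [keep]))
        have a3 : (st w useA t).1 < (st w useA t).2 :=
          hfirst _ la (by simp) (Or.inl rfl)
        refine lru_hit hw hI he hS (hhit (hkA (by simp)) l1 _ l2 hS h1 hf) (by simp) (by simp)
          rfl ?_ ?_ (Or.inl rfl)
        · rw [hst]; simp only [stepS]; rw [if_pos ⟨a1, a2, a3⟩]; simp
        · rw [hst]; simp only [stepS]; rw [if_pos ⟨a1, a2, a3⟩]; simp
      · have a1 : (st w useA t).2 < pos w (.y i false) :=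
          hfirst _ l0 (by simp) (Or.inr (by simp [keep]))
        have a2 : (st w useA t).2 < pos w (.y i true) :=
          hfirst _ l1' (by simp) (Or.inr (by simp [keep]))
        have a3 : (st w useA t).2 < (st w useA t).1 :=
          hfirst _ lx (by simp) (Or.inr (by simp [keep]))
        refine lru_hit hw hI he hS (hhit (hkA (by simp)) l1 _ l2 hS h1 hf) (by simp) (by simp)
          rfl ?_ ?_ (Or.inr (Or.inl rfl))
        · rw [hst]; simp only [stepS]; rw [if_neg (by omega), if_pos ⟨a1, a2, a3⟩]; simp
        · rw [hst]; simp only [stepS]; rw [if_neg (by omega), if_pos ⟨a1, a2, a3⟩]; simp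
      · have a1 : pos w (.y i false) < (st w useA t).1 :=
          hfirst _ lx (by simp) (Or.inr (by simp [keep]))
        have a2 : pos w (.y i false) < (st w useA t).2 :=
          hfirst _ la (by simp) (Or.inl rfl)
        refine lru_hit hw hI he hS (hhit (hkA (by simp)) l1 _ l2 hS h1 hf) (by simp) (by simp)
          rfl ?_ ?_ (Or.inr (Or.inr ?_))
        · rw [hst]; simp only [stepS]; rw [if_neg (by omega), if_neg (by omega)]; simp
        · rw [hst]; simp only [stepS]; rw [if_neg (by omega), if_neg (by omega)]; simp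
        · simp [rel, lru_take_succ w t _ he]
      · have a1 : pos w (.y i true) < (st w useA t).1 :=
          hfirst _ lx (by simp) (Or.inr (by simp [keep]))
        have a2 : pos w (.y i true) < (st w useA t).2 :=
          hfirst _ la (by simp) (Or.inl rfl)
        refine lru_hit hw hI he hS (hhit (hkA (by simp)) l1 _ l2 hS h1 hf) (by simp) (by simp)
          rfl ?_ ?_ (Or.inr (Or.inr ?_))
        · rw [hst]; simp only [stepS]; rw [if_neg (by omega), if_neg (by omega)]; simp
        · rw [hst]; simp only [stepS]; rw [if_neg (by omega), if_neg (by omega)]; simp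
        · simp [rel, lru_take_succ w t _ he]

private theorem lru_inv {w : List (Ltr p q m n D)} (useA : Bool) (hw : w.Nodup)
    (hQ : ∀ u ∈ w, isQ u = true) : ∀ t, t ≤ w.length → LInv w useA t := by
  intro t
  induction t with
  | zero =>
    intro _
    have h0 : lruS w useA 0 = [] := by simp [lruS, SL]
    refine ⟨by rw [h0]; simp, ?_, ?_, ?_, ?_⟩
    · rw [h0]; intro h; exact absurd h (by simp)
    · intro _; rfl
    · rw [h0]; intro h; exact absurd h (by simp)
    · intro _; rfl
  | succ t ih =>
    intro ht
    exact lru_step hw hQ (ih (by omega)) (by omega)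

private theorem lru_final {w : List (Ltr p q m n D)} (useA : Bool) (hw : w.Nodup)
    (hQ : ∀ u ∈ w, isQ u = true) (e : Ltr p q m n D) (hxw : .x ∈ w) (hxe : .x < e) :
    ∃ l1 f l2, lruS w useA w.length = l1 ++ f :: l2 ∧ (∀ v ∈ l1, ¬ v < e) ∧ f < e ∧
      isQ f = true ∧ (FinIs (w.filter (keep useA) ++ [e]) .x ↔ f = .x) := by
  have hS0 : lruS w useA w.length = SL (w.filter (keep useA)) := by
    unfold lruS
    rw [List.take_length]
  have hSQ : ∀ v ∈ lruS w useA w.length, isQ v = true := by
    intro v hv
    rw [lru_mem] at hv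
    exact hQ v (List.mem_of_mem_take hv.1)
  have hx : (.x : Ltr p q m n D) ∈ lruS w useA w.length := by
    rw [lru_mem, List.take_length]
    exact ⟨hxw, by simp [keep]⟩
  rcases lru_split e (lruS w useA w.length) with h | ⟨l1, f, l2, hS, h1, hf⟩
  · exact absurd hxe (h _ hx)
  · have hfQ : isQ f = true := hSQ f (by rw [hS]; simp)
    refine ⟨l1, f, l2, hS, h1, hf, hfQ, ?_⟩
    unfold FinIs
    rw [SL_snoc, ← hS0, hS, ins_split e f l1 l2 h1 hf]
    · have hlast : (l1 ++ e :: (l2 ++ [f])).getLast? = some f := by
        have : l1 ++ e :: (l2 ++ [f]) = (l1 ++ e :: l2) ++ [f] := by simp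
        rw [this, List.getLast?_append]
        simp
      rw [hlast]
      simp
    · intro v hv hvf
      have hvQ : isQ v = true := by
        apply hSQ
        rw [hS]; simp [hv]
      exact lru_height f v e hvQ hvf hf

private theorem lru_words {w : List (Ltr p q m n D)} {e : Ltr p q m n D}
    (hw : w ∈ words ((Qs p q m n D).erase e)) :
    w.Nodup ∧ (∀ u ∈ w, isQ u = true) ∧ e ∉ w ∧ ∀ u, isQ u = true → u ≠ e → u ∈ w := by
  rw [mem_words] at hw
  refine ⟨hw.1, ?_, ?_, ?_⟩
  · intro u hu
    rw [hw.2, Finset.mem_erase, Qs, Finset.mem_filter] at hu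
    exact hu.2.2
  · rw [hw.2, Finset.mem_erase]
    simp
  · intro u hu hne
    rw [hw.2, Finset.mem_erase, Qs, Finset.mem_filter]
    exact ⟨hne, Finset.mem_univ _, hu⟩

theorem fin_c (w : List (Ltr p q m n D)) (k0 : Fin m) (useA : Bool)
    (hw : w ∈ words ((Qs p q m n D).erase (.c k0))) :
    FinIs (w.filter (keep useA) ++ [.c k0]) .x ↔ sx w useA < pos w (.z k0) := by
  obtain ⟨hnd, hQ, hne, hall⟩ := lru_words hw
  have hI := lru_inv useA hnd hQ w.length le_rfl
  have lx : (.x : Ltr p q m n D) < .c k0 := (lru_lt_c k0 _ rfl).2 (Or.inl rfl)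
  have lz : (.z k0 : Ltr p q m n D) < .c k0 := (lru_lt_c k0 _ rfl).2 (Or.inr rfl)
  obtain ⟨l1, f, l2, hS, h1, hf, hfQ, hfin⟩ :=
    lru_final useA hnd hQ (.c k0) (hall _ rfl (by simp)) lx
  have het : (.c k0 : Ltr p q m n D) ∉ w.take w.length := by
    rw [List.take_length]; exact hne
  have hfirst := fun g hg hgf hk => lru_first' hI le_rfl hQ hS h1 hf het g hg hgf hk
  rw [hfin]
  constructor
  · rintro rfl
    exact hfirst _ lz (by simp) (Or.inr (by simp [keep]))
  · intro h
    rcases (lru_lt_c k0 f hfQ).1 hf with rfl | rfl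
    · rfl
    · have h2 : pos w (.z k0) < (st w useA w.length).1 :=
        hfirst _ lx (by simp) (Or.inr (by simp [keep]))
      unfold sx at h
      omega

theorem fin_R (w : List (Ltr p q m n D)) (i0 : Fin n) (useA : Bool)
    (hw : w ∈ words ((Qs p q m n D).erase (.R i0))) :
    FinIs (w.filter (keep useA) ++ [.R i0]) .x ↔
      (sx w useA < pos w (.y i0 false) ∧ sx w useA < pos w (.y i0 true) ∧
        sx w useA < sa w useA) := by
  obtain ⟨hnd, hQ, hne, hall⟩ := lru_words hw
  have hI := lru_inv useA hnd hQ w.length le_rfl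
  have lx : (.x : Ltr p q m n D) < .R i0 := (lru_lt_R i0 _ rfl).2 (Or.inl rfl)
  have la : (.a : Ltr p q m n D) < .R i0 := (lru_lt_R i0 _ rfl).2 (Or.inr (Or.inl rfl))
  have l0 : (.y i0 false : Ltr p q m n D) < .R i0 :=
    (lru_lt_R i0 _ rfl).2 (Or.inr (Or.inr (Or.inl rfl)))
  have l1' : (.y i0 true : Ltr p q m n D) < .R i0 :=
    (lru_lt_R i0 _ rfl).2 (Or.inr (Or.inr (Or.inr rfl)))
  obtain ⟨l1, f, l2, hS, h1, hf, hfQ, hfin⟩ :=
    lru_final useA hnd hQ (.R i0) (hall _ rfl (by simp)) lx
  have het : (.R i0 : Ltr p q m n D) ∉ w.take w.length := by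
    rw [List.take_length]; exact hne
  have hfirst := fun g hg hgf hk => lru_first' hI le_rfl hQ hS h1 hf het g hg hgf hk
  rw [hfin]
  unfold sx sa
  constructor
  · rintro rfl
    exact ⟨hfirst _ l0 (by simp) (Or.inr (by simp [keep])),
      hfirst _ l1' (by simp) (Or.inr (by simp [keep])), hfirst _ la (by simp) (Or.inl rfl)⟩
  · rintro ⟨h2, h3, h4⟩
    rcases (lru_lt_R i0 f hfQ).1 hf with rfl | rfl | rfl | rfl
    · rfl
    · have h5 : (st w useA w.length).2 < (st w useA w.length).1 :=
        hfirst _ lx (by simp) (Or.inr (by simp [keep]))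
      omega
    · have h5 : pos w (.y i0 false) < (st w useA w.length).1 :=
        hfirst _ lx (by simp) (Or.inr (by simp [keep]))
      omega
    · have h5 : pos w (.y i0 true) < (st w useA w.length).1 :=
        hfirst _ lx (by simp) (Or.inr (by simp [keep]))
      omega

end CPI
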