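import Pool.Agent.Lib.MP_cb75a6_co.Dis.Defs
import Pool.Agent.Lib.MP_cb75a6_co.Dis.W1

set_option autoImplicit false

namespace CPI

open scoped Nat

variable {α : Type} [DecidableEq α]

private theorem W1L_mem {S : Finset α} {e : α} (he : e ∈ S) {w : List α} :
    w ∈ words (S.erase e) ↔ w ++ [e] ∈ words S := by
  rw [mem_words, mem_words, List.nodup_append]
  constructor
  · rintro ⟨h1, h2⟩
    refine ⟨⟨h1, List.nodup_singleton e, ?_⟩, ?_⟩
    · intro a ha b hb
      rw [List.mem_singleton] at hb
      subst hb
      exact (Finset.mem_erase.mp ((h2 a).1 ha)).1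
    · intro u
      rw [List.mem_append, List.mem_singleton, h2 u, Finset.mem_erase]
      constructor
      · rintro (h | rfl)
        · exact h.2
        · exact he
      · intro h
        by_cases hu : u = e
        · exact Or.inr hu
        · exact Or.inl ⟨hu, h⟩
  · rintro ⟨⟨h1, -, h3⟩, h2⟩
    refine ⟨h1, fun u => ?_⟩
    rw [Finset.mem_erase, ← h2 u, List.mem_append, List.mem_singleton]
    constructor
    · intro h
      exact ⟨h3 u h e (List.mem_singleton.mpr rfl), Or.inl h⟩
    · rintro ⟨h, h' | h'⟩
      · exact h'
      · exact absurd h' h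

/-- decomposition of a word by its last letter -/
theorem N_last (S : Finset α) (hS : S.Nonempty) (E : List α → Prop) :
    N S E = ∑ e ∈ S, N (S.erase e) (fun w => E (w ++ [e])) := by
  classical
  unfold N
  have key : (words S).filter E = S.biUnion (fun e =>
      ((words (S.erase e)).filter (fun w => E (w ++ [e]))).image (fun w => w ++ [e])) := by
    ext w
    rw [Finset.mem_biUnion, Finset.mem_filter]
    constructor
    · rintro ⟨hw, hE⟩
      have hne : w ≠ [] := by
        intro h
        obtain ⟨u, hu⟩ := hS
        have := ((mem_words.mp hw).2 u).2 hu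
        rw [h] at this
        exact absurd this (List.not_mem_nil)
      have hw' := List.dropLast_append_getLast hne
      have hmem : w.getLast hne ∈ S := ((mem_words.mp hw).2 _).1 (List.getLast_mem hne)
      refine ⟨w.getLast hne, hmem, ?_⟩
      rw [Finset.mem_image]
      refine ⟨w.dropLast, ?_, hw'⟩
      rw [Finset.mem_filter, W1L_mem hmem, hw']
      exact ⟨hw, hE⟩
    · rintro ⟨e, he, hw⟩
      rw [Finset.mem_image] at hw
      obtain ⟨v, hv, rfl⟩ := hw
      rw [Finset.mem_filter, W1L_mem he] at hv
      exact hv
  rw [key, Finset.card_biUnion]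
  · apply Finset.sum_congr rfl
    intro e _
    exact Finset.card_image_of_injective _ (fun a b h => List.append_cancel_right h)
  · intro i _ j _ hij
    rw [Function.onFun, Finset.disjoint_left]
    intro w hw hw'
    rw [Finset.mem_image] at hw hw'
    obtain ⟨v, -, rfl⟩ := hw
    obtain ⟨v', -, h⟩ := hw'
    apply hij
    have := congrArg List.getLast? h
    simpa using this.symm

end CPI
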