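import Pool.Agent.Lib.MP_cb75a6_co.Dis.Defs
import Pool.Agent.Lib.MP_cb75a6_co.Dis.GG
import Pool.Agent.Lib.MP_cb75a6_co.Dis.W1
import Pool.Agent.Lib.MP_cb75a6_co.Dis.W1N
import Pool.Agent.Lib.MP_cb75a6_co.Dis.W1L
import Pool.Agent.Lib.MP_cb75a6_co.Dis.W3P
import Pool.Agent.Lib.MP_cb75a6_co.Dis.LP
import Pool.Agent.Lib.MP_cb75a6_co.Dis.PO1
import Pool.Agent.Lib.MP_cb75a6_co.Dis.LRU
import Pool.Agent.Lib.MP_cb75a6_co.Dis.SU

set_option autoImplicit false

namespace CPI

open scoped Nat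
open Ltr

variable {p q m n D : ℕ}

namespace GGA

theorem mem_Qs {u : Ltr p q m n D} : u ∈ Qs p q m n D ↔ isQ u = true := by simp [Qs]

/-- the new letter `x` is the final carry -/
theorem fin_x (w : List (Ltr p q m n D)) (hw : ∀ v ∈ w, isQ v = true) :
    FinIs (w ++ [.x]) .x := by
  unfold FinIs
  rw [SL_snoc, ins_of_forall_not_lt]
  · simp
  · intro v hv hlt
    have hv' := hw v ((SL_perm w).mem_iff.1 hv)
    rw [lt_def] at hlt
    cases v <;> simp [ltb, isQ] at hlt hv'

/-- the letter `X i` hits `x` -/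
theorem fin_X (w : List (Ltr p q m n D)) (hw : ∀ v ∈ w, isQ v = true) (hn : w.Nodup)
    (hx : .x ∈ w) (i : Fin p) : FinIs (w ++ [.X i]) .x := by
  unfold FinIs
  rw [SL_snoc]
  have hx' : .x ∈ SL w := (SL_perm w).mem_iff.2 hx
  have hn' : (SL w).Nodup := (SL_perm w).nodup_iff.2 hn
  obtain ⟨l1, l2, hl⟩ := List.append_of_mem hx'
  have hmem : ∀ v ∈ SL w, isQ v = true := fun v hv => hw v ((SL_perm w).mem_iff.1 hv)
  rw [hl] at hn' hmem ⊢
  rw [ins_split]
  · have e : l1 ++ (Ltr.X i : Ltr p q m n D) :: (l2 ++ [.x]) = (l1 ++ .X i :: l2) ++ [.x] := by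
      simp
    rw [e, List.getLast?_concat]
  · intro v hv hlt
    have hv' := hmem v (List.mem_append_left _ hv)
    rw [lt_def] at hlt
    cases v <;> simp [ltb, isQ] at hlt hv'
    -- v = x
    exact (List.nodup_append.1 hn').2.2 _ hv _ (List.mem_cons_self ..) rfl
  · rfl
  · intro v hv hlt
    have hv' := hmem v (List.mem_append_right _ (List.mem_cons_of_mem _ hv))
    rw [lt_def] at hlt
    cases v <;> simp [ltb, isQ] at hlt hv'

theorem Pr_one {S : Finset (Ltr p q m n D)} {E : List (Ltr p q m n D) → Prop}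
    (h : ∀ w ∈ words S, E w) : Pr S E = 1 := by
  have h1 : N S E = S.card ! := by
    rw [← N_true S]
    exact N_congr (fun w hw => ⟨fun _ => trivial, fun _ => h w hw⟩)
  unfold Pr
  rw [h1]
  exact div_self (by positivity)

theorem GA_sum : GA p q m n D =
    ∑ e ∈ Qs p q m n D, Pr ((Qs p q m n D).erase e) (fun w => FinIs (w ++ [e]) .x) := by
  unfold GA
  rw [N_last _ ⟨.x, mem_Qs.2 rfl⟩]
  push_cast
  rw [Finset.sum_div]
  apply Finset.sum_congr rfl
  intro e he
  unfold Pr
  rw [Finset.card_erase_of_mem he]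

end GGA

open GGA in
theorem GA_ge : (p + 1 : ℝ) +
    ∑ k : Fin m, Pr ((Qs p q m n D).erase (.c k)) (fun w => sx w true < pos w (.z k)) +
    ∑ i : Fin n, Pr ((Qs p q m n D).erase (.R i)) (fun w => sx w true < pos w (.y i false) ∧
        sx w true < pos w (.y i true) ∧ sx w true < sa w true) ≤ GA p q m n D := by
  rw [GA_sum, sum_Qs]
  have hx : Pr ((Qs p q m n D).erase .x) (fun w => FinIs (w ++ [.x]) .x) = 1 := by
    apply Pr_one
    intro w hw
    apply fin_x
    intro v hv
    have := ((mem_words.1 hw).2 v).1 hv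
    exact mem_Qs.1 (Finset.mem_of_mem_erase this)
  have hX : ∀ i : Fin p,
      Pr ((Qs p q m n D).erase (.X i)) (fun w => FinIs (w ++ [.X i]) .x) = 1 := by
    intro i
    apply Pr_one
    intro w hw
    have hw' := mem_words.1 hw
    apply fin_X
    · intro v hv
      have := (hw'.2 v).1 hv
      exact mem_Qs.1 (Finset.mem_of_mem_erase this)
    · exact hw'.1
    · rw [hw'.2]
      rw [Finset.mem_erase]
      exact ⟨by simp, mem_Qs.2 rfl⟩
  have hk : ∀ w : List (Ltr p q m n D), w.filter (keep true) = w := by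
    intro w
    rw [List.filter_eq_self]
    intro v _
    simp [keep]
  have hc : ∀ k : Fin m, Pr ((Qs p q m n D).erase (.c k)) (fun w => FinIs (w ++ [.c k]) .x) =
      Pr ((Qs p q m n D).erase (.c k)) (fun w => sx w true < pos w (.z k)) := by
    intro k
    apply Pr_congr
    intro w hw
    have := fin_c w k true hw
    rwa [hk] at this
  have hR : ∀ i : Fin n, Pr ((Qs p q m n D).erase (.R i)) (fun w => FinIs (w ++ [.R i]) .x) =
      Pr ((Qs p q m n D).erase (.R i)) (fun w => sx w true < pos w (.y i false) ∧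
        sx w true < pos w (.y i true) ∧ sx w true < sa w true) := by
    intro i
    apply Pr_congr
    intro w hw
    have := fin_R w i true hw
    rwa [hk] at this
  simp only [hx, hX, hc, hR]
  have e1 : (∑ _i : Fin p, (1 : ℝ)) = p := by simp
  rw [e1]
  have n1 := Pr_nonneg ((Qs p q m n D).erase .a) (fun w => FinIs (w ++ [.a]) .x)
  have n2 : 0 ≤ ∑ i : Fin q, Pr ((Qs p q m n D).erase (.A i))
    (fun w => FinIs (w ++ [.A i]) .x) := Finset.sum_nonneg (fun i _ => Pr_nonneg _ _)
  have n3 : 0 ≤ ∑ i : Fin m, Pr ((Qs p q m n D).erase (.z i))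
    (fun w => FinIs (w ++ [.z i]) .x) := Finset.sum_nonneg (fun i _ => Pr_nonneg _ _)
  have n4 : 0 ≤ ∑ i : Fin n, (Pr ((Qs p q m n D).erase (.y i true))
    (fun w => FinIs (w ++ [.y i true]) .x) + Pr ((Qs p q m n D).erase (.y i false))
    (fun w => FinIs (w ++ [.y i false]) .x)) :=
    Finset.sum_nonneg (fun i _ => add_nonneg (Pr_nonneg _ _) (Pr_nonneg _ _))
  linarith

end CPI
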