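import Pool.Agent.Lib.MP_cb75a6_co.Dis.Defs
import Pool.Agent.Lib.MP_cb75a6_co.Dis.GG
import Pool.Agent.Lib.MP_cb75a6_co.Dis.W1
import Pool.Agent.Lib.MP_cb75a6_co.Dis.W1N
import Pool.Agent.Lib.MP_cb75a6_co.Dis.W1L
import Pool.Agent.Lib.MP_cb75a6_co.Dis.W3R
import Pool.Agent.Lib.MP_cb75a6_co.Dis.W3P
import Pool.Agent.Lib.MP_cb75a6_co.Dis.LP
import Pool.Agent.Lib.MP_cb75a6_co.Dis.PO1
import Pool.Agent.Lib.MP_cb75a6_co.Dis.LRU
import Pool.Agent.Lib.MP_cb75a6_co.Dis.SU

set_option autoImplicit false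

namespace CPI

open scoped Nat
open Ltr

variable {p q m n D : ℕ}

namespace GGB

theorem mem_Qs {u : Ltr p q m n D} : u ∈ Qs p q m n D ↔ isQ u = true := by simp [Qs]

/-- a letter with nothing below it is its own final carry -/
theorem not_fin (w : List (Ltr p q m n D)) (e : Ltr p q m n D) (h : ∀ v ∈ w, ¬ v < e)
    (he : e ≠ .x) : ¬ FinIs (w ++ [e]) .x := by
  unfold FinIs
  rw [SL_snoc, ins_of_forall_not_lt]
  · rw [List.getLast?_concat]
    intro h'
    exact he (Option.some.inj h')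
  · intro v hv
    exact h v ((SL_perm w).mem_iff.1 hv)

theorem Pr_zero {S : Finset (Ltr p q m n D)} {E : List (Ltr p q m n D) → Prop}
    (h : ∀ w ∈ words S, ¬ E w) : Pr S E = 0 := by
  have h1 : Pr S E = Pr S (fun _ => False) :=
    Pr_congr (fun w hw => ⟨fun h' => h w hw h', fun h' => h'.elim⟩)
  rw [h1]
  simp [Pr, N]

/-- the summands -/
noncomputable def g (e : Ltr p q m n D) : ℝ :=
  if e = .a then 0
  else Pr (((Qs p q m n D).erase .a).erase e) (fun w => FinIs (w ++ [e]) .x)

theorem GB_sum : GB p q m n D = ∑ e ∈ Qs p q m n D, g e := by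
  have ha : (Ltr.a : Ltr p q m n D) ∈ Qs p q m n D := mem_Qs.2 rfl
  have h1 : ∑ e ∈ Qs p q m n D, g e = ∑ e ∈ (Qs p q m n D).erase .a, g e := by
    rw [Finset.sum_erase]
    simp [g]
  rw [h1]
  unfold GB
  rw [N_last _ ⟨.x, Finset.mem_erase.2 ⟨by simp, mem_Qs.2 rfl⟩⟩]
  push_cast
  rw [Finset.sum_div]
  apply Finset.sum_congr rfl
  intro e he
  have hne : e ≠ .a := (Finset.mem_erase.1 he).1
  unfold g
  rw [if_neg hne]
  unfold Pr
  rw [Finset.card_erase_of_mem he, Finset.card_erase_of_mem ha]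
  rfl

theorem filter_eq (e : Ltr p q m n D) (w : List (Ltr p q m n D))
    (hw : w ∈ words ((Qs p q m n D).erase e)) :
    w.filter (fun u => decide (u ∈ ((Qs p q m n D).erase .a).erase e)) =
      w.filter (keep false) := by
  apply List.filter_congr
  intro u hu
  have hu' := Finset.mem_erase.1 (((mem_words.1 hw).2 u).1 hu)
  by_cases hua : u = .a
  · subst hua
    simp [keep]
  · simp [keep, hua, hu'.1, hu'.2]

theorem g_c (k : Fin m) : g (.c k : Ltr p q m n D) =
    Pr ((Qs p q m n D).erase (.c k)) (fun w => sx w false < pos w (.z k)) := by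
  unfold g
  rw [if_neg (by simp)]
  have hsub : ((Qs p q m n D).erase .a).erase (.c k) ⊆ (Qs p q m n D).erase (.c k) :=
    Finset.erase_subset_erase _ (Finset.erase_subset _ _)
  rw [← Pr_restrict hsub (fun w : List (Ltr p q m n D) => FinIs (w ++ [Ltr.c k]) Ltr.x)]
  apply Pr_congr
  intro w hw
  rw [filter_eq _ w hw]
  exact fin_c w k false hw

theorem g_R (i : Fin n) : g (.R i : Ltr p q m n D) ≤
    Pr ((Qs p q m n D).erase (.R i)) (fun w => sx w false < pos w (.y i false) ∧
        sx w false < pos w (.y i true)) := by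
  unfold g
  rw [if_neg (by simp)]
  have hsub : ((Qs p q m n D).erase .a).erase (.R i) ⊆ (Qs p q m n D).erase (.R i) :=
    Finset.erase_subset_erase _ (Finset.erase_subset _ _)
  rw [← Pr_restrict hsub (fun w : List (Ltr p q m n D) => FinIs (w ++ [Ltr.R i]) Ltr.x)]
  apply Pr_mono
  intro w hw h
  rw [filter_eq _ w hw] at h
  have := (fin_R w i false hw).1 h
  exact ⟨this.1, this.2.1⟩

theorem g_zero (e : Ltr p q m n D) (he : e ≠ .x)
    (h : ∀ v ∈ ((Qs p q m n D).erase .a).erase e, ¬ v < e) : g e = 0 := by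
  unfold g
  by_cases hea : e = .a
  · rw [if_pos hea]
  · rw [if_neg hea]
    apply Pr_zero
    intro w hw
    apply not_fin _ _ _ he
    intro v hv
    exact h v (((mem_words.1 hw).2 v).1 hv)

theorem g_le_one (e : Ltr p q m n D) : g e ≤ 1 := by
  unfold g
  split_ifs
  · norm_num
  · exact Pr_le_one _ _

end GGB

open GGB in
theorem GB_le : GB p q m n D ≤ (p + 1 : ℝ) +
    ∑ k : Fin m, Pr ((Qs p q m n D).erase (.c k)) (fun w => sx w false < pos w (.z k)) +
    ∑ i : Fin n, Pr ((Qs p q m n D).erase (.R i)) (fun w => sx w false < pos w (.y i false) ∧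
        sx w false < pos w (.y i true)) := by
  rw [GB_sum, sum_Qs]
  have h1 : g (.a : Ltr p q m n D) = 0 := by simp [g]
  have h2 : ∀ i, g (.A i : Ltr p q m n D) = 0 := by
    intro i
    apply g_zero _ (by simp)
    intro v hv hlt
    have hv1 := Finset.mem_erase.1 hv
    have hv2 := Finset.mem_erase.1 hv1.2
    rw [lt_def] at hlt
    cases v <;> simp [ltb] at hlt hv2
  have h3 : ∀ i, g (.z i : Ltr p q m n D) = 0 := by
    intro i
    apply g_zero _ (by simp)
    intro v hv hlt
    rw [lt_def] at hlt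
    cases v <;> simp [ltb] at hlt
  have h4 : ∀ i h, g (.y i h : Ltr p q m n D) = 0 := by
    intro i h
    apply g_zero _ (by simp)
    intro v hv hlt
    rw [lt_def] at hlt
    cases v <;> simp [ltb] at hlt
  simp only [h1, h2, h3, h4, g_c, Finset.sum_const_zero, add_zero, zero_add]
  have h5 : ∑ i : Fin p, g (.X i : Ltr p q m n D) ≤ p := by
    have := Finset.sum_le_sum (s := (Finset.univ : Finset (Fin p)))
      (fun i _ => g_le_one (.X i : Ltr p q m n D))
    simpa using this
  have h6 : ∑ i : Fin n, g (.R i : Ltr p q m n D) ≤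
      ∑ i : Fin n, Pr ((Qs p q m n D).erase (.R i)) (fun w => sx w false < pos w (.y i false) ∧
        sx w false < pos w (.y i true)) := Finset.sum_le_sum (fun i _ => g_R i)
  have h7 := g_le_one (.x : Ltr p q m n D)
  linarith

end CPI
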