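import Pool.Agent.Lib.MP_cb75a6_co.Dis.Defs
import Pool.Agent.Lib.MP_cb75a6_co.Dis.GG
import Pool.Agent.Lib.MP_cb75a6_co.Dis.GGA
import Pool.Agent.Lib.MP_cb75a6_co.Dis.GGB
import Pool.Agent.Lib.MP_cb75a6_co.Dis.CC
import Pool.Agent.Lib.MP_cb75a6_co.Dis.CR
import Pool.Agent.Lib.MP_cb75a6_co.Dis.CN

set_option autoImplicit false

namespace CPI

open scoped Nat
open Ltr

theorem co_gen (p q m n D : ℕ) (hp : 20 ≤ p) (hq : 2 * p ≤ q) :
    (m : ℝ) * (n * (1 / (16 * p ^ 2 * q ^ 2) - 192 / (p * q ^ 3) - m * 2880 / (p ^ 4 * q ^ 2)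
          - n * 45360 / p ^ 7)
        - n ^ 2 * 5040 / p ^ 7 - n * m * 2880 / (p ^ 4 * q ^ 2)
        - n * m ^ 2 * 161280 / (p ^ 6 * q ^ 2)) -
      n * (n * 120 / p ^ 5 + 16 * p / q ^ 3 + m * 192 / (p * q ^ 3)) ≤
    GA p q m n D - GB p q m n D := by
  have h1 := GA_ge (p := p) (q := q) (m := m) (n := n) (D := D)
  have h2 := GB_le (p := p) (q := q) (m := m) (n := n) (D := D)
  have h3 := Finset.sum_le_sum (s := (Finset.univ : Finset (Fin m)))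
    (fun k _ => core_c (n := n) (D := D) k hp hq)
  have h4 := Finset.sum_le_sum (s := (Finset.univ : Finset (Fin n)))
    (fun i _ => core_R (m := m) (D := D) i hp hq)
  rw [Finset.sum_add_distrib, Finset.sum_const, Finset.card_univ, Fintype.card_fin,
    nsmul_eq_mul] at h3
  rw [Finset.sum_sub_distrib, Finset.sum_const, Finset.card_univ, Fintype.card_fin,
    nsmul_eq_mul] at h4
  linarith

theorem core_ex : ∃ p q m n : ℕ, 0 < n ∧ ∀ D : ℕ, GB p q m n D + 3 ≤ GA p q m n D := by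
  obtain ⟨p, hp⟩ : ∃ p : ℕ, p = 10 ^ 80 := ⟨_, rfl⟩
  obtain ⟨q, hq⟩ : ∃ q : ℕ, q = 10 ^ 92 := ⟨_, rfl⟩
  obtain ⟨m, hm⟩ : ∃ m : ℕ, m = 10 ^ 153 := ⟨_, rfl⟩
  obtain ⟨n, hn⟩ : ∃ n : ℕ, n = 10 ^ 200 := ⟨_, rfl⟩
  refine ⟨p, q, m, n, ?_, ?_⟩
  · rw [hn]; positivity
  · intro D
    have h1 := co_gen p q m n D (by rw [hp]; norm_num) (by rw [hp, hq]; norm_num)
    have h2 := core_num (p : ℝ) (q : ℝ) (m : ℝ) (n : ℝ) (by rw [hp]; norm_num)
      (by rw [hq]; norm_num) (by rw [hm]; norm_num) (by rw [hn]; norm_num)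
    linarith

end CPI
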