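import Mathlib

/-!
# MP_cb75a6_co : the notions used in the statement

Labelings of a finite poset, extended promotion, the event of Q1 and its conditional probability.
-/

set_option autoImplicit false

namespace CPI

variable {P : Type} [PartialOrder P]

/-- `y` is the `L`-successor of `x`: the element strictly above `x` with the smallest label. -/
def IsLSucc (L : P → ℕ) (x y : P) : Prop := x < y ∧ ∀ z, x < z → L y ≤ L z

/-- the elements `v₁, …, v_m` of the promotion chain of `L` -/
inductive OnChain (L : P → ℕ) : P → Prop
  | first {v : P} : L v = 1 → OnChain L v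
  | next {v w : P} : OnChain L v → IsLSucc L v w → OnChain L w

open Classical in
/-- Extended promotion of a labeling `L : P → ℕ` (labels `1, …, n`). -/
noncomputable def promote [Fintype P] (L : P → ℕ) (x : P) : ℕ :=
  if OnChain L x then
    (if h : ∃ y, IsLSucc L x y then L h.choose - 1 else Fintype.card P)
  else L x - 1

/-- the label (in `1, …, n`) of `x` under the bijection `L : P ≃ Fin n`. -/
def lab [Fintype P] (L : P ≃ Fin (Fintype.card P)) (x : P) : ℕ := (L x : ℕ) + 1

/-- The event: the element carrying label `1` in `L_{n-2}` lies above `b` and above no other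
minimal element. -/
def Ev [Fintype P] (b : P) (L : P ≃ Fin (Fintype.card P)) : Prop :=
  ∃ v : P, (promote^[Fintype.card P - 2] (lab L)) v = 1 ∧ ∀ m : P, IsMin m → (m ≤ v ↔ m = b)

/-- `Pr (Ev b | L(a) = n)` for a uniformly random labeling `L`. -/
noncomputable def condPr [Fintype P] (b a : P) : ℝ :=
  (Nat.card {L : P ≃ Fin (Fintype.card P) // Ev b L ∧ lab L a = Fintype.card P} : ℝ) /
    (Nat.card {L : P ≃ Fin (Fintype.card P) // lab L a = Fintype.card P} : ℝ)

end CPI
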