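import Mathlib
import Pool.Agent.Lib.MP_cb75a6_co.Dis.Stmt

/-!
# MP_cb75a6_co : definitions for the disproof of Q1

Part B: the list process, words, counting and probabilities.
Part C: the explicit poset `Ltr p q m n D`.
Part D: the state process (stamps of `x` and `a`) and the order patterns.
-/

set_option autoImplicit false

namespace CPI

open scoped Nat

/-! ## Part B : the list process, words, counting -/

section Process

variable {α : Type} [LT α] [DecidableLT α]

/-- insertion of the letter `e`: the carry `e` passes the list from the front and is exchanged
with every smaller entry; the final carry is appended. -/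
def ins : α → List α → List α
  | e, [] => [e]
  | e, s :: S => if s < e then e :: ins s S else s :: ins e S

/-- the list after inserting the letters of `w` one by one -/
def SL (w : List α) : List α := w.foldl (fun L e => ins e L) []

/-- `u` is the last final carry of the word `w` -/
def FinIs (w : List α) (u : α) : Prop := (SL w).getLast? = some u

/-- one promotion step on lists -/
def pass : α → List α → List α
  | c, [] => [c]
  | c, e :: es => if c < e then c :: pass e es else e :: pass c es

/-- promotion on lists -/
def promL : List α → List α
  | [] => []
  | v :: r => pass v r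

end Process

section Words

variable {α : Type} [DecidableEq α]

/-- all words (without repetition) whose set of letters is `S` -/
noncomputable def words (S : Finset α) : Finset (List α) := S.toList.permutations.toFinset

open Classical in
/-- number of words of `S` with property `E` -/
noncomputable def N (S : Finset α) (E : List α → Prop) : ℕ := ((words S).filter E).card

/-- probability of `E` for a uniformly random word of `S` -/
noncomputable def Pr (S : Finset α) (E : List α → Prop) : ℝ := (N S E : ℝ) / (S.card ! : ℝ)

/-- insert the letter `e` at position `t` of `w` -/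
def insAt (t : ℕ) (e : α) (w : List α) : List α := w.take t ++ e :: w.drop t

/-- position of the letter `u` in the word `w` -/
abbrev pos (w : List α) (u : α) : ℕ := w.idxOf u

end Words

/-! ## Part C : the poset -/

/-- letters: `a`, `b`, `x`, the `p` elements `X i` above `x`, the `q` elements `A i` above `a`,
`c k` above `x, z k`, `R i` above `a, x, y i false, y i true`, the `D` elements `d i` above `b`;
`b` is below `x`. -/
inductive Ltr (p q m n D : ℕ) : Type
  | a | b | x
  | X (i : Fin p) | A (i : Fin q) | c (k : Fin m) | z (k : Fin m)
  | R (i : Fin n) | y (i : Fin n) (h : Bool) | d (i : Fin D)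
  deriving DecidableEq, Fintype

namespace Ltr

variable {p q m n D : ℕ}

/-- the strict order -/
def ltb : Ltr p q m n D → Ltr p q m n D → Bool
  | .b, .x => true
  | .b, .X _ => true
  | .b, .c _ => true
  | .b, .R _ => true
  | .b, .d _ => true
  | .x, .X _ => true
  | .x, .c _ => true
  | .x, .R _ => true
  | .a, .A _ => true
  | .a, .R _ => true
  | .z k, .c k' => decide (k = k')
  | .y i _, .R i' => decide (i = i')
  | _, _ => false

theorem ltb_irrefl (u : Ltr p q m n D) : ltb u u = false := by
  cases u <;> rfl

theorem ltb_trans {u v w : Ltr p q m n D} (h1 : ltb u v = true) (h2 : ltb v w = true) :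
    ltb u w = true := by
  cases u <;> cases v <;> simp [ltb] at h1 <;> cases w <;> simp_all [ltb]

instance : PartialOrder (Ltr p q m n D) where
  le u v := u = v ∨ ltb u v = true
  lt u v := ltb u v = true
  le_refl u := Or.inl rfl
  le_trans u v w h1 h2 := by
    rcases h1 with rfl | h1
    · exact h2
    · rcases h2 with rfl | h2
      · exact Or.inr h1
      · exact Or.inr (ltb_trans h1 h2)
  lt_iff_le_not_ge u v := by
    constructor
    · intro h
      refine ⟨Or.inr h, ?_⟩
      rintro (rfl | h')
      · rw [ltb_irrefl] at h; exact absurd h (by decide)
      · have := ltb_trans h h'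
        rw [ltb_irrefl] at this; exact absurd this (by decide)
    · rintro ⟨h1, h2⟩
      rcases h1 with rfl | h1
      · exact absurd (Or.inl rfl) h2
      · exact h1
  le_antisymm u v h1 h2 := by
    rcases h1 with rfl | h1
    · rfl
    · rcases h2 with rfl | h2
      · rfl
      · have := ltb_trans h1 h2
        rw [ltb_irrefl] at this; exact absurd this (by decide)

theorem lt_def (u v : Ltr p q m n D) : u < v ↔ ltb u v = true := Iff.rfl

instance : DecidableLT (Ltr p q m n D) := fun u v =>
  inferInstanceAs (Decidable (ltb u v = true))

/-- letters of the poset `Q = P - b - {d i}` -/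
def isQ : Ltr p q m n D → Bool
  | .b => false
  | .d _ => false
  | _ => true

/-- the set `{x, X i}` -/
def isX : Ltr p q m n D → Bool
  | .x => true
  | .X _ => true
  | _ => false

/-- the set `{A i}` -/
def isA : Ltr p q m n D → Bool
  | .A _ => true
  | _ => false

end Ltr

open Ltr

variable {p q m n D : ℕ}

/-- the letters of `Q` -/
def Qs (p q m n D : ℕ) : Finset (Ltr p q m n D) := Finset.univ.filter (fun u => isQ u = true)

/-- the letters `x, X i` -/
def Xs (p q m n D : ℕ) : Finset (Ltr p q m n D) := Finset.univ.filter (fun u => isX u = true)

/-- the letters `A i` -/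
def As (p q m n D : ℕ) : Finset (Ltr p q m n D) := Finset.univ.filter (fun u => isA u = true)

/-! ## Part D : the state process -/

/-- One step of the state process. `s.1`, `s.2` are the stamps of `x` and `a` (`INF` = absent),
`t` is the time, `pos` gives the positions of all letters in the whole word.
If `useA = false` the letter `a` is ignored. -/
def stepS (ps : Ltr p q m n D → ℕ) (INF : ℕ) (useA : Bool) (t : ℕ) (s : ℕ × ℕ) :
    Ltr p q m n D → ℕ × ℕ
  | .x => (t, s.2)
  | .a => if useA = true then (s.1, t) else s
  | .X _ => if s.1 < INF then (t, s.2) else s
  | .A _ => if s.2 < INF then (s.1, t) else s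
  | .c k => if s.1 < ps (.z k) then (t, s.2) else s
  | .R i =>
      if s.1 < ps (.y i false) ∧ s.1 < ps (.y i true) ∧ s.1 < s.2 then (t, s.2)
      else if s.2 < ps (.y i false) ∧ s.2 < ps (.y i true) ∧ s.2 < s.1 then (s.1, t)
      else s
  | _ => s

/-- the state before time `t` (after the first `t` letters of `w`) -/
def st (w : List (Ltr p q m n D)) (useA : Bool) : ℕ → ℕ × ℕ
  | 0 => (w.length, w.length)
  | t + 1 =>
    match w[t]? with
    | none => st w useA t
    | some e => stepS (pos w) w.length useA t (st w useA t) e

/-- final stamp of `x` -/
def sx (w : List (Ltr p q m n D)) (useA : Bool) : ℕ := (st w useA w.length).1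

/-- final stamp of `a` -/
def sa (w : List (Ltr p q m n D)) (useA : Bool) : ℕ := (st w useA w.length).2

/-- the letters kept: all if `useA = true`, all but `a` otherwise -/
def keep (useA : Bool) (u : Ltr p q m n D) : Bool := useA || !decide (u = .a)

/-! order patterns; `Y` is a set of letters (used with `Y = Xs`) -/

section Patterns

variable {α : Type} [DecidableEq α]

/-- `e` is after all letters of `Y` -/
def aft (Y : Finset α) (w : List α) (e : α) : Prop := ∀ v ∈ Y, pos w v < pos w e

/-- `e` is after all letters of `Y` but (at most) one -/
def aft2 (Y : Finset α) (w : List α) (e : α) : Prop :=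
  ∃ v ∈ Y, ∀ u ∈ Y, u ≠ v → pos w u < pos w e

end Patterns

/-- `R i` is active -/
def aR (w : List (Ltr p q m n D)) (i : Fin n) : Prop :=
  aft (Xs p q m n D) w (.R i) ∧ aft (Xs p q m n D) w (.y i false) ∧
    aft (Xs p q m n D) w (.y i true)

/-- `c k` is active -/
def ac (w : List (Ltr p q m n D)) (k : Fin m) : Prop :=
  aft (Xs p q m n D) w (.c k) ∧ aft (Xs p q m n D) w (.z k)

end CPI
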