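import Pool.Agent.Lib.MP_cb75a6_co.Dis.Defs
import Pool.Agent.Lib.MP_cb75a6_co.Dis.W1
import Pool.Agent.Lib.MP_cb75a6_co.Dis.W1N
import Pool.Agent.Lib.MP_cb75a6_co.Dis.W1L

set_option autoImplicit false

namespace CPI

open scoped Nat
open Ltr

variable {p q m n D : ℕ}

namespace LC

theorem mem_Qs {u : Ltr p q m n D} : u ∈ Qs p q m n D ↔ isQ u = true := by simp [Qs]

/-- number of words with a given last letter -/
theorem N_last_eq {α : Type} [DecidableEq α] (S : Finset α) (e : α) (he : e ∈ S) :
    N S (fun w => w.getLast? = some e) = (S.card - 1)! := by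
  rw [N_last S ⟨e, he⟩, Finset.sum_eq_single_of_mem e he]
  · have h1 : N (S.erase e) (fun w => (w ++ [e]).getLast? = some e) =
        N (S.erase e) (fun _ => True) := by
      apply N_congr
      intro w _
      simp
    rw [h1, N_true, Finset.card_erase_of_mem he]
  · intro f _ hf
    have h1 : N (S.erase f) (fun w => (w ++ [f]).getLast? = some e) ≤
        N (S.erase f) (fun _ => False) := by
      apply N_mono
      intro w _ h
      rw [List.getLast?_concat] at h
      exact hf (Option.some.inj h)
    have h2 : N (S.erase f) (fun _ => False) = 0 := by simp [N]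
    omega

/-- the letters `d i` -/
def Ds (p q m n D : ℕ) : Finset (Ltr p q m n D) := Finset.univ.image (fun i : Fin D => .d i)

theorem card_Ds : (Ds p q m n D).card = D := by
  unfold Ds
  rw [Finset.card_image_of_injective]
  · simp
  · intro i j h
    simpa using h

theorem mem_Ds {u : Ltr p q m n D} : u ∈ Ds p q m n D ↔ ∃ i, u = .d i := by
  unfold Ds
  simp [eq_comm]

theorem univ_erase_b : (Finset.univ.erase (.b : Ltr p q m n D)) =
    Qs p q m n D ∪ Ds p q m n D := by
  ext u
  rw [Finset.mem_union, mem_Qs, mem_Ds, Finset.mem_erase]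
  cases u <;> simp [isQ]

theorem univ_erase_a : (Finset.univ.erase (.a : Ltr p q m n D)) =
    (Qs p q m n D).erase .a ∪ insert .b (Ds p q m n D) := by
  ext u
  rw [Finset.mem_union, Finset.mem_erase, Finset.mem_erase, mem_Qs, Finset.mem_insert, mem_Ds]
  cases u <;> simp [isQ]

theorem disj_b : Disjoint (Qs p q m n D) (Ds p q m n D) := by
  rw [Finset.disjoint_left]
  intro u hu hu'
  rw [mem_Qs] at hu
  obtain ⟨i, rfl⟩ := mem_Ds.1 hu'
  simp [isQ] at hu

theorem disj_a : Disjoint ((Qs p q m n D).erase .a) (insert .b (Ds p q m n D)) := by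
  rw [Finset.disjoint_left]
  intro u hu hu'
  have hu1 := mem_Qs.1 (Finset.mem_of_mem_erase hu)
  rcases Finset.mem_insert.1 hu' with rfl | h
  · simp [isQ] at hu1
  · obtain ⟨i, rfl⟩ := mem_Ds.1 h
    simp [isQ] at hu1

theorem card_insert_b : (insert (.b : Ltr p q m n D) (Ds p q m n D)).card = D + 1 := by
  rw [Finset.card_insert_of_notMem, card_Ds]
  intro h
  obtain ⟨i, hi⟩ := mem_Ds.1 h
  cases hi

end LC

end CPI
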