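import Pool.Agent.Lib.MP_cb75a6_co.Dis.Defs
import Pool.Agent.Lib.MP_cb75a6_co.Dis.W1
import Pool.Agent.Lib.MP_cb75a6_co.Dis.W1N
import Pool.Agent.Lib.MP_cb75a6_co.Dis.W1L
import Pool.Agent.Lib.MP_cb75a6_co.Dis.W2
import Pool.Agent.Lib.MP_cb75a6_co.Dis.W3I

set_option autoImplicit false

namespace CPI

open scoped Nat

private theorem LJ_chain {α : Type} (R : α → α → Prop) (w : List α) (h : ¬ w.IsChain R) :
    ∃ l1 u v l2, w = l1 ++ u :: v :: l2 ∧ ¬ R u v := by
  induction w with
  | nil => exact absurd List.isChain_nil h
  | cons a w ih =>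
    cases w with
    | nil => exact absurd (List.isChain_singleton a) h
    | cons b w =>
      by_cases hab : R a b
      · have : ¬ (b :: w).IsChain R := fun h' => h (List.isChain_cons_cons.mpr ⟨hab, h'⟩)
        obtain ⟨l1, u, v, l2, h1, h2⟩ := ih this
        exact ⟨a :: l1, u, v, l2, by rw [h1, List.cons_append], h2⟩
      · exact ⟨[], a, b, w, rfl, hab⟩

private theorem LJ_pos {α : Type} [DecidableEq α] {l1 l2 : List α} {u v : α}
    (h : (l1 ++ u :: v :: l2).Nodup) :
    pos (l1 ++ u :: v :: l2) u + 1 = pos (l1 ++ u :: v :: l2) v := by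
  rw [List.nodup_append] at h
  obtain ⟨-, h2, h3⟩ := h
  have hu : u ∉ l1 := fun h => h3 u h u (List.mem_cons_self) rfl
  have hv : v ∉ l1 := fun h => h3 v h v (List.mem_cons_of_mem _ (List.mem_cons_self)) rfl
  have huv : u ≠ v := by
    intro h
    rw [h, List.nodup_cons] at h2
    exact h2.1 (List.mem_cons_self)
  unfold pos
  rw [List.idxOf_append_of_notMem hu, List.idxOf_append_of_notMem hv, List.idxOf_cons_self,
    List.idxOf_cons_ne _ huv, List.idxOf_cons_self]

private theorem LJ_last {α : Type} [DecidableEq α] {w : List α} {e : α} {t : ℕ}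
    (ht : t < w.length) : (insAt t e w).getLast? = w.getLast? := by
  unfold insAt
  have h : w.drop t ≠ [] := by
    intro h
    rw [List.drop_eq_nil_iff] at h
    omega
  rw [List.getLast?_append_of_ne_nil _ (List.cons_ne_nil _ _), List.getLast?_cons_of_ne_nil h,
    ← List.getLast?_append_of_ne_nil (w.take t) h, List.take_append_drop]

private theorem LJ_zero {α : Type} [DecidableEq α] {S : Finset α} {E : List α → Prop}
    (h : ∀ w ∈ words S, ¬ E w) : N S E = 0 := by
  classical
  unfold N
  rw [Finset.card_eq_zero, Finset.filter_eq_empty_iff]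
  exact h

/-- words with last letter in `S'` -/
private theorem LJ_N_last {α : Type} [DecidableEq α] (S S' : Finset α) (hS : S.Nonempty) :
    N S (fun w => ∃ e ∈ S', w.getLast? = some e) ≤ S'.card * (S.card - 1)! := by
  classical
  rw [N_last S hS]
  have h1 : ∀ e ∈ S, N (S.erase e) (fun w => ∃ e' ∈ S', (w ++ [e]).getLast? = some e') ≤
      if e ∈ S' then (S.card - 1)! else 0 := by
    intro e he
    split_ifs with h
    · refine (N_le _ _).trans ?_
      rw [Finset.card_erase_of_mem he]
    · rw [Nat.le_zero]
      apply LJ_zero
      rintro w - ⟨e', h1, h2⟩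
      rw [List.getLast?_concat, Option.some_inj] at h2
      rw [h2] at h
      exact h h1
  refine (Finset.sum_le_sum h1).trans ?_
  rw [← Finset.sum_filter, Finset.sum_const, smul_eq_mul]
  apply Nat.mul_le_mul_right
  apply Finset.card_le_card
  intro e he
  exact (Finset.mem_filter.mp he).2

/-- words with last letter in `S'` and two consecutive letters of `S'` -/
theorem N_adj {α : Type} [DecidableEq α] (S S' : Finset α) (h : S' ⊆ S) (hS : 2 ≤ S.card) :
    N S (fun w => (∃ e ∈ S', w.getLast? = some e) ∧
        ¬ w.IsChain (fun u v => ¬ (u ∈ S' ∧ v ∈ S'))) ≤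
      S'.card ^ 3 * (S.card - 2)! := by
  classical
  refine (N_union (S' ×ˢ S') S _ (fun ef w => (∃ e ∈ S', w.getLast? = some e) ∧
    pos w ef.1 + 1 = pos w ef.2) ?_).trans ?_
  · rintro w hw ⟨h1, h2⟩
    obtain ⟨l1, u, v, l2, h3, h4⟩ := LJ_chain _ w h2
    rw [not_not] at h4
    refine ⟨(u, v), Finset.mem_product.mpr h4, h1, ?_⟩
    have hn := (mem_words.mp hw).1
    rw [h3] at hn ⊢
    exact LJ_pos hn
  · have key : ∀ ef ∈ S' ×ˢ S', N S (fun w => (∃ e ∈ S', w.getLast? = some e) ∧
        pos w ef.1 + 1 = pos w ef.2) ≤ S'.card * (S.card - 2)! := by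
      rintro ⟨e, f⟩ hef
      rw [Finset.mem_product] at hef
      obtain ⟨he, hf⟩ := hef
      simp only at he hf ⊢
      have hfS : f ∈ S := h hf
      have heS : e ∈ S := h he
      have hcard : (S.erase f).card = S.card - 1 := Finset.card_erase_of_mem hfS
      have hne : (S.erase f).Nonempty := by
        rw [← Finset.card_pos]; omega
      have hlast := LJ_N_last (S.erase f) S' hne
      rw [hcard] at hlast
      have h2 : S.card - 1 - 1 = S.card - 2 := by omega
      rw [h2] at hlast
      refine le_trans ?_ hlast
      by_cases hef : e = f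
      · have : N S (fun w => (∃ e ∈ S', w.getLast? = some e) ∧ pos w e + 1 = pos w f) = 0 := by
          apply LJ_zero
          rintro w - ⟨-, h3⟩
          rw [hef] at h3
          omega
        rw [this]
        exact Nat.zero_le _
      · have hins := N_insert_le (S := S.erase f) (e := f) (Finset.notMem_erase f S)
          (E := fun w => (∃ e ∈ S', w.getLast? = some e) ∧ pos w e + 1 = pos w f)
          (F := fun w => ∃ e ∈ S', w.getLast? = some e) (g := 1) ?_ ?_
        · rw [Finset.insert_erase hfS, one_mul] at hins
          exact hins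
        · rintro w hw t ht ⟨⟨g, hg1, hg2⟩, h4⟩
          have hlen := length_of_mem_words hw
          have hwm := mem_words.mp hw
          have hew : e ∈ w := (hwm.2 e).2 (Finset.mem_erase.mpr ⟨hef, heS⟩)
          have hfw : f ∉ w := fun h' => by
            have := (hwm.2 f).1 h'
            exact Finset.notMem_erase f S this
          rcases Nat.lt_or_ge t w.length with ht' | ht'
          · rw [LJ_last ht'] at hg2
            exact ⟨g, hg1, hg2⟩
          · have ht'' : t = w.length := by omega
            rw [pos_insAt_self hfw (by omega), pos_insAt_of_mem hwm.1 hfw hew (by omega)] at h4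
            have h5 : pos w e < w.length := List.idxOf_lt_length_iff.mpr hew
            rw [if_pos (by omega)] at h4
            have hne' : w ≠ [] := List.ne_nil_of_mem hew
            refine ⟨e, he, ?_⟩
            rw [List.getLast?_eq_getElem?]
            have h6 : w.length - 1 = pos w e := by omega
            rw [h6]
            exact List.getElem?_idxOf hew
        · intro w hw _
          rw [Finset.card_le_one]
          have hlen := length_of_mem_words hw
          have hwm := mem_words.mp hw
          have hew : e ∈ w := (hwm.2 e).2 (Finset.mem_erase.mpr ⟨hef, heS⟩)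
          have hfw : f ∉ w := fun h' => by
            have := (hwm.2 f).1 h'
            exact Finset.notMem_erase f S this
          have huniq : ∀ t ∈ (Finset.range ((S.erase f).card + 1)).filter (fun t =>
              (∃ e ∈ S', (insAt t f w).getLast? = some e) ∧
              pos (insAt t f w) e + 1 = pos (insAt t f w) f), t = pos w e + 1 := by
            intro t ht
            rw [Finset.mem_filter, Finset.mem_range] at ht
            obtain ⟨h1, -, h3⟩ := ht
            rw [pos_insAt_self hfw (by omega), pos_insAt_of_mem hwm.1 hfw hew (by omega)] at h3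
            split_ifs at h3 <;> omega
          intro a ha b hb
          have ha' := huniq a (by convert ha)
          have hb' := huniq b (by convert hb)
          rw [ha', hb']
    refine (Finset.sum_le_sum key).trans ?_
    rw [Finset.sum_const, Finset.card_product, smul_eq_mul]
    apply le_of_eq
    ring

end CPI
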