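import Pool.Agent.Lib.MP_cb75a6_co.Dis.Defs
import Pool.Agent.Lib.MP_cb75a6_co.Dis.W1
import Pool.Agent.Lib.MP_cb75a6_co.Dis.W1N
import Pool.Agent.Lib.MP_cb75a6_co.Dis.W2
import Pool.Agent.Lib.MP_cb75a6_co.Dis.W1I
import Pool.Agent.Lib.MP_cb75a6_co.Dis.W3I

set_option autoImplicit false

namespace CPI

open scoped Nat

private theorem LN_last {α : Type} [DecidableEq α] {w : List α} {e : α} {t : ℕ}
    (ht : t < w.length) : (insAt t e w).getLast? = w.getLast? := by
  unfold insAt
  have h : w.drop t ≠ [] := by
    intro h
    rw [List.drop_eq_nil_iff] at h
    omega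
  rw [List.getLast?_append_of_ne_nil _ (List.cons_ne_nil _ _), List.getLast?_cons_of_ne_nil h,
    ← List.getLast?_append_of_ne_nil (w.take t) h, List.take_append_drop]

private theorem LN_last' {α : Type} [DecidableEq α] {w : List α} {e : α} :
    (insAt w.length e w).getLast? = some e := by
  unfold insAt
  rw [List.take_length, List.drop_length, List.getLast?_concat]

/-- words with last letter in `S` and a property of the subword of `S` -/
theorem N_notlast {α : Type} [DecidableEq α] (S T : Finset α) (hd : Disjoint S T)
    (hS : S.Nonempty) (E : List α → Prop) :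
    N (S ∪ T) (fun w => (∃ e ∈ S, w.getLast? = some e) ∧
        E (w.filter (fun u => decide (u ∈ S)))) * (S.card - 1)! =
      N S E * (S.card + T.card - 1)! := by
  classical
  have hS1 : 1 ≤ S.card := Finset.card_pos.mpr hS
  revert hd
  induction T using Finset.induction_on with
  | empty =>
    intro _
    rw [Finset.union_empty, Finset.card_empty, Nat.add_zero]
    congr 1
    apply N_congr
    intro w hw
    have hw' := mem_words.mp hw
    have hf : w.filter (fun u => decide (u ∈ S)) = w := by
      rw [List.filter_eq_self]
      intro a ha
      exact decide_eq_true ((hw'.2 a).1 ha)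
    rw [hf]
    constructor
    · exact fun h => h.2
    · intro h
      refine ⟨?_, h⟩
      have hne : w ≠ [] := by
        intro h0
        have := length_of_mem_words hw
        rw [h0, List.length_nil] at this
        omega
      exact ⟨w.getLast hne, (hw'.2 _).1 (List.getLast_mem hne),
        List.getLast?_eq_some_getLast hne⟩
  | insert e T heT ih =>
    intro hd
    rw [Finset.disjoint_insert_right] at hd
    obtain ⟨heS, hd⟩ := hd
    have ih := ih hd
    have heU : e ∉ S ∪ T := by
      rw [Finset.mem_union, not_or]; exact ⟨heS, heT⟩
    have hcU : (S ∪ T).card = S.card + T.card := Finset.card_union_of_disjoint hd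
    have hfil : ∀ w : List α, ∀ t : ℕ, (insAt t e w).filter (fun u => decide (u ∈ S)) =
        w.filter (fun u => decide (u ∈ S)) := fun w t =>
      filter_insAt_neg (fun u => decide (u ∈ S)) (decide_eq_false heS)
    have hiff : ∀ w ∈ words (S ∪ T), ∀ t ≤ (S ∪ T).card,
        (((∃ e' ∈ S, (insAt t e w).getLast? = some e') ∧
          E ((insAt t e w).filter (fun u => decide (u ∈ S)))) ↔
        (t < (S ∪ T).card ∧ ((∃ e' ∈ S, w.getLast? = some e') ∧
          E (w.filter (fun u => decide (u ∈ S)))))) := by
      intro w hw t ht
      have hlen := length_of_mem_words hw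
      rw [hfil]
      rcases Nat.lt_or_ge t (S ∪ T).card with h | h
      · rw [LN_last (by omega)]
        exact ⟨fun h' => ⟨h, h'⟩, fun h' => h'.2⟩
      · have ht' : t = w.length := by omega
        rw [ht', LN_last']
        constructor
        · rintro ⟨⟨e', h1, h2⟩, -⟩
          rw [Option.some_inj] at h2
          rw [h2] at heS
          exact absurd h1 heS
        · intro h'
          omega
    have hcount : ∀ w ∈ words (S ∪ T), ((∃ e' ∈ S, w.getLast? = some e') ∧
          E (w.filter (fun u => decide (u ∈ S)))) →
        ((Finset.range ((S ∪ T).card + 1)).filter (fun t =>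
          (∃ e' ∈ S, (insAt t e w).getLast? = some e') ∧
          E ((insAt t e w).filter (fun u => decide (u ∈ S))))).card = (S ∪ T).card := by
      intro w hw hF
      have : (Finset.range ((S ∪ T).card + 1)).filter (fun t =>
          (∃ e' ∈ S, (insAt t e w).getLast? = some e') ∧
          E ((insAt t e w).filter (fun u => decide (u ∈ S)))) = Finset.range (S ∪ T).card := by
        ext t
        rw [Finset.mem_filter, Finset.mem_range, Finset.mem_range]
        constructor
        · rintro ⟨h1, h2⟩
          exact ((hiff w hw t (by omega)).1 h2).1
        · intro h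
          exact ⟨by omega, (hiff w hw t (by omega)).2 ⟨h, hF⟩⟩
      rw [this, Finset.card_range]
    have hN : N (insert e (S ∪ T)) (fun w => (∃ e ∈ S, w.getLast? = some e) ∧
        E (w.filter (fun u => decide (u ∈ S)))) = (S ∪ T).card *
        N (S ∪ T) (fun w => (∃ e ∈ S, w.getLast? = some e) ∧
        E (w.filter (fun u => decide (u ∈ S)))) := by
      apply le_antisymm
      · apply N_insert_le heU
        · intro w hw t ht h
          exact ((hiff w hw t ht).1 h).2
        · intro w hw hF
          have := hcount w hw hF
          refine le_of_eq ?_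
          convert this
      · apply N_insert_ge heU
        intro w hw hF
        have := hcount w hw hF
        refine ge_of_eq ?_
        convert this
    rw [Finset.union_insert, hN, mul_assoc, ih, Finset.card_insert_of_notMem heT, hcU]
    have : S.card + (T.card + 1) - 1 = (S.card + T.card - 1) + 1 := by omega
    rw [this, Nat.factorial_succ]
    have h2 : S.card + T.card - 1 + 1 = S.card + T.card := by omega
    rw [h2]
    ring

end CPI
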