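import Pool.Agent.Lib.MP_cb75a6_co.Dis.Defs
import Pool.Agent.Lib.MP_cb75a6_co.Dis.LP

set_option autoImplicit false

namespace CPI

open scoped Nat
open Ltr

variable {p q m n D : ℕ}

private theorem LS_isQ {s e : Ltr p q m n D} (h : s < e) (hb : s ≠ .b) : isQ s = true := by
  rw [lt_def] at h
  cases s <;> simp_all [isQ, ltb]

private theorem LS_pos {e s : Ltr p q m n D} {L : List (Ltr p q m n D)} (hs : s < e) :
    ins e (s :: L) = e :: ins s L := by
  conv_lhs => unfold ins
  rw [if_pos hs]

private theorem LS_neg {e s : Ltr p q m n D} {L : List (Ltr p q m n D)} (hs : ¬ s < e) :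
    ins e (s :: L) = s :: ins e L := by
  conv_lhs => unfold ins
  rw [if_neg hs]

private theorem LS_filter (L : List (Ltr p q m n D)) :
    ∀ (e : Ltr p q m n D), isQ e = true → .b ∉ L →
      (ins e L).filter isQ = ins e (L.filter isQ) := by
  induction L with
  | nil =>
    intro e he _
    simp [ins, he]
  | cons s L ih =>
    intro e he hb
    rw [List.mem_cons, not_or] at hb
    by_cases hs : s < e
    · have hQ : isQ s = true := LS_isQ hs (fun h => hb.1 h.symm)
      rw [LS_pos hs, List.filter_cons_of_pos he, ih s hQ hb.2, List.filter_cons_of_pos hQ,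
        LS_pos hs]
    · rw [LS_neg hs]
      by_cases hQ : isQ s = true
      · rw [List.filter_cons_of_pos hQ, List.filter_cons_of_pos hQ, ih e he hb.2, LS_neg hs]
      · rw [List.filter_cons_of_neg hQ, List.filter_cons_of_neg hQ, ih e he hb.2]

private theorem LS_ne (e : Ltr p q m n D) (L : List (Ltr p q m n D)) : ins e L ≠ [] := by
  cases L with
  | nil => simp [ins]
  | cons s L =>
    by_cases hs : s < e
    · rw [LS_pos hs]; exact List.cons_ne_nil _ _
    · rw [LS_neg hs]; exact List.cons_ne_nil _ _

private theorem LS_filter2 (L : List (Ltr p q m n D)) :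
    ∀ (e : Ltr p q m n D), isQ e = true → .b ∉ L →
      (ins e (L ++ [.b])).filter isQ = ins e (L.filter isQ) ∧
      ((ins e (L ++ [.b])).getLast? = some .b →
        ∃ c, (ins e (L.filter isQ)).getLast? = some c ∧ .b < c) := by
  induction L with
  | nil =>
    intro e he _
    rw [List.nil_append]
    by_cases hs : .b < e
    · rw [LS_pos hs]
      refine ⟨?_, fun _ => ⟨e, rfl, hs⟩⟩
      rw [List.filter_cons_of_pos he]
      simp [ins, isQ]
    · rw [LS_neg hs]
      refine ⟨?_, fun h => ?_⟩
      · rw [List.filter_cons_of_neg (by simp [isQ])]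
        simp [ins, he]
      · have : e = .b := by simpa [ins] using h
        rw [this] at he
        exact absurd he (by simp [isQ])
  | cons s L ih =>
    intro e he hb
    rw [List.mem_cons, not_or] at hb
    rw [List.cons_append]
    by_cases hs : s < e
    · have hQ : isQ s = true := LS_isQ hs (fun h => hb.1 h.symm)
      obtain ⟨h1, h2⟩ := ih s hQ hb.2
      rw [LS_pos hs, List.filter_cons_of_pos he, h1, List.filter_cons_of_pos hQ,
        LS_pos hs]
      refine ⟨rfl, fun h => ?_⟩
      rw [List.getLast?_cons_of_ne_nil (LS_ne _ _)] at h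
      rw [List.getLast?_cons_of_ne_nil (LS_ne _ _)]
      exact h2 h
    · obtain ⟨h1, h2⟩ := ih e he hb.2
      rw [LS_neg hs]
      by_cases hQ : isQ s = true
      · rw [List.filter_cons_of_pos hQ, List.filter_cons_of_pos hQ, h1, LS_neg hs]
        refine ⟨rfl, fun h => ?_⟩
        rw [List.getLast?_cons_of_ne_nil (LS_ne _ _)] at h
        rw [List.getLast?_cons_of_ne_nil (LS_ne _ _)]
        exact h2 h
      · rw [List.filter_cons_of_neg hQ, List.filter_cons_of_neg hQ, h1]
        refine ⟨rfl, fun h => ?_⟩
        rw [List.getLast?_cons_of_ne_nil (LS_ne _ _)] at h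
        exact h2 h

private theorem LS_inv (w : List (Ltr p q m n D)) :
    w.Nodup → w.IsChain (fun u v => ¬ (isQ u = true ∧ isQ v = true)) →
    (SL w).filter isQ = SL (w.filter isQ) ∧
      (.b ∈ w → (∃ e, w.getLast? = some e ∧ isQ e = false) →
        ∃ L, SL w = L ++ [.b] ∧ .b ∉ L) := by
  induction w using List.reverseRecOn with
  | nil =>
    intro _ _
    exact ⟨rfl, fun h => absurd h (List.not_mem_nil)⟩
  | append_singleton w e ih =>
    intro hn hc
    have hn' : w.Nodup := (List.nodup_append.mp hn).1
    have hew : e ∉ w := fun h => (List.nodup_append.mp hn).2.2 e h e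
      (List.mem_singleton.mpr rfl) rfl
    rw [List.isChain_append] at hc
    obtain ⟨hc1, -, hc2⟩ := hc
    obtain ⟨ih1, ih2⟩ := ih hn' hc1
    have hndSL : (SL w).Nodup := (SL_perm w).nodup_iff.mpr hn'
    rw [SL_snoc, List.filter_append]
    by_cases he : isQ e = true
    · constructor
      · rw [List.filter_cons_of_pos he, List.filter_nil, SL_snoc, ← ih1]
        by_cases hb : .b ∈ w
        · have hl : ∃ l, w.getLast? = some l ∧ isQ l = false := by
            have hne : w ≠ [] := List.ne_nil_of_mem hb
            refine ⟨w.getLast hne, List.getLast?_eq_some_getLast hne, ?_⟩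
            have := hc2 (w.getLast hne) (by rw [List.getLast?_eq_some_getLast hne]; rfl) e
              (by simp)
            rw [not_and] at this
            by_contra h
            rw [Bool.not_eq_false] at h
            exact this h he
          obtain ⟨L, hL, hbL⟩ := ih2 hb hl
          rw [hL, (LS_filter2 L e he hbL).1, List.filter_append]
          have : ([.b] : List (Ltr p q m n D)).filter isQ = [] := by simp [isQ]
          rw [this, List.append_nil]
        · exact LS_filter (SL w) e he (fun h => hb ((SL_perm w).mem_iff.mp h))
      · rintro - ⟨e', h1, h2⟩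
        rw [List.getLast?_concat] at h1
        rw [Option.some_inj] at h1
        rw [← h1, he] at h2
        exact absurd h2 (by decide)
    · rw [List.filter_cons_of_neg he, List.filter_nil, List.append_nil]
      have hcase : e = .b ∨ ∃ i, e = .d i := by
        cases e <;> simp_all [isQ]
      rcases hcase with rfl | ⟨i, rfl⟩
      · have hnb : Ltr.b ∉ SL w := fun h => hew ((SL_perm w).mem_iff.mp h)
        have : ins .b (SL w) = SL w ++ [.b] := by
          apply ins_of_forall_not_lt
          intro v _ hlt
          rw [lt_def] at hlt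
          cases v <;> simp_all [ltb]
        rw [this]
        refine ⟨?_, fun _ _ => ⟨SL w, rfl, hnb⟩⟩
        rw [List.filter_append, List.filter_cons_of_neg he, List.filter_nil, List.append_nil, ih1]
      · by_cases hb : .b ∈ w
        · have hbS : Ltr.b ∈ SL w := (SL_perm w).mem_iff.mpr hb
          obtain ⟨l1, l2, hl⟩ := List.append_of_mem hbS
          have hnd2 := hndSL
          rw [hl] at hnd2
          have hb1 : Ltr.b ∉ l1 := by
            intro h
            exact (List.nodup_append.mp hnd2).2.2 _ h _ (List.mem_cons_self) rfl
          have hb2 : Ltr.b ∉ l2 := by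
            have := (List.nodup_append.mp hnd2).2.1
            exact (List.nodup_cons.mp this).1
          have : ins (.d i) (SL w) = l1 ++ .d i :: (l2 ++ [.b]) := by
            rw [hl]
            apply ins_split
            · intro v hv hlt
              have : v ≠ .b := fun h => hb1 (h ▸ hv)
              rw [lt_def] at hlt
              cases v <;> simp_all [ltb]
            · rw [lt_def]; rfl
            · intro v _ hlt
              rw [lt_def] at hlt
              cases v <;> simp_all [ltb]
          rw [this]
          constructor
          · rw [← ih1, hl]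
            simp [isQ]
          · intro _ _
            refine ⟨l1 ++ .d i :: l2, by simp, ?_⟩
            simp [hb1, hb2]
        · have hbS : Ltr.b ∉ SL w := fun h => hb ((SL_perm w).mem_iff.mp h)
          have : ins (.d i) (SL w) = SL w ++ [.d i] := by
            apply ins_of_forall_not_lt
            intro v hv hlt
            have : v ≠ .b := fun h => hbS (h ▸ hv)
            rw [lt_def] at hlt
            cases v <;> simp_all [ltb]
          rw [this]
          constructor
          · rw [List.filter_append, List.filter_cons_of_neg he, List.filter_nil,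
              List.append_nil, ih1]
          · intro h
            rw [List.mem_append, List.mem_singleton] at h
            rcases h with h | h
            · exact absurd h hb
            · exact absurd h (by simp)

/-- separated words of `P - a` -/
theorem sep_fin (w : List (Ltr p q m n D)) (hn : w.Nodup) (ha : .a ∉ w) (hx : .x ∈ w)
    (hch : w.IsChain (fun u v => ¬ (isQ u = true ∧ isQ v = true)))
    (hlast : ∃ e, w.getLast? = some e ∧ isQ e = true) (h : FinIs w .b) :
    FinIs (w.filter isQ) .x := by
  obtain ⟨e, he, hQ⟩ := hlast
  obtain ⟨w', rfl⟩ : ∃ w', w = w' ++ [e] := by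
    rw [List.getLast?_eq_some_iff] at he
    exact he
  have hbw := (fin_minimal _ _ h).1
  rw [List.mem_append, List.mem_singleton] at hbw
  have hb : Ltr.b ∈ w' := by
    rcases hbw with h | h
    · exact h
    · rw [← h] at hQ; exact absurd hQ (by simp [isQ])
  have hn' : w'.Nodup := (List.nodup_append.mp hn).1
  have hch' := hch
  rw [List.isChain_append] at hch'
  obtain ⟨hc1, -, hc2⟩ := hch'
  have hl : ∃ l, w'.getLast? = some l ∧ isQ l = false := by
    have hne : w' ≠ [] := List.ne_nil_of_mem hb
    refine ⟨w'.getLast hne, List.getLast?_eq_some_getLast hne, ?_⟩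
    have := hc2 (w'.getLast hne) (by rw [List.getLast?_eq_some_getLast hne]; rfl) e
      (by simp)
    rw [not_and] at this
    by_contra h
    rw [Bool.not_eq_false] at h
    exact this h hQ
  obtain ⟨ih1, ih2⟩ := LS_inv w' hn' hc1
  obtain ⟨L, hL, hbL⟩ := ih2 hb hl
  unfold FinIs at h
  rw [SL_snoc, hL] at h
  obtain ⟨c, h1, h2⟩ := (LS_filter2 L e hQ hbL).2 h
  have h3 : FinIs ((w' ++ [e]).filter isQ) c := by
    unfold FinIs
    rw [List.filter_append, List.filter_cons_of_pos hQ, List.filter_nil, SL_snoc, ← ih1, hL,
      List.filter_append]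
    have : ([.b] : List (Ltr p q m n D)).filter isQ = [] := by simp [isQ]
    rw [this, List.append_nil]
    exact h1
  obtain ⟨h4, h5⟩ := fin_minimal _ _ h3
  have h6 : isQ c = true := (List.mem_filter.mp h4).2
  have h7 : ¬ Ltr.x < c := h5 .x (List.mem_filter.mpr ⟨hx, rfl⟩)
  have h8 : c = .x := by
    rw [lt_def] at h2 h7
    cases c <;> simp_all [ltb, isQ]
  rw [h8] at h3
  exact h3

end CPI
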