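import Pool.Agent.Lib.MP_cb75a6_co.Dis.Defs

set_option autoImplicit false

namespace CPI

open scoped Nat

private theorem p1a_pass_perm {P : Type} [LT P] [DecidableLT P] (es : List P) :
    ∀ c : P, (pass c es).Perm (c :: es) := by
  induction es with
  | nil => intro c; exact List.Perm.refl _
  | cons e es ih =>
    intro c
    unfold pass
    split_ifs
    · exact (ih e).cons c
    · exact ((ih c).cons e).trans (List.Perm.swap c e es)

private theorem p1a_main {P : Type} [PartialOrder P] [Fintype P] [DecidableEq P] [DecidableLT P]
    (w : List P) (hn : w.Nodup) (hall : ∀ v, v ∈ w) (hcard : Fintype.card P = w.length)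
    (L : P → ℕ) (hL : ∀ v, L v = pos w v + 1) (es : List P) :
    ∀ (rd out : List P) (c : P), w = rd ++ es → c ∈ rd → (∀ z, c < z → z ∉ rd) →
      OnChain L c →
      (∀ v ∈ rd, v ≠ c → OnChain L v → ∀ w', IsLSucc L v w' → w' ∈ rd) →
      out.length + 1 = rd.length → (∀ v, v ∈ out ↔ v ∈ rd ∧ v ≠ c) →
      (∀ v ∈ rd, v ≠ c → promote L v = pos out v + 1) →
      ∀ v, promote L v = pos (out ++ pass c es) v + 1 := by
  classical
  have hinj : ∀ a b, L a = L b → a = b := by
    intro a b hab
    rw [hL, hL] at hab
    have h1 : pos w a = pos w b := by omega
    exact (List.idxOf_inj (hall a)).1 h1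
  have hsucc : ∀ a b b', IsLSucc L a b → IsLSucc L a b' → b = b' := by
    intro a b b' h1 h2
    apply hinj
    exact le_antisymm (h1.2 b' h2.1) (h2.2 b h1.1)
  induction es with
  | nil =>
    intro rd out c hw hc hup hch _ hlen hmem hout v
    have hrd : ∀ z, z ∈ rd := by
      intro z
      have := hall z
      rw [hw, List.append_nil] at this
      exact this
    have hco : c ∉ out := fun h => ((hmem c).1 h).2 rfl
    by_cases hv : v = c
    · subst hv
      have hno : ¬ ∃ y, IsLSucc L v y := by
        rintro ⟨y, hy⟩
        exact hup y hy.1 (hrd y)
      have h1 : promote L v = Fintype.card P := by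
        unfold promote
        rw [if_pos hch, dif_neg hno]
      rw [h1, hcard, hw, List.append_nil, ← hlen]
      congr 1
      change out.length = (out ++ [v]).idxOf v
      rw [List.idxOf_append_of_notMem hco]
      simp
    · rw [hout v (hrd v) hv]
      congr 1
      change out.idxOf v = (out ++ [c]).idxOf v
      rw [List.idxOf_append_of_mem ((hmem v).2 ⟨hrd v, hv⟩)]
  | cons e es ih =>
    intro rd out c hw hc hup hch hK hlen hmem hout
    have hnd := hn
    rw [hw] at hnd
    have herd : e ∉ rd := by
      intro h
      have := (List.nodup_append.1 hnd).2.2 e h e (by simp)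
      exact this rfl
    have heout : e ∉ out := fun h => herd ((hmem e).1 h).1
    have hco : c ∉ out := fun h => ((hmem c).1 h).2 rfl
    have hec : e ≠ c := by
      rintro rfl
      exact herd hc
    have hLe : L e = rd.length + 1 := by
      rw [hL, hw]
      congr 1
      change (rd ++ e :: es).idxOf e = rd.length
      rw [List.idxOf_append_of_notMem herd]
      simp
    have hLge : ∀ z, z ∉ rd → L e ≤ L z := by
      intro z hz
      rw [hLe, hL, hw]
      have : rd.length ≤ (rd ++ e :: es).idxOf z := by
        rw [List.idxOf_append_of_notMem hz]
        omega
      have h2 : pos (rd ++ e :: es) z = (rd ++ e :: es).idxOf z := rfl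
      omega
    have hw' : w = (rd ++ [e]) ++ es := by rw [hw]; simp
    by_cases hce : c < e
    · -- the carry changes
      have hS : IsLSucc L c e := ⟨hce, fun z hz => hLge z (hup z hz)⟩
      have hpc : promote L c = out.length + 1 := by
        have hex : ∃ y, IsLSucc L c y := ⟨e, hS⟩
        have h1 : hex.choose = e := hsucc c _ _ hex.choose_spec hS
        unfold promote
        rw [if_pos hch, dif_pos hex, h1, hLe, hlen]
        omega
      have hpass : pass c (e :: es) = c :: pass e es := by
        rw [pass, if_pos hce]
      have key := ih (rd ++ [e]) (out ++ [c]) e hw' (by simp) ?_ (OnChain.next hch hS) ?_ ?_ ?_ ?_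
      · intro v
        rw [key v, hpass]
        simp
      · intro z hz hmz
        rw [List.mem_append, List.mem_singleton] at hmz
        rcases hmz with h | h
        · exact hup z (hce.trans hz) h
        · rw [h] at hz
          exact lt_irrefl _ hz
      · intro v hv hve hchv w' hw''
        rw [List.mem_append, List.mem_singleton] at hv ⊢
        rcases hv with hv | hv
        · by_cases hvc : v = c
          · subst hvc
            right
            exact hsucc v _ _ hw'' hS
          · left
            exact hK v hv hvc hchv w' hw''
        · exact absurd hv hve
      · simp [hlen]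
      · intro v
        rw [List.mem_append, List.mem_singleton, List.mem_append, List.mem_singleton, hmem]
        constructor
        · rintro (⟨h1, h2⟩ | h)
          · exact ⟨Or.inl h1, fun h => herd (h ▸ h1)⟩
          · exact ⟨Or.inl (h ▸ hc), fun h' => hec (h'.symm.trans h)⟩
        · rintro ⟨h1 | h1, h2⟩
          · by_cases hvc : v = c
            · exact Or.inr hvc
            · exact Or.inl ⟨h1, hvc⟩
          · exact absurd h1 h2
      · intro v hv hve
        rw [List.mem_append, List.mem_singleton] at hv
        rcases hv with hv | hv
        · by_cases hvc : v = c
          · subst hvc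
            rw [hpc]
            congr 1
            change out.length = (out ++ [v]).idxOf v
            rw [List.idxOf_append_of_notMem hco]
            simp
          · rw [hout v hv hvc]
            congr 1
            change out.idxOf v = (out ++ [c]).idxOf v
            rw [List.idxOf_append_of_mem ((hmem v).2 ⟨hv, hvc⟩)]
        · exact absurd hv hve
    · -- `e` is passed
      have hchain : ∀ v, OnChain L v → v ∈ rd ∨ c < v := by
        intro v hv
        induction hv with
        | @first v h1 =>
          left
          by_contra hvr
          have h2 := hLge v hvr
          rw [hLe, h1] at h2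
          have h3 : 0 < rd.length := List.length_pos_of_mem hc
          omega
        | @next v w' hv hs ihv =>
          rcases ihv with h | h
          · by_cases hvc : v = c
            · subst hvc
              exact Or.inr hs.1
            · exact Or.inl (hK v h hvc hv w' hs)
          · exact Or.inr (h.trans hs.1)
      have hne : ¬ OnChain L e := by
        intro h
        rcases hchain e h with h | h
        · exact herd h
        · exact hce h
      have hpe : promote L e = out.length + 1 := by
        unfold promote
        rw [if_neg hne, hLe, hlen]
        omega
      have hpass : pass c (e :: es) = e :: pass c es := by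
        rw [pass, if_neg hce]
      have key := ih (rd ++ [e]) (out ++ [e]) c hw' (by simp [hc]) ?_ hch ?_ ?_ ?_ ?_
      · intro v
        rw [key v, hpass]
        simp
      · intro z hz hmz
        rw [List.mem_append, List.mem_singleton] at hmz
        rcases hmz with h | h
        · exact hup z hz h
        · rw [h] at hz
          exact hce hz
      · intro v hv hvc hchv w' hw''
        rw [List.mem_append, List.mem_singleton] at hv ⊢
        rcases hv with hv | hv
        · left
          exact hK v hv hvc hchv w' hw''
        · rw [hv] at hchv
          exact absurd hchv hne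
      · simp [hlen]
      · intro v
        rw [List.mem_append, List.mem_singleton, List.mem_append, List.mem_singleton, hmem]
        constructor
        · rintro (⟨h1, h2⟩ | h)
          · exact ⟨Or.inl h1, h2⟩
          · exact ⟨Or.inr h, fun h' => hec (h.symm.trans h')⟩
        · rintro ⟨h1 | h1, h2⟩
          · exact Or.inl ⟨h1, h2⟩
          · exact Or.inr h1
      · intro v hv hvc
        rw [List.mem_append, List.mem_singleton] at hv
        rcases hv with hv | hv
        · rw [hout v hv hvc]
          congr 1
          change out.idxOf v = (out ++ [e]).idxOf v
          rw [List.idxOf_append_of_mem ((hmem v).2 ⟨hv, hvc⟩)]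
        · subst hv
          rw [hpe]
          congr 1
          change out.length = (out ++ [v]).idxOf v
          rw [List.idxOf_append_of_notMem heout]
          simp

theorem promote_pos {P : Type} [PartialOrder P] [Fintype P] [DecidableEq P] [DecidableLT P]
    (w : List P) (hn : w.Nodup) (hall : ∀ v, v ∈ w) :
    (promL w).Nodup ∧ (∀ v, v ∈ promL w) ∧
      promote (fun v => pos w v + 1) = fun v => pos (promL w) v + 1 := by
  cases w with
  | nil => exact ⟨by simp [promL], fun v => absurd (hall v) (by simp),
      funext fun v => absurd (hall v) (by simp)⟩
  | cons c r =>
    have hp : (promL (c :: r)).Perm (c :: r) := p1a_pass_perm r c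
    refine ⟨hp.nodup_iff.2 hn, fun v => hp.mem_iff.2 (hall v), ?_⟩
    have hcard : Fintype.card P = (c :: r).length := by
      rw [← List.toFinset_card_of_nodup hn, ← Finset.card_univ]
      congr 1
      ext v
      simp only [Finset.mem_univ, List.mem_toFinset, true_iff]
      exact hall v
    funext v
    have hcr : c ∉ r := (List.nodup_cons.1 hn).1
    have h := p1a_main (c :: r) hn hall hcard (fun v => pos (c :: r) v + 1) (fun _ => rfl) r
      [c] [] c rfl (by simp) ?_ ?_ ?_ rfl ?_ ?_ v
    · exact h
    · intro z hz hmz
      rw [List.mem_singleton] at hmz
      rw [hmz] at hz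
      exact lt_irrefl _ hz
    · apply OnChain.first
      simp
    · intro v hv hvc
      rw [List.mem_singleton] at hv
      exact absurd hv hvc
    · intro v
      simp
    · intro v hv hvc
      rw [List.mem_singleton] at hv
      exact absurd hv hvc

end CPI
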