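import Pool.Agent.Lib.MP_cb75a6_co.Dis.Defs

set_option autoImplicit false

namespace CPI

open scoped Nat

section P1B

variable {α : Type} [LT α] [DecidableLT α]

/-- outputs and final carry -/
private def p1b_go : α → List α → List α × α
  | c, [] => ([], c)
  | c, e :: es => if c < e then (c :: (p1b_go e es).1, (p1b_go e es).2)
      else (e :: (p1b_go c es).1, (p1b_go c es).2)

private theorem p1b_pass (es t : List α) : ∀ c : α,
    pass c (es ++ t) = (p1b_go c es).1 ++ pass (p1b_go c es).2 t := by
  induction es with
  | nil => intro c; rfl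
  | cons e es ih =>
    intro c
    rw [List.cons_append, pass, p1b_go]
    split_ifs
    · rw [ih e]; rfl
    · rw [ih c]; rfl

private theorem p1b_go_snoc (es : List α) (e : α) : ∀ c : α,
    p1b_go c (es ++ [e]) = if (p1b_go c es).2 < e then ((p1b_go c es).1 ++ [(p1b_go c es).2], e)
      else ((p1b_go c es).1 ++ [e], (p1b_go c es).2) := by
  induction es with
  | nil =>
    intro c
    simp only [List.nil_append, p1b_go]
  | cons d es ih =>
    intro c
    rw [List.cons_append]
    simp only [p1b_go]
    split_ifs with h1 h2 h3
    · rw [ih d, if_pos h2]; rfl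
    · rw [ih d, if_neg h2]; rfl
    · rw [ih c, if_pos h3]; rfl
    · rw [ih c, if_neg h3]; rfl

private theorem p1b_go_length (es : List α) : ∀ c : α, (p1b_go c es).1.length = es.length := by
  induction es with
  | nil => intro c; rfl
  | cons d es ih =>
    intro c
    rw [p1b_go]
    split_ifs
    · simp [ih d]
    · simp [ih c]

private def p1b_F : List α → List α
  | [] => []
  | v :: r => (p1b_go v r).1

private theorem p1b_F_length (w : List α) : (p1b_F w).length = w.length - 1 := by
  cases w with
  | nil => rfl
  | cons v r => simp [p1b_F, p1b_go_length]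

private theorem p1b_F_iter_length (k : ℕ) : ∀ w : List α,
    (p1b_F^[k] w).length = w.length - k := by
  induction k with
  | zero => intro w; rfl
  | succ k ih =>
    intro w
    rw [Function.iterate_succ_apply, ih, p1b_F_length]
    omega

private theorem p1b_iter (k : ℕ) : ∀ u t : List α,
    ∃ t', promL^[k] (u ++ t) = p1b_F^[k] u ++ t' := by
  induction k with
  | zero => intro u t; exact ⟨t, rfl⟩
  | succ k ih =>
    intro u t
    rw [Function.iterate_succ_apply, Function.iterate_succ_apply]
    cases u with
    | nil =>
      obtain ⟨t', ht'⟩ := ih [] (promL ([] ++ t))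
      exact ⟨t', ht'⟩
    | cons v r =>
      have h1 : promL (v :: r ++ t) = p1b_F (v :: r) ++ pass (p1b_go v r).2 t :=
        p1b_pass r t v
      rw [h1]
      exact ih _ _

private def p1b_cs : ℕ → List α → List α
  | 0, _ => []
  | _ + 1, [] => []
  | k + 1, v :: r => (p1b_go v r).2 :: p1b_cs k (p1b_go v r).1

private theorem p1b_cs_snoc (k : ℕ) : ∀ (e : α) (w : List α), w.length ≤ k →
    p1b_cs (k + 1) (w ++ [e]) = ins e (p1b_cs k w) := by
  induction k with
  | zero =>
    intro e w hw
    have : w = [] := List.length_eq_zero_iff.1 (by omega)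
    subst this
    rfl
  | succ k ih =>
    intro e w hw
    cases w with
    | nil => rfl
    | cons v r =>
      rw [List.cons_append, p1b_cs, p1b_cs, p1b_go_snoc, ins]
      simp only [List.length_cons] at hw
      split_ifs with h
      · simp only
        rw [ih _ _ (by rw [p1b_go_length]; omega)]
      · simp only
        rw [ih _ _ (by rw [p1b_go_length]; omega)]

private theorem p1b_SL (w : List α) : SL w = p1b_cs w.length w := by
  induction w using List.reverseRecOn with
  | nil => rfl
  | append_singleton w e ih =>
    have h1 : SL (w ++ [e]) = ins e (SL w) := by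
      simp [SL]
    rw [h1, ih, List.length_append, List.length_singleton, p1b_cs_snoc _ e w le_rfl]

private theorem p1b_last (k : ℕ) : ∀ w : List α, w.length = k + 1 →
    (p1b_cs (k + 1) w).getLast? = (p1b_F^[k] w).head? := by
  induction k with
  | zero =>
    intro w hw
    obtain ⟨v, rfl⟩ := List.length_eq_one_iff.1 hw
    rfl
  | succ k ih =>
    intro w hw
    cases w with
    | nil => simp at hw
    | cons v r =>
      have hr : r.length = k + 1 := by simpa using hw
      have hl : (p1b_go v r).1.length = k + 1 := by rw [p1b_go_length, hr]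
      rw [Function.iterate_succ_apply]
      change _ = (p1b_F^[k] (p1b_go v r).1).head?
      rw [← ih _ hl, p1b_cs]
      have hne : p1b_cs (k + 1) (p1b_go v r).1 ≠ [] := by
        rcases h : (p1b_go v r).1 with _ | ⟨v', r'⟩
        · rw [h] at hl; simp at hl
        · simp [p1b_cs]
      rw [List.getLast?_cons]
      rcases h : p1b_cs (k + 1) (p1b_go v r).1 with _ | ⟨v', r'⟩
      · exact absurd h hne
      · rw [List.getLast?_cons]
        simp

end P1B

theorem head_iter {α : Type} [LT α] [DecidableLT α] (w : List α) (h : 2 ≤ w.length) :
    (promL^[w.length - 2] w).head? = (SL w.dropLast).getLast? := by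
  have hne : w ≠ [] := by
    rintro rfl
    simp at h
  have hw : w = w.dropLast ++ [w.getLast hne] := (List.dropLast_append_getLast hne).symm
  have hl : w.dropLast.length = (w.length - 2) + 1 := by
    rw [List.length_dropLast]; omega
  obtain ⟨t', ht'⟩ := p1b_iter (w.length - 2) w.dropLast [w.getLast hne]
  rw [← hw] at ht'
  rw [ht', p1b_SL, hl, p1b_last _ _ hl]
  have hlen := p1b_F_iter_length (w.length - 2) w.dropLast
  rcases hF : p1b_F^[w.length - 2] w.dropLast with _ | ⟨v, r⟩
  · rw [hF, hl] at hlen
    simp at hlen
  · rfl

end CPI
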