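import Pool.Agent.Lib.MP_cb75a6_co.Dis.Defs
import Pool.Agent.Lib.MP_cb75a6_co.Dis.P1A
import Pool.Agent.Lib.MP_cb75a6_co.Dis.P1B

set_option autoImplicit false

namespace CPI

open scoped Nat

/-- the event in terms of words -/
def EvW {P : Type} [PartialOrder P] [DecidableLT P] (b : P) (w : List P) : Prop :=
  ∃ u, FinIs w u ∧ ∀ m : P, IsMin m → (m ≤ u ↔ m = b)

private theorem p1c_iter {P : Type} [PartialOrder P] [Fintype P] [DecidableEq P] [DecidableLT P]
    (k : ℕ) : ∀ w : List P, w.Nodup → (∀ v, v ∈ w) →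
      (promL^[k] w).Nodup ∧ (∀ v, v ∈ promL^[k] w) ∧
      promote^[k] (fun v => pos w v + 1) = fun v => pos (promL^[k] w) v + 1 := by
  induction k with
  | zero => intro w h1 h2; exact ⟨h1, h2, rfl⟩
  | succ k ih =>
    intro w h1 h2
    obtain ⟨h3, h4, h5⟩ := promote_pos w h1 h2
    rw [Function.iterate_succ_apply, Function.iterate_succ_apply, h5]
    exact ih (promL w) h3 h4

theorem Ev_iff {P : Type} [PartialOrder P] [Fintype P] [DecidableEq P] [DecidableLT P]
    (h2 : 2 ≤ Fintype.card P) (b : P) (L : P ≃ Fin (Fintype.card P)) :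
    Ev b L ↔ EvW b (List.ofFn (fun i => L.symm i)).dropLast := by
  obtain ⟨w, hw⟩ : ∃ w, w = List.ofFn (fun i => L.symm i) := ⟨_, rfl⟩
  have hnd : w.Nodup := by
    rw [hw, List.nodup_ofFn]
    exact L.symm.injective
  have hall : ∀ v, v ∈ w := by
    intro v
    rw [hw, List.mem_ofFn]
    exact ⟨L v, by simp⟩
  have hlen : w.length = Fintype.card P := by rw [hw]; simp
  have hlab : lab L = fun v => pos w v + 1 := by
    funext v
    unfold lab
    congr 1
    have h1 : (L v : ℕ) < w.length := by rw [hlen]; exact (L v).2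
    have h3 : w[(L v : ℕ)] = v := by
      simp [hw]
    have h4 := hnd.idxOf_getElem (L v : ℕ) h1
    rw [h3] at h4
    exact h4.symm
  obtain ⟨h3, h4, h5⟩ := p1c_iter (Fintype.card P - 2) w hnd hall
  rw [← hw]
  unfold Ev EvW
  refine exists_congr fun v => ?_
  refine and_congr_left fun _ => ?_
  rw [hlab, h5]
  unfold FinIs
  have h6 := head_iter w (by rw [hlen]; exact h2)
  rw [hlen] at h6
  rw [← h6]
  change (promL^[Fintype.card P - 2] w).idxOf v + 1 = 1 ↔ _
  rcases hP : promL^[Fintype.card P - 2] w with _ | ⟨c, r⟩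
  · have := h4 v
    rw [hP] at this
    simp at this
  · simp only [List.head?_cons, Option.some.injEq]
    by_cases hcv : c = v
    · subst hcv
      simp
    · rw [List.idxOf_cons_ne _ hcv]
      simp [hcv]

end CPI
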