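import Pool.Agent.Lib.MP_cb75a6_co.Dis.Defs
import Pool.Agent.Lib.MP_cb75a6_co.Dis.W1
import Pool.Agent.Lib.MP_cb75a6_co.Dis.P1C
import Pool.Agent.Lib.MP_cb75a6_co.Dis.LP
import Pool.Agent.Lib.MP_cb75a6_co.Dis.PO1

set_option autoImplicit false

namespace CPI

open scoped Nat
open Ltr

variable {p q m n D : ℕ}

/-- if the word of `P - a` is favourable then its last final carry is `b` -/
theorem EvW_a (w : List (Ltr p q m n D)) (hw : w ∈ words (Finset.univ.erase .a))
    (h : EvW .b w) : FinIs w .b := by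
  obtain ⟨u, hu, hm⟩ := h
  have h1 := fin_minimal w u hu
  have hb : (Ltr.b : Ltr p q m n D) ≤ u := (hm .b ((isMin_iff _).2 (Or.inr (Or.inl rfl)))).2 rfl
  have hbw : (Ltr.b : Ltr p q m n D) ∈ w :=
    ((mem_words.1 hw).2 .b).2 (Finset.mem_erase.2 ⟨by simp, Finset.mem_univ _⟩)
  rcases eq_or_lt_of_le hb with h2 | h2
  · rw [← h2] at hu
    exact hu
  · exact absurd h2 (h1.2 _ hbw)

/-- words of `P - b` with last final carry `x` or `d i` are favourable -/
theorem EvW_b_x (w : List (Ltr p q m n D)) (h : FinIs w .x) : EvW .b w := by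
  refine ⟨.x, h, ?_⟩
  intro v hv
  rw [isMin_iff] at hv
  constructor
  · intro hle
    rcases eq_or_lt_of_le hle with h2 | h2
    · subst h2
      rcases hv with h | h | ⟨k, h⟩ | ⟨i, hh, h⟩ <;> cases h
    · rw [lt_def] at h2
      cases v <;> simp [ltb] at h2 ⊢
  · rintro rfl
    exact le_of_lt (show (Ltr.b : Ltr p q m n D) < .x from rfl)

theorem EvW_b_d (w : List (Ltr p q m n D)) (i : Fin D) (h : FinIs w (.d i)) : EvW .b w := by
  refine ⟨.d i, h, ?_⟩
  intro v hv
  rw [isMin_iff] at hv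
  constructor
  · intro hle
    rcases eq_or_lt_of_le hle with h2 | h2
    · subst h2
      rcases hv with h | h | ⟨k, h⟩ | ⟨i, hh, h⟩ <;> cases h
    · rw [lt_def] at h2
      cases v <;> simp [ltb] at h2 ⊢
  · rintro rfl
    exact le_of_lt (show (Ltr.b : Ltr p q m n D) < .d i from rfl)

end CPI
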