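import Pool.Agent.Lib.MP_cb75a6_co.Dis.Defs
import Pool.Agent.Lib.MP_cb75a6_co.Dis.GG
import Pool.Agent.Lib.MP_cb75a6_co.Dis.W1
import Pool.Agent.Lib.MP_cb75a6_co.Dis.W1N
import Pool.Agent.Lib.MP_cb75a6_co.Dis.W1L
import Pool.Agent.Lib.MP_cb75a6_co.Dis.PO1
import Pool.Agent.Lib.MP_cb75a6_co.Dis.PO3
import Pool.Agent.Lib.MP_cb75a6_co.Dis.LN
import Pool.Agent.Lib.MP_cb75a6_co.Dis.LJ
import Pool.Agent.Lib.MP_cb75a6_co.Dis.LS
import Pool.Agent.Lib.MP_cb75a6_co.Dis.LC

set_option autoImplicit false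

namespace CPI

open scoped Nat
open Ltr
open LC

/-- upper bound for the words of `P - a` (`K = |Q| + D = |P| - 1` letters) -/
theorem layer_a (p q m n D : ℕ) :
    (N (Finset.univ.erase (.a : Ltr p q m n D)) (EvW .b) : ℝ) ≤
      (((Qs p q m n D).card + D - 1)! : ℝ) * (D + 1 + GB p q m n D +
        ((Qs p q m n D).card : ℝ) ^ 3 / ((Qs p q m n D).card + D - 1 : ℝ)) := by
  have hQ2 : 2 ≤ (Qs p q m n D).card := by rw [card_Qs]; omega
  have haQ : (Ltr.a : Ltr p q m n D) ∈ Qs p q m n D := mem_Qs.2 rfl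
  set S := Finset.univ.erase (.a : Ltr p q m n D) with hS
  have hS' : S = (Qs p q m n D).erase .a ∪ insert .b (Ds p q m n D) := univ_erase_a
  have hQ'card : ((Qs p q m n D).erase .a).card = (Qs p q m n D).card - 1 :=
    Finset.card_erase_of_mem haQ
  have hScard : S.card = (Qs p q m n D).card + D := by
    rw [hS', Finset.card_union_of_disjoint disj_a, card_insert_b, hQ'card]
    omega
  -- the events
  have hfilter : ∀ w ∈ words S,
      w.filter (fun u => decide (u ∈ (Qs p q m n D).erase .a)) = w.filter isQ := by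
    intro w hw
    apply List.filter_congr
    intro u hu
    have hu' := ((mem_words.1 hw).2 u).1 hu
    have hua : u ≠ .a := (Finset.mem_erase.1 hu').1
    by_cases h : isQ u = true
    · simp [mem_Qs, h, hua]
    · simp [mem_Qs, h]
  let E1 : List (Ltr p q m n D) → Prop := fun w =>
    ∃ e ∈ insert .b (Ds p q m n D), w.getLast? = some e
  let E2 : List (Ltr p q m n D) → Prop := fun w =>
    (∃ e ∈ (Qs p q m n D).erase .a, w.getLast? = some e) ∧
        FinIs (w.filter (fun u => decide (u ∈ (Qs p q m n D).erase .a))) .x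
  let E3 : List (Ltr p q m n D) → Prop := fun w =>
    (∃ e ∈ (Qs p q m n D).erase .a, w.getLast? = some e) ∧
        ¬ w.IsChain (fun u v => ¬ (u ∈ (Qs p q m n D).erase .a ∧ v ∈ (Qs p q m n D).erase .a))
  have hcover : ∀ w ∈ words S, EvW .b w → ∃ i ∈ (Finset.univ : Finset (Fin 3)),
      (![E1, E2, E3] i) w := by
    intro w hw hE
    have hfin := EvW_a w hw hE
    have hw' := mem_words.1 hw
    have hne : w ≠ [] := by
      intro h
      have : (Ltr.b : Ltr p q m n D) ∈ w := (hw'.2 .b).2 (by simp [hS])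
      rw [h] at this
      simp at this
    obtain ⟨e, he⟩ : ∃ e, w.getLast? = some e := ⟨w.getLast hne, List.getLast?_eq_some_getLast hne⟩
    have hew : e ∈ w := List.mem_of_getLast? he
    have heS : e ∈ S := (hw'.2 e).1 hew
    rw [hS'] at heS
    rcases Finset.mem_union.1 heS with h1 | h1
    · by_cases hch : w.IsChain
        (fun u v => ¬ (u ∈ (Qs p q m n D).erase .a ∧ v ∈ (Qs p q m n D).erase .a))
      · refine ⟨1, Finset.mem_univ _, ⟨e, h1, he⟩, ?_⟩
        rw [hfilter w hw]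
        apply sep_fin w hw'.1
        · rw [hw'.2]; simp [hS]
        · rw [hw'.2]; simp [hS]
        · have hall : ∀ u ∈ w, isQ u = true → u ∈ (Qs p q m n D).erase .a := by
            intro u hu hq'
            have := (hw'.2 u).1 hu
            exact Finset.mem_erase.2 ⟨(Finset.mem_erase.1 this).1, mem_Qs.2 hq'⟩
          exact List.IsChain.imp_of_mem_imp
            (fun a b ha hb h hh => h ⟨hall _ ha hh.1, hall _ hb hh.2⟩) hch
        · exact ⟨e, he, mem_Qs.1 (Finset.mem_of_mem_erase h1)⟩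
        · exact hfin
      · exact ⟨2, Finset.mem_univ _, ⟨e, h1, he⟩, hch⟩
    · exact ⟨0, Finset.mem_univ _, e, h1, he⟩
  have h1 := N_union (Finset.univ : Finset (Fin 3)) S (EvW .b) (![E1, E2, E3]) hcover
  rw [Fin.sum_univ_three] at h1
  have g1 : N S E1 ≤ (D + 1) * (S.card - 1)! := by
    have := N_union (insert .b (Ds p q m n D)) S E1 (fun e w => w.getLast? = some e)
      (fun w _ h => h)
    refine this.trans (le_of_eq ?_)
    rw [Finset.sum_congr rfl (g := fun _ => (S.card - 1)!)]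
    · rw [Finset.sum_const, card_insert_b, smul_eq_mul]
    · intro e he
      apply N_last_eq
      rw [hS']
      exact Finset.mem_union_right _ he
  have g2 : (N S E2 : ℝ) = (((Qs p q m n D).card + D - 1)! : ℝ) * GB p q m n D := by
    have h3 := N_notlast ((Qs p q m n D).erase .a) (insert .b (Ds p q m n D)) disj_a
      ⟨.x, Finset.mem_erase.2 ⟨by simp, mem_Qs.2 rfl⟩⟩ (fun w => FinIs w .x)
    rw [card_insert_b, hQ'card, ← hS'] at h3
    have e1 : (Qs p q m n D).card - 1 + (D + 1) - 1 = (Qs p q m n D).card + D - 1 := by omega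
    have e2 : (Qs p q m n D).card - 1 - 1 = (Qs p q m n D).card - 2 := by omega
    rw [e1, e2] at h3
    unfold GB
    have h4 : (N S E2 : ℝ) * (((Qs p q m n D).card - 2)! : ℝ) =
      (N ((Qs p q m n D).erase .a) (fun w => FinIs w .x) : ℝ) *
        (((Qs p q m n D).card + D - 1)! : ℝ) := by
      exact_mod_cast h3
    have h5 : (0 : ℝ) < (((Qs p q m n D).card - 2)! : ℝ) := by positivity
    field_simp
    linarith
  have g3 : N S E3 ≤ ((Qs p q m n D).card) ^ 3 * (S.card - 2)! := by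
    refine (N_adj S ((Qs p q m n D).erase .a) ?_ ?_).trans ?_
    · rw [hS']; exact Finset.subset_union_left
    · rw [hScard]; omega
    · apply Nat.mul_le_mul_right
      apply Nat.pow_le_pow_left
      rw [hQ'card]; omega
  have g3' : (N S E3 : ℝ) ≤ (((Qs p q m n D).card + D - 1)! : ℝ) *
      (((Qs p q m n D).card : ℝ) ^ 3 / ((Qs p q m n D).card + D - 1 : ℝ)) := by
    obtain ⟨k, hk⟩ : ∃ k, (Qs p q m n D).card + D = k + 2 := ⟨(Qs p q m n D).card + D - 2, by omega⟩
    have h4 : (N S E3 : ℝ) ≤ ((Qs p q m n D).card : ℝ) ^ 3 * ((S.card - 2)! : ℝ) := by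
      exact_mod_cast g3
    have h5 : ((Qs p q m n D).card : ℝ) + D - 1 = k + 1 := by
      have : ((Qs p q m n D).card : ℝ) + D = k + 2 := by exact_mod_cast hk
      linarith
    rw [hScard, hk] at h4
    rw [h5, hk]
    have e3 : k + 2 - 2 = k := by omega
    have e4 : k + 2 - 1 = k + 1 := by omega
    rw [e3] at h4
    rw [e4, Nat.factorial_succ]
    push_cast
    have h6 : (0 : ℝ) < (k : ℝ) + 1 := by positivity
    calc (N S E3 : ℝ) ≤ ((Qs p q m n D).card : ℝ) ^ 3 * (k ! : ℝ) := h4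
      _ = ((k : ℝ) + 1) * (k ! : ℝ) * (((Qs p q m n D).card : ℝ) ^ 3 / ((k : ℝ) + 1)) := by
          field_simp
  have h1' : (N S (EvW .b) : ℝ) ≤ (N S E1 : ℝ) + (N S E2 : ℝ) + (N S E3 : ℝ) := by
    exact_mod_cast h1
  have g1' : (N S E1 : ℝ) ≤ ((D : ℝ) + 1) * (((Qs p q m n D).card + D - 1)! : ℝ) := by
    rw [hScard] at g1
    exact_mod_cast g1
  rw [g2] at h1'
  linarith

end CPI
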