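import Pool.Agent.Lib.MP_cb75a6_co.Dis.Defs
import Pool.Agent.Lib.MP_cb75a6_co.Dis.LP

set_option autoImplicit false

namespace CPI

open scoped Nat
open Ltr

variable {p q m n D : ℕ}

private theorem LB_isQ {s e : Ltr p q m n D} (h : s < e) (hb : s ≠ .b) : isQ s = true := by
  rw [lt_def] at h
  cases s <;> simp_all [isQ, ltb]

private theorem LB_filter (L : List (Ltr p q m n D)) :
    ∀ (e : Ltr p q m n D), isQ e = true → .b ∉ L →
      (ins e L).filter isQ = ins e (L.filter isQ) ∧
        ∃ c, (ins e L).getLast? = some c ∧ isQ c = true := by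
  induction L with
  | nil =>
    intro e he _
    refine ⟨?_, e, rfl, he⟩
    simp [ins, he]
  | cons s L ih =>
    intro e he hb
    rw [List.mem_cons, not_or] at hb
    have hne : ∀ f : Ltr p q m n D, ∀ c, (ins f L).getLast? = some c →
        ∀ g, (g :: ins f L).getLast? = some c := by
      intro f c hc g
      rw [List.getLast?_cons_of_ne_nil, hc]
      intro h
      rw [h] at hc
      exact absurd hc (by simp)
    by_cases hs : s < e
    · have hQ : isQ s = true := LB_isQ hs (fun h => hb.1 h.symm)
      obtain ⟨h1, c, h2, h3⟩ := ih s hQ hb.2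
      have e1 : ins e (s :: L) = e :: ins s L := by
        conv_lhs => unfold ins
        rw [if_pos hs]
      refine ⟨?_, c, ?_, h3⟩
      · rw [e1, List.filter_cons_of_pos he, h1, List.filter_cons_of_pos hQ]
        conv_rhs => unfold ins
        rw [if_pos hs]
      · rw [e1]; exact hne s c h2 e
    · obtain ⟨h1, c, h2, h3⟩ := ih e he hb.2
      have e1 : ins e (s :: L) = s :: ins e L := by
        conv_lhs => unfold ins
        rw [if_neg hs]
      refine ⟨?_, c, ?_, h3⟩
      · rw [e1]
        by_cases hQ : isQ s = true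
        · rw [List.filter_cons_of_pos hQ, List.filter_cons_of_pos hQ, h1]
          conv_rhs => unfold ins
          rw [if_neg hs]
        · rw [List.filter_cons_of_neg hQ, List.filter_cons_of_neg hQ, h1]
      · rw [e1]; exact hne e c h2 s

private theorem LB_inv (w : List (Ltr p q m n D)) :
    .b ∉ w → (SL w).filter isQ = SL (w.filter isQ) := by
  induction w using List.reverseRecOn with
  | nil => intro _; rfl
  | append_singleton w e ih =>
    intro hb
    rw [List.mem_append, not_or] at hb
    have hb' : Ltr.b ∉ SL w := fun h => hb.1 ((SL_perm w).mem_iff.mp h)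
    rw [SL_snoc, List.filter_append]
    by_cases he : isQ e = true
    · rw [(LB_filter (SL w) e he hb').1, List.filter_cons_of_pos he, List.filter_nil,
        SL_snoc, ih hb.1]
    · have hd : ∀ v ∈ SL w, ¬ v < e := by
        intro v hv hlt
        rw [lt_def] at hlt
        have : v ≠ .b := fun h => hb' (h ▸ hv)
        have : e ≠ .b := fun h => hb.2 (by rw [h]; exact List.mem_singleton.mpr rfl)
        cases e <;> simp_all [isQ] <;> cases v <;> simp_all [ltb]
      rw [ins_of_forall_not_lt _ _ hd, List.filter_append, List.filter_cons_of_neg he,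
        List.filter_nil, List.append_nil, List.append_nil, ih hb.1]

/-- words of `P - b` -/
theorem pb_fin (w : List (Ltr p q m n D)) (hn : w.Nodup) (hb : .b ∉ w)
    (hlast : ∃ e, w.getLast? = some e ∧ isQ e = true) (h : FinIs (w.filter isQ) .x) :
    FinIs w .x := by
  obtain ⟨e, he, hQ⟩ := hlast
  obtain ⟨w', rfl⟩ : ∃ w', w = w' ++ [e] := by
    rw [List.getLast?_eq_some_iff] at he
    exact he
  have hb' : Ltr.b ∉ SL w' := fun h => hb (List.mem_append_left _ ((SL_perm w').mem_iff.mp h))
  obtain ⟨-, c, h2, h3⟩ := LB_filter (SL w') e hQ hb'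
  rw [← SL_snoc] at h2
  have h4 := LB_inv (w' ++ [e]) hb
  unfold FinIs at h ⊢
  rw [← h4] at h
  rw [List.getLast?_eq_some_iff] at h2
  obtain ⟨M, hM⟩ := h2
  rw [hM, List.filter_append, List.filter_cons_of_pos h3, List.filter_nil] at h
  rw [hM]
  simpa using h

theorem pb_fin_d (w : List (Ltr p q m n D)) (hn : w.Nodup) (hb : .b ∉ w) (i : Fin D)
    (hlast : w.getLast? = some (.d i)) : FinIs w (.d i) := by
  rw [List.getLast?_eq_some_iff] at hlast
  obtain ⟨w', rfl⟩ := hlast
  unfold FinIs
  rw [SL_snoc, ins_of_forall_not_lt]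
  · simp
  · intro v hv hlt
    have hv' : v ∈ w' := (SL_perm w').mem_iff.mp hv
    have : v ≠ .b := fun h => hb (List.mem_append_left _ (h ▸ hv'))
    rw [lt_def] at hlt
    cases v <;> simp_all [ltb]

end CPI
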