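import Pool.Agent.Lib.MP_cb75a6_co.Dis.Defs
import Pool.Agent.Lib.MP_cb75a6_co.Dis.GG
import Pool.Agent.Lib.MP_cb75a6_co.Dis.W1
import Pool.Agent.Lib.MP_cb75a6_co.Dis.W1N
import Pool.Agent.Lib.MP_cb75a6_co.Dis.W1L
import Pool.Agent.Lib.MP_cb75a6_co.Dis.PO1
import Pool.Agent.Lib.MP_cb75a6_co.Dis.PO3
import Pool.Agent.Lib.MP_cb75a6_co.Dis.LN
import Pool.Agent.Lib.MP_cb75a6_co.Dis.LB
import Pool.Agent.Lib.MP_cb75a6_co.Dis.LC

set_option autoImplicit false

namespace CPI

open scoped Nat
open Ltr
open LC

/-- lower bound for the words of `P - b` -/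
theorem layer_b (p q m n D : ℕ) :
    (((Qs p q m n D).card + D - 1)! : ℝ) * (D + GA p q m n D) ≤
      (N (Finset.univ.erase (.b : Ltr p q m n D)) (EvW .b) : ℝ) := by
  have hQ2 : 2 ≤ (Qs p q m n D).card := by rw [card_Qs]; omega
  set S := Finset.univ.erase (.b : Ltr p q m n D) with hS
  have hScard : S.card = (Qs p q m n D).card + D := by
    rw [hS, univ_erase_b, Finset.card_union_of_disjoint disj_b, card_Ds]
  -- the events
  let F : Option (Fin D) → List (Ltr p q m n D) → Prop := fun o w =>
    match o with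
    | none => (∃ e ∈ Qs p q m n D, w.getLast? = some e) ∧
        FinIs (w.filter (fun u => decide (u ∈ Qs p q m n D))) .x
    | some i => w.getLast? = some (.d i)
  have hfilter : ∀ w : List (Ltr p q m n D),
      w.filter (fun u => decide (u ∈ Qs p q m n D)) = w.filter isQ := by
    intro w
    apply List.filter_congr
    intro u _
    by_cases h : isQ u = true
    · simp [mem_Qs, h]
    · simp [mem_Qs, h]
  have h1 := N_disj (Finset.univ : Finset (Option (Fin D))) S (EvW .b) F (by
    intro o _ w hw h
    have hw' := mem_words.1 hw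
    have hb : (Ltr.b : Ltr p q m n D) ∉ w := by
      rw [hw'.2]; simp [hS]
    cases o with
    | none =>
      obtain ⟨⟨e, he, he'⟩, hf⟩ := h
      rw [hfilter] at hf
      exact EvW_b_x w (pb_fin w hw'.1 hb ⟨e, he', mem_Qs.1 he⟩ hf)
    | some i => exact EvW_b_d w i (pb_fin_d w hw'.1 hb i h)) (by
    intro o _ o' _ hne w _ h
    cases o with
    | none =>
      cases o' with
      | none => exact hne rfl
      | some i =>
        obtain ⟨⟨⟨e, he, he'⟩, _⟩, h2⟩ := h
        have h2' : w.getLast? = some (.d i) := h2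
        rw [h2'] at he'
        cases he'
        simp [mem_Qs, isQ] at he
    | some j =>
      cases o' with
      | none =>
        obtain ⟨h2, ⟨⟨e, he, he'⟩, _⟩⟩ := h
        have h2' : w.getLast? = some (.d j) := h2
        rw [h2'] at he'
        cases he'
        simp [mem_Qs, isQ] at he
      | some i =>
        have h2 : w.getLast? = some (.d j) := h.1
        have h3 : w.getLast? = some (.d i) := h.2
        rw [h2] at h3
        cases h3
        exact hne rfl)
  rw [Fintype.sum_option] at h1
  have h2 : ∀ i : Fin D, N S (F (some i)) = (S.card - 1)! := by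
    intro i
    exact N_last_eq S (.d i) (by simp [hS])
  simp only [h2, Finset.sum_const, Finset.card_univ, Fintype.card_fin, smul_eq_mul] at h1
  have h3 : N S (F none) * ((Qs p q m n D).card - 1)! =
      N (Qs p q m n D) (fun w => FinIs w .x) * ((Qs p q m n D).card + D - 1)! := by
    have := N_notlast (Qs p q m n D) (Ds p q m n D) disj_b ⟨.x, mem_Qs.2 rfl⟩
      (fun w => FinIs w .x)
    rw [card_Ds, ← univ_erase_b] at this
    exact this
  have h3' : (N S (F none) : ℝ) = (((Qs p q m n D).card + D - 1)! : ℝ) * GA p q m n D := by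
    unfold GA
    have h4 : (N S (F none) : ℝ) * (((Qs p q m n D).card - 1)! : ℝ) =
      (N (Qs p q m n D) (fun w => FinIs w .x) : ℝ) * (((Qs p q m n D).card + D - 1)! : ℝ) := by
      exact_mod_cast h3
    have h5 : (0 : ℝ) < (((Qs p q m n D).card - 1)! : ℝ) := by positivity
    field_simp
    linarith
  have h6 : (N S (F none) : ℝ) + (D : ℝ) * ((S.card - 1)! : ℝ) ≤ (N S (EvW .b) : ℝ) := by
    exact_mod_cast h1
  rw [hScard] at h6
  rw [h3'] at h6
  linarith

end CPI
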