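import Pool.Agent.Lib.MP_cb75a6_co.Dis.Defs
import Pool.Agent.Lib.MP_cb75a6_co.Dis.W1

set_option autoImplicit false

namespace CPI

open scoped Nat

private theorem p1d_last {P : Type} [Fintype P] [DecidableEq P] (a : P)
    (L : P ≃ Fin (Fintype.card P)) (hL : lab L a = Fintype.card P) :
    List.ofFn (fun i => L.symm i) = (List.ofFn (fun i => L.symm i)).dropLast ++ [a] := by
  have hpos : 0 < Fintype.card P := Fintype.card_pos_iff.2 ⟨a⟩
  have hne : List.ofFn (fun i => L.symm i) ≠ [] := by
    intro h
    have := congrArg List.length h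
    simp at this
    omega
  have h1 : (List.ofFn (fun i => L.symm i)).getLast hne = a := by
    rw [List.getLast_eq_getElem]
    rw [List.getElem_ofFn]
    rw [Equiv.symm_apply_eq]
    apply Fin.ext
    unfold lab at hL
    simp only [List.length_ofFn]
    omega
  conv_lhs => rw [← List.dropLast_append_getLast hne, h1]

theorem card_lab {P : Type} [Fintype P] [DecidableEq P] (a : P) (E : List P → Prop) :
    Nat.card {L : P ≃ Fin (Fintype.card P) //
      E (List.ofFn (fun i => L.symm i)).dropLast ∧ lab L a = Fintype.card P} =
      N (Finset.univ.erase a) E := by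
  classical
  unfold N
  rw [← Nat.subtype_card ((words (Finset.univ.erase a)).filter E) (fun x => Iff.rfl)]
  have hmem : ∀ L : P ≃ Fin (Fintype.card P), lab L a = Fintype.card P →
      (List.ofFn (fun i => L.symm i)).dropLast ∈ words (Finset.univ.erase a) := by
    intro L hL
    have hlast := p1d_last a L hL
    have hnd : (List.ofFn (fun i => L.symm i)).Nodup := by
      rw [List.nodup_ofFn]
      exact L.symm.injective
    have hall : ∀ v, v ∈ List.ofFn (fun i => L.symm i) := by
      intro v
      rw [List.mem_ofFn]
      exact ⟨L v, by simp⟩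
    rw [hlast] at hnd hall
    rw [List.nodup_append] at hnd
    rw [mem_words]
    refine ⟨hnd.1, fun u => ?_⟩
    rw [Finset.mem_erase]
    constructor
    · intro hu
      exact ⟨hnd.2.2 u hu a (by simp), Finset.mem_univ _⟩
    · rintro ⟨hu, -⟩
      have := hall u
      rw [List.mem_append, List.mem_singleton] at this
      rcases this with h | h
      · exact h
      · exact absurd h hu
  refine Nat.card_eq_of_bijective (fun L => ⟨(List.ofFn (fun i => L.1.symm i)).dropLast,
    Finset.mem_filter.2 ⟨hmem L.1 L.2.2, L.2.1⟩⟩) ⟨?_, ?_⟩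
  · rintro ⟨L, hL1, hL2⟩ ⟨L', hL1', hL2'⟩ h
    rw [Subtype.mk.injEq] at h
    apply Subtype.ext
    have h1 := p1d_last a L hL2
    have h2 := p1d_last a L' hL2'
    have h3 : List.ofFn (fun i => L.symm i) = List.ofFn (fun i => L'.symm i) := by
      rw [h1, h2, h]
    have h4 := List.ofFn_injective h3
    have h5 : L.symm = L'.symm := Equiv.ext fun i => congrFun h4 i
    change L = L'
    rw [← Equiv.symm_symm L, h5, Equiv.symm_symm]
  · rintro ⟨w', hw'⟩
    rw [Finset.mem_filter, mem_words] at hw'
    obtain ⟨⟨hnd', hm⟩, hE⟩ := hw'
    have haw : a ∉ w' := by rw [hm]; simp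
    have hnd : (w' ++ [a]).Nodup := by
      rw [List.nodup_append]
      refine ⟨hnd', by simp, ?_⟩
      intro u hu b hb
      rw [List.mem_singleton] at hb
      rintro rfl
      exact haw (hb ▸ hu)
    have hall : ∀ v, v ∈ w' ++ [a] := by
      intro v
      rw [List.mem_append, List.mem_singleton, hm, Finset.mem_erase]
      by_cases hv : v = a
      · exact Or.inr hv
      · exact Or.inl ⟨hv, Finset.mem_univ _⟩
    have hlen : (w' ++ [a]).length = Fintype.card P := by
      rw [← List.toFinset_card_of_nodup hnd, ← Finset.card_univ]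
      congr 1
      ext v
      simp only [Finset.mem_univ, List.mem_toFinset, iff_true]
      exact hall v
    let L : P ≃ Fin (Fintype.card P) :=
      (List.Nodup.getEquivOfForallMemList (w' ++ [a]) hnd hall).symm.trans (finCongr hlen)
    have hLs : ∀ i : Fin (Fintype.card P), L.symm i = (w' ++ [a])[(i : ℕ)]'(by
        rw [hlen]; exact i.2) := by
      intro i
      rfl
    have hofn : List.ofFn (fun i => L.symm i) = w' ++ [a] := by
      apply List.ext_getElem
      · rw [List.length_ofFn, hlen]
      · intro i h1 h2
        rw [List.getElem_ofFn, hLs]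
    have hd : (List.ofFn (fun i => L.symm i)).dropLast = w' := by
      rw [hofn, List.dropLast_concat]
    have hla : lab L a = Fintype.card P := by
      have hlt : w'.length < Fintype.card P := by
        rw [← hlen]; simp
      have h1 : L.symm ⟨w'.length, hlt⟩ = a := by
        rw [hLs]
        simp
      have h2 : L a = ⟨w'.length, hlt⟩ := by
        rw [← h1, Equiv.apply_symm_apply]
      have h3 : w'.length + 1 = Fintype.card P := by rw [← hlen]; simp
      unfold lab
      rw [h2]
      exact h3
    refine ⟨⟨L, ?_, hla⟩, ?_⟩
    · rw [hd]; exact hE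
    · apply Subtype.ext
      exact hd

end CPI
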