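import Pool.Agent.Lib.MP_cb75a6_co.Dis.Defs
import Pool.Agent.Lib.MP_cb75a6_co.Dis.P1C
import Pool.Agent.Lib.MP_cb75a6_co.Dis.P1D
import Pool.Agent.Lib.MP_cb75a6_co.Dis.W1N

set_option autoImplicit false

namespace CPI

open scoped Nat

theorem condPr_eq {P : Type} [PartialOrder P] [Fintype P] [DecidableEq P] [DecidableLT P]
    (h2 : 2 ≤ Fintype.card P) (b a : P) :
    condPr b a = Pr (Finset.univ.erase a) (EvW b) := by
  unfold condPr Pr
  have h1 : Nat.card {L : P ≃ Fin (Fintype.card P) // Ev b L ∧ lab L a = Fintype.card P} =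
      N (Finset.univ.erase a) (EvW b) := by
    rw [← card_lab a (EvW b)]
    apply Nat.card_congr
    exact Equiv.subtypeEquivRight fun L => and_congr_left fun _ => Ev_iff h2 b L
  have h3 : Nat.card {L : P ≃ Fin (Fintype.card P) // lab L a = Fintype.card P} =
      (Finset.univ.erase a).card ! := by
    rw [← N_true, ← card_lab a (fun _ => True)]
    apply Nat.card_congr
    exact Equiv.subtypeEquivRight fun L => (and_iff_right trivial).symm
  rw [h1, h3]

end CPI
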