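import Pool.Agent.Lib.MP_cb75a6_co.Dis.Defs

set_option autoImplicit false

namespace CPI

open scoped Nat
open Ltr

variable {p q m n D : ℕ}

namespace PO2

theorem cov_of {u v : Ltr p q m n D} (h : ltb u v = true)
    (h' : ∀ w, ltb u w = true → ltb w v = true → False) : u ⋖ v :=
  ⟨h, fun w h1 h2 => h' w h1 h2⟩

theorem cov_b_x : (Ltr.b : Ltr p q m n D) ⋖ .x :=
  cov_of rfl (by intro w h1 h2; cases w <;> simp [ltb] at h1 h2)

theorem cov_x_X (i : Fin p) : (Ltr.x : Ltr p q m n D) ⋖ .X i :=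
  cov_of rfl (by intro w h1 h2; cases w <;> simp [ltb] at h1 h2)

theorem cov_x_c (k : Fin m) : (Ltr.x : Ltr p q m n D) ⋖ .c k :=
  cov_of rfl (by intro w h1 h2; cases w <;> simp [ltb] at h1 h2)

theorem cov_z_c (k : Fin m) : (Ltr.z k : Ltr p q m n D) ⋖ .c k :=
  cov_of (by simp [ltb]) (by intro w h1 h2; cases w <;> simp [ltb] at h1 h2)

theorem cov_x_R (i : Fin n) : (Ltr.x : Ltr p q m n D) ⋖ .R i :=
  cov_of rfl (by intro w h1 h2; cases w <;> simp [ltb] at h1 h2)

theorem cov_a_R (i : Fin n) : (Ltr.a : Ltr p q m n D) ⋖ .R i :=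
  cov_of rfl (by intro w h1 h2; cases w <;> simp [ltb] at h1 h2)

theorem cov_a_A (i : Fin q) : (Ltr.a : Ltr p q m n D) ⋖ .A i :=
  cov_of rfl (by intro w h1 h2; cases w <;> simp [ltb] at h1 h2)

theorem cov_y_R (i : Fin n) (h : Bool) : (Ltr.y i h : Ltr p q m n D) ⋖ .R i :=
  cov_of (by simp [ltb]) (by intro w h1 h2; cases w <;> simp [ltb] at h1 h2)

theorem cov_b_d (i : Fin D) : (Ltr.b : Ltr p q m n D) ⋖ .d i :=
  cov_of rfl (by intro w h1 h2; cases w <;> simp [ltb] at h1 h2)

end PO2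

open PO2 in
theorem connected_Ltr (hn : 0 < n) : (SimpleGraph.hasse (Ltr p q m n D)).Connected := by
  have up : ∀ {u v : Ltr p q m n D}, u ⋖ v → (SimpleGraph.hasse (Ltr p q m n D)).Reachable .x u →
      (SimpleGraph.hasse (Ltr p q m n D)).Reachable .x v := by
    intro u v h hu
    exact hu.trans (SimpleGraph.Adj.reachable (Or.inl h))
  have down : ∀ {u v : Ltr p q m n D}, u ⋖ v → (SimpleGraph.hasse (Ltr p q m n D)).Reachable .x v →
      (SimpleGraph.hasse (Ltr p q m n D)).Reachable .x u := by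
    intro u v h hv
    exact hv.trans (SimpleGraph.Adj.reachable (Or.inr h))
  have hx : (SimpleGraph.hasse (Ltr p q m n D)).Reachable .x .x := SimpleGraph.Reachable.refl _
  have hb := down cov_b_x hx
  have ha := down (cov_a_R ⟨0, hn⟩) (up (cov_x_R ⟨0, hn⟩) hx)
  have key : ∀ u : Ltr p q m n D, (SimpleGraph.hasse (Ltr p q m n D)).Reachable .x u := by
    intro u
    cases u with
    | a => exact ha
    | b => exact hb
    | x => exact hx
    | X i => exact up (cov_x_X i) hx
    | A i => exact up (cov_a_A i) ha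
    | c k => exact up (cov_x_c k) hx
    | z k => exact down (cov_z_c k) (up (cov_x_c k) hx)
    | R i => exact up (cov_x_R i) hx
    | y i h => exact down (cov_y_R i h) (up (cov_x_R i) hx)
    | d i => exact up (cov_b_d i) hb
  haveI : Nonempty (Ltr p q m n D) := ⟨.x⟩
  exact SimpleGraph.Connected.mk (fun u v => (key u).symm.trans (key v))

end CPI
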