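import Pool.Agent.Lib.MP_cb75a6_co.Dis.Defs
import Pool.Agent.Lib.MP_cb75a6_co.Dis.GG
import Pool.Agent.Lib.MP_cb75a6_co.Dis.CO
import Pool.Agent.Lib.MP_cb75a6_co.Dis.LLA
import Pool.Agent.Lib.MP_cb75a6_co.Dis.LLB
import Pool.Agent.Lib.MP_cb75a6_co.Dis.P1E
import Pool.Agent.Lib.MP_cb75a6_co.Dis.PO1
import Pool.Agent.Lib.MP_cb75a6_co.Dis.PO2

set_option autoImplicit false

namespace CPI

open scoped Nat
open Ltr

theorem result_core : ∃ (P : Type) (_ : PartialOrder P) (_ : Fintype P),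
    (SimpleGraph.hasse P).Connected ∧
      ∃ a b : P, IsMin a ∧ IsMin b ∧ a ≠ b ∧ condPr b a < condPr b b := by
  obtain ⟨p, q, m, n, hn, h⟩ := core_ex
  obtain ⟨K, hK⟩ : ∃ K : ℕ, K = 2 + p + q + 2 * m + 3 * n := ⟨_, rfl⟩
  obtain ⟨D, hD⟩ : ∃ D : ℕ, D = K ^ 3 := ⟨_, rfl⟩
  have hcard : Fintype.card (Ltr p q m n D) = K + D + 1 := by
    rw [card_Ltr, hK]; ring
  have hQ : (Qs p q m n D).card = K := by rw [card_Qs, hK]
  refine ⟨Ltr p q m n D, inferInstance, inferInstance, connected_Ltr hn, .a, .b, ?_, ?_, ?_, ?_⟩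
  · rw [isMin_iff]; exact Or.inl rfl
  · rw [isMin_iff]; exact Or.inr (Or.inl rfl)
  · intro h; cases h
  · have hK2 : 2 ≤ K := by omega
    rw [condPr_eq (by rw [hcard]; omega), condPr_eq (by rw [hcard]; omega)]
    unfold Pr
    rw [Finset.card_erase_of_mem (Finset.mem_univ _), Finset.card_erase_of_mem (Finset.mem_univ _)]
    apply div_lt_div_of_pos_right _ (by positivity)
    have la := layer_a p q m n D
    have lb := layer_b p q m n D
    refine lt_of_le_of_lt la (lt_of_lt_of_le ?_ lb)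
    rw [hQ]
    apply mul_lt_mul_of_pos_left _ (by positivity)
    have hg := h D
    have hKr : (2 : ℝ) ≤ K := by exact_mod_cast hK2
    have h3 : (K : ℝ) ^ 3 / ((K : ℝ) + D - 1) ≤ 1 := by
      rw [div_le_one (by
        have : (0 : ℝ) ≤ D := by positivity
        linarith)]
      rw [hD]
      push_cast
      linarith
    linarith

end CPI
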